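import Pool.Agent.Lib.MP_7e5527_ag.EL.A3
import Pool.Agent.Lib.MP_7e5527_ag.E7.Good2

/-! A character at which countably many expansions do not vanish. -/

open Filter Topology

noncomputable section

namespace Pool.Agent.E7

variable {p : ℕ} [Fact p.Prime]

theorem a4c_one3 : (one3 : Ix → ℚ) ∈ Lam := ⟨fun _ => ⟨1, by simp [one3]⟩, fun _ => by
  simpa [one3] using OZ.zero⟩

/-- Extend `m ↦ p ^ tr (vec m) one3 * chU u m` along `vec` to `Ix → ℚ`, with values in the divisible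
group `Additive ℂ_[p]ˣ` (`Module.Baer.of_divisible`, `extension_property_addMonoidHom`); a power of
`q T` is a value at some `vec m`. -/
theorem a4_chr (u : Ix → ℤ_[p]ˣ) : ∃ q : (Ix → ℚ) → ℂ_[p], Chr p q one3 ∧
    (∀ T, IsAlgebraic ℚ_[p] (q T)) ∧
    ∀ (m : Ix → ℤ) (n : ℤ), tr (vec m) one3 = n → q (vec m) = (p : ℂ_[p]) ^ n * chU u m := by
  have hp : (p : ℂ_[p]) ≠ 0 := Nat.cast_ne_zero.2 (Fact.out : p.Prime).ne_zero
  choose n hn using fun m => Lam.tr_int (vec_mem m) a4c_one3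
  have hn2 : ∀ m m', n (m + m') = n m + n m' := fun m m' => by
    have h := hn (m + m')
    rw [vec_add, tr_add_left, hn, hn] at h
    exact_mod_cast h.symm
  have h0 : ∀ m, (p : ℂ_[p]) ^ n m * chU u m ≠ 0 := fun m => mul_ne_zero (zpow_ne_zero _ hp)
    (norm_ne_zero_iff.1 (by rw [norm_chU]; exact one_ne_zero))
  let g : (Ix → ℤ) →+ Additive ℂ_[p]ˣ := AddMonoidHom.mk'
    (fun m => Additive.ofMul (Units.mk0 _ (h0 m))) fun m m' => by
      rw [← ofMul_mul]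
      refine congrArg _ (Units.ext ?_)
      simp only [Units.val_mul, Units.val_mk0, hn2, chU_add, zpow_add₀ hp]
      ring
  have : DivisibleBy (Additive ℂ_[p]ˣ) ℕ := divisibleByOfSMulRightSurj _ _ fun {k} hk x => by
    obtain ⟨y, hy⟩ := IsAlgClosed.exists_pow_nat_eq (x.toMul : ℂ_[p]) (Nat.pos_of_ne_zero hk)
    have h1 : y ≠ 0 := fun h => x.toMul.ne_zero (by rw [← hy, h, zero_pow hk])
    exact ⟨Additive.ofMul (Units.mk0 y h1), Additive.toMul.injective (Units.ext (by simpa using hy))⟩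
  have := AddGroup.divisibleByIntOfDivisibleByNat (Additive ℂ_[p]ˣ)
  obtain ⟨χ, hχ⟩ := (Module.Baer.of_divisible (Additive ℂ_[p]ˣ)).extension_property_addMonoidHom
    (AddMonoidHom.mk' vec vec_add) vec_inj g
  have h1 : ∀ m, ((χ (vec m)).toMul : ℂ_[p]) = (p : ℂ_[p]) ^ n m * chU u m := fun m =>
    congrArg (fun x : Additive ℂ_[p]ˣ => (x.toMul : ℂ_[p])) (DFunLike.congr_fun hχ m)
  have h2 : ∀ T : Ix → ℚ, ∃ (M : ℕ) (m : Ix → ℤ), 0 < M ∧ (M : ℚ) • T = vec m ∧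
      ((χ T).toMul : ℂ_[p]) ^ M = (p : ℂ_[p]) ^ n m * chU u m := fun T => by
    obtain ⟨M, hM, h⟩ := latJ_den fun i => tr T (UU i)
    obtain ⟨m, hm⟩ : (M : ℚ) • T ∈ Set.range vec := by
      rw [range_vec, mem_Lam_iff]
      simpa only [tr_smul_left] using h
    refine ⟨M, m, hM, hm.symm, ?_⟩
    rw [← h1, hm, Nat.cast_smul_eq_nsmul, map_nsmul, toMul_nsmul, Units.val_pow_eq_pow_val]
  refine ⟨fun T => (χ T).toMul, ⟨by rw [toR_one3]; exact one3_mem, fun T T' => by simp, fun T => ?_⟩,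
    fun T => ?_, fun m k hk => ?_⟩
  · obtain ⟨M, m, hM, h3, h4⟩ := h2 T
    have hp' : (0 : ℝ) < p := Nat.cast_pos.2 (Fact.out : p.Prime).pos
    refine (pow_left_inj₀ (norm_nonneg _) (Real.rpow_nonneg hp'.le _) hM.ne').1 ?_
    have h5 : ‖(p : ℂ_[p])‖ = (p : ℝ)⁻¹ := by
      rw [← map_natCast (algebraMap ℚ_[p] ℂ_[p]), norm_algebraMap', Padic.norm_p]
    have h6 := hn m
    rw [← h3, tr_smul_left] at h6
    rw [← norm_pow, h4, norm_mul, norm_chU, mul_one, norm_zpow, h5, ← Real.rpow_natCast,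
      ← Real.rpow_mul hp'.le, inv_zpow', ← Real.rpow_intCast]
    congr 1
    have h7 : ((n m : ℚ) : ℝ) = ((M * tr T one3 : ℚ) : ℝ) := by rw [h6]
    push_cast at h7 ⊢
    linarith
  · obtain ⟨M, m, hM, -, h4⟩ := h2 T
    refine IsAlgebraic.of_pow hM ?_
    rw [h4]
    have h5 : (p : ℂ_[p]) ^ n m * chU u m = algebraMap ℚ_[p] ℂ_[p]
        ((p : ℚ_[p]) ^ n m * ∏ i, (((u i ^ m i : ℤ_[p]ˣ) : ℤ_[p]) : ℚ_[p])) := by
      rw [map_mul, map_zpow₀, map_natCast, map_prod]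
      rfl
    rw [h5]
    exact isAlgebraic_algebraMap _
  · have h3 : n m = k := by exact_mod_cast (hn m).symm.trans hk
    rw [← h3]
    exact h1 m

theorem a4g_tr (m : Ix → ℤ) : ∃ n : ℤ, tr (vec m) one3 = n := by
  obtain ⟨a, ha⟩ := (vec_mem m).1 0
  obtain ⟨b, hb⟩ := (vec_mem m).1 1
  obtain ⟨c, hc⟩ := (vec_mem m).1 2
  exact ⟨a + b + c, by rw [psd_tr_one3, ha, hb, hc]; push_cast; rfl⟩

/-- `a3_gen` for `b j m = e.symm (cf (G j) (vec m)) * q1 (vec m)`, `q1` from `a4_chr 1`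
(`hasSum_evq`, `vec_inj`, `range_vec`, `Function.Injective.tsum_eq`). -/
theorem a4_gen (e : ℂ_[p] ≃+* ℂ) {ι : Type} [Countable ι] (G : ι → Fn) (hG : ∀ j, G j ∈ GZ)
    (h0 : ∀ j, G j ≠ 0) : ∃ q : (Ix → ℚ) → ℂ_[p], Chr p q one3 ∧
      (∀ T, IsAlgebraic ℚ_[p] (q T)) ∧ ∀ j, evq e q (G j) ≠ 0 := by
  obtain ⟨q1, h1, -, h2⟩ := a4_chr (p := p) 1
  have hp : (p : ℂ_[p]) ≠ 0 := by exact_mod_cast (Fact.out : p.Prime).ne_zero
  have hn : ∀ m, ∃ n : ℤ, tr (vec m) one3 = n := a4g_tr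
  have hs : ∀ j T, cf (G j) T ≠ 0 → T ∈ Set.range vec := fun j T h => range_vec ▸ (hG j).2 T h
  obtain ⟨u, hu⟩ := a3_gen (fun j m => e.symm (cf (G j) (vec m)) * q1 (vec m))
    (fun j => (hasSum_evq e h1 (hG j).1).summable.tendsto_cofinite_zero.comp
      vec_inj.tendsto_cofinite) fun j h => h0 j (by
    have h3 : cf (G j) = 0 := funext fun T => by_contra fun hT => by
      obtain ⟨m, rfl⟩ := hs j T hT
      obtain ⟨n, h4⟩ := hn m
      have h5 := congrFun h m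
      simp only [h2 m n h4, chU_one, mul_one, Pi.zero_apply, mul_eq_zero, map_eq_zero] at h5
      exact h5.elim hT (zpow_ne_zero n hp)
    funext Z
    have h4 := (hG j).1.spec.sum Z
    simp only [h3, Pi.zero_apply, zero_mul] at h4
    exact h4.unique hasSum_zero)
  obtain ⟨q, h3, h4, h5⟩ := a4_chr u
  refine ⟨q, h3, h4, fun j h => hu j ?_⟩
  rw [← h, evq, ← vec_inj.tsum_eq fun T hT => hs j T fun h6 => hT (by simp [h6])]
  refine tsum_congr fun m => ?_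
  obtain ⟨n, h6⟩ := hn m
  rw [h2 m n h6, h5 m n h6, chU_one, mul_one, mul_assoc]

end Pool.Agent.E7
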