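import Pool.Agent.Lib.MP_7e5527_ag.EL.LDefs
import Pool.Agent.Lib.MP_7e5527_ag.E7.Act

/-! Points that are generic for the Mumford-Tate group. -/

open Filter Topology

noncomputable section

namespace Pool.Agent.E7

/-- The conjugates of the torus. -/
def a5M (s t : ℂˣ) (B U : Ix → ℂ) : Gb := nE B * wE * nE U * dE s t * (nE B * wE * nE U)⁻¹

/-- The value of `P` at a conjugate. -/
def a5F (P : MvPolynomial (Wx × Wx) ℚ) (s t : ℂˣ) (B U : Ix → ℂ) : ℂ :=
  MvPolynomial.aeval (fun y => mat (a5M s t B U) y.1 y.2) P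

/-- The set where `P` vanishes on the torus of `Z`. -/
def a5C (P : MvPolynomial (Wx × Wx) ℚ) : Set HH :=
  {Z | ∀ s t, a5F P s t (star Z.1) (inv (Z.1 - star Z.1)) = 0}

theorem a5p_mul (g h : Gb) : mat (g * h) = mat g * mat h := LinearMap.toMatrix_mul bW g h

/-- The matrix of `g v` has polynomial entries. -/
def a5p_Pol {τ : Type} (g : (τ → ℂ) → Gb) : Prop :=
  ∃ M : Matrix Wx Wx (MvPolynomial τ ℂ), ∀ v, mat (g v) = M.map (MvPolynomial.eval v)

theorem a5p_Pol.mul {τ : Type} {g h : (τ → ℂ) → Gb} (hg : a5p_Pol g) (hh : a5p_Pol h) :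
    a5p_Pol fun v => g v * h v := by
  obtain ⟨M, hM⟩ := hg
  obtain ⟨N, hN⟩ := hh
  exact ⟨M * N, fun v => by rw [a5p_mul, hM, hN, Matrix.map_mul]⟩

theorem a5p_const {τ : Type} (g : Gb) : a5p_Pol fun _ : τ → ℂ => g :=
  ⟨(mat g).map MvPolynomial.C, fun v => by ext i j; simp⟩

theorem a5p_n {τ : Type} (β : Ix → MvPolynomial τ ℂ) :
    a5p_Pol fun v => nE fun l => MvPolynomial.eval v (β l) := by
  have h : ∀ (i : Wx) (u : W), ∃ q : MvPolynomial τ ℂ, ∀ v,
      bW.repr (nfun (fun l => MvPolynomial.eval v (β l)) u) i = MvPolynomial.eval v q := by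
    rintro i ⟨a, b, c, d⟩
    have e : ∀ (v : τ → ℂ) (X : Ix → ℂ),
        X = fun l => MvPolynomial.eval v (MvPolynomial.C (X l)) := fun v X => by simp
    rcases i with i | l | l | i
    · exact ⟨.C a, fun v => by simp [bW, nfun]⟩
    · exact ⟨.C (b l) + .C a * β l, fun v => by simp [bW, nfun]⟩
    · refine ⟨.C (c l) + cross (fun l => .C (b l)) β l + .C a * sharp β l, fun v => ?_⟩
      rw [nfun, e v b, cross_map, sharp_map]
      simp [bW]
    · refine ⟨.C d + tr (fun l => .C (c l)) β + tr (fun l => .C (b l)) (sharp β) + .C a * nrm β,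
        fun v => ?_⟩
      rw [nfun, e v b, e v c, sharp_map, tr_map, tr_map, nrm_map]
      simp [bW]
  choose q hq using h
  exact ⟨Matrix.of fun i j => q i (bW j), fun v => by
    ext i j
    rw [mat, LinearMap.toMatrix_apply]
    exact hq i _ v⟩

/-- The entries of `mat (nE B)` are polynomials in `B` (`sharp_map`, `nrm_map`, `tr_map`,
`cross_map`), `mat` is multiplicative, `nE_neg`. -/
theorem a5_poly (P : MvPolynomial (Wx × Wx) ℚ) (s t : ℂˣ) : ∃ Q : MvPolynomial (Ix ⊕ Ix) ℂ,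
    ∀ B U, a5F P s t B U = MvPolynomial.eval (Sum.elim B U) Q := by
  obtain ⟨M, hM⟩ := ((((a5p_n fun l => MvPolynomial.X (Sum.inl l : Ix ⊕ Ix)).mul
    (a5p_const wE)).mul (a5p_n fun l => .X (.inr l))).mul (a5p_const (dE s t))).mul
    ((a5p_n fun l => -.X (.inr l)).mul ((a5p_const wE⁻¹).mul (a5p_n fun l => -.X (.inl l))))
  refine ⟨MvPolynomial.aeval (fun y => M y.1 y.2) P, fun B U => ?_⟩
  have h : mat (a5M s t B U) = M.map (MvPolynomial.eval (Sum.elim B U)) := by
    rw [← hM, a5M, mul_inv_rev, mul_inv_rev, ← nE_neg, ← nE_neg]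
    simp only [map_neg, MvPolynomial.eval_X, Sum.elim_inl, Sum.elim_inr]
    rfl
  rw [a5F, h]
  exact (MvPolynomial.comp_aeval_apply _ (MvPolynomial.eval (Sum.elim B U)).toRatAlgHom P).symm

theorem a5d_box (P : MvPolynomial Ix ℂ) (c : Ix → ℂ) {d : ℂ} (hd : d ≠ 0) {x0 : Ix → ℝ}
    (h : ∀ᶠ x in 𝓝 x0, MvPolynomial.eval (fun l => c l + d * (x l : ℂ)) P = 0) : P = 0 := by
  obtain ⟨ε, hε, h⟩ := Metric.eventually_nhds_iff.1 h
  refine MvPolynomial.funext_set
    (fun l => (fun t : ℝ => c l + d * (t : ℂ)) '' Metric.ball (x0 l) ε) (fun l => ?_) fun y hy => ?_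
  · refine Set.Infinite.image (fun s _ t _ e => ?_) ?_
    · exact Complex.ofReal_injective (mul_left_cancel₀ hd (add_left_cancel e))
    · rw [Real.ball_eq_Ioo]
      exact Set.Ioo_infinite (by linarith)
  · choose x hx e using fun l => hy l (Set.mem_univ l)
    rw [map_zero, ← funext e]
    exact h ((dist_pi_lt_iff hε).2 hx)

theorem a5d_nrm : Continuous fun Z : Ix → ℂ => nrm Z := by
  refine (MvPolynomial.continuous_eval (nrm MvPolynomial.X)).congr fun Z => ?_
  rw [← nrm_map]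
  simp only [MvPolynomial.eval_X]

theorem a5d_sharp : Continuous fun Z : Ix → ℂ => sharp Z := by
  refine continuous_pi fun l =>
    (MvPolynomial.continuous_eval (sharp MvPolynomial.X l)).congr fun Z => ?_
  have h := congrFun (sharp_map (MvPolynomial.eval Z) MvPolynomial.X) l
  simp only [MvPolynomial.eval_X] at h
  exact h.symm

theorem a5d_nrm_inv {W : Ix → ℂ} (h : nrm W ≠ 0) : nrm (inv W) = -(nrm W)⁻¹ := by
  rw [inv, nrm_smul, nrm_sharp]
  field_simp

theorem a5d_inv_inv {W : Ix → ℂ} (h : nrm W ≠ 0) : inv (inv W) = W := by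
  rw [inv, a5d_nrm_inv h, inv, sharp_smul, sharp_sharp, smul_smul, smul_smul,
    show -(-(nrm W)⁻¹)⁻¹ * (-(nrm W)⁻¹) ^ 2 * nrm W = 1 by field_simp, one_smul]

theorem a5d_star {W : Ix → ℂ} (h : star W = -W) : star (inv W) = -inv W := by
  have h1 : star (nrm W) = -nrm W := by
    rw [← nrm_neg, ← h]
    exact (nrm_map (starRingEnd ℂ) W).symm
  have h2 : star (sharp W) = sharp W := by
    have e : sharp (star W) = star (sharp W) := sharp_map (starRingEnd ℂ) W
    rw [← e, h, sharp_neg]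
  rw [inv, star_smul, star_neg, star_inv₀, h1, h2, inv_neg, neg_smul, neg_smul]

theorem a5d_eval (Q : MvPolynomial (Ix ⊕ Ix) ℂ) (f : Ix ⊕ Ix → MvPolynomial Ix ℂ) (x : Ix → ℂ) :
    MvPolynomial.eval x (MvPolynomial.aeval f Q) =
      MvPolynomial.eval (fun i => MvPolynomial.eval x (f i)) Q := by
  induction Q using MvPolynomial.induction_on <;>
    simp only [map_add, map_mul, MvPolynomial.aeval_X, MvPolynomial.eval_X, MvPolynomial.aeval_C,
      MvPolynomial.algebraMap_eq, MvPolynomial.eval_C, *]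

theorem a5d_cont {W : Ix → ℂ} (h : nrm W ≠ 0) : ContinuousAt (fun Z : Ix → ℂ => inv Z) W :=
  (a5d_nrm.continuousAt.inv₀ h).neg.smul a5d_sharp.continuousAt

/-- For `Z = X + i Y`: `star Z = X - i Y`, `inv (Z - star Z) = (i / 2) Y⁻¹`. Fix `Y` and move `X`
in a box (`MvPolynomial.funext_set`), then write `Y` as the inverse of `Y'` in a box. -/
theorem a5_dense (Q : MvPolynomial (Ix ⊕ Ix) ℂ) {Z0 : Ix → ℂ} (h0 : Z0 ∈ HH)
    (h : ∀ᶠ Z in 𝓝 Z0, MvPolynomial.eval (Sum.elim (star Z) (inv (Z - star Z))) Q = 0) :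
    Q = 0 := by
  have hn : nrm (Z0 - star Z0) ≠ 0 := by
    have e : Z0 - star Z0 = (2 * Complex.I) • fun l => Complex.ofRealHom (Z0 l).im := by
      funext l
      simp only [Pi.sub_apply, Pi.star_apply, Pi.smul_apply, smul_eq_mul, Complex.ofRealHom_eq_coe]
      rw [Complex.star_def, Complex.sub_conj]
      push_cast
      ring
    rw [e, nrm_smul, nrm_map]
    exact mul_ne_zero (pow_ne_zero _ (mul_ne_zero two_ne_zero Complex.I_ne_zero))
      (Complex.ofReal_ne_zero.2 h0.2.2.ne')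
  have hs := a5d_star (W := Z0 - star Z0) (by rw [star_sub, star_star, neg_sub])
  let ι : (Ix → ℝ) → Ix → ℂ := fun V l => Complex.I * (V l : ℂ)
  have cι : Continuous ι := by fun_prop
  have e0 : ι (fun l => (inv (Z0 - star Z0) l).im) = inv (Z0 - star Z0) := by
    funext l
    have := congrArg Complex.re (congrFun hs l)
    simp only [Pi.star_apply, Pi.neg_apply, Complex.star_def, Complex.conj_re, Complex.neg_re] at this
    apply Complex.ext <;> simp [ι]
    linarith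
  generalize (fun l => (inv (Z0 - star Z0) l).im) = V0 at e0
  have hV : nrm (ι V0) ≠ 0 := by
    rw [e0, a5d_nrm_inv hn]
    exact neg_ne_zero.2 (inv_ne_zero hn)
  let Φ : (Ix → ℝ) × (Ix → ℝ) → Ix → ℂ := fun p => (fun l => (p.2 l : ℂ)) + (2⁻¹ : ℂ) • inv (ι p.1)
  have c1 : ContinuousAt (fun p : (Ix → ℝ) × (Ix → ℝ) => inv (ι p.1)) (V0, fun l => (Z0 l).re) :=
    ContinuousAt.comp (g := fun Z : Ix → ℂ => inv Z) (f := fun p : (Ix → ℝ) × (Ix → ℝ) => ι p.1)
      (a5d_cont hV) (cι.comp continuous_fst).continuousAt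
  have c2 : Continuous fun p : (Ix → ℝ) × (Ix → ℝ) => fun l => (p.2 l : ℂ) := by fun_prop
  have cΦ : ContinuousAt Φ (V0, fun l => (Z0 l).re) :=
    c2.continuousAt.add (c1.const_smul (2⁻¹ : ℂ))
  have eΦ : Φ (V0, fun l => (Z0 l).re) = Z0 := by
    funext l
    simp only [Φ, e0, a5d_inv_inv hn, Pi.add_apply, Pi.smul_apply, Pi.sub_apply, Pi.star_apply,
      smul_eq_mul, Complex.star_def, Complex.sub_conj]
    apply Complex.ext <;> simp
  rw [← eΦ] at h
  have h1 : ∀ᶠ V in 𝓝 V0, ∀ B, MvPolynomial.eval (Sum.elim B (ι V)) Q = 0 := by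
    filter_upwards [(cΦ.eventually h).curry_nhds,
      (a5d_nrm.comp cι).continuousAt.eventually_ne hV] with V hV1 hV2 B
    have h2 := a5d_star (W := ι V) (by
      funext l
      simp [ι])
    have h3 := a5d_box
      (MvPolynomial.aeval (Sum.elim MvPolynomial.X fun l => MvPolynomial.C (ι V l)) Q)
      (-((2⁻¹ : ℂ) • inv (ι V))) one_ne_zero (hV1.mono fun X hX => by
        have e1 : star (Φ (V, X)) = (fun l => (X l : ℂ)) - (2⁻¹ : ℂ) • inv (ι V) := by
          simp only [Φ, star_add, star_smul, h2]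
          funext l
          simp [sub_eq_add_neg]
        have e2 : Φ (V, X) - star (Φ (V, X)) = inv (ι V) := by
          rw [e1]
          funext l
          simp only [Φ, Pi.add_apply, Pi.sub_apply, Pi.smul_apply, smul_eq_mul]
          ring
        rw [e2, a5d_inv_inv hV2, e1] at hX
        rw [a5d_eval, ← hX]
        refine congrArg (fun y => MvPolynomial.eval y Q) (funext fun i => ?_)
        rcases i with i | i <;> simp [sub_eq_add_neg, add_comm])
    have h4 := a5d_eval Q (Sum.elim MvPolynomial.X fun l => MvPolynomial.C (ι V l)) B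
    rw [h3, map_zero] at h4
    rw [h4]
    refine congrArg (fun y => MvPolynomial.eval y Q) (funext fun i => ?_)
    rcases i with i | i <;> simp
  refine MvPolynomial.funext fun y => ?_
  have h3 := a5d_box
    (MvPolynomial.aeval (Sum.elim (fun l => MvPolynomial.C (y (.inl l))) MvPolynomial.X) Q)
    0 Complex.I_ne_zero (h1.mono fun V hV => by
      rw [a5d_eval, ← hV fun l => y (.inl l)]
      refine congrArg (fun y => MvPolynomial.eval y Q) (funext fun i => ?_)
      rcases i with i | i <;> simp [ι])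
  have h4 := a5d_eval Q (Sum.elim (fun l => MvPolynomial.C (y (.inl l))) MvPolynomial.X)
    fun l => y (.inr l)
  rw [h3, map_zero] at h4
  rw [map_zero, h4]
  refine congrArg (fun y => MvPolynomial.eval y Q) (funext fun i => ?_)
  rcases i with i | i <;> simp

theorem a5c_nrm : Continuous fun Z : Ix → ℂ => nrm Z :=
  (polyFn_rr ((LinearMap.snd ℂ _ _).comp ((LinearMap.snd ℂ _ _).comp
    (LinearMap.snd ℂ _ _)))).differentiable.continuous

theorem a5c_sharp : Continuous fun Z : Ix → ℂ => sharp Z :=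
  continuous_pi fun l => (polyFn_rr ((LinearMap.proj l).comp ((LinearMap.fst ℂ _ _).comp
    ((LinearMap.snd ℂ _ _).comp (LinearMap.snd ℂ _ _))))).differentiable.continuous

theorem a5c_ne {Z : Ix → ℂ} (h : Z ∈ HH) : nrm (Z - star Z) ≠ 0 := by
  have e : star Z = tube1C Z := rfl
  rw [e, tube1_sub_C, nrm_smul, tube1_nrm_ofReal]
  exact mul_ne_zero (pow_ne_zero _ (mul_ne_zero two_ne_zero Complex.I_ne_zero))
    (Complex.ofReal_ne_zero.2 h.2.2.ne')

theorem a5_cont : Continuous fun Z : HH => inv (Z.1 - star Z.1) := by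
  have h : Continuous fun Z : HH => Z.1 - star Z.1 := by fun_prop
  exact ((a5c_nrm.comp h).inv₀ fun Z => a5c_ne Z.2).neg.smul (a5c_sharp.comp h)

theorem a5c_arg : Continuous fun Z : HH =>
    (Sum.elim (star Z.1) (inv (Z.1 - star Z.1)) : Ix ⊕ Ix → ℂ) := by
  refine continuous_pi fun l => ?_
  rcases l with l | l
  · exact (continuous_apply l).comp continuous_subtype_val.star
  · exact (continuous_apply l).comp a5_cont

theorem a5_closed (P : MvPolynomial (Wx × Wx) ℚ) : IsClosed (a5C P) := by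
  unfold a5C
  rw [Set.ofPred_forall]
  refine isClosed_iInter fun s => ?_
  rw [Set.ofPred_forall]
  refine isClosed_iInter fun t => ?_
  obtain ⟨Q, hQ⟩ := a5_poly P s t
  simp only [hQ]
  exact isClosed_eq ((MvPolynomial.continuous_eval Q).comp a5c_arg) continuous_const

theorem a5_int (P : MvPolynomial (Wx × Wx) ℚ) {Z0 : HH} (h : a5C P ∈ 𝓝 Z0) (s t : ℂˣ)
    (B U : Ix → ℂ) : a5F P s t B U = 0 := by
  obtain ⟨Q, hQ⟩ := a5_poly P s t
  have h1 : ∀ᶠ Z : HH in 𝓝 Z0,
      MvPolynomial.eval (Sum.elim (star Z.1) (inv (Z.1 - star Z.1))) Q = 0 := by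
    filter_upwards [h] with Z hZ
    rw [← hQ]
    exact hZ s t
  have h2 := isOpen_HH.isOpenEmbedding_subtypeVal.map_nhds_eq Z0
  have h3 : Q = 0 := by
    refine a5_dense Q Z0.2 ?_
    rw [← h2]
    exact h1
  rw [hQ, h3, map_zero]

theorem a5c_dE (s t : ℂˣ) (v : W) : dE s t v = ((s : ℂ) ^ 3 * v.1,
    ((s : ℂ) ^ 2 * t) • v.2.1, ((s : ℂ) * t ^ 2) • v.2.2.1, (t : ℂ) ^ 3 * v.2.2.2) := rfl

theorem a5c_w (s t : ℂˣ) : wE * dE s t * wE⁻¹ = dE t s := by
  rw [mul_inv_eq_iff_eq_mul]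
  apply LinearEquiv.ext
  intro v
  have e : ∀ v : W, wE v = (v.2.2.2, -v.2.2.1, v.2.1, -v.1) := fun _ => rfl
  simp only [LinearEquiv.mul_apply, a5c_dE, e, Prod.mk.injEq, true_and]
  refine ⟨by module, by module, by ring⟩

theorem a5c_n (B : Ix → ℂ) : dE 1 (-1) * nE B * (dE 1 (-1))⁻¹ = nE (-B) := by
  rw [mul_inv_eq_iff_eq_mul]
  apply LinearEquiv.ext
  intro v
  simp only [LinearEquiv.mul_apply, a5c_dE, nE_apply, nfun, Prod.mk.injEq, cross_neg_right,
    sharp_neg, nrm_neg, tr_neg_right, cross_smul_left, tr_smul_left, Units.val_one, Units.val_neg,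
    true_and]
  refine ⟨by module, by module, by ring⟩

theorem a5c_comm (B : Ix → ℂ) :
    nE ((1 / 2 : ℂ) • B) * dE 1 (-1) * (nE ((1 / 2 : ℂ) • B))⁻¹ * (dE 1 (-1))⁻¹ = nE B := by
  have e := a5c_n (-((1 / 2 : ℂ) • B))
  rw [neg_neg, nE_neg] at e
  rw [mul_assoc, mul_assoc, ← mul_assoc (dE 1 (-1)), e, ← nE_add]
  refine congrArg nE ?_
  module

/-- `wE * dE s t * wE⁻¹ = dE t s` and `dE s t * nE B * (dE s t)⁻¹ = nE ((t / s) • B)`. -/
theorem a5_grp {H : Subgroup Gb} (h : ∀ s t B U, a5M s t B U ∈ H) :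
    (∀ B, nE B ∈ H) ∧ (∀ B, wE * nE B * wE⁻¹ ∈ H) ∧ ∀ s t, dE s t ∈ H := by
  have hd : ∀ s t, dE s t ∈ H := fun s t => by
    have := h t s 0 0
    rwa [a5M, nE_zero, one_mul, mul_one, a5c_w] at this
  refine ⟨fun B => ?_, fun B => ?_, hd⟩
  · have h1 := h (-1) 1 ((1 / 2 : ℂ) • B) 0
    have e : a5M (-1) 1 ((1 / 2 : ℂ) • B) 0 =
        nE ((1 / 2 : ℂ) • B) * dE 1 (-1) * (nE ((1 / 2 : ℂ) • B))⁻¹ := by
      rw [a5M, nE_zero, ← a5c_w (-1) 1]
      group
    rw [e] at h1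
    rw [← a5c_comm B]
    exact H.mul_mem h1 (H.inv_mem (hd _ _))
  · have h1 := H.mul_mem (h 1 (-1) 0 ((1 / 2 : ℂ) • B)) (H.inv_mem (hd (-1) 1))
    have e : a5M 1 (-1) 0 ((1 / 2 : ℂ) • B) * (dE (-1) 1)⁻¹ = wE * nE B * wE⁻¹ := by
      rw [a5M, nE_zero, ← a5c_w 1 (-1), ← a5c_comm B]
      group
    rwa [e] at h1

theorem a5_mt {x : HH} (hx : ∀ P, x ∈ a5C P → ∀ s t B U, a5F P s t B U = 0)
    (hd : ∀ s t, gZ x * dE s t * (gZ x)⁻¹ ∈ MT x)
    (hG : ∀ H : Subgroup Gb, (∀ B, nE B ∈ H) → (∀ B, wE * nE B * wE⁻¹ ∈ H) →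
      (∀ s t, dE s t ∈ H) → GE ≤ H) : GE ≤ MT x := by
  refine le_sInf fun H hH => ?_
  have hle : MT x ≤ H := sInf_le hH
  obtain ⟨S, hS⟩ := hH.1
  have h1 : ∀ s t B U, a5M s t B U ∈ H := fun s t B U =>
    (hS _).2 fun P hP => hx P (fun s' t' => (hS _).1 (hle (hd s' t')) P hP) s t B U
  obtain ⟨a, b, c⟩ := a5_grp h1
  exact hG H a b c

end Pool.Agent.E7
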