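import Pool.Agent.Lib.MP_7e5527_ag.E7.Good3

/-! The domain is convex; identity theorem; the theorem of Baire on the domain. -/

open Filter Topology

noncomputable section

namespace Pool.Agent.E7

theorem a6a_diag {d0 d1 d2 : ℝ} (h0 : 0 < d0) (h1 : 0 < d1) (h2 : 0 < d2) {Y : Ix → ℝ}
    (h : Y ∈ Om) : Y + jac d0 d1 d2 0 0 0 ∈ Om := by
  have e : jac d0 d1 d2 0 0 0 = mkJ ![d0, d1, d2] 0 := by
    apply jext <;> simp [dg_jac_0, dg_jac_1, dg_jac_2, cone_oc0, cone_oc1, cone_oc2, onorm_eq,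
      omul_zero_left, oconj_zero]
  have a0 := Om.dg_pos h 0
  have a1 := Om.dg_pos h 1
  have a2 := Om.dg_pos h 2
  have b0 := Om.dg_sharp_pos h 0
  have b1 := Om.dg_sharp_pos h 1
  have b2 := Om.dg_sharp_pos h 2
  rw [e]
  refine ⟨add_pos a0 h0, ?_, ?_⟩
  · have e1 : dg (sharp (Y + mkJ ![d0, d1, d2] 0)) 2 =
        dg (sharp Y) 2 + d0 * dg Y 1 + d1 * dg Y 0 + d0 * d1 := by
      simp only [dg_sharp_2, dg_add, oc_add, dg_mkJ, oc_mkJ, Matrix.cons_val_zero,
        Matrix.cons_val_one, Pi.zero_apply, add_zero]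
      ring
    rw [e1]
    positivity
  · have e1 : nrm (Y + mkJ ![d0, d1, d2] 0) = nrm Y + d0 * dg (sharp Y) 0 + d1 * dg (sharp Y) 1 +
        d2 * dg (sharp Y) 2 + d1 * d2 * dg Y 0 + d0 * d2 * dg Y 1 + d0 * d1 * dg Y 2 +
        d0 * d1 * d2 := by
      simp only [nrm_eq, dg_sharp_0, dg_sharp_1, dg_sharp_2, dg_add, oc_add, dg_mkJ, oc_mkJ,
        Matrix.cons_val_zero, Matrix.cons_val_one, Matrix.cons_val, Pi.zero_apply, add_zero]
      ring
    have c := h.2.2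
    rw [e1]
    positivity

/-- Move `Y'` to a diagonal matrix (`exists_jac`, `elm_jac`, `elm10_jac`, `elm20_jac`, additive maps
that preserve `Om`), then `nrm_add`, `Om.dg_pos`, `Om.dg_sharp_pos`. -/
theorem a6_add {Y Y' : Ix → ℝ} (h : Y ∈ Om) (h' : Y' ∈ Om) : Y + Y' ∈ Om := by
  obtain ⟨d0, d1, d2, u0, u1, u2, h0, h1, h2, rfl⟩ := exists_jac h'
  rw [← cyc_mem_Om, ← elm_mem_Om (-oconj u2), ← cyc_mem_Om, ← cyc_mem_Om] at h ⊢
  rw [cyc_add, elm_add, cyc_add, cyc_add, elm10_jac, oconj_neg, oconj_oconj, add_neg_cancel]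
  generalize cyc (cyc (elm _ (cyc Y))) = Y1 at h ⊢
  rw [← swp_mem_Om, ← cyc_mem_Om, ← elm_mem_Om (-u1), ← cyc_mem_Om, ← cyc_mem_Om,
    ← swp_mem_Om] at h ⊢
  rw [swp_add, cyc_add, elm_add, cyc_add, cyc_add, swp_add, elm20_jac, add_neg_cancel]
  generalize swp (cyc (cyc (elm _ (cyc (swp Y1))))) = Y2 at h ⊢
  rw [← elm_mem_Om (-oconj u0)] at h ⊢
  rw [elm_add, elm_jac, oconj_neg, oconj_oconj, add_neg_cancel, oconj_zero, omul_zero_right,
    add_zero]
  exact a6a_diag h0 h1 h2 h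

theorem a6_convex : Convex ℝ HH := by
  intro Z hZ W hW a b ha hb hab
  have e : (fun l => ((a • Z + b • W) l).im) =
      a • (fun l => (Z l).im) + b • fun l => (W l).im := by
    funext l
    simp
  show (fun l => ((a • Z + b • W) l).im) ∈ Om
  rw [e]
  rcases ha.eq_or_lt with rfl | ha
  · rw [zero_add] at hab
    rw [hab, zero_smul, zero_add, one_smul]
    exact hW
  rcases hb.eq_or_lt with rfl | hb
  · rw [add_zero] at hab
    rw [hab, zero_smul, add_zero, one_smul]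
    exact hZ
  exact a6_add (Om.smul hZ ha) (Om.smul hW hb)

theorem a6_cont {G : Fn} (h : Gd G) : Continuous G :=
  res_ext G ▸ continuousOn_iff_continuous_domRestrict.1 (ContDiffOn.continuousOn h.isHol)

/-- Restrict to the complex line through `Z0` and `Z`. -/
theorem a6_int {G : Fn} (h : Gd G) {Z0 : HH} (h0 : ∀ᶠ Z in 𝓝 Z0, G Z = 0) : G = 0 := by
  funext Z
  let φ : ℂ →ᵃ[ℂ] (Ix → ℂ) := AffineMap.lineMap Z0.1 Z.1
  have hd : Differentiable ℂ φ := fun t => φ.differentiableAt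
  have e0 : φ 0 = Z0.1 := AffineMap.lineMap_apply_zero _ _
  have e1 : φ 1 = Z.1 := AffineMap.lineMap_apply_one _ _
  have hU : IsOpen (φ ⁻¹' HH) := isOpen_HH.preimage hd.continuous
  have ha : AnalyticOnNhd ℂ (ext G ∘ φ) (φ ⁻¹' HH) := DifferentiableOn.analyticOnNhd
    (fun t ht => ((h.isHol.differentiableAt ht).comp t (hd t)).differentiableWithinAt) hU
  have h1 : ∀ᶠ W in 𝓝 Z0.1, ext G W = 0 := by
    rw [← isOpen_HH.nhdsWithin_eq Z0.2, nhdsWithin_eq_map_subtype_coe Z0.2, eventually_map]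
    exact h0.mono fun W hW => (congrFun (res_ext G) W).trans hW
  have h2 := ha.eqOn_zero_of_preconnected_of_eventuallyEq_zero
    (a6_convex.affine_preimage ⟨φ, φ.linear.restrictScalars ℝ, φ.map_vadd'⟩).isPreconnected
    (z₀ := 0)
    (show φ 0 ∈ HH from e0 ▸ Z0.2) ((hd.continuous.tendsto' 0 _ e0).eventually h1)
    (show φ 1 ∈ HH from e1 ▸ Z.2)
  rw [Function.comp_apply, e1] at h2
  exact (congrFun (res_ext G) Z).symm.trans h2

theorem a6_baire {ι : Type} [Countable ι] (C : ι → Set HH) (hc : ∀ j, IsClosed (C j))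
    (hi : ∀ j Z, C j ∉ 𝓝 Z) : ∃ x : HH, ∀ j, x ∉ C j := by
  have := isOpen_HH.locallyCompactSpace
  have : Nonempty HH := ⟨bpt⟩
  obtain ⟨x, hx⟩ := (dense_iInter_of_isOpen (fun j => (hc j).isOpen_compl) fun j =>
    interior_eq_empty_iff_dense_compl.1 (Set.eq_empty_of_forall_notMem fun Z hZ =>
      hi j Z (mem_interior_iff_mem_nhds.1 hZ))).nonempty
  exact ⟨x, Set.mem_iInter.1 hx⟩

end Pool.Agent.E7
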