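import Pool.Agent.Lib.MP_7e5527_ag.EL.A1
import Pool.Agent.Lib.MP_7e5527_ag.EL.A4
import Pool.Agent.Lib.MP_7e5527_ag.EL.A5
import Pool.Agent.Lib.MP_7e5527_ag.EL.A6
import Pool.Agent.Lib.MP_7e5527_ag.E7.MFs

/-! There are Hodge generic Tate points. -/

open Filter Topology

noncomputable section

namespace Pool.Agent.E7

variable {p : ℕ} [Fact p.Prime]

theorem a7_count (σ R : Type) [Countable σ] [CommRing R] [Countable R] :
    Countable (MvPolynomial σ R) :=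
  Cardinal.mk_le_aleph0_iff.1 (MvPolynomial.cardinalMk_le_max.trans
    (max_le (max_le Cardinal.mk_le_aleph0 Cardinal.mk_le_aleph0) le_rfl))

/-- Evaluation of the expansions at a character. -/
def a7q (e : ℂ_[p] ≃+* ℂ) {q : (Ix → ℚ) → ℂ_[p]} {Y : Ix → ℚ} (hq : Chr p q Y) : GZ →+* ℂ_[p] where
  toFun F := evq e q F
  map_one' := evq_one e hq
  map_mul' F G := evq_mul e hq F.2.1 G.2.1
  map_zero' := evq_zero e
  map_add' F G := evq_add e hq F.2.1 G.2.1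

/-- Evaluation at a point. -/
def a7x (x : HH) : GZ →+* ℂ := (Pi.evalRingHom (fun _ => ℂ) x).comp GZ.val.toRingHom

theorem a7_const (e : ℂ_[p] ≃+* ℂ) {q : (Ix → ℚ) → ℂ_[p]} {Y : Ix → ℚ} (hq : Chr p q Y) (c : ℂ) :
    a7q e hq (algebraMap ℂ GZ c) = e.symm c := by
  have h := evq_smul e hq (mem_GQ.1 GQ.one_mem) c
  rw [evq_one e hq, mul_one, ← Algebra.algebraMap_eq_smul_one] at h
  exact h

/-- A generic point: for a countable family of good functions and for the Mumford-Tate group. -/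
theorem a7_pt {ι : Type} [Countable ι] (G : ι → Fn) (hG : ∀ j, Gd (G j)) (h0 : ∀ j, G j ≠ 0) :
    ∃ x : HH, (∀ j, G j x ≠ 0) ∧ ∀ P, x ∈ a5C P → ∀ s t B U, a5F P s t B U = 0 := by
  have := a7_count (Wx × Wx) ℚ
  obtain ⟨x, hx⟩ := a6_baire (ι := ι ⊕ {P // ¬ ∀ s t B U, a5F P s t B U = 0})
    (Sum.elim (fun j => {Z | G j Z = 0}) fun P => a5C P.1) (by
      rintro (j | P)
      · exact isClosed_eq (a6_cont (hG j)) continuous_const
      · exact a5_closed P.1) (by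
      rintro (j | P) Z h
      · exact h0 j (a6_int (hG j) h)
      · exact P.2 (a5_int P.1 h))
  refine ⟨x, fun j => hx (.inl j), fun P hP => ?_⟩
  by_contra h
  exact hx (.inr ⟨P, h⟩) hP

theorem exists_gen_tate_of (p : ℕ) [Fact p.Prime]
    (hfin : ∀ k : ℤ, ∃ (n : ℕ) (F : Fin n → Fn), (∀ i, Gd (F i) ∧ Inv Gam k (F i)) ∧
      ∀ G, Gd G → Inv Gam k G → G ∈ Submodule.span ℂ (Set.range F))
    (hle : ∀ Z ∈ HH, MT Z ≤ GE) (hd : ∀ Z s t, gZ Z * dE s t * (gZ Z)⁻¹ ∈ MT Z)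
    (hG : ∀ H : Subgroup Gb, (∀ B, nE B ∈ H) → (∀ B, wE * nE B * wE⁻¹ ∈ H) →
      (∀ s t, dE s t ∈ H) → GE ≤ H) :
    ∃ (e : ℂ_[p] ≃+* ℂ) (x : Ix → ℂ), x ∈ HH ∧ MT x = GE ∧ IsTate e x := by
  choose n F hF hs using hfin
  obtain ⟨e0, -⟩ := exists_equiv_ker p (Int.castRingHom ℂ_[p]) (Int.castRingHom ℂ) fun r => by simp
  have hZ : ∀ k i, F k i ∈ GZ := fun k i => ⟨(hF k i).1, fun T hT =>
    (hF k i).1.spec.supp_Lam (fun B hB => (hF k i).2 _ (nE_mem_Gam hB)) hT⟩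
  let ι := (Σ k, Fin (n k)) × Option (Ix → ℚ)
  let g : ι → GZ := fun y => y.2.elim ⟨F y.1.1 y.1.2, hZ _ _⟩
    fun T => algebraMap ℂ GZ (cf (F y.1.1 y.1.2) T)
  let α : MvPolynomial ι ℤ →+* GZ := MvPolynomial.eval₂Hom (Int.castRingHom GZ) g
  have := a7_count ι ℤ
  have h0 : ∀ j : {r // α r ≠ 0}, (α j : Fn) ≠ 0 := fun j h => j.2 (Subtype.ext h)
  obtain ⟨q, hq, ha, h1⟩ := a4_gen e0 (fun j : {r // α r ≠ 0} => (α j : Fn)) (fun j => (α j).2) h0
  obtain ⟨x, h2, h3⟩ := a7_pt (fun j : {r // α r ≠ 0} => (α j : Fn)) (fun j => (α j).2.1) h0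
  obtain ⟨e, he⟩ := exists_equiv_ker p ((a7q e0 hq).comp α) ((a7x x).comp α) fun r => by
    by_cases h : α r = 0
    · simp only [RingHom.comp_apply, h, map_zero]
    · exact iff_of_false (h1 ⟨r, h⟩) (h2 ⟨r, h⟩)
  have hX : ∀ y, α (MvPolynomial.X y) = g y := fun y => MvPolynomial.eval₂Hom_X' _ _ y
  have h4 : ∀ k i T, e.symm (cf (F k i) T) = e0.symm (cf (F k i) T) := fun k i T => by
    have h := he (MvPolynomial.X (⟨k, i⟩, some T))
    rw [RingHom.comp_apply, RingHom.comp_apply, hX] at h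
    rw [RingEquiv.symm_apply_eq, ← a7_const e0 hq]
    exact h.symm
  have h5 : ∀ k i, e (evq e q (F k i)) = F k i x := fun k i => by
    have h := he (MvPolynomial.X (⟨k, i⟩, none))
    rw [RingHom.comp_apply, RingHom.comp_apply, hX] at h
    rw [evq]
    simp only [h4]
    exact h
  refine ⟨e, x, x.2, le_antisymm (hle x x.2) (a5_mt h3 (hd x) hG), q, one3, 1, hq.mem,
    one_ne_zero, hq.mul, ha, hq.norm, fun k G a hGa => ?_⟩
  obtain ⟨c, hc⟩ := (Submodule.mem_span_range_iff_exists_fun ℂ).1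
    (hs k (res G) ⟨a, hGa.good⟩ hGa.inv_Gam)
  have h6 : evq e q (res G) = ∑ i, e.symm (c i) * evq e q (F k i) := by
    rw [← hc, evq_sum e hq _ fun i _ => mem_GQ.1 (GQ.smul_mem (mem_GQ.2 (hF k i).1) _)]
    exact Finset.sum_congr rfl fun i _ => evq_smul e hq (hF k i).1 _
  rw [evq, hGa.good.cf_eq] at h6
  rw [one_zpow, one_mul, h6, map_sum]
  simp only [map_mul, RingEquiv.apply_symm_apply, h5]
  have h7 := congrFun hc x
  simp only [Finset.sum_apply, Pi.smul_apply, smul_eq_mul] at h7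
  exact h7.symm

end Pool.Agent.E7
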