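import Pool.Agent.Lib.MP_7e5527_ag.EL.RD

/-! The spaces of modular forms have finite dimension. -/

noncomputable section

namespace Pool.Agent.E7

theorem re1_step {F : Fn} (h : Gd F) {L K c : ℝ} (hc : 0 ≤ c)
    (h0 : ∀ T : Ix → ℚ, tr (toR ℝ T) one3 ≤ L → cf F T = 0) {Z : Ix → ℂ} (hZ : Z ∈ HH)
    (hK : ∀ W : HH, imv W = imv Z → ‖F W‖ ≤ K) :
    ‖F (ofC (Z + ((c : ℂ) * Complex.I) • fun l => ((one3 : Ix → ℝ) l : ℂ)))‖ *
      Real.exp (2 * Real.pi * (L * c)) ≤ K := by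
  have hm : ∀ t : ℂ, 0 ≤ t.im → (Z + t • fun l => ((one3 : Ix → ℝ) l : ℂ)) ∈ HH := fun t ht => by
    show imv _ ∈ Om
    rw [imv_add_smul]
    exact Om.add_smul hZ one3_mem ht
  have hn : ∀ t : ℂ, ‖F (ofC (Z + t • fun l => ((one3 : Ix → ℝ) l : ℂ))) *
      Complex.exp (-(2 * Real.pi * L * Complex.I * t))‖ =
      ‖F (ofC (Z + t • fun l => ((one3 : Ix → ℝ) l : ℂ)))‖ *
        Real.exp (2 * Real.pi * (L * t.im)) := fun t => by
    rw [norm_mul, Complex.norm_exp]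
    simp [mul_assoc]
  obtain ⟨S, hS⟩ := h.spec.bound ⟨Z, hZ⟩
  have h1 := pl_half (a := 0) (A := S) (C := K) (z := c * Complex.I)
    (Ψ := fun t => F (ofC (Z + t • fun l => ((one3 : Ix → ℝ) l : ℂ))) *
      Complex.exp (-(2 * Real.pi * L * Complex.I * t)))
    (fun t ht => (h.isHol.line _ _ (hm t ht)).mul (by fun_prop)) (fun t ht => ?_)
    (fun t ht => ?_) (by simpa using hc)
  · rw [hn] at h1
    simpa using h1
  · rw [hn, ← le_div_iff₀ (Real.exp_pos _), div_eq_mul_inv, ← Real.exp_neg]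
    refine hS _ _ fun T hT => ?_
    rw [coe_ofC (hm t ht), imv_add_smul, add_sub_cancel_left, tr_smul_right, mul_comm]
    exact mul_le_mul_of_nonneg_left (not_le.1 fun e => hT (h0 T e)).le ht
  · rw [hn, ht, mul_zero, mul_zero, Real.exp_zero, mul_one]
    refine hK _ ?_
    rw [coe_ofC (hm t ht.ge), imv_add_smul, ht, zero_smul, add_zero]

theorem mf_vanish (k : ℕ) : ∃ L : ℝ, ∀ F : Fn, Gd F → Inv Gam k F →
    (∀ T : Ix → ℚ, tr (toR ℝ T) one3 ≤ L → cf F T = 0) → F = 0 := by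
  obtain ⟨c, hc, hg⟩ := growth
  have hm : 0 < min 1 (c / 2) ^ (3 * k) := by positivity
  refine ⟨Real.log (2 / min 1 (c / 2) ^ (3 * k)) / (Real.pi * c), fun F h hi h0 => ?_⟩
  have h1 : ∀ M : ℝ, (∀ W : HH, imv W - c • one3 ∈ Om → ‖F W‖ ≤ M) →
      ∀ W : HH, imv W - c • one3 ∈ Om → ‖F W‖ ≤ M * (1 / 2) := fun M hM W hW => by
    have e := imv_add_smul W (-(((c / 2 : ℝ) : ℂ) * Complex.I)) one3
    rw [Complex.neg_im, Complex.mul_I_im, Complex.ofReal_re, neg_smul (c / 2),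
      ← sub_eq_add_neg] at e
    have h2 := re1_step h (half_pos hc).le h0 (K := M / min 1 (c / 2) ^ (3 * k))
      (show imv _ ∈ Om from e ▸ Om.of_sub hW (half_le_self hc.le)) fun W' e' => by
        refine (le_div_iff₀ hm).2 (hg k F M hi hM W' _ (half_pos hc) ?_)
        rwa [e', e, sub_sub, ← add_smul, add_halves]
    rw [neg_smul, neg_add_cancel_right, ofC_coe, show ∀ x : ℝ, 2 * Real.pi *
      (x / (Real.pi * c) * (c / 2)) = x from fun x => by field_simp,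
      Real.exp_log (by positivity), ← mul_div_assoc, div_le_div_iff_of_pos_right hm] at h2
    linarith
  obtain ⟨M, hM⟩ := h.bdd hc
  have h2 : ∀ n : ℕ, ∀ W : HH, imv W - c • one3 ∈ Om → ‖F W‖ ≤ M * (1 / 2) ^ n := fun n => by
    induction n with
    | zero => simpa using hM
    | succ n ih => exact pow_succ (1 / 2 : ℝ) n ▸ mul_assoc M _ _ ▸ h1 _ ih
  have h3 := (tendsto_pow_atTop_nhds_zero_of_lt_one (r := (1 / 2 : ℝ)) (by norm_num)
    (by norm_num)).const_mul M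
  funext Z
  obtain ⟨l, hl, hZ⟩ := exists_sub_one3 Z.2
  have h4 := hg k F _ hi (fun W hW => ge_of_tendsto' h3 fun n => h2 n W hW) Z l hl hZ
  rw [mul_zero] at h4
  exact norm_le_zero_iff.1 (nonpos_of_mul_nonpos_left h4 (by positivity))

theorem mf_findim (k : ℤ) : ∃ (n : ℕ) (F : Fin n → Fn), (∀ i, Gd (F i) ∧ Inv Gam k (F i)) ∧
    ∀ G, Gd G → Inv Gam k G → G ∈ Submodule.span ℂ (Set.range F) := by
  obtain ⟨L, hL⟩ : ∃ L : ℝ, ∀ F : Fn, Gd F → Inv Gam k F →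
      (∀ T : Ix → ℚ, tr (toR ℝ T) one3 ≤ L → cf F T = 0) → F = 0 := by
    rcases lt_or_ge k 0 with hk | hk
    · exact ⟨0, fun F h hi _ => neg_wt hk h hi⟩
    · lift k to ℕ using hk
      exact mf_vanish k
  let S : Submodule ℂ Fn :=
    { carrier := {G | Gd G ∧ Inv Gam k G}
      add_mem' := fun h h' => ⟨⟨_, h.1.spec.add h'.1.spec⟩, h.2.add h'.2⟩
      zero_mem' := ⟨⟨_, GoodC.zero⟩, Inv.zero _ _⟩
      smul_mem' := fun c _ h => ⟨⟨_, h.1.spec.smul c⟩, h.2.smul c⟩ }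
  have := (finite_psd one_pos one3_mem L).to_subtype
  let f : S →ₗ[ℂ] {T : Ix → ℚ | ((1 : ℕ) : ℚ) • T ∈ Lam ∧ Psd T ∧ tr (toR ℝ T) one3 ≤ L} → ℂ :=
    { toFun := fun G T => cf G T
      map_add' := fun G G' => funext fun T => congrFun (G.2.1.spec.add G'.2.1.spec).cf_eq T
      map_smul' := fun c G => funext fun T => congrFun (G.2.1.spec.smul c).cf_eq T }
  have : Module.Finite ℂ S := .of_injective f ((injective_iff_map_eq_zero f).2 fun G hG =>
    Subtype.ext (hL G G.2.1 G.2.2 fun T hT => by_contra fun h0 => by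
      obtain ⟨M, -, hM⟩ := G.2.1.spec.supp
      exact h0 (congrFun hG ⟨T, by
        simpa using G.2.1.spec.supp_Lam (fun B hB => G.2.2 _ (nE_mem_Gam hB)) h0,
        (hM T h0).2, hT⟩)))
  refine ⟨_, fun i => Module.finBasis ℂ S i, fun i => (Module.finBasis ℂ S i).2, fun G h hi => ?_⟩
  have := Submodule.mem_map_of_mem (f := S.subtype) ((Module.finBasis ℂ S).mem_span ⟨G, h, hi⟩)
  rwa [Submodule.map_span, ← Set.range_comp] at this

end Pool.Agent.E7
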