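import Pool.Agent.Lib.MP_7e5527_ag.EL.LDefs
import Pool.Agent.Lib.MP_7e5527_ag.E7.Krut

/-! Auxiliary definitions for the description of the set Sigma. -/

open Filter Topology

noncomputable section

namespace Pool.Agent.E7

/-- The first axis. -/
def r0 : W := (1, 0, 0, 0)

/-- The opposite unipotent group. -/
def nP (C : Ix → ℂ) : Gb := wE * nE C * wE⁻¹

/-- The inverse in the Jordan algebra. -/
def iv (B : Ix → ℂ) : Ix → ℂ := (nrm B)⁻¹ • sharp B

/-- An element that exchanges the two axes. -/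
def wB (B : Ix → ℂ) : Gb := nE B * nP (iv B) * nE B

/-- Scalars. -/
def scE (s : ℂˣ) : Gb := LinearEquiv.smulOfUnit s

open Classical in
/-- The contraction `diag (1, t, t ^ 2, t ^ 3)`. -/
def dT (t : ℂ) : Gb := if h : t = 0 then 1 else dE 1 (Units.mk0 t h)

/-- The cone of vectors of rank at most one. -/
def CnW : Set W := {v | ∀ w, q4 (v + w) + q4 (v - w) - 2 * q4 v - 2 * q4 w = 2 * sy v w ^ 2}

/-- The grading of the basis. -/
def deg : Wx → ℕ :=
  Sum.elim (fun _ => 0) (Sum.elim (fun _ => 1) (Sum.elim (fun _ => 2) fun _ => 3))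

/-- Linear automorphisms of `J`. -/
abbrev JE : Type := (Ix → ℂ) ≃ₗ[ℂ] (Ix → ℂ)

/-- Complex similitudes of the norm. -/
def Sim (A : JE) (c : ℂ) : Prop := c ≠ 0 ∧ ∀ Z, nrm (A Z) = c * nrm Z

/-- `g` is the Levi element of `A`. -/
def Lv (A : JE) (g : Gb) : Prop := ∀ Z, g (rr Z) = rr (A Z)

/-- `z` is central in `N`. -/
def CenG (N : Subgroup Gb) (z : Gb) : Prop := z ∈ N ∧ ∀ a ∈ N, z * a = a * z

/-- Rational matrices. -/
def RatM (M : Matrix Wx Wx ℂ) : Prop := ∀ i j, ∃ r : ℚ, M i j = r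

/-- `N` is closed under limits. -/
def LimCl (N : Subgroup Gb) : Prop :=
  ∀ (u : ℂ → Gb) (g : Gb), (∀ t, t ≠ 0 → u t ∈ N) →
    Tendsto (fun t => mat (u t)) (𝓝[≠] 0) (𝓝 (mat g)) → g ∈ N

/-- The `g` with `k g k⁻¹` in `N`. -/
def cj (k : Gb) (N : Subgroup Gb) : Subgroup Gb := N.comap (MulAut.conj k).toMonoidHom

theorem mem_cj {k g : Gb} {N : Subgroup Gb} : g ∈ cj k N ↔ k * g * k⁻¹ ∈ N := Iff.rfl

/-- The group generated by the two unipotent groups. -/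
def G0 : Subgroup Gb := Subgroup.closure (Set.range nE ∪ Set.range nP)

/-- The group generated by the two unipotent groups and the torus. -/
def G1 : Subgroup Gb :=
  Subgroup.closure (Set.range nE ∪ Set.range nP ∪ Set.range fun y : ℂˣ × ℂˣ => dE y.1 y.2)

/-- The graph of a homomorphism from `GE` to `N` modulo its centre that fixes the torus. -/
structure Cor (N : Subgroup Gb) (R : Gb → Gb → Prop) : Prop where
  le : N ≤ GE
  lim : LimCl N
  mem : ∀ {g g'}, R g g' → g ∈ GE ∧ g' ∈ N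
  tot : ∀ g ∈ GE, ∃ g', R g g'
  mul : ∀ {g g' k k'}, R g g' → R k k' → R (g * k) (g' * k')
  inv : ∀ {g g'}, R g g' → R g⁻¹ g'⁻¹
  cen : ∀ {g g' g''}, R g g' → R g g'' → CenG N (g'⁻¹ * g'')
  cen' : ∀ {g g' z}, R g g' → CenG N z → R g (g' * z)
  dd : ∀ s t, R (dE s t) (dE s t)
  cont : ∀ u u' : ℂ → Gb, (∀ t, t ≠ 0 → R (u t) (u' t)) →
    Tendsto (fun t => mat (u t)) (𝓝[≠] 0) (𝓝 1) →
    Tendsto (fun t => mat (u t)⁻¹) (𝓝[≠] 0) (𝓝 1) →
    ∀ a ∈ N, Tendsto (fun t => mat (u' t * a * (u' t)⁻¹)) (𝓝[≠] 0) (𝓝 (mat a))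

/-- The correspondence defined by `φ`. -/
def Rphi (x Z : Ix → ℂ)
    (φ : MT x ⧸ Subgroup.center (MT x) →* MT Z ⧸ Subgroup.center (MT Z)) (g g' : Gb) : Prop :=
  ∃ (m : MT x) (n : MT Z), (m : Gb) = gZ x * g * (gZ x)⁻¹ ∧ (n : Gb) = gZ Z * g' * (gZ Z)⁻¹ ∧
    φ m = n

/-- The similitudes whose Levi element lies in `G1`. -/
def InE (A : JE) : Prop := ∃ g ∈ G1, Lv A g

/-- The reflection in the octonion `a` of norm one. -/
def rfo (a x : Fin 8 → ℂ) : Fin 8 → ℂ := x - oip x a • a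

end Pool.Agent.E7
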