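import Pool.Agent.Lib.MP_7e5527_ag.EL.SA3a

/-! Levi elements of complex similitudes. -/

open Filter Topology

noncomputable section

namespace Pool.Agent.E7

theorem sa3_ext {g k : Gb} (h : ∀ Z, g (rr Z) = k (rr Z)) : g = k :=
  LinearEquiv.toLinearMap_injective (ext_rr g.toLinearMap k.toLinearMap fun Z _ => h Z)

theorem Sim.mul {A B : JE} {c d : ℂ} (h : Sim A c) (h' : Sim B d) : Sim (A * B) (c * d) :=
  ⟨mul_ne_zero h.1 h'.1, fun Z => by rw [LinearEquiv.mul_apply, h.2, h'.2, mul_assoc]⟩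

theorem Sim.inv {A : JE} {c : ℂ} (h : Sim A c) : Sim A⁻¹ c⁻¹ := by
  refine ⟨inv_ne_zero h.1, fun Z => ?_⟩
  have e : A (A⁻¹ Z) = Z := A.apply_symm_apply Z
  have h1 := h.2 (A⁻¹ Z)
  rw [e] at h1
  rw [h1, ← mul_assoc, inv_mul_cancel₀ h.1, one_mul]

theorem Lv.unique {A : JE} {g g' : Gb} (h : Lv A g) (h' : Lv A g') : g = g' :=
  sa3_ext fun Z => (h Z).trans (h' Z).symm

theorem Lv.mul {A B : JE} {g k : Gb} (h : Lv A g) (h' : Lv B k) : Lv (A * B) (g * k) := fun Z => by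
  rw [LinearEquiv.mul_apply, LinearEquiv.mul_apply, h' Z, h (B Z)]

theorem Lv.inv {A : JE} {g : Gb} (h : Lv A g) : Lv A⁻¹ g⁻¹ := fun Z => by
  apply g.injective
  have e : A (A⁻¹ Z) = Z := A.apply_symm_apply Z
  have e' : g (g⁻¹ (rr Z)) = rr Z := g.apply_symm_apply _
  rw [e', h (A⁻¹ Z), e]

theorem Lv.r0_eq {A : JE} {g : Gb} (h : Lv A g) : g r0 = r0 := by
  rw [← rr_zero, h 0, map_zero]

theorem Lv.conj_nE {A : JE} {g : Gb} (h : Lv A g) (B : Ix → ℂ) :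
    g * nE B * g⁻¹ = nE (A B) := by
  rw [mul_inv_eq_iff_eq_mul]
  refine sa3_ext fun Z => ?_
  rw [LinearEquiv.mul_apply, LinearEquiv.mul_apply, nE_rr, h (Z + B), h Z, nE_rr, map_add]

theorem Lv.comm_dE {A : JE} {g : Gb} (h : Lv A g) (s t : ℂˣ) : g * dE s t = dE s t * g := by
  refine sa3_ext fun Z => ?_
  rw [LinearEquiv.mul_apply, LinearEquiv.mul_apply, dE_rr, map_smul, h _, h Z, dE_rr, map_smul]

/-- The blocks of a Levi element. -/
theorem sa3_apply {A A' : JE} {c : ℂ} {g : Gb} (hA : Sim A c) (h : Lv A g)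
    (hs : ∀ Z, sharp (A Z) = A' (sharp Z)) (v : W) :
    g v = (v.1, A v.2.1, A' v.2.2.1, c * v.2.2.2) := by
  have e := ext_rr g.toLinearMap (LinearMap.id.prodMap (A.toLinearMap.prodMap
    (A'.toLinearMap.prodMap (c • LinearMap.id)))) fun Z _ => by
      change g (rr Z) = (1, A Z, A' (sharp Z), c * nrm Z)
      rw [h Z, rr, hs, hA.2]
  exact LinearMap.congr_fun e v

theorem Lv.conj_nP {A : JE} {c : ℂ} {g : Gb} (hA : Sim A c) (h : Lv A g) : ∃ A'' : JE,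
    (∀ B, nrm B ≠ 0 → A'' (iv B) = iv (A B)) ∧ ∀ C, g * nP C * g⁻¹ = nP (A'' C) := by
  obtain ⟨A', -, hs, hs', hn⟩ := hA.exists_adj
  have hc := hA.1
  obtain ⟨A'', hA''⟩ : ∃ A'' : JE, ∀ X, A'' X = c⁻¹ • A' X :=
    ⟨A'.trans (LinearEquiv.smulOfUnit (Units.mk0 c⁻¹ (inv_ne_zero hc))), fun X => rfl⟩
  refine ⟨A'', fun B _ => ?_, fun C => ?_⟩
  · rw [hA'', iv, iv, map_smul, hs, hA.2, smul_smul, mul_inv]
  · have hk : ∀ Z, (wE⁻¹ * g * wE) (rr Z) = c • rr (A'' Z) := fun Z => by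
      rw [LinearEquiv.mul_apply, LinearEquiv.mul_apply, sa3_apply hA h hs, tube1_wE_apply,
        tube1_wE_inv_apply, hA'']
      simp only [rr, sharp_smul, nrm_smul, hs', hn, map_neg, neg_neg, Prod.smul_mk, smul_smul,
        smul_eq_mul, mul_neg, mul_one, Prod.mk.injEq, true_and]
      refine ⟨?_, ?_, ?_⟩
      · rw [mul_inv_cancel₀ hc, one_smul]
      · rw [show c * (c⁻¹ ^ 2 * c) = 1 by field_simp, one_smul]
      · field_simp
    have e : (wE⁻¹ * g * wE) * nE C = nE (A'' C) * (wE⁻¹ * g * wE) := by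
      refine sa3_ext fun Z => ?_
      rw [LinearEquiv.mul_apply _ (nE C), LinearEquiv.mul_apply (nE (A'' C)), nE_rr, hk, hk,
        map_smul, nE_rr, map_add]
    calc g * nP C * g⁻¹ = wE * ((wE⁻¹ * g * wE) * nE C) * wE⁻¹ * g⁻¹ := by
          rw [nP]
          group
      _ = nP (A'' C) := by
          rw [e, nP]
          group

theorem IsSim.exists_Sim {A : Matrix Ix Ix ℚ} {c : ℚ} (h : IsSim A c) :
    ∃ A' : JE, Sim A' c ∧ (∀ Z, A' Z = lin A Z) ∧ ∀ g, IsM A c g → Lv A' g :=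
  ⟨{ toFun := lin A
     map_add' := lin_add A
     map_smul' := lin_smul A
     invFun := lin A⁻¹
     left_inv := lin_inv_lin h.1
     right_inv := lin_lin_inv h.1 },
    ⟨Rat.cast_ne_zero.2 h.pos.ne', h.2.1⟩, fun _ => rfl,
    fun _ hg Z => (hg (rr Z)).trans (mfun_rr h Z)⟩

theorem GG_le_GE : GG ≤ GE := by
  rw [GG, Subgroup.closure_le]
  rintro g (⟨B, rfl⟩ | ⟨A, c, hA, hg⟩ | rfl)
  · exact nE_mem_GE _
  · obtain ⟨A', h1, -, h2⟩ := hA.exists_Sim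
    obtain ⟨g', hg', h3⟩ := h1.exists_Lv
    rw [(h2 g hg).unique h3]
    exact hg'
  · exact wE_mem_GE

end Pool.Agent.E7
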