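import Pool.Agent.Lib.MP_7e5527_ag.EL.SB
import Pool.Agent.Lib.MP_7e5527_ag.EL.SA3

/-! Elements that fix both axes, triangular elements. -/

open Filter Topology

noncomputable section

namespace Pool.Agent.E7

theorem sc1a_blocks {g : Gb} (hg : g ∈ GE) {s t : ℂ} (h : g ee = s • ee) (h' : g r0 = t • r0) :
    (∀ B, g (0, B, 0, 0) = (0, (g (0, B, 0, 0)).2.1, 0, 0)) ∧
      ∀ C, g (0, 0, C, 0) = (0, 0, (g (0, 0, C, 0)).2.2.1, 0) := by
  have hk : wE⁻¹ * g * wE ∈ GE := GE.mul_mem (GE.mul_mem (GE.inv_mem wE_mem_GE) hg) wE_mem_GE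
  have ek : (wE⁻¹ * g * wE) ee = t • ee := by
    rw [LinearEquiv.mul_apply, LinearEquiv.mul_apply, wE_ee, h', map_smul, tube1_wE_inv_apply]
    simp [r0, ee]
  have h1 := (stab_fst hg h).2
  have h4 : ∀ B C, (g (0, B, C, 0)).2.2.2 = 0 := fun B C => by
    have e := (stab_fst hk ek).2 (0, C, -B, 0)
    rw [LinearEquiv.mul_apply, LinearEquiv.mul_apply, tube1_wE_inv_apply, tube1_wE_apply] at e
    simpa using e
  refine ⟨fun B => Prod.ext ((h1 _).trans (mul_zero _)) (Prod.ext rfl (Prod.ext ?_ (h4 _ _))),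
    fun C => Prod.ext ((h1 _).trans (mul_zero _))
      (Prod.ext (stab_snd hg h C) (Prod.ext rfl (h4 _ _)))⟩
  have e := stab_snd hk ek (-B)
  rw [LinearEquiv.mul_apply, LinearEquiv.mul_apply, tube1_wE_inv_apply, tube1_wE_apply] at e
  simpa using e

theorem sc1a_diag {g : Gb} (hg : g ∈ GE) {s t : ℂ} (h : g ee = s • ee) (h' : g r0 = t • r0)
    (v : W) : g v = (t * v.1, (g (0, v.2.1, 0, 0)).2.1, (g (0, 0, v.2.2.1, 0)).2.2.1,
      s * v.2.2.2) := by
  obtain ⟨h1, h2⟩ := sc1a_blocks hg h h'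
  have e : v = v.1 • r0 + (0, v.2.1, 0, 0) + (0, 0, v.2.2.1, 0) + v.2.2.2 • ee := by
    simp [r0, ee]
  conv_lhs => rw [e, map_add, map_add, map_add, map_smul, map_smul, h, h', h1, h2]
  simp [r0, ee, mul_comm]

/-- An element that fixes both axes is block diagonal. -/
theorem comm_dE {g : Gb} (hg : g ∈ GE) {s t : ℂ} (h : g ee = s • ee) (h' : g r0 = t • r0)
    (a b : ℂˣ) : g * dE a b = dE a b * g := by
  refine LinearEquiv.ext fun v => ?_
  have e1 : ∀ (c : ℂ) (B : Ix → ℂ), ((0, c • B, 0, 0) : W) = c • (0, B, 0, 0) := by simp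
  have e2 : ∀ (c : ℂ) (B : Ix → ℂ), ((0, 0, c • B, 0) : W) = c • (0, 0, B, 0) := by simp
  rw [LinearEquiv.mul_apply, LinearEquiv.mul_apply, sc1a_diag hg h h' v, sc1a_diag hg h h',
    dE_apply, dE_apply]
  simp only [e1, e2, map_smul, Prod.smul_fst, Prod.smul_snd, mul_left_comm s, mul_left_comm t]

theorem Lv_of_fix {g : Gb} (hg : g ∈ GE) {c : ℂ} (h : g ee = c • ee) (h' : g r0 = r0) :
    ∃ A : JE, Sim A c ∧ Lv A g ∧ ∀ Z, A Z = (g (0, Z, 0, 0)).2.1 := by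
  have h'' : g r0 = (1 : ℂ) • r0 := by rw [one_smul, h']
  let L : (Ix → ℂ) →ₗ[ℂ] (Ix → ℂ) := (LinearMap.fst ℂ _ _).comp ((LinearMap.snd ℂ _ _).comp
    (g.toLinearMap.comp ((LinearMap.inr ℂ ℂ _).comp (LinearMap.inl ℂ _ _))))
  have eL : ∀ Z, L Z = (g (0, Z, 0, 0)).2.1 := fun Z => rfl
  have hi : Function.Injective L := (injective_iff_map_eq_zero L).2 fun Z hZ => by
    have e := (sc1a_blocks hg h h'').1 Z
    rw [← eL, hZ] at e
    exact congrArg (fun v : W => v.2.1) (g.map_eq_zero_iff.1 e)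
  have hl : ∀ Z, g (rr Z) = rr (L Z) := fun Z => by
    have e1 : (g (rr Z)).1 = 1 := by rw [sc1a_diag hg h h'']; exact one_mul _
    have e2 : (g (rr Z)).2.1 = L Z := by rw [sc1a_diag hg h h'']; rfl
    have e := CnW.eq_rr (Cn_map hg (rr_mem_Cn Z)) (by rw [e1]; exact one_ne_zero)
    rwa [e1, e2, inv_one, one_smul, one_smul] at e
  refine ⟨LinearEquiv.ofInjectiveEndo L hi, ⟨?_, fun Z => ?_⟩, hl, eL⟩
  · rintro rfl
    rw [zero_smul, g.map_eq_zero_iff] at h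
    exact one_ne_zero (congrArg (fun v : W => v.2.2.2) h)
  · have e := congrArg (fun v : W => v.2.2.2) (hl Z)
    rw [sc1a_diag hg h h''] at e
    exact e.symm

/-- A triangular element with identity diagonal blocks is a translation. -/
theorem eq_nE {g : Gb} (hg : g ∈ GE) (h0 : ∀ v, (g v).1 = v.1)
    (h1 : ∀ v : W, v.1 = 0 → (g v).2.1 = v.2.1) (h3 : g ee = ee) : ∃ B, g = nE B := by
  have h3' : g ee = (1 : ℂ) • ee := by rw [one_smul, h3]
  have e := stab_r0 hg h3'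
  rw [h0, show r0.1 = 1 from rfl, inv_one, one_smul, one_smul] at e
  obtain ⟨A, -, hA, eA⟩ := Lv_of_fix (c := 1) (GE.mul_mem (nE_mem_GE (-(g r0).2.1)) hg)
    (by rw [LinearEquiv.mul_apply, h3, nE_ee, one_smul]) e
  have e1 : Lv A 1 := fun Z => by
    rw [eA, LinearEquiv.mul_apply, nE_apply, nfun, h0, h1 _ rfl]
    simp
  refine ⟨(g r0).2.1, ?_⟩
  have e2 := hA.unique e1
  rwa [nE_neg, inv_mul_eq_one, eq_comm] at e2

end Pool.Agent.E7
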