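import Pool.Agent.Lib.MP_7e5527_ag.EL.ME
import Pool.Agent.Lib.MP_7e5527_ag.EL.SC1a

/-! The polarisation of the Hodge structures on `W`. -/

open Matrix
open scoped ComplexOrder

noncomputable section

namespace Pool.Agent.E7

/-- The Hermitian form. -/
def QW : Matrix Wx Wx ℂ := Matrix.of fun a b => Complex.I * sy (bW a) (bW b)

/-- The Hermitian form in the frame `gZ Z`. -/
def HW (Z : Ix → ℂ) : Matrix Wx Wx ℂ := (mat (gZ Z))ᴴ * QW * mat (gZ Z)

theorem mq1_anti (v v' : W) : sy v v' = -sy v' v := by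
  simp only [sy, tr_comm v.2.1, tr_comm v.2.2.1]
  ring

/-- The symplectic form as a bilinear map. -/
def mq1_sy : W →ₗ[ℂ] W →ₗ[ℂ] ℂ :=
  LinearMap.mk₂ ℂ sy
    (fun _ _ _ => by simp only [sy, Prod.fst_add, Prod.snd_add, tr_add_left]; ring)
    (fun c v v' => by simpa using sy_smul c 1 v v')
    (fun _ _ _ => by simp only [sy, Prod.fst_add, Prod.snd_add, tr_add_right]; ring)
    fun c v v' => by simpa using sy_smul 1 c v v'

theorem mq1_crd (a : Wx) : crd (bW a) = Pi.single a 1 := by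
  rw [crd, bW.repr_self, Finsupp.single_eq_pi_single]

theorem mq1_star (a : Wx) : star (bW a) = bW a :=
  bW.repr.injective (DFunLike.coe_injective ((crd_star _).trans (by
    rw [mq1_crd, Pi.star_single, star_one]; exact (mq1_crd a).symm)))

theorem mq1_entry (X : Matrix Wx Wx ℂ) (a b : Wx) :
    X a b = star (crd (bW a)) ⬝ᵥ X *ᵥ crd (bW b) := by
  simp [mq1_crd]

theorem mq1_mul (g k : Gb) : mat (g * k) = mat g * mat k := mt_mul g k

theorem QW_crd (v v' : W) : star (crd v) ⬝ᵥ QW *ᵥ crd v' = Complex.I * sy (star v) v' := by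
  rw [← crd_star, show sy (star v) v' = mq1_sy (star v) v' from rfl]
  conv_rhs => rw [← bW.sum_repr (star v), ← bW.sum_repr v']
  simp only [map_sum, LinearMap.sum_apply, map_smul, LinearMap.smul_apply, smul_eq_mul,
    Finset.mul_sum, dotProduct, mulVec, QW, of_apply, crd]
  rw [Finset.sum_comm]
  exact Finset.sum_congr rfl fun a _ => Finset.sum_congr rfl fun b _ => by
    rw [show mq1_sy (bW b) (bW a) = sy (bW b) (bW a) from rfl]
    ring

theorem mq1_conj (g k : Gb) (v v' : W) :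
    star (crd v) ⬝ᵥ ((mat g)ᴴ * QW * mat k) *ᵥ crd v' = Complex.I * sy (star (g v)) (k v') := by
  rw [← mulVec_mulVec, ← mulVec_mulVec, dotProduct_mulVec, ← star_mulVec, mat_eq, mat_eq, mt_crd,
    mt_crd, QW_crd]
  rfl

theorem QW_herm : QWᴴ = QW := by
  ext a b
  rw [conjTranspose_apply, QW, of_apply, of_apply, star_mul', star_sy, mq1_star, mq1_star,
    mq1_anti, Complex.star_def, Complex.conj_I, neg_mul_neg]

theorem QW_unit : IsUnit QW := by
  refine mulVec_injective_iff_isUnit.1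
    ((injective_iff_map_eq_zero (mulVecLin QW)).2 fun x hx => ?_)
  obtain ⟨v, rfl⟩ := crd_surj x
  have h : ∀ a, sy (bW a) v = 0 := fun a => by
    have := QW_crd (bW a) v
    rw [show QW *ᵥ crd v = 0 from hx, dotProduct_zero, mq1_star] at this
    exact (mul_eq_zero.1 this.symm).resolve_left Complex.I_ne_zero
  have w : ∀ l, (wt l : ℂ) ≠ 0 := fun l => by rcases l with l | l <;> simp [wt]
  rw [crd_eq]
  funext a
  rcases a with a | l | l | a
  · simpa [bW_eq.1.2, sy, ee, tr_zero_left] using h (.inr (.inr (.inr ())))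
  · simpa [(bW_eq.2 l).2, sy, tr_zero_left, tr_comm (Pi.single l (1 : ℂ)), tr_single, w]
      using h (.inr (.inr (.inl l)))
  · simpa [(bW_eq.2 l).1, sy, tr_zero_left, tr_comm (Pi.single l (1 : ℂ)), tr_single, w]
      using h (.inr (.inl l))
  · simpa [bW_eq.1.1, sy, r0, tr_zero_left] using h (.inl ())

theorem QW_Gam {γ : Gb} (h : γ ∈ Gam) : (mat γ)ᴴ * QW * mat γ = QW := by
  ext a b
  rw [mq1_entry (_ * _), mq1_conj, star_GG (Gam_le h), sy_GamL h, mq1_star]
  rfl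

theorem star_gZ (Z : Ix → ℂ) (v : W) : star (gZ Z v) = gZ (star Z) (star v) := by
  simp only [gZ, LinearEquiv.mul_apply, star_nE, star_wE, star_inv, star_sub]

theorem sy_gZ (Z : Ix → ℂ) (v v' : W) : sy (gZ Z v) (gZ Z v') = sy v v' := by
  simp only [gZ, LinearEquiv.mul_apply, sy_nE, sy_wE]

theorem mq1_inv {g : Gb} {v w : W} {c : ℂ} (hc : c ≠ 0) (h : g v = c • w) : g⁻¹ w = c⁻¹ • v := by
  rw [eq_inv_smul_iff₀ hc, ← map_smul, ← h]
  exact g.symm_apply_apply v

/-- The element fixes both axes (`gZ_r0`, `gZ_ee`, `act_spec`, `star_GG`): `comm_dE`. -/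
theorem gZ_equiv {γ : Gb} (h : γ ∈ GG) {Z : Ix → ℂ} (hZ : Z ∈ HH) :
    Hom deg 0 (mat (gZ (act γ Z))⁻¹ * mat γ * mat (gZ Z)) := by
  obtain ⟨-, h1, h2⟩ := act_spec h hZ
  rw [← mq1_mul, ← mq1_mul]
  exact hom_of_comm (comm_dE (mul_mem (mul_mem (inv_mem (gZ_mem_GE _)) (GG_le_GE h)) (gZ_mem_GE _))
    (by rw [LinearEquiv.mul_apply, LinearEquiv.mul_apply, gZ_ee, ← star_rr, ← star_GG h, h2,
      star_smul, star_rr, map_smul, mq1_inv one_ne_zero ((gZ_ee _).trans (one_smul ℂ _).symm),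
      smul_smul])
    (by rw [LinearEquiv.mul_apply, LinearEquiv.mul_apply, gZ_r0 hZ, map_smul, map_smul, h2, map_smul,
      mq1_inv (neg_ne_zero.2 (inv_ne_zero (nrm_sub_star h1))) (gZ_r0 h1), smul_smul, smul_smul]))

theorem HW_crd (Z : Ix → ℂ) (v v' : W) : star (crd v) ⬝ᵥ HW Z *ᵥ crd v' =
    Complex.I * sy (star v) (((gZ (star Z))⁻¹ * gZ Z) v') := by
  rw [HW, mq1_conj, star_gZ, ← sy_gZ (star Z) (star v), ← LinearEquiv.mul_apply (gZ (star Z)) (_ * _),
    mul_inv_cancel_left]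

/-- `k = (gZ (star Z))⁻¹ * gZ Z` exchanges the two axes (`gZ_r0`, `gZ_ee`, and
`star_gZ` for `gZ (star Z) r0`), so `wE * k` commutes with the torus (`comm_dE`) and
`sy v (k v') = sy (wE v) (wE (k v'))`. -/
theorem HW_blk {Z : Ix → ℂ} (hZ : Z ∈ HH) : Hom deg 0 (HW Z) := by
  have c0 := neg_ne_zero.2 (inv_ne_zero (nrm_sub_star hZ))
  have h1 := star_gZ Z r0
  rw [gZ_r0 hZ, star_smul, star_rr, ← bW_eq.1.1, mq1_star, bW_eq.1.1] at h1
  have h2 := (gZ_ee (star Z)).trans (one_smul ℂ _).symm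
  rw [star_star] at h2
  have h3 := hom_of_comm (comm_dE (g := wE * ((gZ (star Z))⁻¹ * gZ Z))
    (mul_mem wE_mem_GE (mul_mem (inv_mem (gZ_mem_GE _)) (gZ_mem_GE _)))
    (by rw [LinearEquiv.mul_apply, LinearEquiv.mul_apply, gZ_ee,
      mq1_inv (star_ne_zero.2 c0) h1.symm, map_smul, wE_r0, smul_neg, ← neg_smul])
    (by rw [LinearEquiv.mul_apply, LinearEquiv.mul_apply, gZ_r0 hZ, map_smul,
      mq1_inv one_ne_zero h2, smul_smul, map_smul, wE_ee]))
  have h4 : Hom deg 0 ((mat wE)ᴴ * QW * mat 1) := fun a b hab => by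
    rw [mq1_entry (_ * _), mq1_conj, star_wE, mq1_star]
    rcases a with a | a | a | a <;> rcases b with b | b | b | b <;>
      first
      | exact absurd rfl hab
      | simp [bW_eq.1, bW_eq.2, sy, wE, r0, ee, tr_zero_left, tr_zero_right]
  have h5 := h4.mul h3
  rw [mul_assoc, ← mq1_mul, one_mul] at h5
  intro a b hab
  rw [mq1_entry (HW Z), HW_crd, ← sy_wE, ← star_wE, ← h5 a b hab, mq1_entry (_ * _), mq1_conj,
    LinearEquiv.mul_apply wE]

end Pool.Agent.E7
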