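import Pool.Agent.Lib.MP_7e5527_ag.EL.MTe1

/-! Tensor powers of matrices. -/

open Matrix
open scoped ComplexOrder

noncomputable section

namespace Pool.Agent.E7

variable {A : Type} [CommRing A] {ι κ : Type} [Fintype ι] [DecidableEq ι] [Fintype κ]
  [DecidableEq κ]

theorem Hom.mul {deg : ι → ℕ} {m n : ℕ} {X Y : Matrix ι ι A} (hX : Hom deg m X)
    (hY : Hom deg n Y) : Hom deg (m + n) (X * Y) := by
  refine fun a b h => Finset.sum_eq_zero fun c _ => ?_
  by_cases e : deg a = deg c + m
  · exact mul_eq_zero_of_right _ (hY c b (by omega))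
  · exact mul_eq_zero_of_left (hX a c e) _

theorem Hom.map {B : Type} [CommRing B] (φ : A →+ B) {deg : ι → ℕ} {n : ℕ} {X : Matrix ι ι A}
    (h : Hom deg n X) : Hom deg n (X.map φ) := by
  intro a b e
  rw [map_apply, h a b e, map_zero]

theorem Hom.Rp {deg : ι → ℕ} {G : Matrix ι ι A} (h : Hom deg 0 G) :
    Hom (tdeg deg) 0 (Rp κ G) := by
  intro a b e
  by_contra hn
  refine e (Finset.sum_congr rfl fun k _ => ?_)
  by_contra e'
  exact hn (Finset.prod_eq_zero (Finset.mem_univ k) (h _ _ e'))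

theorem Hom.dR {deg : ι → ℕ} {n : ℕ} {X : Matrix ι ι A} (h : Hom deg n X) :
    Hom (tdeg deg) n (dR κ X) := by
  intro a b e
  rw [E7.dR, Matrix.sum_apply]
  refine Finset.sum_eq_zero fun k _ => ?_
  by_contra hn
  have h1 : ∀ l, deg (a l) = deg (b l) + if l = k then n else 0 := fun l => by
    by_contra e'
    refine hn (Finset.prod_eq_zero (Finset.mem_univ l) ?_)
    rcases eq_or_ne l k with rfl | hl
    · rw [Function.update_self]
      exact h _ _ (by simpa using e')
    · rw [Function.update_of_ne hl]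
      exact one_apply_ne fun e2 => e' (by simp [hl, e2])
  exact e (by simp [tdeg, h1, Finset.sum_add_distrib])

theorem Hom.pr_mul {deg : ι → ℕ} {n : ℕ} {X : Matrix ι ι A} (h : Hom deg n X) (q : ℕ) :
    pr A deg (q + n) * X = X * pr A deg q := by
  ext a b
  rw [pr, pr, diagonal_mul, mul_diagonal]
  by_cases e : deg a = deg b + n
  · simp [e]
  · simp [h a b e]

theorem Hom.pr_lt {deg : ι → ℕ} {n : ℕ} {X : Matrix ι ι A} (h : Hom deg n X) {q : ℕ} (hq : q < n) :
    pr A deg q * X = 0 := by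
  ext a b
  rw [pr, diagonal_mul]
  split_ifs with e
  · simp [h a b (by omega)]
  · simp

theorem pr_mul_pr (deg : ι → ℕ) (q r : ℕ) :
    pr A deg q * pr A deg r = if q = r then pr A deg q else 0 := by
  rw [pr, pr, diagonal_mul_diagonal]
  split_ifs with e
  · subst e
    exact congrArg _ (funext fun a => by split_ifs <;> simp)
  · rw [← diagonal_zero]
    exact congrArg _ (funext fun a => by split_ifs <;> simp_all)

theorem sum_pr (deg : ι → ℕ) (c : ℕ → A) :
    diagonal (fun a => c (deg a)) = ∑ q ∈ Finset.univ.image deg, c q • pr A deg q := by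
  ext a b
  rcases eq_or_ne a b with rfl | e
  · simp [Matrix.sum_apply, pr]
  · simp [Matrix.sum_apply, pr, e]

theorem Rp_sg (deg : ι → ℕ) : Rp κ (sg deg) = sg (tdeg deg) := by
  rw [sg, Rp_diagonal, sg]
  simp only [tdeg, Finset.prod_pow_eq_pow_sum]

/-- Write `G = Bᴴ * B` with `B` invertible. -/
theorem posDef_Rp {G : Matrix ι ι ℂ} (h : G.PosDef) : (Rp κ G).PosDef := by
  have h1 : IsUnit (Rp κ G) := by
    obtain ⟨u, rfl⟩ := h.isUnit
    exact ⟨⟨Rp κ u.1, Rp κ u.2, by rw [← Rp_mul, u.3, Rp_one], by rw [← Rp_mul, u.4, Rp_one]⟩, rfl⟩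
  refine (PosSemidef.posDef_iff_isUnit ?_).2 h1
  open scoped MatrixOrder in
  obtain ⟨B, rfl⟩ := CStarAlgebra.nonneg_iff_eq_star_mul_self.mp h.posSemidef.nonneg
  rw [Rp_mul, star_eq_conjTranspose, ← Rp_star]
  exact posSemidef_conjTranspose_mul_self _

theorem sec_map {B : Type} [CommRing B] (φ : A →+* B) (deg : ι → ℕ) (G G' : Matrix ι ι A) (q : ℕ)
    (t : ι → A) : (fun a => φ (sec deg G G' q t a)) =
      sec deg (G.map φ) (G'.map φ) q fun a => φ (t a) := by
  have e : (pr A deg q).map φ = pr B deg q := by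
    rw [pr, diagonal_map (map_zero φ)]
    exact congrArg _ (funext fun a => by split_ifs <;> simp [*])
  have h := fun (M : Matrix ι ι A) (v : ι → A) => funext (φ.map_mulVec M v)
  rw [sec, h, Function.comp_def, h, Function.comp_def, h, e]
  rfl

theorem sec_sub (deg : ι → ℕ) (G G' : Matrix ι ι A) (q : ℕ) (t t' : ι → A) :
    sec deg G G' q (t - t') = sec deg G G' q t - sec deg G G' q t' := by
  simp only [sec, mulVec_sub]

theorem sec_smul (deg : ι → ℕ) (G G' : Matrix ι ι A) (q : ℕ) (c : A) (t : ι → A) :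
    sec deg G G' q (c • t) = c • sec deg G G' q t := by
  simp only [sec, mulVec_smul]

theorem sec_sum {α : Type} (s : Finset α) (deg : ι → ℕ) (G G' : Matrix ι ι A) (q : ℕ)
    (t : α → ι → A) : sec deg G G' q (∑ x ∈ s, t x) = ∑ x ∈ s, sec deg G G' q (t x) := by
  simp only [sec, mulVec_sum]

theorem sec_sec (deg : ι → ℕ) {G G' : Matrix ι ι A} (h : G' * G = 1) (q r : ℕ) (t : ι → A) :
    sec deg G G' q (sec deg G G' r t) = if q = r then sec deg G G' r t else 0 := by
  rw [sec, sec, mulVec_mulVec _ G' G, h, one_mulVec, mulVec_mulVec _ (pr A deg q), pr_mul_pr]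
  split_ifs with e
  · rw [e]
  · simp

/-- Change of frame: `M = H' * g * G` keeps the degree. -/
theorem sec_equiv (deg : ι → ℕ) {G G' H H' g : Matrix ι ι A} (h : G * G' = 1) (h' : H * H' = 1)
    (hM : Hom deg 0 (H' * g * G)) (q : ℕ) (t : ι → A) :
    sec deg H H' q (g *ᵥ t) = g *ᵥ sec deg G G' q t := by
  have h1 := congrArg (fun M => H * M * G') (hM.pr_mul q)
  simp only [add_zero, ← Matrix.mul_assoc, h', Matrix.one_mul] at h1
  rw [Matrix.mul_assoc _ G G', h, Matrix.mul_one] at h1
  simp only [sec, mulVec_mulVec, ← Matrix.mul_assoc, h1]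

/-- Coefficients of a polynomial curve that stays in a subspace (pass to the quotient, or use
linear forms that kill `U`). -/
theorem coeff_mem {V : Type} [AddCommGroup V] [Module ℂ V] (U : Submodule ℂ V) (n : ℕ) (v : ℕ → V)
    (h : ∀ t : ℂ, t ≠ 0 → ∑ k ∈ Finset.range n, t ^ k • v k ∈ U) {k : ℕ} (hk : k < n) :
    v k ∈ U := by
  refine (Subspace.forall_mem_dualAnnihilator_apply_eq_zero_iff U _).1 fun φ hφ => ?_
  have h1 : ∑ j ∈ Finset.range n, Polynomial.monomial j (φ (v j)) = 0 := by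
    refine Polynomial.eq_zero_of_infinite_isRoot _
      ((Set.finite_singleton (0 : ℂ)).infinite_compl.mono fun t ht => ?_)
    have := (Submodule.mem_dualAnnihilator φ).1 hφ _ (h t ht)
    simpa [Polynomial.eval_finsetSum, mul_comm] using this
  simpa [Polynomial.coeff_monomial, hk] using congrArg (Polynomial.coeff · k) h1

end Pool.Agent.E7
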