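import Pool.Agent.Lib.MP_7e5527_ag.EL.SC2a

/-! Matrices in the rational basis. -/

open Filter Topology

noncomputable section

namespace Pool.Agent.E7

theorem sc2_r0 (v : W) (u : Unit) : bW.repr v (.inl u) = v.1 := by simp [bW]

theorem sc2_r1 (v : W) (l : Ix) : bW.repr v (.inr (.inl l)) = v.2.1 l := by simp [bW]

theorem sc2_r2 (v : W) (l : Ix) : bW.repr v (.inr (.inr (.inl l))) = v.2.2.1 l := by simp [bW]

theorem sc2_r3 (v : W) (u : Unit) : bW.repr v (.inr (.inr (.inr u))) = v.2.2.2 := by simp [bW]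

theorem sc2_mat (g : Gb) (i j : Wx) : mat g i j = bW.repr (g (bW j)) i :=
  LinearMap.toMatrix_apply _ _ _ _ _

theorem sc2_sum (g : Gb) (v : W) (i : Wx) :
    bW.repr (g v) i = ∑ j, mat g i j * bW.repr v j :=
  (congrFun (LinearMap.toMatrix_mulVec_repr bW bW (g : W →ₗ[ℂ] W) v) i).symm

theorem sc2_self (i j : Wx) : bW.repr (bW j) i = if i = j then 1 else 0 := by
  rw [bW.repr_self_apply]
  exact if_congr eq_comm rfl rfl

theorem sc2_low {i j : Wx} (h : deg i < deg j) : bW.repr (bW j) i = 0 := by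
  rw [sc2_self, if_neg]
  rintro rfl
  exact h.false

/-- Block triangular matrices with identity diagonal blocks. -/
theorem tri_apply {g : Gb} (h : ∀ i j, deg i ≤ deg j → mat g i j = if i = j then 1 else 0) :
    (∀ v, (g v).1 = v.1) ∧ (∀ v : W, v.1 = 0 → (g v).2.1 = v.2.1) ∧ g ee = ee := by
  have key : ∀ (v : W) i, (∀ j, deg j < deg i → bW.repr v j = 0) →
      bW.repr (g v) i = bW.repr v i := fun v i hv => by
    rw [sc2_sum, Finset.sum_eq_single i (fun j _ hj => ?_) (by simp), h i i le_rfl, if_pos rfl,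
      one_mul]
    rcases lt_or_ge (deg j) (deg i) with h1 | h1
    · rw [hv j h1, mul_zero]
    · rw [h i j h1, if_neg hj.symm, zero_mul]
  refine ⟨fun v => ?_, fun v hv => funext fun l => ?_, bW.ext_elem fun i => key _ i ?_⟩
  · rw [← sc2_r0 _ (), ← sc2_r0 v ()]
    exact key v _ fun j hj => absurd hj (Nat.not_lt_zero _)
  · rw [← sc2_r1, ← sc2_r1 v]
    refine key v _ ?_
    rintro (j | j | j | j) hj
    · rw [sc2_r0, hv]
    all_goals simp [deg] at hj
  · rintro (j | j | j | j) hj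
    · exact sc2_r0 _ _
    · exact sc2_r1 _ _
    · exact sc2_r2 _ _
    · rcases i with i | i | i | i <;> simp [deg] at hj

theorem mat_nE_tri (B : Ix → ℂ) (i j : Wx) (h : deg i ≤ deg j) :
    mat (nE B) i j = if i = j then 1 else 0 := by
  rw [sc2_mat, ← sc2_self]
  have h0 : 0 < deg j → (bW j).1 = 0 := fun hj => by
    rw [← sc2_r0 _ ()]
    exact sc2_low hj
  have h1 : 1 < deg j → (bW j).2.1 = 0 := fun hj => funext fun l => by
    rw [← sc2_r1]
    exact sc2_low hj
  have h2 : 2 < deg j → (bW j).2.2.1 = 0 := fun hj => funext fun l => by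
    rw [← sc2_r2]
    exact sc2_low hj
  rcases i with i | i | i | i
  · rw [sc2_r0, sc2_r0]
    rfl
  · have h' : 1 ≤ deg j := h
    simp only [sc2_r1, nE_apply, nfun, h0 h', zero_smul, add_zero]
  · have h' : 2 ≤ deg j := h
    simp only [sc2_r2, nE_apply, nfun, h0 (by omega), h1 h', cross_zero_left, zero_smul, add_zero]
  · have h' : 3 ≤ deg j := h
    simp only [sc2_r3, nE_apply, nfun, h0 (by omega), h1 (by omega), h2 h', tr_zero_left, zero_mul,
      add_zero]

theorem trace_nE (B : Ix → ℂ) : (mat (nE B)).trace = 56 := by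
  simp [Matrix.trace, mat_nE_tri B _ _ le_rfl]

theorem tendsto_nE (B : Ix → ℂ) : Tendsto (fun t : ℂ => mat (nE (t • B))) (𝓝 0) (𝓝 1) := by
  have h : Continuous fun t : ℂ => mat (nE (t • B)) := by
    refine continuous_matrix fun i j => ?_
    simp only [sc2_mat]
    refine (bW.coord i).continuous_of_finiteDimensional.comp
      (f := fun t : ℂ => nE (t • B) (bW j)) ?_
    simp only [nE_apply, nfun, cross_smul_right, sharp_smul, nrm_smul, tr_smul_right]
    fun_prop
  simpa [nE_zero, mat_one] using h.tendsto 0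

theorem mem_WQ_iff (v : W) : v ∈ WQ ↔ ∀ i, ∃ r : ℚ, bW.repr v i = r := by
  constructor
  · rintro ⟨⟨a, ha⟩, ⟨T, hT⟩, ⟨T', hT'⟩, d, hd⟩ (i | i | i | i)
    · exact ⟨a, (sc2_r0 _ _).trans ha⟩
    · exact ⟨T i, (sc2_r1 _ _).trans (congrFun hT i)⟩
    · exact ⟨T' i, (sc2_r2 _ _).trans (congrFun hT' i)⟩
    · exact ⟨d, (sc2_r3 _ _).trans hd⟩
  · intro h
    choose r hr using h
    exact ⟨⟨_, (sc2_r0 v ()).symm.trans (hr _)⟩,
      ⟨_, funext fun l => (sc2_r1 v l).symm.trans (hr _)⟩,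
      ⟨_, funext fun l => (sc2_r2 v l).symm.trans (hr _)⟩, _, (sc2_r3 v ()).symm.trans (hr _)⟩

theorem ratM_iff (g : Gb) : RatM (mat g) ↔ ∀ v ∈ WQ, g v ∈ WQ := by
  simp only [mem_WQ_iff]
  refine ⟨fun h v hv i => ?_, fun h i j => ?_⟩
  · choose a ha using h
    choose r hr using hv
    exact ⟨∑ j, a i j * r j, by simp [sc2_sum, ha, hr]⟩
  · rw [sc2_mat]
    refine h _ (fun k => ⟨if k = j then 1 else 0, ?_⟩) i
    rw [sc2_self]
    split_ifs <;> simp

theorem ratM_GG {g : Gb} (h : g ∈ GG) : RatM (mat g) := (ratM_iff g).2 fun _ hv => WQ_map h hv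

theorem RatM.exists_map {M : Matrix Wx Wx ℂ} (h : RatM M) :
    ∃ a : Matrix Wx Wx ℚ, M = a.map (↑) := by
  choose a ha using h
  exact ⟨Matrix.of a, Matrix.ext ha⟩

theorem nP_mem_GG (T : Ix → ℚ) : nP (toR ℂ T) ∈ GG :=
  mul_mem (mul_mem (Gam_le wE_mem) (nE_mem_GG T)) (inv_mem (Gam_le wE_mem))

end Pool.Agent.E7
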