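import Pool.Agent.Lib.MP_7e5527_ag.EL.MCone
import Pool.Agent.Lib.MP_7e5527_ag.EL.SC2
import Pool.Agent.Lib.MP_7e5527_ag.EL.MTen

/-! Matrices of translations over any commutative algebra. -/

open Matrix

noncomputable section

namespace Pool.Agent.E7

instance decTen {κ : Type} [Fintype κ] : DecidableEq (κ → Wx) :=
  fun a b => @Fintype.decidablePiFintype κ (fun _ => Wx) (fun _ => inferInstance) _ a b

/-- The infinitesimal translation. -/
def eL (B : Ix → ℂ) : W →ₗ[ℂ] W where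
  toFun v := (0, v.1 • B, cross v.2.1 B, tr v.2.2.1 B)
  map_add' v v' := by simp [add_smul, cross_add_left, tr_add_left]
  map_smul' c v := by simp [mul_smul, cross_smul_left, tr_smul_left]

/-- The matrix of an endomorphism. -/
def mt (X : W →ₗ[ℂ] W) : Matrix Wx Wx ℂ := LinearMap.toMatrix bW bW X

/-- Coordinates. -/
def crd (v : W) : Wx → ℂ := bW.repr v

theorem eL_apply (B : Ix → ℂ) (v : W) :
    eL B v = (0, v.1 • B, cross v.2.1 B, tr v.2.2.1 B) := rfl

theorem eL_add (B B' : Ix → ℂ) : eL (B + B') = eL B + eL B' := by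
  refine LinearMap.ext fun v => ?_
  simp [eL_apply, cross_add_right, tr_add_right]

theorem eL_smul (c : ℂ) (B : Ix → ℂ) : eL (c • B) = c • eL B := by
  refine LinearMap.ext fun v => ?_
  simp [eL_apply, cross_smul_right, tr_smul_right, smul_comm c]

theorem eL_comm (B B' : Ix → ℂ) : eL B * eL B' = eL B' * eL B := by
  refine LinearMap.ext fun v => ?_
  simp only [Module.End.mul_apply, eL_apply, zero_smul, cross_smul_left, tr_cross, cross_comm B]

theorem nE_eq (B : Ix → ℂ) : (nE B : W →ₗ[ℂ] W) =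
    1 + eL B + (1 / 2 : ℂ) • eL B ^ 2 + (1 / 6 : ℂ) • eL B ^ 3 := by
  refine LinearMap.ext fun v => ?_
  simp only [LinearEquiv.coe_coe, nE_apply, nfun, pow_succ, pow_zero, one_mul, LinearMap.add_apply,
    LinearMap.smul_apply, Module.End.mul_apply, Module.End.one_apply, eL_apply, zero_smul,
    cross_smul_left, tr_cross, cross_self, cross_zero_left, tr_smul_left, tr_smul_right,
    tr_sharp_self]
  refine Prod.ext (by simp) (Prod.ext (by simp) (Prod.ext ?_ ?_))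
  · simp only [Prod.snd_add, Prod.fst_add, Prod.smul_snd, Prod.smul_fst]
    module
  · simp only [Prod.snd_add, Prod.smul_snd, smul_eq_mul]
    ring

theorem eL_pow_four (B : Ix → ℂ) : eL B ^ 4 = 0 := by
  refine LinearMap.ext fun v => ?_
  simp only [pow_succ, pow_zero, one_mul, Module.End.mul_apply, eL_apply, zero_smul,
    cross_zero_left, tr_zero_left]
  rfl

theorem mat_eq (g : Gb) : mat g = mt g := rfl

theorem mt_mul (X Y : W →ₗ[ℂ] W) : mt (X * Y) = mt X * mt Y := LinearMap.toMatrix_mul bW X Y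

theorem mat_mul_inv (g : Gb) : mat g * mat g⁻¹ = 1 := by
  rw [← mat_mul, mul_inv_cancel, mat_one]

theorem mat_inv_mul (g : Gb) : mat g⁻¹ * mat g = 1 := by
  rw [← mat_mul, inv_mul_cancel, mat_one]

theorem mt_crd (X : W →ₗ[ℂ] W) (v : W) : mt X *ᵥ crd v = crd (X v) := LinearMap.toMatrix_mulVec_repr bW bW X v

theorem crd_eq (v : W) :
    crd v = Sum.elim (fun _ => v.1) (Sum.elim v.2.1 (Sum.elim v.2.2.1 fun _ => v.2.2.2)) := by
  funext a
  rcases a with _ | l | l | _ <;> simp [crd, bW]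

theorem crd_smul (c : ℂ) (v : W) : crd (c • v) = c • crd v := by
  simp [crd]

theorem crd_star (v : W) : crd (star v) = star (crd v) := by
  funext a
  rcases a with _ | l | l | _ <;> simp [crd_eq]

theorem crd_surj (x : Wx → ℂ) : ∃ v, crd v = x := bW.equivFun.surjective x

theorem mt_apply (X : W →ₗ[ℂ] W) (a b : Wx) : mt X a b = crd (X (bW b)) a := LinearMap.toMatrix_apply bW bW X a b

theorem bW_eq : (bW (.inl ()) = r0 ∧ bW (.inr (.inr (.inr ()))) = ee) ∧ ∀ l,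
    bW (.inr (.inl l)) = (0, Pi.single l 1, 0, 0) ∧
      bW (.inr (.inr (.inl l))) = (0, 0, Pi.single l 1, 0) := by
  simp [bW, r0, ee, Prod.ext_iff]

theorem mat_dE' (s t : ℂˣ) :
    mat (dE s t) = diagonal fun a => (s : ℂ) ^ 3 * ((t : ℂ) / s) ^ deg a := by
  rw [mat_dE]
  congr 1
  funext a
  have := s.ne_zero
  rcases a with _ | l | l | _ <;> simp only [deg, Sum.elim_inl, Sum.elim_inr, Nat.reduceSub] <;>
    field_simp

/-- A matrix that commutes with `diag (2 ^ deg)` keeps the degree. -/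
theorem hom_of_comm {g : Gb} (h : ∀ a b, g * dE a b = dE a b * g) : Hom deg 0 (mat g) := by
  intro a b hab
  have e := congrFun (congrFun (congrArg mat (h 1 (Units.mk0 2 two_ne_zero))) a) b
  simp only [mat_mul, mat_dE', mul_diagonal, diagonal_mul, Units.val_one, one_pow, one_mul, div_one,
    Units.val_mk0] at e
  rw [mul_comm, mul_eq_mul_right_iff] at e
  refine e.resolve_left fun e => hab ?_
  exact (Nat.pow_right_injective le_rfl (by exact_mod_cast e : 2 ^ deg b = 2 ^ deg a)).symm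

theorem me1_int {T : Ix → ℚ} (h : ∀ l, ∃ n : ℤ, T l = n) : T ∈ Lam := by
  choose n hn using h
  refine ⟨fun i => ⟨_, hn _⟩, fun i => ⟨fun k => ⟨2 * n (.inr (i, k)), ?_⟩, ?_⟩⟩ <;>
    simp only [oc, hn] <;> norm_cast
  exact ⟨⟨_, rfl⟩, ⟨_, rfl⟩, ⟨_, rfl⟩, _, rfl⟩

theorem me1_single (l : Ix) : Pi.single l 1 ∈ Lam :=
  me1_int fun j => ⟨if j = l then 1 else 0, by simp [Pi.single_apply]⟩



/-- The entries of an element of `Gam` are half integers (`WZ_map`, `Lam.two_mul`). -/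
theorem mat_int {γ : Gb} (h : γ ∈ Gam) (a b : Wx) : ∃ n : ℤ, 2 * mat γ a b = n := by
  have h0 : ∃ T ∈ Lam, (0 : Ix → ℂ) = toR ℂ T := ⟨0, Lam.zero, toR_zero.symm⟩
  have h1 : ∀ l, ∃ T ∈ Lam, (Pi.single l 1 : Ix → ℂ) = toR ℂ T := fun l =>
    ⟨_, me1_single l, (toR_single l).symm⟩
  have z0 : ∃ n : ℤ, (0 : ℂ) = n := ⟨0, Int.cast_zero.symm⟩
  have z1 : ∃ n : ℤ, (1 : ℂ) = n := ⟨1, Int.cast_one.symm⟩
  have hb : bW b ∈ WZ := by
    rcases b with _ | l | l | _
    · rw [bW_eq.1.1]; exact ⟨z1, h0, h0, z0⟩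
    · rw [(bW_eq.2 l).1]; exact ⟨z0, h1 l, h0, z0⟩
    · rw [(bW_eq.2 l).2]; exact ⟨z0, h0, h1 l, z0⟩
    · rw [bW_eq.1.2]; exact ⟨z0, h0, h0, z1⟩
  obtain ⟨⟨n, hn⟩, ⟨T, hT, e⟩, ⟨T', hT', e'⟩, m, hm⟩ := WZ_map h hb
  have k : ∀ T ∈ Lam, ∀ l, ∃ n : ℤ, 2 * toR ℂ T l = n := fun T hT l => by
    obtain ⟨n, hn⟩ := Lam.two_mul hT l
    exact ⟨n, by unfold toR; exact_mod_cast hn⟩
  rw [mat_eq, mt_apply, crd_eq, LinearEquiv.coe_coe, hn, e, e', hm]
  rcases a with _ | l | l | _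
  exacts [⟨2 * n, by simp⟩, k T hT l, k T' hT' l, ⟨2 * m, by simp⟩]

end Pool.Agent.E7
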