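import Pool.Agent.Lib.MP_7e5527_ag.EL.SE1a

/-! Algebraic subgroups defined over the rationals. -/

open Filter Topology

noncomputable section

namespace Pool.Agent.E7

theorem se1_real {g : ℂ → ℂ} (hg : Differentiable ℂ g) (h : ∀ x : ℝ, g x = 0) (z : ℂ) :
    g z = 0 := by
  have h3 : Tendsto ((↑) : ℝ → ℂ) (𝓝[≠] 1) (𝓝[≠] 1) := tendsto_nhdsWithin_iff.2
    ⟨tendsto_nhdsWithin_of_tendsto_nhds Complex.continuous_ofReal.continuousAt,
      eventually_nhdsWithin_iff.2 (Eventually.of_forall fun t ht => Complex.ofReal_ne_one.2 ht)⟩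
  exact congrFun (AnalyticOnNhd.eq_of_frequently_eq (g := fun _ => 0)
    (fun x _ => hg.analyticAt x) analyticOnNhd_const
    (h3.frequently (Frequently.of_forall h))) z

theorem se1_two {F : ℂ × ℂ → ℂ} (hF : Differentiable ℂ F)
    (h : ∀ y, F (y, starRingEnd ℂ y) = 0) (a b : ℂ) : F (a, b) = 0 := by
  have h1 : ∀ (r : ℝ) (u : ℂ), F (r + u * Complex.I, r - u * Complex.I) = 0 := fun r =>
    se1_real (hF.comp (by fun_prop)) fun x => by
      simpa [sub_eq_add_neg] using h (r + x * Complex.I)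
  have h2 := se1_real (g := fun r => F (r + (a - b) / 2, r - (a - b) / 2)) (hF.comp (by fun_prop))
    (fun r => by
      have := h1 r (-((a - b) / 2) * Complex.I)
      rwa [mul_assoc, Complex.I_mul_I, mul_neg_one, neg_neg] at this) ((a + b) / 2)
  rwa [show (a + b) / 2 + (a - b) / 2 = a by ring, show (a + b) / 2 - (a - b) / 2 = b by ring]
    at h2

/-- The real points of the Deligne torus are dense. -/
theorem torus_ext {f : ℂˣ → ℂˣ → ℂ} (hf : Differentiable ℂ fun y : ℂ × ℂ =>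
      f (Units.mk0 (Complex.exp y.1) (Complex.exp_ne_zero _))
        (Units.mk0 (Complex.exp y.2) (Complex.exp_ne_zero _)))
    (h : ∀ z, f z (star z) = 0) (s t : ℂˣ) : f s t = 0 := by
  have h1 := se1_two hf (fun y => by
    refine Eq.trans ?_ (h (Units.mk0 (Complex.exp y) (Complex.exp_ne_zero _)))
    congr 1
    exact Units.ext (Complex.exp_conj y)) (Complex.log s) (Complex.log t)
  simpa only [Complex.exp_log s.ne_zero, Complex.exp_log t.ne_zero, Units.mk0_val] using h1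

theorem diff_dE (g k : Gb) (i j : Wx) : Differentiable ℂ fun y : ℂ × ℂ =>
    mat (g * dE (Units.mk0 (Complex.exp y.1) (Complex.exp_ne_zero _))
      (Units.mk0 (Complex.exp y.2) (Complex.exp_ne_zero _)) * k) i j := by
  simp only [mat_mul, mat_dE, Matrix.mul_apply (M := _ * _), Matrix.mul_diagonal, Units.val_mk0]
  fun_prop

theorem diff_dE_inv (g k : Gb) (i j : Wx) : Differentiable ℂ fun y : ℂ × ℂ =>
    mat (g * (dE (Units.mk0 (Complex.exp y.1) (Complex.exp_ne_zero _))
      (Units.mk0 (Complex.exp y.2) (Complex.exp_ne_zero _)))⁻¹ * k) i j := by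
  simp only [dE_inv, mat_mul, mat_dE, Matrix.mul_apply (M := _ * _), Matrix.mul_diagonal,
    Units.val_inv_eq_inv_val, Units.val_mk0, ← Complex.exp_neg]
  fun_prop

theorem se1_aeval {σ : Type} {u : ℂ × ℂ → σ → ℂ} (hu : ∀ i, Differentiable ℂ fun y => u y i)
    (P : MvPolynomial σ ℚ) : Differentiable ℂ fun y => MvPolynomial.aeval (u y) P := by
  induction P using MvPolynomial.induction_on with
  | C c => simp
  | add P Q h1 h2 => simpa only [map_add] using h1.fun_add h2
  | mul_X P i h1 => simpa only [map_mul, MvPolynomial.aeval_X] using h1.fun_mul (hu i)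

theorem dE_mem_MT (Z : Ix → ℂ) (s t : ℂˣ) : gZ Z * dE s t * (gZ Z)⁻¹ ∈ MT Z := by
  refine Subgroup.mem_sInf.2 ?_
  rintro H ⟨⟨S, hS⟩, hH⟩
  refine (hS _).2 fun P hP => ?_
  obtain ⟨f, hf⟩ : ∃ f : ℂˣ → ℂˣ → ℂ, ∀ s t, f s t = MvPolynomial.aeval
    (fun y : Wx × Wx => mat (gZ Z * dE s t * (gZ Z)⁻¹) y.1 y.2) P := ⟨_, fun _ _ => rfl⟩
  rw [← hf]
  refine torus_ext ?_ (fun z => ?_) s t
  · simp only [hf]
    refine se1_aeval (fun i => ?_) P
    exact diff_dE (gZ Z) (gZ Z)⁻¹ i.1 i.2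
  · rw [hf]
    exact (hS _).1 (hH z) P hP

end Pool.Agent.E7
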