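import Mathlib

/-! Two embeddings of a countable domain, in `ℂ_[p]` and in `ℂ`, differ by a field isomorphism. -/

open Cardinal

namespace Pool.Agent.E7

/-- `ℚ_[p]` is a quotient of a set of sequences of rationals, `PadicAlgCl p` is algebraic over it
and dense in `ℂ_[p]` (every point is the limit of a sequence);
`continuum_le_cardinal_of_nontriviallyNormedField`. -/
theorem a1_card (p : ℕ) [Fact p.Prime] : Cardinal.mk ℂ_[p] = 𝔠 := by
  refine le_antisymm ?_ (continuum_le_cardinal_of_nontriviallyNormedField ℂ_[p])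
  have h1 : #ℚ_[p] ≤ 𝔠 :=
    (mk_quotient_le.trans (mk_subtype_le (fun f : ℕ → ℚ => IsCauSeq (padicNorm p) f))).trans
      (by simp)
  have h2 : #(PadicAlgCl p) ≤ 𝔠 :=
    (Algebra.IsAlgebraic.cardinalMk_le_max ℚ_[p] _).trans (max_le h1 aleph0_le_continuum)
  choose u h3 h4 using fun x : ℂ_[p] =>
    mem_closure_iff_seq_limit.1 (UniformSpace.Completion.denseRange_coe x)
  choose v hv using h3
  refine (mk_le_of_injective (f := v) fun x y e => tendsto_nhds_unique (h4 x) ?_).trans ?_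
  · rw [show u x = u y from funext fun n => by rw [← hv, ← hv, e]]
    exact h4 y
  · simpa using power_le_power_right (c := ℵ₀) h2

/-- Transcendence bases over `R ⧸ ker ψ` (`exists_isTranscendenceBasis`,
`IsAlgClosed.cardinal_eq_cardinal_transcendence_basis_of_aleph0_lt`,
`IsAlgClosure.equivOfEquiv_algebraMap`). -/
theorem a1_equiv {R K L : Type} [CommRing R] [Countable R] [Field K] [Field L] [IsAlgClosed K]
    [IsAlgClosed L] (hc : #K = #L) (hK : ℵ₀ < #K) (ψ : R →+* K) (φ : R →+* L)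
    (h : ∀ r, ψ r = 0 ↔ φ r = 0) : ∃ e : K ≃+* L, ∀ r, e (ψ r) = φ r := by
  let F := R ⧸ RingHom.ker ψ
  let : Algebra F K := (RingHom.kerLift ψ).toAlgebra
  let : Algebra F L := (Ideal.Quotient.lift _ φ fun r hr => (h r).1 hr).toAlgebra
  have : FaithfulSMul F K := (faithfulSMul_iff_algebraMap_injective _ _).2 ψ.kerLift_injective
  have : FaithfulSMul F L := (faithfulSMul_iff_algebraMap_injective _ _).2
    (RingHom.lift_injective_of_ker_le_ideal _ _ fun r hr => (h r).2 hr)
  have : Nontrivial F := (algebraMap F K).domain_nontrivial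
  have hF : #F ≤ ℵ₀ := mk_quotient_le.trans mk_le_aleph0
  obtain ⟨s, hs⟩ := exists_isTranscendenceBasis F K
  obtain ⟨t, ht⟩ := exists_isTranscendenceBasis F L
  have h1 := IsAlgClosed.cardinal_eq_cardinal_transcendence_basis_of_aleph0_lt' _ hs hF hK
  have h2 := IsAlgClosed.cardinal_eq_cardinal_transcendence_basis_of_aleph0_lt' _ ht hF (hc ▸ hK)
  obtain ⟨e⟩ := Cardinal.eq.1 (h1.symm.trans (hc.trans h2))
  have := IsAlgClosed.isAlgClosure_of_transcendence_basis _ hs
  have := IsAlgClosed.isAlgClosure_of_transcendence_basis _ ht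
  let e' := hs.1.aevalEquiv.symm.trans ((MvPolynomial.renameEquiv F e).trans ht.1.aevalEquiv)
  refine ⟨IsAlgClosure.equivOfEquiv K L e'.toRingEquiv, fun r => ?_⟩
  exact (IsAlgClosure.equivOfEquiv_algebraMap K L e'.toRingEquiv
    (algebraMap F _ (Ideal.Quotient.mk _ r))).trans
    (congrArg (algebraMap _ L) (e'.commutes (Ideal.Quotient.mk _ r)))

theorem exists_equiv_ker (p : ℕ) [Fact p.Prime] {R : Type} [CommRing R] [Countable R]
    (ψ : R →+* ℂ_[p]) (φ : R →+* ℂ) (h : ∀ r, ψ r = 0 ↔ φ r = 0) :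
    ∃ e : ℂ_[p] ≃+* ℂ, ∀ r, e (ψ r) = φ r :=
  a1_equiv ((a1_card p).trans Cardinal.mk_complex.symm)
    ((a1_card p).symm ▸ Cardinal.aleph0_lt_continuum) ψ φ h

end Pool.Agent.E7
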