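import Pool.Agent.Lib.MP_7e5527_ag.EL.GCb

/-! The stabiliser of a frame, reflections of the octonions. -/

open Filter Topology

noncomputable section

namespace Pool.Agent.E7

theorem gc_mul_one (x : Fin 8 → ℂ) : omul x o1 = x := by
  apply oct_ext <;> simp [o1, omul_0, omul_1, omul_2, omul_3, omul_4, omul_5, omul_6, omul_7]

theorem gc_one_mul (x : Fin 8 → ℂ) : omul o1 x = x := by
  apply oct_ext <;> simp [o1, omul_0, omul_1, omul_2, omul_3, omul_4, omul_5, omul_6, omul_7]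

theorem gc_norm : onorm o1 = 1 := by simp [o1, onorm_eq]

theorem gc_conj : oconj o1 = o1 := by
  apply oct_ext <;> simp [o1, oconj]

theorem gc_nondeg {v w : Fin 8 → ℂ} (h : ∀ x, oip x v = oip x w) : v = w := funext fun k => by
  simpa [oip, Pi.single_apply] using h (Pi.single k 1)

/-- The trilinear form is preserved. -/
theorem gc_tri {A : JE} (h : Sim A 1) {g : Fin 3 → (Fin 8 → ℂ) ≃ₗ[ℂ] (Fin 8 → ℂ)}
    (hA : ∀ Z, A Z = mkJ (dg Z) fun i => g i (oc Z i)) (x y z : Fin 8 → ℂ) :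
    oip (g 0 x) (oconj (omul (g 1 y) (g 2 z))) = oip x (oconj (omul y z)) := by
  have h1 := h.2 (mkJ 0 ![x, y, z])
  rw [hA] at h1
  simp only [nrm, dg_mkJ, oc_mkJ, Pi.zero_apply, zero_mul, Finset.sum_const_zero, sub_self,
    zero_add, one_mul, omul_assoc_0, two_mul_omul_0] at h1
  exact h1

theorem gc_scalar {a : Fin 8 → ℂ} (h1 : a 1 = 0) (h2 : a 2 = 0) (h3 : a 3 = 0) (h4 : a 4 = 0)
    (h5 : a 5 = 0) (h6 : a 6 = 0) (h7 : a 7 = 0) : a = a 0 • o1 := by
  apply oct_ext <;> simp [o1, *]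

/-- The middle nucleus. -/
theorem gc_nuc {a : Fin 8 → ℂ} (h : ∀ y z, omul y (omul a z) = omul (omul y a) z) :
    a = a 0 • o1 := by
  have h1 := congrFun (h (Pi.single 1 1) (Pi.single 2 1))
  have h2 := congrFun (h (Pi.single 1 1) (Pi.single 4 1))
  have h3 := congrFun (h (Pi.single 2 1) (Pi.single 4 1)) 7
  have e4 := h1 7
  have e5 := h1 6
  have e6 := h1 5
  have e7 := h1 4
  have e2 := h2 7
  have e3 := h2 6
  simp [omul_0, omul_1, omul_2, omul_3, omul_4, omul_5, omul_6, omul_7, neg_eq_self, self_eq_neg]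
    at h3 e2 e3 e4 e5 e6 e7
  exact gc_scalar h3 e2 e3 e4 e5 e6 e7

/-- The centre. -/
theorem gc_cen {a : Fin 8 → ℂ} (h : ∀ z, omul a z = omul z a) : a = a 0 • o1 := by
  have h1 := congrFun (h (Pi.single 1 1))
  have e1 := congrFun (h (Pi.single 2 1)) 3
  have e2 := h1 3
  have e3 := h1 2
  have e4 := h1 5
  have e5 := h1 4
  have e6 := h1 7
  have e7 := h1 6
  simp [omul_2, omul_3, omul_4, omul_5, omul_6, omul_7, neg_eq_self, self_eq_neg]
    at e1 e2 e3 e4 e5 e6 e7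
  exact gc_scalar e1 e2 e3 e4 e5 e6 e7

theorem gc_sq {a : Fin 8 → ℂ} (h : onorm a = 1) (h1 : a = a 0 • o1) : a 0 * a 0 = 1 := by
  rw [h1, onorm_smul, gc_norm, mul_one, sq] at h
  exact h

theorem gc_left {a u v : Fin 8 → ℂ} (h : onorm a = 1) (h1 : omul u a = v) :
    u = omul v (oconj a) := by
  rw [← h1, mul_mul_conj, h, one_smul]

theorem gc_right {a u v : Fin 8 → ℂ} (h : onorm a = 1) (h1 : omul (oconj a) u = v) :
    u = omul a v := by
  rw [← h1, mul_conj_mul, h, one_smul]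

/-- A triality triple that starts with the identity. -/
theorem rigid_id {A : JE} (h : Sim A 1) {g : Fin 3 → (Fin 8 → ℂ) ≃ₗ[ℂ] (Fin 8 → ℂ)}
    (hg : ∀ i x, onorm (g i x) = onorm x) (hA : ∀ Z, A Z = mkJ (dg Z) fun i => g i (oc Z i))
    (h0 : ∀ x, g 0 x = x) : ∃ s, A = dgE s := by
  have h1 : ∀ y z, omul (g 1 y) (g 2 z) = omul y z := fun y z => by
    rw [← oconj_oconj (omul (g 1 y) _), gc_nondeg fun x => (congrArg (oip · _) (h0 x)).symm.trans
      (gc_tri h hA x y z), oconj_oconj]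
  obtain ⟨a, ha⟩ : ∃ a, g 2 o1 = a := ⟨_, rfl⟩
  have hn : onorm a = 1 := by rw [← ha, hg, gc_norm]
  have h2 : ∀ y, g 1 y = omul y (oconj a) := fun y =>
    gc_left hn (by rw [← ha, h1, gc_mul_one])
  have h3 : ∀ z, g 2 z = omul a z := fun z =>
    gc_right hn (by rw [← gc_one_mul (oconj a), ← h2, h1, gc_one_mul])
  have h4 := gc_nuc (a := a) fun y z => by
    rw [← h1 (omul y a), h2, h3, mul_mul_conj, hn, one_smul]
  have h5 := gc_sq hn h4
  refine ⟨![⟨a 0, a 0, h5, h5⟩, 1, 1], LinearEquiv.ext fun Z => ?_⟩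
  rw [hA, dgE_apply]
  generalize a 0 = c at h4 h5
  subst h4
  apply jext <;>
    simp [dgf, h0, h2, h3, sq, h5, oconj_smul, gc_conj, omul_smul_left, omul_smul_right,
      gc_mul_one, gc_one_mul]

/-- No triality triple starts with a reflection. -/
theorem rigid_rfo {A : JE} (h : Sim A 1) {g : Fin 3 → (Fin 8 → ℂ) ≃ₗ[ℂ] (Fin 8 → ℂ)}
    (hg : ∀ i x, onorm (g i x) = onorm x) (hA : ∀ Z, A Z = mkJ (dg Z) fun i => g i (oc Z i))
    (h0 : ∀ x, g 0 x = rfo o1 x) : False := by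
  have h1 : ∀ y z, omul (g 1 y) (g 2 z) = -omul (oconj z) (oconj y) := fun y z => by
    rw [← oconj_omul, eq_neg_iff_add_eq_zero, ← neg_eq_iff_add_eq_zero]
    refine gc_nondeg fun x => ?_
    rw [← gc_tri h hA x y z, h0, rfo_o1, oip_neg_left, oip_oconj, oip_neg_right]
  obtain ⟨a, ha⟩ : ∃ a, g 2 o1 = a := ⟨_, rfl⟩
  have hn : onorm a = 1 := by rw [← ha, hg, gc_norm]
  have h2 : ∀ y, g 1 y = -omul (oconj y) (oconj a) := fun y => by
    rw [← omul_neg_left]
    exact gc_left hn (by rw [← ha, h1, gc_conj, gc_one_mul])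
  have h3 : ∀ z, g 2 z = omul a (oconj z) := fun z => gc_right hn (by
    have h4 := h1 o1 z
    rwa [h2, gc_conj, gc_one_mul, gc_mul_one, omul_neg_left, neg_inj] at h4)
  have h4 : ∀ y z, omul y (omul a z) = omul z (omul y a) := fun y z => by
    have h5 := h1 (oconj (omul y a)) (oconj z)
    rwa [h2, h3, oconj_oconj, oconj_oconj, mul_mul_conj, hn, one_smul, omul_neg_left, neg_inj] at h5
  have h5 := gc_cen (a := a) fun z => by simpa only [gc_one_mul] using h4 o1 z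
  have h6 := gc_sq hn h5
  have h7 := congrFun (h4 (Pi.single 1 1) (Pi.single 2 1)) 3
  generalize a 0 = c at h5 h6
  subst h5
  simp [omul_smul_left, omul_smul_right, gc_mul_one, gc_one_mul, omul_3, self_eq_neg] at h7
  simp [h7] at h6

end Pool.Agent.E7
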