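import Pool.Agent.Lib.MP_7e5527_ag.EL.GB
import Pool.Agent.Lib.MP_7e5527_ag.EL.GC

/-! The group of similitudes is generated by unipotent elements and the torus. -/

open Filter Topology

noncomputable section

namespace Pool.Agent.E7

/-- An element that exchanges two idempotents and reflects the first octonion. -/
def gd_sig (a : Fin 8 → ℂ) : JE := elmE (oconj a) * swpE * elmE (-a) * swpE * elmE (oconj a)

theorem gd_inE (a : Fin 8 → ℂ) : InE (gd_sig a) :=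
  ((((inE_elm _).mul inE_swp).mul (inE_elm _)).mul inE_swp).mul (inE_elm _)

theorem gd_sim (a : Fin 8 → ℂ) : Sim (gd_sig a) 1 := by
  have h := ((((sim_elm (oconj a)).mul sim_swp).mul (sim_elm (-a))).mul sim_swp).mul
    (sim_elm (oconj a))
  simp only [one_mul] at h
  exact h

theorem gd_spec {a : Fin 8 → ℂ} (h : onorm a = 1) (Z : Ix → ℂ) :
    dg (gd_sig a Z) 0 = dg Z 0 ∧ dg (gd_sig a Z) 1 = dg Z 2 ∧ dg (gd_sig a Z) 2 = dg Z 1 ∧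
      oc (gd_sig a Z) 0 = rfo a (oc Z 0) ∧
      (oc Z 1 = 0 → oc Z 2 = 0 → oc (gd_sig a Z) 1 = 0 ∧ oc (gd_sig a Z) 2 = 0) := by
  have e : gd_sig a Z = elm (oconj a) (swp (elm (-a) (swp (elm (oconj a) Z)))) := rfl
  rw [e]
  simp only [elm, swp, dg_mkJ, oc_mkJ, Matrix.cons_val_zero, Matrix.cons_val_one, Matrix.cons_val,
    oconj_oconj, oconj_add, oconj_smul, oconj_neg, oip_oconj, onorm_oconj, onorm_neg, h,
    oip_neg_left, oip_add_right, oip_smul_right, oip_neg_right, oip_self, rfo, oip_comm (oc Z 0) a,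
    true_and]
  refine ⟨by ring, by ring, ?_, fun h1 h2 => ?_⟩
  · module
  · simp only [h1, h2, oconj_zero, omul_zero_right, add_zero, and_self]

theorem gd_o1 : onorm o1 = 1 := by simp [onorm_eq, o1]

theorem exists_rot {a : Fin 8 → ℂ} (h : onorm a = 1) : ∃ B, InE B ∧ Sim B 1 ∧
    (∀ i, B (ed i) = ed i) ∧ ∀ Z, oc (B Z) 0 = rfo o1 (rfo a (oc Z 0)) := by
  have k : ∀ Z, oc ((gd_sig o1 * gd_sig a) Z) 0 = rfo o1 (rfo a (oc Z 0)) := fun Z => by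
    rw [LinearEquiv.mul_apply, (gd_spec gd_o1 _).2.2.2.1, (gd_spec h _).2.2.2.1]
  refine ⟨gd_sig o1 * gd_sig a, (gd_inE _).mul (gd_inE _),
    by simpa using (gd_sim o1).mul (gd_sim a), fun i => ?_, k⟩
  obtain ⟨a0, a1, a2, -, a4⟩ := gd_spec h (ed i)
  obtain ⟨b0, b1, b2, -, b4⟩ := gd_spec gd_o1 (gd_sig a (ed i))
  obtain ⟨c1, c2⟩ := b4 (a4 rfl rfl).1 (a4 rfl rfl).2
  refine jext (b0.trans a0) (b1.trans a2) (b2.trans a1) ?_ c1 c2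
  rw [k]
  simp [ed, rfo, oip_zero_left]

theorem gd_fix {C : JE} (h : ∀ i, C (ed i) = ed i) (i : Fin 3) : C⁻¹ (ed i) = ed i := by
  have e : C⁻¹ (C (ed i)) = ed i := C.symm_apply_apply _
  rwa [h] at e

theorem gd_lift (g : (Fin 8 → ℂ) ≃ₗ[ℂ] (Fin 8 → ℂ)) (hg : ∀ x, onorm (g x) = onorm x) :
    ∃ C, InE C ∧ Sim C 1 ∧ (∀ i, C (ed i) = ed i) ∧ ((∀ Z, oc (C Z) 0 = g (oc Z 0)) ∨
      ∀ Z, oc (C Z) 0 = rfo o1 (g (oc Z 0))) := by
  refine refl_ind (p := fun f => ∃ C, InE C ∧ Sim C 1 ∧ (∀ i, C (ed i) = ed i) ∧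
    ((∀ Z, oc (C Z) 0 = f (oc Z 0)) ∨ ∀ Z, oc (C Z) 0 = rfo o1 (f (oc Z 0))))
    ⟨1, InE.one, ⟨one_ne_zero, fun Z => (one_mul _).symm⟩, fun _ => rfl, Or.inl fun _ => rfl⟩ ?_ g hg
  rintro f a ha ⟨C, c1, c2, c3, c4⟩
  obtain ⟨B, b1, b2, b3, b4⟩ := exists_rot ha
  rcases c4 with c4 | c4
  · exact ⟨B * C, b1.mul c1, by simpa using b2.mul c2,
      fun i => by rw [LinearEquiv.mul_apply, c3, b3],
      Or.inr fun Z => by rw [LinearEquiv.mul_apply, b4, c4]⟩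
  · refine ⟨B⁻¹ * C, b1.inv.mul c1, by simpa using b2.inv.mul c2,
      fun i => by rw [LinearEquiv.mul_apply, c3, gd_fix b3], Or.inl fun Z => ?_⟩
    have e := b4 (B⁻¹ (C Z))
    rw [show B (B⁻¹ (C Z)) = C Z from B.apply_symm_apply _, c4] at e
    have e' := congrArg (fun x => rfo a (rfo o1 x)) e
    simp only [rfo_rfo gd_o1, rfo_rfo ha] at e'
    exact e'.symm

theorem Sim.inE {A : JE} {c : ℂ} (h : Sim A c) : InE A := by
  obtain ⟨B, b1, b2, b3⟩ := frame h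
  obtain ⟨g, g1, g2⟩ := peirce b2 b3
  obtain ⟨C, c1, c2, c3, c4⟩ := gd_lift (g 0) (g1 0)
  have d2 : Sim (B * A * C⁻¹) 1 := by simpa using b2.mul c2.inv
  obtain ⟨k, k1, k2⟩ := peirce d2 fun i => by rw [LinearEquiv.mul_apply, gd_fix c3, b3]
  have e : ∀ x, k 0 x = g 0 (oc (C⁻¹ (mkJ 0 fun _ => x)) 0) := fun x => by
    have e1 := congrArg (fun Z => oc Z 0) (k2 (mkJ 0 fun _ => x))
    rw [LinearEquiv.mul_apply, g2] at e1
    exact e1.symm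
  have e2 : ∀ x : Fin 8 → ℂ, oc (C (C⁻¹ (mkJ 0 fun _ => x))) 0 = x := fun x => by
    rw [show C (C⁻¹ (mkJ 0 fun _ => x)) = mkJ 0 fun _ => x from C.apply_symm_apply _, oc_mkJ]
  rcases c4 with c4 | c4
  · obtain ⟨s, hs⟩ := rigid_id d2 k1 k2 fun x => by rw [e, ← c4, e2]
    have := (b1.inv.mul (hs ▸ inE_dg s)).mul c1
    rwa [show B⁻¹ * (B * A * C⁻¹) * C = A by group] at this
  · exact (rigid_rfo d2 k1 k2 fun x => by rw [e, ← rfo_rfo gd_o1 (g 0 _), ← c4, e2]).elim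

theorem gd_Lv {A : JE} {c : ℂ} {g : Gb} (h : Sim A c) (hg : Lv A g) : g ∈ G1 := by
  obtain ⟨k, k1, k2⟩ := h.inE
  rwa [hg.unique k2]

theorem GE_le_G1 : GE ≤ G1 := by
  have hG : Gam ≤ G1 := by
    refine (Subgroup.closure_le _).2 ?_
    rintro g (⟨B, -, rfl⟩ | ⟨A, hA, h⟩ | rfl)
    · exact nE_mem_G1 _
    · obtain ⟨A', a1, -, a3⟩ := hA.1.exists_Sim
      exact gd_Lv a1 (a3 g h)
    · exact wE_mem_G1
  intro g hg
  obtain ⟨γ, hγ, B, B', s, A, c, h1, h2, -⟩ := GE_reduce hg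
  exact (G1.mul_mem_cancel_left (G1.mul_mem (G1.mul_mem (G1.mul_mem (G1.mul_mem (scE_mem_G1 s)
    (nE_mem_G1 B')) wE_mem_G1) (nE_mem_G1 B)) (hG hγ))).1 (gd_Lv h1 h2)

theorem GE_le {H : Subgroup Gb} (hn : ∀ B, nE B ∈ H) (hw : ∀ B, wE * nE B * wE⁻¹ ∈ H)
    (hd : ∀ s t, dE s t ∈ H) : GE ≤ H := by
  refine GE_le_G1.trans ((Subgroup.closure_le _).2 ?_)
  rintro g ((⟨B, rfl⟩ | ⟨B, rfl⟩) | ⟨y, rfl⟩)
  exacts [hn B, hw B, hd _ _]

end Pool.Agent.E7
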