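import Pool.Agent.Lib.MP_7e5527_ag.EL.SC3b

/-! Irreducibility of the representation. -/

open Filter Topology

noncomputable section

namespace Pool.Agent.E7

theorem sc3_onorm_o1 : onorm o1 = 1 := by
  simp [onorm_eq, o1]

theorem sc3_ed_of_one {K : Submodule ℂ (Ix → ℂ)} (he : ∀ u, ∀ X ∈ K, elm u X ∈ K)
    {X : Ix → ℂ} (hX : X ∈ K) (h1 : dg X 1 ≠ 0) : ed 2 ∈ K := by
  have e : (2 * dg X 1) • (ed 2 : Ix → ℂ) = elm o1 X + elm (-o1) X - (2 : ℂ) • X := by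
    apply jext
    · simp [ed, elm]; ring
    · simp [ed, elm]; ring
    · simp [ed, elm, onorm_neg, sc3_onorm_o1, oip_neg_left]; ring
    · simp [ed, elm, oconj_neg]; module
    · simp [ed, elm, omul_neg_left]; module
    · simp [ed, elm]; module
  have hm : (2 * dg X 1) • (ed 2 : Ix → ℂ) ∈ K := by
    rw [e]
    exact K.sub_mem (K.add_mem (he _ _ hX) (he _ _ hX)) (K.smul_mem _ hX)
  exact (K.smul_mem_iff (mul_ne_zero two_ne_zero h1)).1 hm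

theorem sc3_ed_of_dg {K : Submodule ℂ (Ix → ℂ)} (he : ∀ u, ∀ X ∈ K, elm u X ∈ K)
    (hc : ∀ X ∈ K, cyc X ∈ K) {X : Ix → ℂ} (hX : X ∈ K)
    (h1 : dg X 0 ≠ 0 ∨ dg X 1 ≠ 0 ∨ dg X 2 ≠ 0) : ed 2 ∈ K := by
  rcases h1 with h | h | h
  · exact sc3_ed_of_one he (hc _ hX) (by simpa [cyc] using h)
  · exact sc3_ed_of_one he hX h
  · exact sc3_ed_of_one he (hc _ (hc _ hX)) (by simpa [cyc] using h)

theorem sc3_ed_of_oc {K : Submodule ℂ (Ix → ℂ)} (he : ∀ u, ∀ X ∈ K, elm u X ∈ K)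
    (hc : ∀ X ∈ K, cyc X ∈ K) {X : Ix → ℂ} (hX : X ∈ K) (h0 : oc X 0 ≠ 0) : ed 2 ∈ K := by
  by_cases h1 : dg X 0 ≠ 0 ∨ dg X 1 ≠ 0 ∨ dg X 2 ≠ 0
  · exact sc3_ed_of_dg he hc hX h1
  push Not at h1
  obtain ⟨k, hk⟩ : ∃ k, oc X 0 k ≠ 0 := by
    by_contra hh
    push Not at hh
    exact h0 (funext hh)
  refine sc3_ed_of_dg he hc (he (Pi.single k 1) X hX) (Or.inr (Or.inr ?_))
  have e : oip (Pi.single k (1 : ℂ)) (oconj (oc X 0)) = 2 * oconj (oc X 0) k := by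
    simp [oip, Pi.single_apply]
  have e2 : oconj (oc X 0) k ≠ 0 := by
    unfold oconj
    split_ifs
    · exact hk
    · exact neg_ne_zero.2 hk
  have e3 : dg (elm (Pi.single k 1) X) 2 = 2 * oconj (oc X 0) k := by
    simp only [elm, dg_mkJ, Matrix.cons_val, h1.2.1, h1.2.2, e]
    ring
  rw [e3]
  exact mul_ne_zero two_ne_zero e2

theorem sc3_top {K : Submodule ℂ (Ix → ℂ)} (he : ∀ u, ∀ X ∈ K, elm u X ∈ K)
    (hc : ∀ X ∈ K, cyc X ∈ K) (h2 : ed 2 ∈ K) : K = ⊤ := by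
  have h0 : (ed 0 : Ix → ℂ) ∈ K := by
    have e : (ed 0 : Ix → ℂ) = cyc (ed 2) := by apply jext <;> simp [ed, cyc]
    rw [e]; exact hc _ h2
  have h1 : (ed 1 : Ix → ℂ) ∈ K := by
    have e : (ed 1 : Ix → ℂ) = cyc (ed 0) := by apply jext <;> simp [ed, cyc]
    rw [e]; exact hc _ h0
  have k0 : ∀ x : Fin 8 → ℂ, mkJ 0 ![x, 0, 0] ∈ K := by
    intro x
    have e : mkJ 0 ![x, 0, 0] = elm (oconj x) (ed 1) - ed 1 - onorm (oconj x) • ed 2 := by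
      apply jext <;>
        simp [ed, elm, oconj_oconj, oconj_zero, oip_zero_right, omul_zero_right]
    rw [e]
    exact K.sub_mem (K.sub_mem (he _ _ h1) h1) (K.smul_mem _ h2)
  have k1 : ∀ x : Fin 8 → ℂ, mkJ 0 ![0, x, 0] ∈ K := by
    intro x
    have e : mkJ 0 ![0, x, 0] = cyc (mkJ 0 ![x, 0, 0]) := by apply jext <;> simp [cyc]
    rw [e]; exact hc _ (k0 x)
  have k2 : ∀ x : Fin 8 → ℂ, mkJ 0 ![0, 0, x] ∈ K := by
    intro x
    have e : mkJ 0 ![0, 0, x] = cyc (mkJ 0 ![0, x, 0]) := by apply jext <;> simp [cyc]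
    rw [e]; exact hc _ (k1 x)
  rw [eq_top_iff]
  intro X _
  have e : X = dg X 0 • ed 0 + dg X 1 • ed 1 + dg X 2 • ed 2 + mkJ 0 ![oc X 0, 0, 0] +
      mkJ 0 ![0, oc X 1, 0] + mkJ 0 ![0, 0, oc X 2] := by
    apply jext <;> simp [ed]
  rw [e]
  exact K.add_mem (K.add_mem (K.add_mem (K.add_mem (K.add_mem (K.smul_mem _ h0)
    (K.smul_mem _ h1)) (K.smul_mem _ h2)) (k0 _)) (k1 _)) (k2 _)

/-- `J` is irreducible under the similitudes. -/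
theorem irred (K : Submodule ℂ (Ix → ℂ)) (h : ∀ A c, Sim A c → ∀ X ∈ K, A X ∈ K) :
    K = ⊥ ∨ K = ⊤ := by
  have he : ∀ u, ∀ X ∈ K, elm u X ∈ K := fun u X hX => h _ _ (sim_elm u) X hX
  have hc : ∀ X ∈ K, cyc X ∈ K := fun X hX => h _ _ sim_cyc X hX
  by_cases hK : K = ⊥
  · exact Or.inl hK
  refine Or.inr (sc3_top he hc ?_)
  obtain ⟨X, hX, hX0⟩ := Submodule.exists_mem_ne_zero_of_ne_bot hK
  by_cases h1 : dg X 0 ≠ 0 ∨ dg X 1 ≠ 0 ∨ dg X 2 ≠ 0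
  · exact sc3_ed_of_dg he hc hX h1
  push Not at h1
  by_cases k0 : oc X 0 = 0
  · by_cases k1 : oc X 1 = 0
    · by_cases k2 : oc X 2 = 0
      · exact absurd (jext h1.1 h1.2.1 h1.2.2 k0 k1 k2) hX0
      · exact sc3_ed_of_oc he hc (hc _ hX) (by simpa [cyc] using k2)
    · exact sc3_ed_of_oc he hc (hc _ (hc _ hX)) (by simpa [cyc] using k1)
  · exact sc3_ed_of_oc he hc hX k0

end Pool.Agent.E7
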