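import Pool.Agent.Lib.MP_7e5527_ag.EL.ME

/-! Semi-invariant tensors and their stabiliser. -/

open Matrix

noncomputable section

namespace Pool.Agent.E7

/-- The tensors on which `Λ` acts by `χ`. -/
def Tch (κ : Type) [Fintype κ] [DecidableEq κ] (Λ : Subgroup Gb) (χ : Gb → ℂ) :
    Submodule ℂ ((κ → Wx) → ℂ) where
  carrier := {t | ∀ γ ∈ Λ, Rp κ (mat γ) *ᵥ t = χ γ • t}
  add_mem' := fun h h' γ hγ => by rw [mulVec_add, h γ hγ, h' γ hγ, smul_add]
  zero_mem' := fun γ _ => by rw [mulVec_zero, smul_zero]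
  smul_mem' := fun c t h γ hγ => by rw [mulVec_smul, h γ hγ, smul_comm]

variable {κ : Type} [Fintype κ] [DecidableEq κ]

/-- An injective map of a space of finite dimension to itself is onto. -/
theorem stab_inv {U : Submodule ℂ ((κ → Wx) → ℂ)} {g : Gb} (h : ∀ t ∈ U, Rp κ (mat g) *ᵥ t ∈ U) :
    ∀ t ∈ U, Rp κ (mat g⁻¹) *ᵥ t ∈ U := by
  have e : ∀ u, Rp κ (mat g⁻¹) *ᵥ Rp κ (mat g) *ᵥ u = u := fun u => by
    rw [mulVec_mulVec, ← Rp_mul, mat_inv_mul, Rp_one, one_mulVec]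
  let f : U →ₗ[ℂ] U := (mulVecLin (Rp κ (mat g))).restrict h
  have hf : Function.Injective f := fun u v huv => Subtype.ext (by
    have h1 : Rp κ (mat g) *ᵥ (u : (κ → Wx) → ℂ) = Rp κ (mat g) *ᵥ (v : (κ → Wx) → ℂ) :=
      congrArg Subtype.val huv
    rw [← e u, h1, e])
  intro t ht
  obtain ⟨u, hu⟩ := LinearMap.injective_iff_surjective.1 hf ⟨t, ht⟩
  have h1 : Rp κ (mat g) *ᵥ (u : (κ → Wx) → ℂ) = t := congrArg Subtype.val hu
  rw [← h1, e]
  exact u.2

/-- The stabiliser of a space of tensors. -/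
def StabT (U : Submodule ℂ ((κ → Wx) → ℂ)) : Subgroup Gb where
  carrier := {g | ∀ t ∈ U, Rp κ (mat g) *ᵥ t ∈ U}
  one_mem' := fun t ht => by rwa [mat_one, Rp_one, one_mulVec]
  mul_mem' := fun h h' t ht => by
    rw [mat_mul, Rp_mul, ← mulVec_mulVec]
    exact h _ (h' t ht)
  inv_mem' := stab_inv

/-- The solutions of a rational linear system are spanned by the rational ones: write `t` in a
basis over `ℚ` of the span of its entries. -/
theorem span_rat_sol {n α : Type} [Fintype n] (M : α → n → ℚ) {t : n → ℂ}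
    (h : ∀ i, ∑ a, (M i a : ℂ) * t a = 0) :
    t ∈ Submodule.span ℂ {u : n → ℂ | ∃ r : n → ℚ, u = (fun a => (r a : ℂ)) ∧
      ∀ i, ∑ a, M i a * r a = 0} := by
  classical
  let b := Module.Basis.ofVectorSpace ℚ ℂ
  let S := Finset.univ.biUnion fun a => (b.repr (t a)).support
  have ht : t = ∑ j ∈ S, b j • fun a => ((b.repr (t a) j : ℚ) : ℂ) := by
    funext a
    have h1 := b.linearCombination_repr (t a)
    rw [Finsupp.linearCombination_apply, Finsupp.sum_of_support_subset _ (s := S)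
      (Finset.subset_biUnion_of_mem (fun a => (b.repr (t a)).support) (Finset.mem_univ a))
      (fun i x => x • b i) (fun _ _ => zero_smul _ _)] at h1
    rw [Finset.sum_apply]
    refine h1.symm.trans (Finset.sum_congr rfl fun j _ => ?_)
    rw [Pi.smul_apply, smul_eq_mul, Rat.smul_def, mul_comm]
  rw [ht]
  refine Submodule.sum_mem _ fun j _ => Submodule.smul_mem _ _ (Submodule.subset_span
    ⟨fun a => b.repr (t a) j, rfl, fun i => ?_⟩)
  have h1 : ∑ a, M i a • t a = 0 := by simpa only [Rat.smul_def] using h i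
  have h2 := congrArg (fun z => b.repr z j) h1
  simpa [map_sum, Finsupp.finsetSum_apply] using h2

theorem mt_cast (q : Matrix Wx Wx ℚ) (a b : κ → Wx) :
    Rp κ (q.map (Rat.castHom ℂ)) a b = (Rp κ q a b : ℚ) := by
  rw [← Rp_map]
  rfl

/-- The equations are the entries of `(Rp (mat γ) - χ γ) * Rp X * r` for `γ ∈ Λ` and `r` a
rational point of the space (`ratM_GG`, `Rp_map`). -/
theorem qcl_stab {Λ : Subgroup Gb} (h : Λ ≤ GG) {χ : Gb → ℂ} (hχ : ∀ γ ∈ Λ, χ γ = 1 ∨ χ γ = -1) :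
    QCl (StabT (Tch κ Λ χ)) := by
  have hq : ∀ γ : Λ, ∃ (q : Matrix Wx Wx ℚ) (c : ℚ), mat γ = q.map (Rat.castHom ℂ) ∧ χ γ = c :=
    fun γ => by
      choose q hq using ratM_GG (h γ.2)
      have h1 : mat γ = (Matrix.of q).map (Rat.castHom ℂ) := Matrix.ext hq
      rcases hχ γ γ.2 with h2 | h2
      · exact ⟨_, 1, h1, by simpa using h2⟩
      · exact ⟨_, -1, h1, by simpa using h2⟩
  choose q c hq hc using hq
  let M : Λ × (κ → Wx) → (κ → Wx) → ℚ := fun i b =>
    Rp κ (q i.1) i.2 b - if i.2 = b then c i.1 else 0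
  have hM : ∀ t : (κ → Wx) → ℂ, t ∈ Tch κ Λ χ ↔ ∀ i, ∑ b, (M i b : ℂ) * t b = 0 := fun t => by
    have e : ∀ i : Λ × (κ → Wx), ∑ b, (M i b : ℂ) * t b =
        (Rp κ (mat i.1) *ᵥ t) i.2 - χ i.1 * t i.2 := fun i => by
      simp only [M, hq, hc, mulVec, dotProduct, mt_cast, Rat.cast_sub, sub_mul,
        Finset.sum_sub_distrib, apply_ite (fun x : ℚ => (x : ℂ)), Rat.cast_zero, ite_mul, zero_mul,
        Finset.sum_ite_eq, Finset.mem_univ, if_true]
    simp only [e, sub_eq_zero]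
    exact ⟨fun ht i => congrFun (ht i.1 i.1.2) i.2, fun ht γ hγ => funext fun a => ht (⟨γ, hγ⟩, a)⟩
  refine ⟨{P | ∀ g ∈ StabT (Tch κ Λ χ), MvPolynomial.aeval (fun y => mat g y.1 y.2) P = 0},
    fun g => ⟨fun hg P hP => hP g hg, fun hg t ht => ?_⟩⟩
  refine Submodule.span_induction (p := fun t _ => Rp κ (mat g) *ᵥ t ∈ Tch κ Λ χ) ?_ ?_ ?_ ?_
    (span_rat_sol M ((hM t).1 ht))
  · rintro _ ⟨r, rfl, hr⟩
    have hr' : (fun a => (r a : ℂ)) ∈ Tch κ Λ χ := (hM _).2 fun i => by exact_mod_cast hr i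
    refine (hM _).2 fun i => ?_
    have e : ∀ k : Gb, MvPolynomial.aeval (fun y : Wx × Wx => mat k y.1 y.2)
        (∑ b, MvPolynomial.C (M i b) * ∑ a : κ → Wx, (∏ l, MvPolynomial.X (b l, a l)) *
          MvPolynomial.C (r a) : MvPolynomial (Wx × Wx) ℚ) =
        ∑ b, (M i b : ℂ) * (Rp κ (mat k) *ᵥ fun a => (r a : ℂ)) b := fun k => by
      simp only [map_sum, map_mul, map_prod, MvPolynomial.aeval_X, MvPolynomial.aeval_C, eq_ratCast]
      rfl
    rw [← e]
    exact hg _ fun k hk => (e k).trans ((hM _).1 (hk _ hr') i)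
  · rw [mulVec_zero]
    exact zero_mem _
  · intro x y _ _ hx hy
    rw [mulVec_add]
    exact add_mem hx hy
  · intro a x _ hx
    rw [mulVec_smul]
    exact Submodule.smul_mem _ _ hx

end Pool.Agent.E7
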