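import Pool.Agent.Lib.MP_7e5527_ag.E7.GDefs

/-! The Shimura datum of type E7, Mumford-Tate groups, the set Sigma, modular forms, curves. -/

open UpperHalfPlane MatrixGroups

noncomputable section

namespace Pool.Agent.E7.St

section

variable {V n G : Type} [AddCommMonoid V] [Module ℂ V] [Fintype n] [DecidableEq n] [Group G]

/-- The similitudes of a pair of forms `s`, `q` of degrees two and four. For the symplectic and the
quartic form of Freudenthal, this is the group `G(ℂ)`. -/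
def GE (s : V → V → ℂ) (q : V → ℂ) : Subgroup (V ≃ₗ[ℂ] V) where
  carrier := {g | ∃ ν : ℂ, ν ≠ 0 ∧ (∀ v v', s (g v) (g v') = ν * s v v') ∧
    ∀ v, q (g v) = ν ^ 2 * q v}
  one_mem' := ⟨1, one_ne_zero, by simp, by simp⟩
  mul_mem' := by
    rintro g g' ⟨a, ha, h1, h2⟩ ⟨b, hb, h3, h4⟩
    refine ⟨a * b, mul_ne_zero ha hb, fun v v' => ?_, fun v => ?_⟩
    · rw [LinearEquiv.mul_apply, LinearEquiv.mul_apply, h1, h3, mul_assoc]
    · rw [LinearEquiv.mul_apply, h2, h4]; ring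
  inv_mem' := by
    rintro g ⟨a, ha, h1, h2⟩
    have e : ∀ v, g (g⁻¹ v) = v := fun v => g.apply_symm_apply v
    refine ⟨a⁻¹, inv_ne_zero ha, fun v v' => ?_, fun v => ?_⟩
    · have := h1 (g⁻¹ v) (g⁻¹ v')
      rw [e, e] at this
      rw [this]; field_simp
    · have := h2 (g⁻¹ v)
      rw [e] at this
      rw [this]; field_simp

/-- The matrix of `g` in the basis `b`. -/
def mat (b : Module.Basis n ℂ V) (g : V ≃ₗ[ℂ] V) : Matrix n n ℂ := LinearMap.toMatrix b b g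

variable (ρ : G → Matrix n n ℂ)

/-- Algebraic subgroups defined over `ℚ` of a group `G` of matrices `ρ g`. -/
def QCl (H : Subgroup G) : Prop :=
  ∃ S : Set (MvPolynomial (n × n) ℚ), ∀ g, g ∈ H ↔
    ∀ P ∈ S, MvPolynomial.aeval (fun y => ρ g y.1 y.2) P = 0

/-- The Mumford-Tate group of `h`. -/
def MT (h : ℂˣ → G) : Subgroup G := sInf {H | QCl ρ H ∧ ∀ z, h z ∈ H}

/-- There is a morphism `φ` over `ℚ` of the adjoint groups of `M` and `N` that sends `h` to `h'`;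
the adjoint group of `N` is seen in the linear group of the span of `N`, on which it acts by
conjugation. -/
def QHom (M N : Subgroup G) (h h' : ℂˣ → G) : Prop :=
  ∃ φ : M ⧸ Subgroup.center M →* N ⧸ Subgroup.center N,
    (∀ a : Matrix n n ℚ, a.map (↑) ∈ Submodule.span ℂ (ρ '' N) → ∀ i j,
      ∃ P : MvPolynomial (Bool × n × n) ℚ, ∀ (m : M) (m' : N), φ m = m' →
        (ρ m' * a.map (↑) * ρ m'⁻¹ : Matrix n n ℂ) i j =
          MvPolynomial.aeval (fun y => ρ (if y.1 then m else m⁻¹) y.2.1 y.2.2) P) ∧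
    ∀ z (m : M) (m' : N), m = h z → m' = h' z → φ m = m'

/-- The set Sigma of `x`, for a family `h` of points indexed by `D`. -/
def Sig {X : Type} (h : X → ℂˣ → G) (D : Set X) (x : X) : Set X :=
  {Z | Z ∈ D ∧ QHom ρ (MT ρ (h x)) (MT ρ (h Z)) (h x) (h Z)}

/-- Special points: the Mumford-Tate group is commutative. -/
def Spe (h : ℂˣ → G) : Prop := ∀ a ∈ MT ρ h, ∀ b ∈ MT ρ h, a * b = b * a

end

/-- The quartic form of Freudenthal. -/
def q4 (v : W) : ℂ :=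
  (v.1 * v.2.2.2 - tr v.2.1 v.2.2.1) ^ 2 +
    4 * (v.1 * nrm v.2.2.1 + v.2.2.2 * nrm v.2.1 - tr (sharp v.2.1) (sharp v.2.2.1))

/-- The torus `diag (s ^ 3, s ^ 2 t, s t ^ 2, t ^ 3)`. -/
def dE (s t : ℂˣ) : Gb :=
  (LinearEquiv.smulOfUnit (s ^ 3)).prodCongr ((LinearEquiv.smulOfUnit (s ^ 2 * t)).prodCongr
    ((LinearEquiv.smulOfUnit (s * t ^ 2)).prodCongr (LinearEquiv.smulOfUnit (t ^ 3))))

/-- An element of `G(ℂ)` that sends the first and the last axis to the lines of `Z` and of its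
complex conjugate. -/
def gZ (Z : Ix → ℂ) : Gb := nE (star Z) * wE * nE (inv (Z - star Z))

/-- The homomorphism from the Deligne torus attached to `Z`. -/
def hg (Z : Ix → ℂ) (z : ℂˣ) : Gb := gZ Z * dE z (star z) * (gZ Z)⁻¹

/-- Index set of the rational basis of `W`. -/
abbrev Wx : Type := Unit ⊕ Ix ⊕ Ix ⊕ Unit

/-- The rational basis of `W`. -/
def bW : Module.Basis Wx ℂ W :=
  (Module.Basis.singleton Unit ℂ).prod ((Pi.basisFun ℂ Ix).prod
    ((Pi.basisFun ℂ Ix).prod (Module.Basis.singleton Unit ℂ)))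

/-- Hodge generic points: the Mumford-Tate group is `G`. -/
def Gen (x : Ix → ℂ) : Prop := MT (mat bW) (hg x) = GE sy q4

/-- `γ` lies in `G(ℤ)` and sends `Z` to `Z'`, with factor `j`. -/
def Mv (γ : Gb) (Z Z' : Ix → ℂ) (j : ℂ) : Prop :=
  γ ∈ GE sy q4 ∧ (∀ v, γ v ∈ WZ ↔ v ∈ WZ) ∧ γ (rr Z) = j • rr Z'

/-- `f (d τ) = γ f τ` for some `γ` in `G(ℤ)`. -/
def Lift (f : ℍ → Ix → ℂ) (d : SL(2, ℝ)) : Prop := ∃ γ, ∀ τ, ∃ j, Mv γ (f τ) (f (d • τ)) j

/-- `f` uniformises a curve of finite type in the quotient: the half plane is covered by the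
translates, under the `d` that lift, of a compact set and of finitely many cusp neighbourhoods. -/
def IsCurve (f : ℍ → Ix → ℂ) : Prop :=
  DifferentiableOn ℂ (f ∘ ofComplex) {z | 0 < z.im} ∧ (∀ τ, f τ ∈ HH) ∧
    ∃ (K : Set ℍ) (s : Finset SL(2, ℝ)), IsCompact K ∧
      (∀ g ∈ s, Lift f (g * ModularGroup.T * g⁻¹)) ∧
      ∀ τ, ∃ d, Lift f d ∧ (d • τ ∈ K ∨ ∃ g ∈ s, 1 ≤ (g⁻¹ • d • τ).im)

/-- `F` is a modular form of weight `k` for `G(ℤ)₊` with Fourier coefficients `a`. -/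
def Form (k : ℤ) (F : (Ix → ℂ) → ℂ) (a : (Ix → ℚ) → ℂ) : Prop :=
  (∀ T, a T ≠ 0 → T ∈ Lam ∧ Psd T) ∧ (∃ s : Finset ℂ, ∀ T, a T ∈ Submodule.span ℤ (s : Set ℂ)) ∧
  (∀ Z ∈ HH, HasSum (fun T => a T * Complex.exp (2 * Real.pi * Complex.I * tr (toR ℂ T) Z)) (F Z)) ∧
  ∀ γ j, ∀ Z ∈ HH, ∀ Z' ∈ HH, Mv γ Z Z' j → F Z' = j ^ k * F Z

/-- Tate point at `p`: its coordinates are the values of the `q`-expansions at a character `q` with
values algebraic over `ℚ_[p]` whose valuations are given by a point of the cone. -/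
def Tate {p : ℕ} [Fact p.Prime] (e : ℂ_[p] ≃+* ℂ) (x : Ix → ℂ) : Prop :=
  ∃ (q : (Ix → ℚ) → ℂ_[p]) (Y : Ix → ℚ) (c : ℂ), toR ℝ Y ∈ Om ∧ c ≠ 0 ∧
    (∀ T T', q (T + T') = q T * q T') ∧ (∀ T, IsAlgebraic ℚ_[p] (q T)) ∧
    (∀ T, ‖q T‖ = (p : ℝ) ^ (-(tr T Y : ℚ) : ℝ)) ∧
    ∀ k F a, Form k F a → F x = c ^ k * e (∑' T, e.symm (a T) * q T)

end Pool.Agent.E7.St
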