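import Pool.Agent.Lib.MP_7e5527_ag.EL.MLi2

/-! Subharmonic functions on a curve of finite type with slow growth at the cusps are constant. -/

open UpperHalfPlane MatrixGroups

noncomputable section

namespace Pool.Agent.E7

/-- The translates of a compact set and of finitely many cusp neighbourhoods cover. -/
def Cov (S : SL(2, ℝ) → Prop) : Prop :=
  ∃ (K : Set ℍ) (s : Finset SL(2, ℝ)), IsCompact K ∧ (∀ g ∈ s, S (g * ModularGroup.T * g⁻¹)) ∧
    ∀ τ : ℍ, ∃ d, S d ∧ (d • τ ∈ K ∨ ∃ g ∈ s, 1 ≤ (g⁻¹ • d • τ).im)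

theorem mliou_T (σ : ℍ) : ((ModularGroup.T : SL(2, ℤ)) : SL(2, ℝ)) • σ = (1 : ℝ) +ᵥ σ := by
  rw [UpperHalfPlane.ext_iff, coe_vadd, add_comm, coe_specialLinearGroup_apply]
  simp [ModularGroup.T]

theorem mliou_seg : IsCompact {σ : ℍ | |σ.re| ≤ 1 ∧ σ.im = 1} := by
  rw [isEmbedding_coe.isCompact_iff]
  have e : ((↑) : ℍ → ℂ) '' {σ : ℍ | |σ.re| ≤ 1 ∧ σ.im = 1} =
      Complex.reProdIm (Set.Icc (-1) 1) {1} := by
    ext z
    rw [Complex.mem_reProdIm, Set.mem_Icc, ← abs_le, Set.mem_singleton_iff]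
    constructor
    · rintro ⟨σ, h, rfl⟩
      exact h
    · intro h
      exact ⟨⟨z, by rw [h.2]; exact one_pos⟩, h, rfl⟩
  rw [e]
  exact isCompact_Icc.reProdIm isCompact_singleton

/-- The maximum of `v` on the compact union of `K`, `{I}` and the segments `g • (x + I)` is a global
maximum (`cusp_max`), then `strong_max` (case `g = 1` of `hs`). -/
theorem liouville {v : ℍ → ℝ} {S : SL(2, ℝ) → Prop} (hS : Cov S)
    (hi : ∀ d, S d → ∀ τ, v (d • τ) = v τ) (hs : ∀ g : SL(2, ℝ), Sub fun τ => v (g • τ))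
    (hg : ∀ (g : SL(2, ℝ)) (ε : ℝ), 0 < ε → ∃ C, ∀ σ : ℍ, |σ.re| ≤ 1 → 1 ≤ σ.im →
      v (g • σ) ≤ C + ε * σ.im) (τ τ' : ℍ) : v τ = v τ' := by
  obtain ⟨K, s, hK, hT, hc⟩ := hS
  have h1 : Sub v := by simpa using hs 1
  have hv : Continuous v := by
    obtain ⟨φ, hφ, -⟩ := h1
    have e : v = fun τ => (φ.1 τ).re := funext fun τ => by rw [hφ]; rfl
    rw [e]
    exact Complex.continuous_re.comp (SmH.continuous φ)
  have hK' : IsCompact (K ∪ {I} ∪
      ⋃ g ∈ s, (fun σ : ℍ => g • σ) '' {σ : ℍ | |σ.re| ≤ 1 ∧ σ.im = 1}) :=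
    (hK.union isCompact_singleton).union
      (s.isCompact_biUnion fun g _ => mliou_seg.image (continuous_const_smul g))
  obtain ⟨τ0, -, h0⟩ := hK'.exists_isMaxOn ⟨I, Or.inl (Or.inr rfl)⟩ hv.continuousOn
  have hm : ∀ τ, v τ ≤ v τ0 := by
    intro τ
    obtain ⟨d, hd, h⟩ := hc τ
    rw [← hi d hd]
    rcases h with h | ⟨g, hgs, h⟩
    · exact h0 (Or.inl (Or.inl h))
    · have := cusp_max (hs g) (fun σ => by
        have e := hi _ (hT g hgs) (g • σ)
        rwa [mul_smul, mul_smul, inv_smul_smul, mliou_T] at e) (hg g) (m := v τ0)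
        (fun σ h1 h2 => h0 (Or.inr (Set.mem_biUnion hgs ⟨σ, ⟨h1, h2⟩, rfl⟩))) h
      simpa using this
  rw [strong_max h1 hm τ, strong_max h1 hm τ']

theorem mliou_lap {ψ : SmH} (h : D2 ψ = 0) : D1 (D2 (ψ * star ψ)) = D1 ψ * star (D1 ψ) := by
  have e : D1 (star (D1 ψ)) = 0 := by rw [← star_D2, ← D1_D2, h, map_zero, star_zero]
  rw [Derivation.leibniz, h, smul_zero, add_zero, ← star_D1, smul_eq_mul, Derivation.leibniz, e,
    smul_zero, zero_add, smul_eq_mul, mul_comm]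

theorem mliou_mul_star (ψ : SmH) (τ : ℍ) : (ψ * star ψ).1 τ = (Complex.normSq (ψ.1 τ) : ℝ) :=
  Complex.mul_conj _

/-- `ψ = (φ + I)⁻¹` is bounded; `D1 D2 (ψ * star ψ) = D1 ψ * star (D1 ψ)`. -/
theorem liouville_hol {φ : ℍ → ℂ} {S : SL(2, ℝ) → Prop} (hS : Cov S)
    (hi : ∀ d, S d → ∀ τ, φ (d • τ) = φ τ)
    (h : ∀ g : SL(2, ℝ), DifferentiableOn ℂ ((fun τ => φ (g • τ)) ∘ ofComplex) {z | 0 < z.im})
    (hp : ∀ τ, 0 < (φ τ).im) (τ τ' : ℍ) : φ τ = φ τ' := by
  have h1 : ∀ τ, 1 ≤ (φ τ + Complex.I).im := fun τ => by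
    have := hp τ
    simp only [Complex.add_im, Complex.I_im]
    linarith
  have h0 : ∀ τ, φ τ + Complex.I ≠ 0 := fun τ e => by
    have := h1 τ
    rw [e, Complex.zero_im] at this
    linarith
  have hd : ∀ g : SL(2, ℝ), DifferentiableOn ℂ
      ((fun τ => (φ (g • τ) + Complex.I)⁻¹) ∘ ofComplex) {z | 0 < z.im} := fun g =>
    ((h g).add_const Complex.I).inv fun z _ => h0 _
  have hc := liouville (v := fun τ => Complex.normSq (φ τ + Complex.I)⁻¹) hS
    (fun d hd τ => by simp only [hi d hd]) (fun g => by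
      let ψ : SmH := ⟨_, hol_mem (hd g)⟩
      refine ⟨ψ * star ψ, fun τ => mliou_mul_star ψ τ, fun τ => ?_⟩
      rw [mliou_lap (D2_hol (hd g)), mliou_mul_star]
      exact Complex.normSq_nonneg _) (fun g ε hε => ⟨1, fun σ _ _ => by
      have e : 1 ≤ Complex.normSq (φ (g • σ) + Complex.I) := by
        have := h1 (g • σ)
        rw [Complex.normSq_apply]
        nlinarith [mul_self_nonneg (φ (g • σ) + Complex.I).re]
      have e2 := mul_pos hε σ.im_pos
      have e3 := inv_le_one_of_one_le₀ e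
      rw [map_inv₀]
      linarith⟩)
  let ψ : SmH := ⟨_, hol_mem (hd 1)⟩
  have k2 : D2 ψ = 0 := D2_hol (hd 1)
  have k0 := (D_of_const (φ := ψ * star ψ) fun σ σ' => by
    rw [mliou_mul_star, mliou_mul_star]
    exact congrArg _ (hc _ _)).2
  have k1 : D1 ψ = 0 := Subtype.ext (funext fun σ => by
    have e := mliou_mul_star (D1 ψ) σ
    rw [← mliou_lap k2, k0, map_zero] at e
    exact Complex.normSq_eq_zero.1 (Complex.ofReal_eq_zero.1 e.symm))
  have k := const_of_D k1 k2 τ τ'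
  simpa [ψ] using k

end Pool.Agent.E7
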