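import Pool.Agent.Lib.MP_7e5527_ag.EL.MFr
import Pool.Agent.Lib.MP_7e5527_ag.EL.MLiou
import Pool.Agent.Lib.MP_7e5527_ag.EL.MT

/-! The theorem of the fixed part. -/

open UpperHalfPlane Matrix MatrixGroups

noncomputable section

namespace Pool.Agent.E7

/-- The monodromy group. -/
def Lf {f : ℍ → Ix → ℂ} (h : HM f) : Subgroup Gb where
  carrier := {γ | γ ∈ Gam ∧ ∃ d : SL(2, ℝ), ∀ τ, f (d • τ) = act γ (f τ)}
  one_mem' := ⟨Gam.one_mem, 1, fun τ => by rw [one_smul, act_one]⟩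
  mul_mem' := by
    rintro γ γ' ⟨h1, d, hd⟩ ⟨h2, d', hd'⟩
    exact ⟨Gam.mul_mem h1 h2, d * d', fun τ => by
      rw [mul_smul, hd, hd', act_mul (Gam_le h1) (Gam_le h2) (h.mem τ)]⟩
  inv_mem' := by
    rintro γ ⟨h1, d, hd⟩
    refine ⟨Gam.inv_mem h1, d⁻¹, fun τ => ?_⟩
    have := hd (d⁻¹ • τ)
    rw [smul_inv_smul] at this
    rw [this, ← act_mul (Gam_le (Gam.inv_mem h1)) (Gam_le h1) (h.mem _), inv_mul_cancel, act_one]

theorem Lf_le {f : ℍ → Ix → ℂ} (h : HM f) : Lf h ≤ Gam := fun _ h => h.1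

variable {κ : Type} [Fintype κ] [DecidableEq κ]

theorem mfix_log {C : ℝ} {n : ℕ} {ε : ℝ} (hε : 0 < ε) : ∃ D : ℝ, ∀ y u : ℝ, 1 ≤ y → 0 ≤ u →
    u ≤ C * y ^ n → Real.log (1 + u) ≤ D + ε * y := by
  obtain ⟨K, hK, h⟩ := psd_pow_le n hε
  refine ⟨Real.log ((1 + |C|) * (K + 1)), fun y u hy hu h1 => ?_⟩
  have h2 : y ^ n ≤ (1 + y) ^ n := pow_le_pow_left₀ (by linarith) (by linarith) n
  have h3 : 1 ≤ y ^ n := one_le_pow₀ hy
  have h4 := h y (by linarith)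
  have h5 := Real.exp_pos (ε * y)
  have h6 : C * y ^ n ≤ |C| * y ^ n := mul_le_mul_of_nonneg_right (le_abs_self C) (by linarith)
  have h7 := abs_nonneg C
  rw [← Real.log_exp (ε * y), ← Real.log_mul (by positivity) h5.ne']
  refine Real.log_le_log (by linarith) ?_
  calc 1 + u ≤ (1 + |C|) * y ^ n := by linarith
    _ ≤ (1 + |C|) * ((K + 1) * Real.exp (ε * y)) :=
        mul_le_mul_of_nonneg_left (by linarith) (by linarith)
    _ = _ := by ring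

/-- `liouville` for `log (1 + uZ κ (f τ) q t)`, with `uZ_sub` and `uZ_growth` for `h.hm.smul g`. -/
theorem lowest {f : ℍ → Ix → ℂ} (h : Crv f) {χ : Gb → ℂ} (hχ : ∀ γ ∈ Lf h.hm, χ γ = 1 ∨ χ γ = -1)
    {t : (κ → Wx) → ℂ} (ht : t ∈ Tch κ (Lf h.hm) χ) {q : ℕ}
    (h0 : ∀ τ, ∀ r < q, sZ κ (f τ) r t = 0) :
    ∃ s ∈ Tch κ (Lf h.hm) χ, ∀ τ, sZ κ (f τ) q t = s := by
  obtain ⟨p1, -, p3⟩ := uZ_sub h.hm q t h0
  have key := liouville (v := fun τ => Real.log (1 + uZ κ (f τ) q t)) (S := LiftG f) h.cof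
    (by
      rintro d ⟨γ, hγ, hd⟩ τ
      have hL : γ ∈ Lf h.hm := ⟨hγ, d, hd⟩
      simp only [hd, uZ_act hγ (h.mem τ) q (hχ γ hL) (ht γ hL)])
    (fun g => (uZ_sub (h.hm.smul g) q t fun τ => h0 _).2.1)
    (fun g ε hε => by
      obtain ⟨C, n, hC⟩ := uZ_growth (h.hm.smul g) q t
      obtain ⟨D, hD⟩ := mfix_log (C := C) (n := n) hε
      exact ⟨D, fun σ h1 h2 => hD _ _ h2 (p1 _) (hC σ h1 h2)⟩)
  have hc := p3 fun τ τ' => add_left_cancel (Real.log_injOn_pos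
    (show (0 : ℝ) < _ by linarith [p1 τ]) (show (0 : ℝ) < _ by linarith [p1 τ']) (key τ τ'))
  refine ⟨sZ κ (f I) q t, ?_, fun τ => hc τ I⟩
  rintro γ ⟨hγ, d, hd⟩
  rw [← sZ_act (Gam_le hγ) (h.mem I), ht γ ⟨hγ, d, hd⟩, ← hd, hc I (d • I)]
  exact sec_smul _ _ _ _ _ _

/-- Strong induction on `q`: subtract the parts of lower degree (`sec_sec`). -/
theorem fixed_part {f : ℍ → Ix → ℂ} (h : Crv f) {χ : Gb → ℂ}
    (hχ : ∀ γ ∈ Lf h.hm, χ γ = 1 ∨ χ γ = -1) {t : (κ → Wx) → ℂ} (ht : t ∈ Tch κ (Lf h.hm) χ)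
    (q : ℕ) : ∃ s ∈ Tch κ (Lf h.hm) χ, ∀ τ, sZ κ (f τ) q t = s := by
  induction q using Nat.strong_induction_on with
  | _ q ih =>
    choose! s hs hs' using ih
    have e : ∀ τ r, sZ κ (f τ) r (t - ∑ k ∈ Finset.range q, s k) =
        sZ κ (f τ) r t - if r < q then s r else 0 := by
      intro τ r
      have e1 : ∀ k ∈ Finset.range q, sZ κ (f τ) r (s k) = if r = k then s k else 0 := by
        intro k hk
        rw [← hs' k (Finset.mem_range.1 hk) τ]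
        exact sec_sec _ (by rw [← Rp_mul, mat_inv_mul, Rp_one]) _ _ _
      rw [sZ, sec_sub, sec_sum]
      refine congrArg _ ((Finset.sum_congr rfl e1).trans ?_)
      simp
    obtain ⟨u, hu, hu'⟩ := lowest h hχ (q := q) (sub_mem ht (Submodule.sum_mem _ fun k hk =>
      hs k (Finset.mem_range.1 hk))) fun τ r hr => by rw [e, if_pos hr, hs' r hr, sub_self]
    exact ⟨u, hu, fun τ => by rw [← hu' τ, e, if_neg (lt_irrefl q), sub_zero]⟩

theorem hg_stab {f : ℍ → Ix → ℂ} (h : Crv f) {χ : Gb → ℂ}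
    (hχ : ∀ γ ∈ Lf h.hm, χ γ = 1 ∨ χ γ = -1) (τ : ℍ) (z : ℂˣ) :
    hg (f τ) z ∈ StabT (Tch κ (Lf h.hm) χ) := by
  intro t ht
  obtain ⟨s, c, e⟩ := hg_sum (κ := κ) (f τ) z
  rw [e]
  refine Submodule.sum_mem _ fun q _ => Submodule.smul_mem _ _ ?_
  obtain ⟨u, hu, hu'⟩ := fixed_part h hχ ht q
  rwa [hu']

/-- If the monodromy is scalar, `f` is invariant; `liouville_hol` for `yc (f τ) i`. -/
theorem const_of_scalar {f : ℍ → Ix → ℂ} (h : Crv f)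
    (hs : ∀ γ ∈ Lf h.hm, ∃ c : ℂ, mat γ = c • (1 : Matrix Wx Wx ℂ)) (τ τ' : ℍ) : f τ = f τ' := by
  have hi : ∀ d, LiftG f d → ∀ τ, f (d • τ) = f τ := by
    rintro d ⟨γ, hγ, hd⟩ τ
    obtain ⟨c, hc⟩ := hs γ ⟨hγ, d, hd⟩
    have e : γ (rr (f τ)) = c • rr (f τ) := by
      apply bW.repr.injective
      apply Finsupp.ext
      refine congrFun (show crd _ = crd _ from ?_)
      rw [crd_smul, ← LinearEquiv.coe_coe, ← mt_crd, ← mat_eq, hc, smul_mulVec, one_mulVec]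
    have h0 : c ≠ 0 := by
      rintro rfl
      exact (act_spec (Gam_le hγ) (h.mem τ)).1 (by rw [jf, e]; simp)
    rw [hd, (act_of_eq h0 e).2]
  rw [← pt_yc (f τ), ← pt_yc (f τ')]
  refine congrArg _ (funext fun i => ?_)
  refine liouville_hol (φ := fun τ => yc (f τ) i) (S := LiftG f) h.cof
    (fun d hd τ => by simp only [hi d hd]) (fun g => ?_) (fun τ => ?_) τ τ'
  · simp only [yc, tr_eq_sum, Function.comp_def]
    exact DifferentiableOn.fun_sum fun l _ =>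
      (differentiableOn_pi.1 (h.hm.smul g).hol l).const_mul _
  · rw [yc, im_tr]
    exact (psd_TT i).pos (TT_ne_zero i) (h.mem τ)

end Pool.Agent.E7
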