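import Pool.Agent.Lib.MP_7e5527_ag.EL.ML3

/-! The Lie algebra of vector fields tangent to the cone; invariant subspaces. -/

open Matrix

noncomputable section

namespace Pool.Agent.E7

variable {κ : Type} [Fintype κ] [DecidableEq κ]

theorem mlie_R (g : Gb) (t : (κ → Wx) → ℂ) : Rp κ (mat g⁻¹) *ᵥ Rp κ (mat g) *ᵥ t = t := by
  rw [mulVec_mulVec, ← Rp_mul, mat_inv_mul, Rp_one, one_mulVec]

theorem mlie_dR (g : Gb) (X : W →ₗ[ℂ] W) (t : (κ → Wx) → ℂ) : dR κ (mt (AdL g X)) *ᵥ t =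
    Rp κ (mat g) *ᵥ dR κ (mt X) *ᵥ Rp κ (mat g⁻¹) *ᵥ t := by
  rw [mt_Ad, dR_conj (mat_mul_inv g), mulVec_mulVec, mulVec_mulVec]

theorem mlie_comm {g : Gb} {B : Ix → ℂ} (h : AdL g (eL B) = eL B) : g * nE B = nE B * g := by
  have h1 : Commute (g : W →ₗ[ℂ] W) (eL B) := by
    refine LinearMap.ext fun v => ?_
    have := LinearMap.congr_fun h (g v)
    simpa [AdL] using this
  apply LinearEquiv.toLinearMap_injective
  refine (?_ : Commute (g : W →ₗ[ℂ] W) (nE B : W →ₗ[ℂ] W))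
  rw [nE_eq]
  exact (((Commute.one_right _).add_right h1).add_right
    ((h1.pow_right 2).smul_right _)).add_right ((h1.pow_right 3).smul_right _)

/-- `N` is the space of `X ∈ Lg` of trace zero with `dR κ (mt X)` zero on `U = Tch κ Λ χ`; it is
stable under `AdL GE` (`dR_conj`). `U` is stable under `dR κ (mt X)` for `X = eL B` (`dR_stable`)
and `X = AdL wE (eL B)`, so `AdL γ X - X ∈ N` for `γ ∈ Λ`. If `N = ⊥` use `nE_eq` and `schur`;
if not `lie_simple` and `Rp_fix`. -/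
theorem normal_dich {Λ : Subgroup Gb} (h : Λ ≤ GE) {χ : Gb → ℂ}
    (hχ : ∀ γ ∈ Λ, χ γ = 1 ∨ χ γ = -1) (hS : GE ≤ StabT (Tch κ Λ χ)) :
    (∀ γ ∈ Λ, ∃ c : ℂ, mat γ = c • (1 : Matrix Wx Wx ℂ)) ∨
      ∀ B, ∀ t ∈ Tch κ Λ χ, Rp κ (mat (nE B)) *ᵥ t = t := by
  have ha : ∀ X Y, mt (X + Y) = mt X + mt Y := map_add (LinearMap.toMatrix bW bW)
  have hs : ∀ (c : ℂ) X, mt (c • X) = c • mt X := map_smul (LinearMap.toMatrix bW bW)
  let N : Submodule ℂ (W →ₗ[ℂ] W) :=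
    { carrier := {X | X ∈ Lg ∧ (mt X).trace = 0 ∧ ∀ t ∈ Tch κ Λ χ, dR κ (mt X) *ᵥ t = 0}
      add_mem' := fun h h' => ⟨add_mem h.1 h'.1, by rw [ha, trace_add, h.2.1, h'.2.1, add_zero],
        fun t ht => by rw [ha, dR_add, add_mulVec, h.2.2 t ht, h'.2.2 t ht, add_zero]⟩
      zero_mem' := by
        have : mt 0 = 0 := map_zero (LinearMap.toMatrix bW bW)
        exact ⟨zero_mem _, by rw [this, trace_zero], fun t _ => by rw [this, dR_zero, zero_mulVec]⟩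
      smul_mem' := fun c X h => ⟨Lg.smul_mem c h.1, by rw [hs, trace_smul, h.2.1, smul_zero],
        fun t ht => by rw [hs, dR_smul, smul_mulVec, h.2.2 t ht, smul_zero]⟩ }
  have key : ∀ X ∈ Lg, (∀ t ∈ Tch κ Λ χ, dR κ (mt X) *ᵥ t ∈ Tch κ Λ χ) → ∀ γ ∈ Λ,
      AdL γ X + (-1 : ℂ) • X ∈ N := by
    intro X hX hU γ hγ
    refine ⟨add_mem (Ad_mem (h hγ) hX) (Lg.smul_mem _ hX), by
      rw [ha, hs, trace_add, trace_smul, trace_Ad]; simp, fun t ht => ?_⟩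
    have h2 : χ γ * χ γ = 1 := by rcases hχ γ hγ with e | e <;> rw [e] <;> norm_num
    have h1 : Rp κ (mat γ⁻¹) *ᵥ t = χ γ • t := by
      have := mlie_R γ (χ γ • t)
      rwa [mulVec_smul, ht γ hγ, smul_smul, h2, one_smul] at this
    rw [ha, hs, dR_add, dR_smul, add_mulVec, mlie_dR, h1, mulVec_smul, mulVec_smul,
      hU t ht γ hγ, smul_smul, h2, smul_mulVec]
    simp
  have he : ∀ B, ∀ t ∈ Tch κ Λ χ, dR κ (mt (eL B)) *ᵥ t ∈ Tch κ Λ χ := fun B t ht =>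
    dR_stable _ B (fun c => hS (nE_mem_GE _)) ht
  by_cases h0 : N = ⊥
  · refine Or.inl fun γ hγ => schur fun T => ?_
    have z : ∀ X, AdL γ X + (-1 : ℂ) • X ∈ N → AdL γ X = X := fun X hX => by
      rw [h0, Submodule.mem_bot] at hX
      exact add_neg_eq_zero.1 ((congrArg _ (neg_one_smul ℂ X).symm).trans hX)
    refine ⟨by rw [← mat_mul, ← mat_mul, mlie_comm (z _ (key _ (eL_mem _) (he _) γ hγ))], ?_⟩
    have h1 := z _ (key _ (Ad_mem wE_mem_GE (eL_mem (toR ℂ T))) (fun t ht => by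
      rw [mlie_dR]
      exact hS wE_mem_GE _ (he _ _ (hS (GE.inv_mem wE_mem_GE) _ ht))) γ hγ)
    have h2 : AdL (wE⁻¹ * γ * wE) (eL (toR ℂ T)) = eL (toR ℂ T) := by
      refine LinearMap.ext fun v => ?_
      have := congrArg (wE⁻¹ : Gb) (LinearMap.congr_fun h1 (wE v))
      simpa [AdL] using this
    have h3 := mlie_comm h2
    rw [← mat_mul, ← mat_mul, nP]
    congr 1
    calc γ * (wE * nE (toR ℂ T) * wE⁻¹) = wE * (wE⁻¹ * γ * wE * nE (toR ℂ T)) * wE⁻¹ := by group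
      _ = _ := by rw [h3]; group
  · refine Or.inr fun B t ht => Rp_fix B ((lie_simple N (fun X hX => hX.1) (fun X hX => hX.2.1)
      (fun g hg X hX => ⟨Ad_mem hg hX.1, by rw [trace_Ad, hX.2.1], fun u hu => ?_⟩) h0 B).2.2 t ht)
    rw [mlie_dR, hX.2.2 _ (hS (GE.inv_mem hg) u hu), mulVec_zero]

end Pool.Agent.E7
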