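import Pool.Agent.Lib.MP_7e5527_ag.EL.SHa

/-! Descent to the rationals and the description of Sigma. -/

open Filter Topology

noncomputable section

namespace Pool.Agent.E7

theorem sh_aeval {ι : Type} {f : ι → ℂ} (h : ∀ y, ∃ r : ℚ, f y = r) (P : MvPolynomial ι ℚ) :
    ∃ r : ℚ, MvPolynomial.aeval f P = r := by
  choose r hr using h
  obtain rfl : f = algebraMap ℚ ℂ ∘ r := funext hr
  exact ⟨_, MvPolynomial.aeval_algebraMap_apply ℂ r P⟩

theorem sh_trace (γ g : Gb) : (mat (γ * g * γ⁻¹)).trace = (mat g).trace := by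
  rw [mat_mul, Matrix.trace_mul_comm, ← mat_mul, ← mul_assoc, inv_mul_cancel, one_mul]

theorem sh_span {k : Gb} {N : Subgroup Gb} (h : Submodule.span ℂ (mat '' cj k N) = ⊤)
    (a : Matrix Wx Wx ℂ) : a ∈ Submodule.span ℂ (mat '' N) := by
  have h1 : ∀ b ∈ Submodule.span ℂ (mat '' cj k N),
      mat k * b * mat k⁻¹ ∈ Submodule.span ℂ (mat '' N) := fun b hb => by
    induction hb using Submodule.span_induction with
    | mem b hb =>
      obtain ⟨g, hg, rfl⟩ := hb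
      exact Submodule.subset_span ⟨_, mem_cj.1 hg, by rw [mat_mul, mat_mul]⟩
    | zero => simp
    | add b c _ _ hb hc =>
      rw [mul_add, add_mul]
      exact add_mem hb hc
    | smul s b _ hb =>
      rw [mul_smul_comm, smul_mul_assoc]
      exact Submodule.smul_mem _ s hb
  have h2 := h1 (mat k⁻¹ * a * mat k) (h ▸ Submodule.mem_top)
  have h3 : mat k * mat k⁻¹ = 1 := by rw [← mat_mul, mul_inv_cancel, mat_one]
  rwa [← mul_assoc, ← mul_assoc, h3, one_mul, mul_assoc, h3, mul_one] at h2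

theorem sh_rat {M N : Subgroup Gb} {φ : M ⧸ Subgroup.center M →* N ⧸ Subgroup.center N}
    (hφ : QHom φ) (hs : ∀ a, a ∈ Submodule.span ℂ (mat '' N)) {m : M} {n : N} (h : φ m = n)
    (hm : (m : Gb) ∈ GG) (ht : (mat n).trace = 56) : RatM (mat n) := by
  refine rat_of_conj (mat_unit _) (fun a i j => ?_) ht
  obtain ⟨P, hP⟩ := hφ a (hs _) i j
  rw [← mat_inv]
  obtain ⟨r, hr⟩ := sh_aeval (f := fun y : Bool × Wx × Wx =>
    mat (if y.1 then (m : Gb) else (m : Gb)⁻¹) y.2.1 y.2.2) (fun y => by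
      split_ifs
      · exact ratM_GG hm _ _
      · exact ratM_GG (inv_mem hm) _ _) P
  exact ⟨r, (hP m n h).trans hr⟩

theorem sig_main {x Z : Ix → ℂ} (hx : x ∈ HH) (hg' : MT x = GE) (hZ : Z ∈ Sig x) :
    (∀ a ∈ MT Z, ∀ b ∈ MT Z, a * b = b * a) ∨ Hecke x Z := by
  obtain ⟨hZ, φ, hφ, hh⟩ := hZ
  have C := exists_cor hg' hφ hh
  rcases C.inner with hc | ⟨γ0, hγ0, h0, hn, hR⟩
  · refine Or.inl (MT_comm fun z a ha => ?_)
    have h1 := (hc z (star z)).2 ((gZ Z)⁻¹ * a * gZ Z) (mem_cj.2 (by simpa [mul_assoc] using ha))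
    have h2 := congrArg (fun g => gZ Z * g * (gZ Z)⁻¹) h1
    simpa [hg, mul_assoc] using h2
  right
  have hs := sh_span (burnside hn fun s t => (C.mem (C.dd s t)).2)
  have key : ∀ g ∈ G0, g ∈ GG → (mat g).trace = 56 →
      RatM (mat (gZ Z * γ0 * (gZ x)⁻¹ * g * (gZ Z * γ0 * (gZ x)⁻¹)⁻¹)) := fun g h1 h2 h3 => by
    obtain ⟨m, n, e1, e2, e3⟩ := hR _ (G0_conj_gZ x h1)
    have e4 : (m : Gb) = g := by simpa [mul_assoc] using e1
    have e5 : (n : Gb) = gZ Z * γ0 * (gZ x)⁻¹ * g * (gZ Z * γ0 * (gZ x)⁻¹)⁻¹ := by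
      simpa [mul_assoc] using e2
    rw [← e5]
    exact sh_rat hφ hs e3 (e4 ▸ h2) (by rw [e5, sh_trace, h3])
  obtain ⟨s, hs⟩ := rat_scale (γ := gZ Z * γ0 * (gZ x)⁻¹) fun T =>
    ⟨key _ (Subgroup.subset_closure (Or.inl ⟨_, rfl⟩)) (nE_mem_GG T) (trace_nE _),
      key _ (Subgroup.subset_closure (Or.inr ⟨_, rfl⟩)) (nP_mem_GG T)
        ((sh_trace _ _).trans (trace_nE _))⟩
  have n1 := nrm_sub_star hx
  have n2 := nrm_sub_star hZ
  have e1 : (gZ x)⁻¹ (rr x) = (-nrm (x - star x)) • r0 := by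
    refine (gZ x).symm_apply_eq.2 ?_
    rw [map_smul, gZ_r0 hx, smul_smul, neg_mul_neg, mul_inv_cancel₀ n1, one_smul]
  have e2 : (scE s * (gZ Z * γ0 * (gZ x)⁻¹)) (rr x) =
      ((s : ℂ) * (-nrm (x - star x) * -(nrm (Z - star Z))⁻¹)) • rr Z := by
    simp only [LinearEquiv.mul_apply, e1, map_smul, h0, gZ_r0 hZ, scE_apply, smul_smul]
    rw [mul_comm]
  have hG := mem_GG_of_rat (mul_mem (scE_mem_GE s) (mul_mem (mul_mem (gZ_mem_GE Z) hγ0)
    (inv_mem (gZ_mem_GE x)))) ((ratM_iff _).1 hs) hx hZ e2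
  rw [← (act_of_eq (by simp [n1, n2]) e2).2]
  exact Hecke.act_mem hx Hecke.base hG

end Pool.Agent.E7
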