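import Mathlib

/-! Identity theorem for `p`-adic Laurent series on powers of one unit. -/

open Filter Topology

noncomputable section

namespace Pool.Agent.E7

/-- The inclusion of the `p`-adic integers. -/
def iZ (p : ℕ) [Fact p.Prime] : ℤ_[p] →+* ℂ_[p] :=
  (algebraMap ℚ_[p] ℂ_[p]).comp PadicInt.Coe.ringHom

variable {p : ℕ} [Fact p.Prime]

theorem norm_iZ (x : ℤ_[p]) : ‖iZ p x‖ = ‖x‖ := norm_algebraMap' ℂ_[p] (x : ℚ_[p])

theorem a2s_fac (z : ℤ_[p]) (n : ℕ) :
    (n.factorial : ℤ_[p]) * Ring.multichoose z n = (ascPochhammer ℤ_[p] n).eval z := by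
  rw [← nsmul_eq_mul, Ring.factorial_nsmul_multichoose_eq_ascPochhammer,
    Polynomial.ascPochhammer_smeval_eq_eval]

/-- Take `f z = (z + 1) ⋯ (z + k) / k !` with `k + 1 = p ^ N`; then `z * f z` is divisible by
`p ^ N`. -/
theorem a2_sep {y : ℤ_[p]} (hy : y ≠ 0) : ∃ (f : ℤ_[p] → ℤ_[p]) (P : Polynomial ℂ_[p]),
    f 0 = 1 ∧ ‖f y‖ < 1 ∧ ∀ z, iZ p (f z) = P.eval (iZ p z) := by
  have y0 := norm_pos_iff.2 hy
  obtain ⟨N, hN⟩ := PadicInt.exists_pow_neg_lt p y0
  obtain ⟨k, hk⟩ := Nat.exists_eq_add_one_of_ne_zero (pow_ne_zero N (Fact.out : p.Prime).ne_zero)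
  refine ⟨fun z => Ring.multichoose (z + 1) k, Polynomial.C (k.factorial : ℂ_[p])⁻¹ *
    (ascPochhammer ℂ_[p] k).comp (Polynomial.X + 1), ?_, ?_, fun z => ?_⟩
  · simp only [zero_add, Ring.multichoose_one]
  · have e : y * Ring.multichoose (y + 1) k = (p : ℤ_[p]) ^ N * Ring.multichoose y (p ^ N) := by
      have h := a2s_fac y (k + 1)
      rw [ascPochhammer_succ_left, Polynomial.eval_mul, Polynomial.eval_X, Polynomial.eval_comp,
        Polynomial.eval_add, Polynomial.eval_X, Polynomial.eval_one, ← a2s_fac, Nat.factorial_succ,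
        ← hk] at h
      refine mul_left_cancel₀ (Nat.cast_ne_zero.2 k.factorial_ne_zero) ?_
      push_cast at h
      linear_combination -h
    have h := congrArg norm e
    rw [norm_mul, norm_mul, PadicInt.norm_p_pow] at h
    refine lt_of_mul_lt_mul_left ?_ y0.le
    rw [h, mul_one]
    exact (mul_le_of_le_one_right (by positivity) (PadicInt.norm_le_one _)).trans_lt hN
  · have h := congrArg (iZ p) (a2s_fac (z + 1) k)
    rw [map_mul, map_natCast, ← Polynomial.eval_map_apply, ascPochhammer_map, map_add, map_one] at h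
    rw [Polynomial.eval_mul, Polynomial.eval_C, Polynomial.eval_comp, Polynomial.eval_add,
      Polynomial.eval_X, Polynomial.eval_one, ← h,
      inv_mul_cancel_left₀ (Nat.cast_ne_zero.2 k.factorial_ne_zero)]

/-- The functions `c` in the algebra generated by the `m ↦ w ^ m i` satisfy `∑ b c = 0`
(`Algebra.adjoin_eq_span`). By `a2_sep` applied to `w ^ m i - w ^ m0 i`, powers and products, there
is such a `c` of norm `≤ 1` with `c m0 = 1`, small on the finite set of the `m ≠ m0` where `b` is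
not small. -/
theorem a2_ident {σ : Type} [Fintype σ] {b : (σ → ℤ) → ℂ_[p]} (hb : Tendsto b cofinite (𝓝 0))
    {w : ℤ_[p]ˣ} (hw : ∀ k : ℤ, w ^ k = 1 → k = 0)
    (h : ∀ n : σ → ℕ,
      HasSum (fun m => b m * ∏ i, iZ p ((w ^ m i : ℤ_[p]ˣ) : ℤ_[p]) ^ n i) 0) : b = 0 := by
  classical
  set x : (σ → ℤ) → σ → ℂ_[p] := fun m i => iZ p ((w ^ m i : ℤ_[p]ˣ) : ℤ_[p]) with hx
  have h1 : ∀ Q : MvPolynomial σ ℂ_[p],
      HasSum (fun m => b m * MvPolynomial.eval (x m) Q) 0 := fun Q => by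
    induction Q using MvPolynomial.induction_on' with
    | monomial n a =>
      simpa [MvPolynomial.eval_monomial, Finsupp.prod_fintype, mul_left_comm]
        using (h n).mul_left a
    | add P Q hP hQ => simpa [mul_add] using hP.add hQ
  funext m0
  by_contra h0
  have hε : 0 < ‖b m0‖ / 2 := half_pos (norm_pos_iff.2 h0)
  have h2 : ∀ m, ∃ Q : MvPolynomial σ ℂ_[p], (∀ m', ‖MvPolynomial.eval (x m') Q‖ ≤ 1) ∧
      MvPolynomial.eval (x m0) Q = 1 ∧ (m ≠ m0 → ‖MvPolynomial.eval (x m) Q‖ < 1) := fun m => by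
    by_cases hm : m = m0
    · exact ⟨1, by simp, by simp, fun e => absurd hm e⟩
    obtain ⟨i, hi⟩ := Function.ne_iff.1 hm
    obtain ⟨f, P, f0, fy, fP⟩ := a2_sep
      (y := ((w ^ m i : ℤ_[p]ˣ) : ℤ_[p]) - ((w ^ m0 i : ℤ_[p]ˣ) : ℤ_[p])) fun e =>
      hi (sub_eq_zero.1 (hw _ (by
        rw [zpow_sub, Units.ext (sub_eq_zero.1 e), mul_inv_cancel])))
    have h3 : ∀ m', MvPolynomial.eval (x m')
        (Polynomial.aeval (MvPolynomial.X i - MvPolynomial.C (x m0 i)) P) =
        iZ p (f (((w ^ m' i : ℤ_[p]ˣ) : ℤ_[p]) - (w ^ m0 i : ℤ_[p]ˣ))) := fun m' => by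
      rw [fP, map_sub, ← MvPolynomial.coe_aeval_eq_eval, ← Polynomial.coe_aeval_eq_eval]
      exact (Polynomial.aeval_algHom_apply (MvPolynomial.aeval (x m')) _ P).symm.trans
        (by simp [hx])
    refine ⟨Polynomial.aeval (MvPolynomial.X i - MvPolynomial.C (x m0 i)) P, fun m' => ?_, ?_,
      fun _ => ?_⟩
    · rw [h3, norm_iZ]; exact PadicInt.norm_le_one _
    · rw [h3, sub_self, f0, map_one]
    · rw [h3, norm_iZ]; exact fy
  choose Q Q1 Q2 Q3 using h2
  have hF : {m | ¬ ‖b m‖ < ‖b m0‖ / 2}.Finite := by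
    simpa using Metric.tendsto_nhds.1 hb _ hε
  set c := fun m => MvPolynomial.eval (x m) (∏ k ∈ hF.toFinset, Q k) with hc
  have c1 : ∀ m, ‖c m‖ ≤ 1 := fun m => by
    simp only [hc, map_prod, norm_prod]
    exact Finset.prod_le_one (fun _ _ => norm_nonneg _) fun k _ => Q1 k m
  have c2 : c m0 = 1 := by simp [hc, Q2]
  have c3 : ∀ m ∈ hF.toFinset.erase m0, ‖c m‖ < 1 := fun m hm => by
    simp only [hc, map_prod, norm_prod]
    rw [← Finset.mul_prod_erase _ _ (Finset.mem_of_mem_erase hm)]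
    exact mul_lt_one_of_nonneg_of_lt_one_left (norm_nonneg _) (Q3 m (Finset.ne_of_mem_erase hm))
      (Finset.prod_le_one (fun _ _ => norm_nonneg _) fun k _ => Q1 k m)
  obtain ⟨N, hN⟩ := ((Filter.eventually_all_finset _).2 fun m hm =>
    (((tendsto_pow_atTop_nhds_zero_of_lt_one (norm_nonneg _) (c3 m hm)).const_mul
      ‖b m‖).eventually_le_const (by simpa using h0 : ‖b m‖ * 0 < ‖b m0‖ / 2))).exists
  have h4 := hasSum_ite_sub_hasSum (h1 ((∏ k ∈ hF.toFinset, Q k) ^ N)) m0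
  have h5 := IsUltrametricDist.norm_tsum_le_of_forall_le_of_nonneg hε.le
    (f := fun m => if m = m0 then 0 else
      b m * MvPolynomial.eval (x m) ((∏ k ∈ hF.toFinset, Q k) ^ N)) fun m => by
    split_ifs with e
    · simpa using hε.le
    rw [map_pow, norm_mul, norm_pow]
    by_cases hm : m ∈ hF.toFinset
    · exact hN m (Finset.mem_erase.2 ⟨e, hm⟩)
    · exact (mul_le_of_le_one_right (norm_nonneg _) (pow_le_one₀ (norm_nonneg _) (c1 m))).trans
        (not_not.1 (mt hF.mem_toFinset.2 hm)).le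
  rw [h4.tsum_eq, map_pow, show MvPolynomial.eval (x m0) _ = 1 from c2] at h5
  simp only [one_pow, mul_one, zero_sub, norm_neg] at h5
  linarith

end Pool.Agent.E7
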