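import Pool.Agent.Lib.MP_7e5527_ag.EL.A2

/-! A point of `(ℤ_[p]ˣ) ^ σ` at which countably many Laurent series do not vanish. -/

open Filter Topology

noncomputable section

namespace Pool.Agent.E7

variable {p : ℕ} [Fact p.Prime] {σ : Type} [Fintype σ]

/-- The character with values `u`. -/
def chU (u : σ → ℤ_[p]ˣ) (m : σ → ℤ) : ℂ_[p] := ∏ i, iZ p ((u i ^ m i : ℤ_[p]ˣ) : ℤ_[p])

theorem norm_chU (u : σ → ℤ_[p]ˣ) (m : σ → ℤ) : ‖chU u m‖ = 1 := by
  simp only [chU, norm_prod, norm_iZ, PadicInt.norm_units, Finset.prod_const_one]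

theorem chU_add (u : σ → ℤ_[p]ˣ) (m m' : σ → ℤ) : chU u (m + m') = chU u m * chU u m' := by
  simp only [chU, Pi.add_apply, zpow_add, Units.val_mul, map_mul, Finset.prod_mul_distrib]

theorem chU_mul (u u' : σ → ℤ_[p]ˣ) (m : σ → ℤ) : chU (u * u') m = chU u m * chU u' m := by
  simp only [chU, Pi.mul_apply, mul_zpow, Units.val_mul, map_mul, Finset.prod_mul_distrib]

theorem chU_one (m : σ → ℤ) : chU (1 : σ → ℤ_[p]ˣ) m = 1 := by
  simp [chU]

theorem a3_summable {b : (σ → ℤ) → ℂ_[p]} (hb : Tendsto b cofinite (𝓝 0)) (u : σ → ℤ_[p]ˣ) :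
    Summable fun m => b m * chU u m := by
  refine NonarchimedeanAddGroup.summable_of_tendsto_cofinite_zero
    (tendsto_zero_iff_norm_tendsto_zero.2 ?_)
  simpa only [norm_mul, norm_chU, mul_one] using tendsto_zero_iff_norm_tendsto_zero.1 hb

/-- Uniform limit of the finite sums (ultrametric inequality). -/
theorem a3_cont {b : (σ → ℤ) → ℂ_[p]} (hb : Tendsto b cofinite (𝓝 0)) :
    Continuous fun u : σ → ℤ_[p]ˣ => ∑' m, b m * chU u m := by
  have hi : Continuous (iZ p) := (AddMonoidHomClass.isometry_of_norm (iZ p) norm_iZ).continuous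
  let F (m : σ → ℤ) : C(σ → ℤ_[p]ˣ, ℂ_[p]) := ⟨fun u => b m * chU u m, by unfold chU; fun_prop⟩
  have hF : Summable F := NonarchimedeanAddGroup.summable_of_tendsto_cofinite_zero
    (squeeze_zero_norm (fun m => (ContinuousMap.norm_le _ (norm_nonneg (b m))).2 fun u => by
      simp [F, norm_chU]) (tendsto_zero_iff_norm_tendsto_zero.1 hb))
  exact (∑' m, F m).continuous.congr fun u => (ContinuousMap.tsum_apply hF u).symm

/-- A unit of infinite order all of whose powers are close to `1`. -/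
theorem a3i_unit {ε : ℝ} (hε : 0 < ε) : ∃ w : ℤ_[p]ˣ, (∀ k : ℤ, w ^ k = 1 → k = 0) ∧
    ∀ n : ℕ, ‖((w ^ n : ℤ_[p]ˣ) : ℤ_[p]) - 1‖ < ε := by
  have hp : ‖(p : ℤ_[p])‖ < 1 := (PadicInt.norm_lt_one_iff_dvd _).2 dvd_rfl
  obtain ⟨N, hN⟩ := exists_pow_lt_of_lt_one (lt_min hε one_pos) hp
  have h1 : ‖-(p : ℤ_[p]) ^ N‖ < min ε 1 := by rwa [norm_neg, norm_pow]
  refine ⟨Units.oneSub _ (h1.trans_le (min_le_right _ _)), fun k hk => ?_, fun n => ?_⟩
  · have h2 := congrArg Units.val (pow_natAbs_eq_one.2 hk)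
    rw [Units.val_pow_eq_pow_val, Units.val_oneSub, sub_neg_eq_add, Units.val_one] at h2
    have h3 : (1 + p ^ N) ^ k.natAbs = 1 := by exact_mod_cast h2
    have h4 := pow_pos (Fact.out : p.Prime).pos N
    rcases Nat.pow_eq_one.1 h3 with h5 | h5
    · omega
    · exact Int.natAbs_eq_zero.1 h5
  · rw [Units.val_pow_eq_pow_val, Units.val_oneSub]
    obtain ⟨c, hc⟩ := sub_one_dvd_pow_sub_one (1 - -(p : ℤ_[p]) ^ N) n
    rw [hc, norm_mul, sub_sub_cancel_left, norm_neg]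
    exact (mul_le_of_le_one_right (norm_nonneg _) c.norm_le_one).trans_lt
      (h1.trans_le (min_le_left _ _))

/-- With `w = 1 + p ^ N`, `N` large, all `u0 * (w ^ n i)` lie in the neighbourhood; `a2_ident`. -/
theorem a3_int {b : (σ → ℤ) → ℂ_[p]} (hb : Tendsto b cofinite (𝓝 0)) {u0 : σ → ℤ_[p]ˣ}
    (h : ∀ᶠ u in 𝓝 u0, ∑' m, b m * chU u m = 0) : b = 0 := by
  have t1 : Tendsto (fun v : σ → ℤ_[p]ˣ => u0 * v) (𝓝 1) (𝓝 u0) := by
    simpa using (continuous_const_mul u0).tendsto 1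
  have h1 := t1.eventually h
  have hi : IsInducing (Pi.map fun (_ : σ) => (Units.val : ℤ_[p]ˣ → ℤ_[p])) :=
    IsInducing.piMap fun _ => Units.isOpenEmbedding_val.isInducing
  rw [hi.nhds_eq_comap, eventually_comap, Metric.eventually_nhds_iff] at h1
  obtain ⟨ε, hε, h2⟩ := h1
  obtain ⟨w, w1, w2⟩ := a3i_unit (p := p) hε
  have h3 : (fun m => b m * chU u0 m) = 0 := by
    refine a2_ident ?_ w1 fun n => ?_
    · rw [tendsto_zero_iff_norm_tendsto_zero] at hb ⊢
      simpa only [norm_mul, norm_chU, mul_one] using hb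
    · have h4 := (a3_summable hb (u0 * fun i => w ^ n i)).hasSum
      rw [h2 ((dist_pi_lt_iff hε).2 fun i => by simpa [dist_eq_norm] using w2 (n i))
        (fun i => w ^ n i) rfl] at h4
      have h5 : ∀ m, b m * chU (u0 * fun i => w ^ n i) m =
          b m * chU u0 m * ∏ i, iZ p ((w ^ m i : ℤ_[p]ˣ) : ℤ_[p]) ^ n i := fun m => by
        rw [chU_mul, mul_assoc]
        refine congrArg (fun x => b m * (chU u0 m * x)) (Finset.prod_congr rfl fun i _ => ?_)
        simp only [← map_pow, ← Units.val_pow_eq_pow_val, ← zpow_natCast w, ← zpow_mul,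
          ← zpow_natCast (w ^ m i), mul_comm]
      rwa [funext h5] at h4
  funext m
  refine (mul_eq_zero.1 (congrFun h3 m)).resolve_right fun h6 => ?_
  simpa [h6] using norm_chU u0 m

/-- Baire in the compact group `σ → ℤ_[p]ˣ`. -/
theorem a3_gen {ι : Type} [Countable ι] (b : ι → (σ → ℤ) → ℂ_[p])
    (hb : ∀ j, Tendsto (b j) cofinite (𝓝 0)) (h0 : ∀ j, b j ≠ 0) :
    ∃ u : σ → ℤ_[p]ˣ, ∀ j, ∑' m, b j m * chU u m ≠ 0 := by
  have hd : Dense (⋂ j, {u : σ → ℤ_[p]ˣ | ∑' m, b j m * chU u m = 0}ᶜ) :=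
    dense_iInter_of_isOpen (fun j => (isClosed_eq (a3_cont (hb j)) continuous_const).isOpen_compl)
      fun j => interior_eq_empty_iff_dense_compl.1 (Set.eq_empty_of_forall_notMem fun u hu =>
        h0 j (a3_int (hb j) (mem_interior_iff_mem_nhds.1 hu)))
  obtain ⟨u, hu⟩ := hd.nonempty
  exact ⟨u, Set.mem_iInter.1 hu⟩

end Pool.Agent.E7
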