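import Mathlib

/-! Holomorphic functions on the half plane, curve data. -/

open UpperHalfPlane MatrixGroups

noncomputable section

namespace Pool.Agent.E7

/-- Holomorphic on the half plane. -/
def Hc {E : Type} [NormedAddCommGroup E] [NormedSpace ℂ E] (φ : ℍ → E) : Prop :=
  DifferentiableOn ℂ (φ ∘ ofComplex) {z | 0 < z.im}

section

variable {E : Type} [NormedAddCommGroup E] [NormedSpace ℂ E]

theorem Hc.smul {φ : ℍ → E} (h : Hc φ) (g : SL(2, ℝ)) : Hc fun τ => φ (g • τ) := by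
  have h1 := UpperHalfPlane.mdifferentiable_iff.1 (mdifferentiable_coe.comp
    (mdifferentiable_smul (g := Matrix.SpecialLinearGroup.mapGL ℝ g) (by simp)))
  refine (DifferentiableOn.comp h h1 fun z _ => UpperHalfPlane.im_pos _).congr fun z _ => ?_
  simp only [Function.comp_apply, ofComplex_apply]
  rfl

theorem Hc.continuous {φ : ℍ → E} (h : Hc φ) : Continuous φ := by
  refine (h.continuousOn.comp_continuous continuous_coe fun τ => τ.im_pos).congr fun τ => ?_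
  rw [Function.comp_apply, Function.comp_apply, ofComplex_apply]

end

theorem Hc.isolated {φ : ℍ → ℂ} (h : Hc φ) {τ1 : ℍ} (h1 : φ τ1 ≠ 0) (τ0 : ℍ) :
    ∃ ε : ℝ, 0 < ε ∧ ∀ τ, τ ≠ τ0 → dist τ τ0 < ε → φ τ ≠ 0 := by
  have h2 : ¬ ∃ᶠ z in nhdsWithin τ0 {τ0}ᶜ, φ z = 0 := fun hc =>
    h1 (congrFun (eq_zero_of_frequently (UpperHalfPlane.mdifferentiable_iff.2 h) hc) τ1)
  rw [Filter.not_frequently, eventually_nhdsWithin_iff, Metric.eventually_nhds_iff] at h2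
  obtain ⟨ε, hε, h3⟩ := h2
  exact ⟨ε, hε, fun τ h4 h5 => h3 h5 h4⟩

theorem Hc.finite_zeros {φ : ℍ → ℂ} (h : Hc φ) {τ1 : ℍ} (h1 : φ τ1 ≠ 0) {K : Set ℍ}
    (hK : IsCompact K) : {τ ∈ K | φ τ = 0}.Finite := by
  choose ε hε h2 using h.isolated h1
  obtain ⟨t, -, ht⟩ := hK.elim_nhds_subcover (fun τ => Metric.ball τ (ε τ))
    fun τ _ => Metric.ball_mem_nhds τ (hε τ)
  refine t.finite_toSet.subset fun τ hτ => ?_
  obtain ⟨σ, hσ, h3⟩ := Set.mem_iUnion₂.1 (ht hτ.1)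
  by_cases e : τ = σ
  · rwa [e]
  · exact absurd hτ.2 (h2 σ τ e h3)

theorem Hc.exists_ne {α : Type} [Finite α] {φ : α → ℍ → ℂ} (h : ∀ a, Hc (φ a))
    (h1 : ∀ a, ∃ τ, φ a τ ≠ 0) : ∃ τ, ∀ a, φ a τ ≠ 0 := by
  choose σ hσ using h1
  refine (Filter.eventually_all.2 fun a => ?_ : ∀ᶠ τ in nhdsWithin I {I}ᶜ, ∀ a, φ a τ ≠ 0).exists
  exact Filter.not_frequently.1 fun hc =>
    hσ a (congrFun (eq_zero_of_frequently (UpperHalfPlane.mdifferentiable_iff.2 (h a)) hc) _)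

theorem isCompact_box (A B : ℝ) : IsCompact {σ : ℍ | 1 ≤ σ.im ∧ σ.im ≤ B ∧ |σ.re| ≤ A} := by
  rw [isEmbedding_coe.isCompact_iff]
  have e : ((↑) : ℍ → ℂ) '' {σ : ℍ | 1 ≤ σ.im ∧ σ.im ≤ B ∧ |σ.re| ≤ A} =
      Set.Icc (-A) A ×ℂ Set.Icc 1 B := by
    ext z
    refine ⟨?_, fun h => ⟨⟨z, one_pos.trans_le h.2.1⟩, ⟨h.2.1, h.2.2, abs_le.2 h.1⟩, rfl⟩⟩
    rintro ⟨σ, h, rfl⟩
    exact ⟨abs_le.1 h.2.2, h.1, h.2.1⟩
  rw [e]
  exact isCompact_Icc.reProdIm isCompact_Icc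

theorem exists_disc {K : Set ℍ} (hK : IsCompact K) : ∃ (c : ℂ) (ρ R : ℝ), 0 < ρ ∧ ρ < R ∧
    R < c.im ∧ ∀ τ ∈ K, ‖(τ : ℂ) - c‖ ≤ ρ := by
  obtain ⟨δ, hδ, h1⟩ : ∃ δ : ℝ, 0 < δ ∧ ∀ τ ∈ K, δ ≤ τ.im := by
    rcases K.eq_empty_or_nonempty with rfl | hne
    · exact ⟨1, one_pos, by simp⟩
    · obtain ⟨τ, -, h⟩ := hK.exists_isMinOn hne continuous_im.continuousOn
      exact ⟨τ.im, τ.im_pos, fun _ h' => h h'⟩
  obtain ⟨A, h2⟩ := hK.exists_bound_of_continuousOn continuous_coe.continuousOn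
  have h3 : 0 ≤ A ^ 2 / δ := by positivity
  refine ⟨(A ^ 2 / δ + δ : ℝ) * Complex.I, A ^ 2 / δ + δ / 2, A ^ 2 / δ + 3 * δ / 4, by linarith,
    by linarith, by rw [Complex.mul_I_im, Complex.ofReal_re]; linarith, fun τ hτ => ?_⟩
  refine abs_le_of_sq_le_sq' ?_ (by linarith) |>.2
  have h4 := pow_le_pow_left₀ (norm_nonneg _) (h2 τ hτ) 2
  have h5 : A ^ 2 / δ * δ = A ^ 2 := div_mul_cancel₀ _ hδ.ne'
  have h6 := mul_le_mul_of_nonneg_left (h1 τ hτ) (add_nonneg h3 hδ.le)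
  rw [Complex.sq_norm, Complex.normSq_apply] at h4 ⊢
  simp only [Complex.sub_re, Complex.sub_im, Complex.mul_I_re, Complex.mul_I_im, Complex.ofReal_re,
    Complex.ofReal_im, coe_re, coe_im] at h4 ⊢
  nlinarith

/-- A group with a compact set and finitely many cusps. -/
structure Cd where
  D : Subgroup SL(2, ℝ)
  K : Set ℍ
  s : Finset SL(2, ℝ)
  cK : IsCompact K
  shift : ∀ g ∈ s, ∀ n : ℤ, ∃ d ∈ D, ∀ σ : ℍ, d • g • σ = g • ((n : ℝ) +ᵥ σ)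
  cov : ∀ τ : ℍ, ∃ d ∈ D, d • τ ∈ K ∨ ∃ g ∈ s, ∃ σ : ℍ, 1 ≤ σ.im ∧ |σ.re| ≤ 1 ∧ d • τ = g • σ

/-- Polynomial growth in the cusps. -/
def Cd.Gr (X : Cd) (N : ℕ) (u : ℍ → ℝ) : Prop :=
  ∃ A : ℝ, ∀ g ∈ X.s, ∀ σ : ℍ, 1 ≤ σ.im → u (g • σ) ≤ A * ‖(σ : ℂ) + Complex.I‖ ^ N

/-- The compact core. -/
def Cd.core (X : Cd) : Set ℍ :=
  X.K ∪ ⋃ g ∈ X.s, (fun σ => g • σ) '' {σ : ℍ | 1 ≤ σ.im ∧ σ.im ≤ 1 ∧ |σ.re| ≤ 1}

theorem Cd.isCompact_core (X : Cd) : IsCompact X.core :=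
  X.cK.union (X.s.isCompact_biUnion fun g _ =>
    (isCompact_box 1 1).image (continuous_const_smul g))

end Pool.Agent.E7
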