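import Pool.Agent.Lib.MP_7e5527_ag.EL.RA2

/-! Bounded functions with a periodic set of zeros. -/

open Complex

namespace Pool.Agent.E7

theorem ra5_one {z u : ℂ} (hz : 0 < z.im) (h1 : z.im ≤ u.im) (h2 : |z.re - u.re| ≤ 2 * u.im) :
    ‖(z - u) / (z - (starRingEnd ℂ) u)‖ ≤ Real.exp (-z.im / (4 * u.im)) := by
  have hu := hz.trans_le h1
  have h3 := sq_le_sq' (abs_le.1 h2).1 (abs_le.1 h2).2
  have h4 : 1 - z.im / (2 * u.im) ≤ Real.exp (-z.im / (4 * u.im)) ^ 2 := by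
    rw [← Real.exp_nat_mul]
    exact (Real.one_sub_le_exp_neg _).trans_eq (congrArg _ (by push_cast; field_simp; ring))
  rw [norm_div]
  refine div_le_of_le_mul₀ (norm_nonneg _) (Real.exp_pos _).le
    (le_of_sq_le_sq (le_trans ?_ ((mul_le_mul_of_nonneg_right h4 (sq_nonneg _)).trans_eq
      (mul_pow _ _ _).symm)) (by positivity))
  simp only [Complex.sq_norm, normSq_apply, sub_re, sub_im, conj_re, conj_im]
  obtain ⟨t, ht⟩ : ∃ t, t = z.im / (2 * u.im) := ⟨_, rfl⟩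
  have h5 : z.im = t * (2 * u.im) := by rw [ht]; field_simp
  have h6 : 0 ≤ t := by rw [ht]; positivity
  have h7 : (z.re - u.re) ^ 2 + (z.im + u.im) ^ 2 ≤ 8 * u.im ^ 2 := by nlinarith
  rw [← ht]
  nlinarith [mul_le_mul_of_nonneg_left h7 h6]

theorem orbit_factor {z : ℂ} (hz : 0 < z.im) : ∃ θ : ℝ, 0 ≤ θ ∧ θ < 1 ∧ ∀ w : ℂ, 1 ≤ w.im →
    z.im ≤ w.im → ∃ s : Finset ℂ, (∀ u ∈ s, ∃ n : ℤ, u = w + n) ∧
      ∏ u ∈ s, ‖(z - u) / (z - (starRingEnd ℂ) u)‖ ≤ θ := by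
  refine ⟨Real.exp (-z.im / 4), (Real.exp_pos _).le, Real.exp_lt_one_iff.2 (by linarith),
    fun w h1 h2 => ⟨(Finset.range ⌈w.im⌉₊).image fun j : ℕ => w + (round (z.re - w.re) + j : ℤ),
      fun u hu => ?_, ?_⟩⟩
  · obtain ⟨j, -, rfl⟩ := Finset.mem_image.1 hu
    exact ⟨_, rfl⟩
  · rw [Finset.prod_image fun i _ j _ h => by simpa using h]
    refine (Finset.prod_le_prod (g := fun _ => Real.exp (-z.im / (4 * w.im)))
      (fun _ _ => norm_nonneg _) fun j hj => ?_).trans ?_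
    · have h3 : (j : ℝ) < w.im := Nat.lt_ceil.1 (Finset.mem_range.1 hj)
      have h4 := abs_le.1 (abs_sub_round (z.re - w.re))
      have h5 : (0 : ℝ) ≤ j := j.cast_nonneg
      simpa using ra5_one (u := w + (round (z.re - w.re) + j : ℤ)) hz (by simpa using h2)
        (by simp only [add_re, add_im, intCast_re, intCast_im]; push_cast
            exact abs_le.2 ⟨by linarith, by linarith⟩)
    · rw [Finset.prod_const, Finset.card_range, ← Real.exp_nat_mul, Real.exp_le_exp]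
      have h3 := Nat.le_ceil w.im
      rw [← mul_div_assoc, div_le_div_iff₀ (by linarith) (by norm_num)]
      nlinarith

theorem per_zeros {Ψ : ℂ → ℂ} {C : ℝ} (hd : DifferentiableOn ℂ Ψ {z | 0 < z.im})
    (hb : ∀ z : ℂ, 0 < z.im → ‖Ψ z‖ ≤ C)
    (hp : ∀ z : ℂ, 0 < z.im → Ψ z = 0 → ∀ n : ℤ, Ψ (z + n) = 0) {z0 : ℂ} (h0 : 0 < z0.im)
    (hne : Ψ z0 ≠ 0) : ∃ B : ℝ, ∀ z : ℂ, 0 < z.im → Ψ z = 0 → z.im ≤ B := by
  classical
  by_contra hn
  simp only [not_exists, not_forall, not_le] at hn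
  obtain ⟨θ, h1, h2, hθ⟩ := orbit_factor h0
  have key : ∀ N : ℕ, ∃ s : Finset ℂ, (∀ w ∈ s, 0 < w.im ∧ Ψ w = 0) ∧
      ∏ u ∈ s, ‖(z0 - u) / (z0 - (starRingEnd ℂ) u)‖ ≤ θ ^ N := by
    intro N
    induction N with
    | zero => exact ⟨∅, by simp, by simp⟩
    | succ N ih =>
      obtain ⟨s, hs, hP⟩ := ih
      obtain ⟨B, hB⟩ := (s.image im).bddAbove
      obtain ⟨w, hw, hw0, hw1⟩ := hn (max B (max 1 z0.im))
      simp only [max_lt_iff] at hw1
      obtain ⟨t, ht, hQ⟩ := hθ w hw1.2.1.le hw1.2.2.le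
      have hi : ∀ u ∈ t, u.im = w.im ∧ Ψ u = 0 := fun u hu => by
        obtain ⟨n, rfl⟩ := ht u hu
        exact ⟨by simp, hp w hw hw0 n⟩
      refine ⟨s ∪ t, fun u hu => (Finset.mem_union.1 hu).elim (hs u) fun hu =>
        ⟨(hi u hu).1 ▸ hw, (hi u hu).2⟩, ?_⟩
      rw [Finset.prod_union (Finset.disjoint_left.2 fun u hu hu' => ((hi u hu').1 ▸ hw1.1).not_ge
        (hB (Finset.mem_image_of_mem im hu))), pow_succ]
      exact mul_le_mul hP hQ (Finset.prod_nonneg fun _ _ => norm_nonneg _) (pow_nonneg h1 N)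
  have hC : 0 ≤ C := (norm_nonneg _).trans (hb z0 h0)
  refine hne (norm_le_zero_iff.1 (ge_of_tendsto' (mul_zero C ▸
    (tendsto_pow_atTop_nhds_zero_of_lt_one h1 h2).const_mul C) fun N => ?_))
  obtain ⟨s, hs, hP⟩ := key N
  exact (blaschke hd hb s hs h0).trans (mul_le_mul_of_nonneg_left hP hC)

end Pool.Agent.E7
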