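import Pool.Agent.Lib.MP_7e5527_ag.EL.CA
import Pool.Agent.Lib.MP_7e5527_ag.EL.RA3

/-! Bounded height, finiteness of the zeros. -/

open UpperHalfPlane MatrixGroups

noncomputable section

namespace Pool.Agent.E7

theorem Cd.height (X : Cd) {h : ℍ → ℂ} (hh : Hc h) {τ0 τ1 : ℍ} (h1 : h τ1 ≠ 0)
    (h0 : ∀ d ∈ X.D, h (d • τ0) = 0) {L : Set ℍ} (hL : IsCompact L) :
    ∃ B : ℝ, ∀ τ ∈ L, ∀ d ∈ X.D, ∀ g ∈ X.s, ∀ σ : ℍ, d • τ = g • σ → σ.im ≤ B := by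
  obtain ⟨ε, hε, he⟩ := hh.isolated h1 τ0
  obtain ⟨R, hR⟩ := hL.isBounded.subset_closedBall τ0
  refine ⟨ε⁻¹ * Real.exp R, fun τ hτ d hd g hg σ e => ?_⟩
  obtain ⟨p, hp, hs⟩ := X.shift g hg 1
  obtain ⟨σ0, e0⟩ : ∃ σ0 : ℍ, d • τ0 = g • σ0 := ⟨g⁻¹ • d • τ0, (smul_inv_smul _ _).symm⟩
  have e1 : d • ((d⁻¹ * p * d) • τ0) = g • (((1 : ℤ) : ℝ) +ᵥ σ0) := by
    rw [mul_smul, mul_smul, smul_inv_smul, e0, hs]
  have h2 : ε ≤ dist (((1 : ℤ) : ℝ) +ᵥ σ0) σ0 := by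
    rw [← dist_smul g, ← e1, ← e0, dist_smul]
    refine not_lt.1 fun hl => he _ (fun e2 => ?_) hl
      (h0 _ (mul_mem (mul_mem (inv_mem hd) hp) hd))
    rw [e2, e0, smul_left_cancel_iff] at e1
    simpa using congrArg UpperHalfPlane.re e1
  have h3 := h2.trans (dist_le_dist_coe_div_sqrt _ _)
  rw [vadd_im, Real.sqrt_mul_self σ0.im_pos.le, coe_vadd, dist_add_self_left] at h3
  have h4 : σ0.im ≤ ε⁻¹ := by
    rw [le_inv_comm₀ σ0.im_pos hε]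
    simpa using h3
  have h5 : dist σ σ0 ≤ R := by
    rw [← dist_smul g, ← e, ← e0, dist_smul]
    exact hR hτ
  exact (im_le_im_mul_exp_dist σ σ0).trans (by gcongr)

theorem cb2_ht {φ : ℍ → ℂ} (h : Hc φ) {τ1 : ℍ} (h1 : φ τ1 ≠ 0) {A : ℝ} {N : ℕ}
    (hb : ∀ σ : ℍ, 1 ≤ σ.im → ‖φ σ‖ ≤ A * ‖(σ : ℂ) + Complex.I‖ ^ N)
    (hp : ∀ σ, φ σ = 0 → ∀ n : ℤ, φ ((n : ℝ) +ᵥ σ) = 0) : ∃ B : ℝ, ∀ σ, φ σ = 0 → σ.im ≤ B := by
  have p1 : ∀ z : ℂ, 0 < z.im → 0 < (z + Complex.I).im := fun z hz => by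
    simpa using add_pos hz one_pos
  have p2 : ∀ z : ℂ, 0 < z.im → (z + Complex.I + Complex.I) ^ N ≠ 0 := fun z hz =>
    pow_ne_zero _ fun e => by simpa [e] using p1 _ (p1 z hz)
  have p3 : ∀ σ : ℍ, ofComplex (σ - Complex.I + Complex.I) = σ := fun σ => by
    rw [sub_add_cancel, ofComplex_apply]
  obtain ⟨σ0, s1, s2⟩ : ∃ σ : ℍ, σ.im = 2 ∧ φ σ ≠ 0 := by
    by_contra hc
    let τ : ℍ := ⟨2 * Complex.I, by simp⟩
    have e1 : τ.im = 2 := by simp [τ]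
    have e2 : τ.re = 0 := by simp [τ]
    refine ((Set.Icc_infinite (zero_lt_one' ℝ)).image (f := fun t : ℝ => t +ᵥ τ)
      fun a _ b _ e => by simpa using congrArg UpperHalfPlane.re e).not_finite
      ((h.finite_zeros h1 (isCompact_box 1 2)).subset ?_)
    rintro _ ⟨t, ht, rfl⟩
    refine ⟨?_, not_not.1 fun e => hc ⟨_, by rw [vadd_im, e1], e⟩⟩
    simp only [Set.mem_ofPred_eq, vadd_im, vadd_re, e1, e2, add_zero, abs_of_nonneg ht.1]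
    exact ⟨one_le_two, le_rfl, ht.2⟩
  have s3 : 0 < ((σ0 : ℂ) - Complex.I).im := by simp [s1]
  obtain ⟨B, hB⟩ := per_zeros (C := A) (z0 := σ0 - Complex.I)
    (Ψ := fun z => φ (ofComplex (z + Complex.I)) / (z + Complex.I + Complex.I) ^ N)
    ((DifferentiableOn.comp h (by fun_prop) p1).div (by fun_prop) p2)
    (fun z hz => by
      rw [norm_div, div_le_iff₀ (norm_pos_iff.2 (p2 z hz)), norm_pow,
        ofComplex_apply_of_im_pos (p1 z hz)]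
      exact hb ⟨_, p1 z hz⟩ (by simpa using hz.le))
    (fun z hz e n => by
      have := hp _ ((div_eq_zero_iff.1 e).resolve_right (p2 z hz)) n
      rw [ofComplex_apply_of_im_pos (p1 z hz), ← ofComplex_apply (_ +ᵥ _), coe_vadd] at this
      refine div_eq_zero_iff.2 (Or.inl (this ▸ congrArg (fun w => φ (ofComplex w)) ?_))
      push_cast
      ring) s3 (div_ne_zero (by rwa [p3]) (p2 _ s3))
  refine ⟨max 1 (B + 1), fun σ e => ?_⟩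
  rcases le_or_gt σ.im 1 with k | k
  · exact k.trans (le_max_left _ _)
  · have := hB (σ - Complex.I) (by simpa using k) (by simp only [p3, e, zero_div])
    exact le_trans (by simpa using this) (le_max_right _ _)

theorem Cd.fin_zeros (X : Cd) {Φ : ℍ → ℂ} (hΦ : Hc Φ) {τ1 : ℍ} (h1 : Φ τ1 ≠ 0)
    (hi : ∀ d ∈ X.D, ∀ τ, Φ τ = 0 → Φ (d • τ) = 0) {N : ℕ} (hg : X.Gr N fun τ => ‖Φ τ‖) :
    ∃ S : Set ℍ, S.Finite ∧ ∀ τ, Φ τ = 0 → ∃ d ∈ X.D, d • τ ∈ S := by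
  obtain ⟨A, hA⟩ := hg
  have h2 : ∀ g ∈ X.s, ∃ B : ℝ, ∀ σ : ℍ, Φ (g • σ) = 0 → σ.im ≤ B := fun g k =>
    cb2_ht (hΦ.smul g) (τ1 := g⁻¹ • τ1) (by rwa [smul_inv_smul]) (hA g k) fun σ e n => by
      obtain ⟨d, hd, h3⟩ := X.shift g k n
      exact h3 σ ▸ hi d hd _ e
  choose! B hB using h2
  refine ⟨_, hΦ.finite_zeros h1 (X.cK.union (X.s.isCompact_biUnion fun g _ =>
    (isCompact_box 1 (B g)).image (continuous_const_smul g))), fun τ e => ?_⟩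
  obtain ⟨d, hd, h3⟩ := X.cov τ
  have h4 := hi d hd τ e
  refine ⟨d, hd, h3.imp id ?_, h4⟩
  rintro ⟨g, k, σ, h5, h6, h7⟩
  exact Set.mem_biUnion k ⟨σ, ⟨h5, hB g k σ (h7 ▸ h4), h6⟩, h7.symm⟩

end Pool.Agent.E7
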