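import Mathlib

/-! One variable complex analysis: maximum principles. -/

open Complex

namespace Pool.Agent.E7

theorem pl_half {Ψ : ℂ → ℂ} {a A C : ℝ} (hd : ∀ z : ℂ, a ≤ z.im → DifferentiableAt ℂ Ψ z)
    (hb : ∀ z : ℂ, a ≤ z.im → ‖Ψ z‖ ≤ A) (hC : ∀ z : ℂ, z.im = a → ‖Ψ z‖ ≤ C) {z : ℂ}
    (hz : a ≤ z.im) : ‖Ψ z‖ ≤ C := by
  have e : ∀ u : ℂ, (I * u + a * I).im = u.re + a := fun u => by simp
  have hb' : ∀ u : ℂ, 0 ≤ u.re → ‖Ψ (I * u + a * I)‖ ≤ A := fun u hu =>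
    hb _ (by rw [e]; linarith)
  have h := PhragmenLindelof.right_half_plane_of_bounded_on_real
    (f := fun u => Ψ (I * u + a * I)) (C := C) (z := -I * (z - a * I))
    (DifferentiableOn.diffContOnCl fun u hu => ?_) ⟨0, two_pos, 0, .of_bound A ?_⟩ ⟨A, ?_⟩
    (fun x => hC _ (by simp)) (by simpa using hz)
  · rwa [← mul_assoc, mul_neg, I_mul_I, neg_neg, one_mul, sub_add_cancel] at h
  · rw [closure_setOfPred_lt_re] at hu
    exact ((hd _ (by rw [e]; exact le_add_of_nonneg_left hu)).comp u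
      (f := fun u => I * u + a * I) (by fun_prop)).differentiableWithinAt
  · exact Filter.eventually_inf_principal.2 (.of_forall fun u hu => by simpa using hb' u hu.le)
  · exact Filter.eventually_map.2 ((Filter.eventually_ge_atTop 0).mono fun x hx => hb' x hx)

theorem ra2_prod {l : ℝ} (hl : 0 < l) (s : Multiset ℂ) (h : ∀ a ∈ s, a.im ≤ 0) :
    l ^ s.card ≤ ‖(s.map fun a => l * I - a).prod‖ := by
  induction s using Multiset.induction_on with
  | empty => simp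
  | cons a s ih =>
    rw [Multiset.map_cons, Multiset.prod_cons, norm_mul, Multiset.card_cons, pow_succ']
    refine mul_le_mul (le_trans ?_ (im_le_norm _))
      (ih fun b hb => h b (Multiset.mem_cons_of_mem hb)) (by positivity) (norm_nonneg _)
    simpa using h a (Multiset.mem_cons_self _ _)

open Polynomial in
theorem ra2_poly {l : ℝ} (hl : 0 < l) (p : ℂ[X]) (h : ∀ t : ℂ, 0 < t.im → p.eval t ≠ 0)
    (h1 : 1 ≤ ‖p.leadingCoeff‖) (h3 : p.natDegree ≤ 3) : min 1 l ^ 3 ≤ ‖p.eval (l * I)‖ := by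
  have hc : p.roots.card = p.natDegree := IsAlgClosed.card_roots_eq_natDegree
  have h2 := ra2_prod hl p.roots fun a ha => not_lt.1 fun x => h a x (isRoot_of_mem_roots ha)
  have h4 := congrArg (eval (l * I)) (C_leadingCoeff_mul_prod_multiset_X_sub_C hc)
  simp only [eval_mul, eval_C, eval_multiset_prod, Multiset.map_map, Function.comp_def, eval_sub,
    eval_X] at h4
  have h0 : 0 ≤ min 1 l := le_min zero_le_one hl.le
  rw [← h4, norm_mul]
  refine le_trans ?_ (le_mul_of_one_le_left (norm_nonneg _) h1)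
  exact ((pow_le_pow_of_le_one h0 (min_le_left _ _) (hc ▸ h3)).trans
    (pow_le_pow_left₀ h0 (min_le_right _ _) _)).trans h2

theorem cubic_low {c0 c1 c2 c3 : ℂ} {l : ℝ} (hl : 0 < l)
    (h : ∀ t : ℂ, 0 < t.im → c0 + c1 * t + c2 * t ^ 2 + c3 * t ^ 3 ≠ 0)
    (h1 : 1 ≤ ‖c3‖ ∨ c3 = 0 ∧ (1 ≤ ‖c2‖ ∨ c2 = 0 ∧ (1 ≤ ‖c1‖ ∨ c1 = 0 ∧ 1 ≤ ‖c0‖))) :
    min 1 l ^ 3 ≤ ‖c0 + c1 * (l * I) + c2 * (l * I) ^ 2 + c3 * (l * I) ^ 3‖ := by
  have e : ∀ t : ℂ, (Cubic.mk c3 c2 c1 c0).toPoly.eval t =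
      c0 + c1 * t + c2 * t ^ 2 + c3 * t ^ 3 := fun t => by
    simp [Cubic.toPoly]
    ring
  rw [← e]
  refine ra2_poly hl _ (fun t ht => e t ▸ h t ht) ?_ Polynomial.natDegree_cubic_le
  have n : ∀ {c : ℂ}, 1 ≤ ‖c‖ → c ≠ 0 := fun h => norm_pos_iff.1 (one_pos.trans_le h)
  obtain h1 | ⟨rfl, h1 | ⟨rfl, h1 | ⟨rfl, h1⟩⟩⟩ := h1
  · rwa [Cubic.leadingCoeff_of_a_ne_zero' (n h1)]
  · rwa [Cubic.leadingCoeff_of_b_ne_zero' (n h1)]
  · rwa [Cubic.leadingCoeff_of_c_ne_zero' (n h1)]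
  · rwa [Cubic.leadingCoeff_of_c_eq_zero']

theorem disc_zeros {Φ : ℂ → ℂ} {c : ℂ} {R η ρ A : ℝ} (h0 : 0 ≤ η) (hη : η < R) (hρ : ρ ≤ R)
    (hd : ∀ z ∈ Metric.closedBall c R, DifferentiableAt ℂ Φ z)
    (hA : ∀ z ∈ Metric.sphere c R, ‖Φ z‖ ≤ A) (s : Finset ℂ)
    (hs : ∀ w ∈ s, ‖w - c‖ ≤ η ∧ Φ w = 0) {z : ℂ} (hz : ‖z - c‖ ≤ ρ) :
    ‖Φ z‖ ≤ A * ((ρ + η) / (R - η)) ^ s.card := by
  classical
  have hR := h0.trans_lt hη
  have hη' := sub_pos.2 hη
  induction s using Finset.induction_on generalizing Φ A with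
  | empty =>
    rw [Finset.card_empty, pow_zero, mul_one]
    refine norm_le_of_forall_mem_frontier_norm_le (Metric.isBounded_ball (x := c) (r := R))
      (DifferentiableOn.diffContOnCl fun u hu => ?_) ?_ ?_
    · exact (hd u (Metric.closure_ball_subset_closedBall hu)).differentiableWithinAt
    · rwa [frontier_ball c hR.ne']
    · rw [closure_ball c hR.ne']
      exact mem_closedBall_iff_norm.2 (hz.trans hρ)
  | insert w s hw ih =>
    obtain ⟨h1, h2⟩ := hs w (Finset.mem_insert_self _ _)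
    have e : ∀ u, ‖Φ u‖ = ‖u - w‖ * ‖dslope Φ w u‖ := fun u => by
      rw [← norm_smul, sub_smul_dslope_of_zero h2]
    have h3 := ih (Φ := dslope Φ w) (A := A / (R - η)) (fun u hu => ?_) (fun u hu => ?_)
      fun u hu => ?_
    · rw [e, Finset.card_insert_of_notMem hw, pow_succ]
      refine (mul_le_mul (b := ρ + η) ?_ h3 (norm_nonneg _)
        (add_nonneg ((norm_nonneg _).trans hz) h0)).trans_eq (by ring)
      linarith [norm_sub_le_norm_sub_add_norm_sub z c w, norm_sub_rev c w]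
    · rcases eq_or_ne u w with rfl | hne
      · have h4 := Metric.isOpen_ball.mem_nhds (mem_ball_iff_norm.2 (h1.trans_lt hη))
        exact ((differentiableOn_dslope h4).2 fun y hy =>
          (hd y (Metric.ball_subset_closedBall hy)).differentiableWithinAt).differentiableAt h4
      · exact (differentiableAt_dslope_of_ne hne).2 (hd u hu)
    · refine (le_div_iff₀' hη').2 (le_trans ?_ (hA u hu))
      rw [e]
      refine mul_le_mul_of_nonneg_right ?_ (norm_nonneg _)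
      linarith [norm_sub_le_norm_sub_add_norm_sub u w c, mem_sphere_iff_norm.1 hu]
    · obtain ⟨h4, h5⟩ := hs u (Finset.mem_insert_of_mem hu)
      have h6 := sub_smul_dslope_of_zero h2 u
      rw [h5, smul_eq_zero, sub_eq_zero] at h6
      exact ⟨h4, h6.resolve_left fun e => hw (e ▸ hu)⟩

end Pool.Agent.E7
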