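import Pool.Agent.Lib.MP_7e5527_ag.EL.CA
import Pool.Agent.Lib.MP_7e5527_ag.EL.RA1

/-! Forms on a curve: the vanishing theorem. -/

open UpperHalfPlane MatrixGroups

noncomputable section

namespace Pool.Agent.E7

/-- `Φ` is a form of weight `m` for the weight function `w`. -/
structure Cd.Fm (X : Cd) (w : ℍ → ℝ) (N m : ℕ) (Φ : ℍ → ℂ) : Prop where
  hol : Hc Φ
  inv : ∀ d ∈ X.D, ∀ τ, ‖Φ (d • τ)‖ * w (d • τ) ^ m = ‖Φ τ‖ * w τ ^ m
  gr : X.Gr (N * m) fun τ => ‖Φ τ‖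

theorem Cd.cusp_bound (X : Cd) {w : ℍ → ℝ} (hw0 : ∀ τ, 0 < w τ) {N : ℕ}
    (hg : X.Gr N fun τ => (w τ)⁻¹) : ∃ C : ℝ, 0 < C ∧ ∀ (m : ℕ) (Φ : ℍ → ℂ) (M : ℝ),
      X.Fm w N m Φ → (∀ τ ∈ X.core, ‖Φ τ‖ * w τ ^ m ≤ M) → ∀ g ∈ X.s, ∀ σ : ℍ, 1 ≤ σ.im →
        ‖Φ (g • σ)‖ ≤ M * (C * ‖(σ : ℂ) + Complex.I‖ ^ N) ^ m := by
  obtain ⟨A, hA⟩ := hg
  refine ⟨max A 1, by positivity, fun m Φ M hΦ hc g g1 σ s1 => ?_⟩
  obtain ⟨A', hA'⟩ := hΦ.gr
  have h0 : ∀ z : ℂ, 1 ≤ z.im → z + Complex.I ≠ 0 := fun z hz e => by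
    have := congrArg Complex.im e
    simp only [Complex.add_im, Complex.I_im, Complex.zero_im] at this
    linarith
  have h1 : ∀ (τ : ℍ) (b : ℝ), 1 ≤ τ.im →
      (‖Φ (g • ofComplex (τ : ℂ)) / ((τ : ℂ) + Complex.I) ^ (N * m)‖ ≤ b ↔
        ‖Φ (g • τ)‖ ≤ b * ‖(τ : ℂ) + Complex.I‖ ^ (N * m)) := fun τ b h => by
    rw [ofComplex_apply, norm_div, norm_pow, div_le_iff₀ (pow_pos (norm_pos_iff.2 (h0 _ h)) _)]
  rw [mul_pow, ← pow_mul, ← mul_assoc, ← h1 _ _ s1]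
  refine pl_half (Ψ := fun z => Φ (g • ofComplex z) / (z + Complex.I) ^ (N * m)) (a := 1) (A := A')
    (fun z hz => ?_) (fun z hz => ?_) (fun z hz => ?_) s1
  · exact ((hΦ.hol.smul g).differentiableAt (isOpen_upperHalfPlaneSet.mem_nhds
      (one_pos.trans_le hz))).div (by fun_prop) (pow_ne_zero _ (h0 z hz))
  · exact (h1 ⟨z, one_pos.trans_le hz⟩ _ hz).2 (hA' g g1 _ hz)
  · obtain ⟨τ, rfl⟩ : ∃ τ : ℍ, (τ : ℂ) = z := ⟨⟨z, one_pos.trans_eq hz.symm⟩, rfl⟩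
    have hz : τ.im = 1 := hz
    obtain ⟨d, hd, e⟩ := X.shift g g1 (-⌊τ.re⌋)
    have h2 := hc (g • (((-⌊τ.re⌋ : ℤ) : ℝ) +ᵥ τ)) (Or.inr (Set.mem_biUnion g1 ⟨_, ⟨by simp [hz],
      by simp [hz], by
        rw [vadd_re, Int.cast_neg, neg_add_eq_sub, Int.self_sub_floor, Int.abs_fract]
        exact (Int.fract_lt_one _).le⟩, rfl⟩))
    rw [← e, hΦ.inv d hd] at h2
    have h3 := hw0 (g • τ)
    have h4 : 0 ≤ M := le_trans (by positivity) h2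
    rw [← le_div_iff₀ (pow_pos h3 m), div_eq_mul_inv, ← inv_pow] at h2
    refine (h1 τ _ hz.ge).2 (h2.trans ?_)
    rw [mul_assoc, pow_mul, ← mul_pow]
    exact mul_le_mul_of_nonneg_left (pow_le_pow_left₀ (inv_pos.2 h3).le ((hA g g1 τ hz.ge).trans
      (mul_le_mul_of_nonneg_right (le_max_left _ _) (by positivity))) m) h4

theorem Cd.compact_bound (X : Cd) {w : ℍ → ℝ} (hw : Continuous w) (hw0 : ∀ τ, 0 < w τ) {N : ℕ}
    (hg : X.Gr N fun τ => (w τ)⁻¹) {L : Set ℍ} (hL : IsCompact L) {B : ℝ}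
    (hB : ∀ τ ∈ L, ∀ d ∈ X.D, ∀ g ∈ X.s, ∀ σ : ℍ, d • τ = g • σ → σ.im ≤ B) :
    ∃ C : ℝ, 0 < C ∧ ∀ (m : ℕ) (Φ : ℍ → ℂ) (M : ℝ), 0 ≤ M → X.Fm w N m Φ →
      (∀ τ ∈ X.core, ‖Φ τ‖ * w τ ^ m ≤ M) → ∀ τ ∈ L, ‖Φ τ‖ ≤ M * C ^ m := by
  obtain ⟨C, c0, hC⟩ := X.cusp_bound hw0 hg
  obtain ⟨W, hW⟩ := hL.exists_bound_of_continuousOn (hw.inv₀ fun τ => (hw0 τ).ne').continuousOn
  obtain ⟨P, hP⟩ := (isCompact_box 1 B).exists_bound_of_continuousOn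
    (f := fun σ : ℍ => ‖(σ : ℂ) + Complex.I‖ ^ N) (by fun_prop)
  obtain ⟨Q, hQ⟩ := (X.s.isCompact_biUnion fun g _ => (isCompact_box 1 B).image
    (continuous_const_smul g)).exists_bound_of_continuousOn hw.continuousOn
  refine ⟨max 1 (C * P * Q) * max 1 W, by positivity, fun m Φ M hM hΦ hc τ hτ => ?_⟩
  have h1 : ‖Φ τ‖ * w τ ^ m ≤ M * max 1 (C * P * Q) ^ m := by
    obtain ⟨d, hd, h | ⟨g, g1, σ, s1, s2, e⟩⟩ := X.cov τ
    · rw [← hΦ.inv d hd]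
      exact (hc _ (Or.inl h)).trans (le_mul_of_one_le_right hM (one_le_pow₀ (le_max_left _ _)))
    · have hs : 1 ≤ σ.im ∧ σ.im ≤ B ∧ |σ.re| ≤ 1 := ⟨s1, hB τ hτ d hd g g1 σ e, s2⟩
      have h2 := (le_abs_self _).trans (hP σ hs)
      have h3 := (le_abs_self _).trans (hQ _ (Set.mem_biUnion g1 ⟨σ, hs, rfl⟩))
      have h4 := (hw0 (g • σ)).le
      rw [← hΦ.inv d hd, e]
      refine (mul_le_mul_of_nonneg_right (hC m Φ M hΦ hc g g1 σ s1) (pow_nonneg h4 m)).trans ?_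
      rw [mul_assoc, ← mul_pow]
      exact mul_le_mul_of_nonneg_left (pow_le_pow_left₀ (by positivity) (le_max_of_le_right
        (mul_le_mul (mul_le_mul_of_nonneg_left h2 c0.le) h3 h4
          (mul_nonneg c0.le (le_trans (by positivity) h2)))) m) hM
  have h5 := hw0 τ
  rw [← le_div_iff₀ (pow_pos h5 m), div_eq_mul_inv, ← inv_pow] at h1
  rw [mul_pow, ← mul_assoc]
  exact h1.trans (mul_le_mul_of_nonneg_left (pow_le_pow_left₀ (inv_pos.2 h5).le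
    (le_max_of_le_right ((le_abs_self _).trans (hW τ hτ))) m)
    (mul_nonneg hM (pow_nonneg (le_max_of_le_left zero_le_one) m)))

theorem Cd.vanish (X : Cd) {w : ℍ → ℝ} (hw : Continuous w) (hw0 : ∀ τ, 0 < w τ) {N : ℕ}
    (hg : X.Gr N fun τ => (w τ)⁻¹) (hB : ∀ L : Set ℍ, IsCompact L → ∃ B : ℝ,
      ∀ τ ∈ L, ∀ d ∈ X.D, ∀ g ∈ X.s, ∀ σ : ℍ, d • τ = g • σ → σ.im ≤ B) :
    ∃ (n : ℕ) (p : ℕ → ℍ), ∀ (m : ℕ) (Φ : ℍ → ℂ), 0 < m → X.Fm w N m Φ →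
      (∀ j < n * m, Φ (p j) = 0) → ∀ τ, Φ τ = 0 := by
  obtain ⟨c, ρ, R, hρ, hR, hc, hK⟩ := exists_disc X.isCompact_core
  have him : ∀ z : ℂ, ‖z - c‖ ≤ R → 0 < z.im := fun z hz => by
    have := (abs_le.1 ((Complex.abs_im_le_norm (z - c)).trans hz)).1
    rw [Complex.sub_im] at this
    linarith
  have hL : IsCompact {τ : ℍ | ‖(τ : ℂ) - c‖ ≤ R} := by
    have := isEmbedding_coe.isInducing.isCompact_preimage' (isCompact_closedBall c R)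
      fun z hz => ⟨⟨z, him z (mem_closedBall_iff_norm.1 hz)⟩, rfl⟩
    simpa only [Set.preimage, mem_closedBall_iff_norm] using this
  obtain ⟨B, hB⟩ := hB _ hL
  obtain ⟨C, hC, hb⟩ := X.compact_bound hw hw0 hg hL hB
  obtain ⟨W, hW⟩ := X.isCompact_core.bddAbove_image hw.continuousOn
  obtain ⟨η, h0, hη⟩ : ∃ η : ℝ, 0 < η ∧ ρ + η < R - η := ⟨(R - ρ) / 4, by linarith, by linarith⟩
  have hθ : 0 ≤ (ρ + η) / (R - η) := div_nonneg (by linarith) (by linarith)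
  have hW0 : 0 < max W 1 := lt_max_of_lt_right one_pos
  obtain ⟨n, hn⟩ := exists_pow_lt_of_lt_one (x := (2 * (C * max W 1))⁻¹) (by positivity)
    ((div_lt_one (by linarith)).2 hη)
  let q : ℕ → ℂ := fun j => c + (η / (j + 1) : ℝ)
  have hq : ∀ j, ‖q j - c‖ ≤ η := fun j => by
    rw [add_sub_cancel_left, Complex.norm_real, Real.norm_of_nonneg (by positivity)]
    exact div_le_self h0.le (by linarith [j.cast_nonneg (α := ℝ)])
  have hqi : Function.Injective q := fun i j e => by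
    have e1 := Complex.ofReal_injective (add_left_cancel e)
    rw [div_eq_div_iff (by positivity) (by positivity)] at e1
    exact_mod_cast (add_right_cancel (mul_left_cancel₀ h0.ne' e1)).symm
  have hq' : ∀ j, ‖q j - c‖ ≤ R := fun j => (hq j).trans (by linarith)
  refine ⟨n, fun j => ⟨q j, him _ (hq' j)⟩, fun m Φ hm hΦ hz τ1 => by_contra fun h1 => ?_⟩
  have step : ∀ M, 0 ≤ M → (∀ τ ∈ X.core, ‖Φ τ‖ * w τ ^ m ≤ M) →
      ∀ τ ∈ X.core, ‖Φ τ‖ * w τ ^ m ≤ M / 2 := fun M hM h τ hτ => by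
    have h2 := disc_zeros (Φ := Φ ∘ ofComplex) (A := M * C ^ m) h0.le (by linarith) hR.le
      (fun z hz => hΦ.hol.differentiableAt ((isOpen_lt continuous_const
        Complex.continuous_im).mem_nhds (him z (mem_closedBall_iff_norm.1 hz))))
      (fun z hz => by
        have h3 := (mem_sphere_iff_norm.1 hz).le
        rw [Function.comp_apply, ofComplex_apply_of_im_pos (him z h3)]
        exact hb m Φ M hM hΦ h _ h3)
      ((Finset.range (n * m)).image q) (fun u hu => by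
        obtain ⟨j, hj, rfl⟩ := Finset.mem_image.1 hu
        rw [Function.comp_apply, ofComplex_apply_of_im_pos (him _ (hq' j))]
        exact ⟨hq j, hz j (Finset.mem_range.1 hj)⟩) (hK τ hτ)
    rw [Finset.card_image_of_injective _ hqi, Finset.card_range, Function.comp_apply,
      ofComplex_apply, pow_mul] at h2
    have h3 : w τ ^ m ≤ max W 1 ^ m :=
      pow_le_pow_left₀ (hw0 τ).le ((hW ⟨τ, hτ, rfl⟩).trans (le_max_left _ _)) m
    have h4 : ((ρ + η) / (R - η)) ^ n * (C * max W 1) ≤ 1 / 2 := by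
      rw [inv_eq_one_div, lt_div_iff₀ (by positivity)] at hn
      linarith
    refine (mul_le_mul h2 h3 (pow_pos (hw0 τ) m).le (by positivity)).trans ?_
    rw [mul_assoc, mul_assoc, ← mul_pow, ← mul_pow, div_eq_mul_one_div M]
    refine mul_le_mul_of_nonneg_left ((pow_le_of_le_one (by positivity) ?_ hm.ne').trans ?_) hM <;>
      linarith
  have h2 : ∀ τ ∈ X.core, ‖Φ τ‖ * w τ ^ m ≤ 0 := fun τ hτ => by
    obtain ⟨σ, hσ, h3⟩ := X.isCompact_core.exists_isMaxOn ⟨τ, hτ⟩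
      (hΦ.hol.continuous.norm.mul (hw.pow m)).continuousOn
    have h4 := step _ (mul_nonneg (norm_nonneg _) (pow_pos (hw0 σ) m).le) (fun _ h => h3 h) σ hσ
    have h5 : ‖Φ τ‖ * w τ ^ m ≤ ‖Φ σ‖ * w σ ^ m := h3 hτ
    linarith
  refine (hΦ.hol.finite_zeros h1 hL).not_infinite (Set.infinite_of_injective_forall_mem
    (f := fun j => (⟨q j, him _ (hq' j)⟩ : ℍ)) (fun i j e => hqi (congrArg UpperHalfPlane.coe e))
    fun j => ⟨hq' j, ?_⟩)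
  exact norm_le_zero_iff.1 ((hb m Φ 0 le_rfl hΦ h2 _ (hq' j)).trans_eq (zero_mul _))

end Pool.Agent.E7
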