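import Pool.Agent.Lib.MP_7e5527_ag.EL.CB
import Pool.Agent.Lib.MP_7e5527_ag.EL.CC

/-! Three forms on a curve are algebraically dependent. -/

open UpperHalfPlane MatrixGroups

noncomputable section

namespace Pool.Agent.E7

theorem exists_hom_van (n : ℕ) : ∃ m : ℕ, 0 < m ∧ ∀ x : ℕ → Fin 3 → ℂ,
    ∃ P : MvPolynomial (Fin 3) ℂ, P ≠ 0 ∧ P.IsHomogeneous m ∧
      ∀ j < n * m, MvPolynomial.eval (x j) P = 0 := by
  refine ⟨2 * (2 * n + 1), by omega, fun x => ?_⟩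
  let e : Fin (2 * n + 2) × Fin (2 * n + 2) → Fin 3 →₀ ℕ := fun a =>
    Finsupp.equivFunOnFinite.symm ![a.1, a.2, 2 * (2 * n + 1) - a.1 - a.2]
  have he : e.Injective := fun a b h => Prod.ext (Fin.ext (DFunLike.congr_fun h 0))
    (Fin.ext (DFunLike.congr_fun h 1))
  have hL := linearIndependent_iff_injective_fintypeLinearCombination.1
    ((MvPolynomial.basisMonomials (Fin 3) ℂ).linearIndependent.comp e he)
  obtain ⟨c, h1, h2⟩ := (Submodule.ne_bot_iff _).1 (LinearMap.ker_ne_bot_of_finrank_lt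
    (f := (LinearMap.pi fun j : Fin (n * (2 * (2 * n + 1))) =>
      (MvPolynomial.aeval (x j)).toLinearMap) ∘ₗ
      Fintype.linearCombination ℂ (MvPolynomial.basisMonomials (Fin 3) ℂ ∘ e))
    (by simp; nlinarith))
  refine ⟨_, (map_ne_zero_iff _ hL).2 h2, ?_, fun j hj => congrFun h1 ⟨j, hj⟩⟩
  rw [Fintype.linearCombination_apply, ← MvPolynomial.mem_homogeneousSubmodule]
  refine Submodule.sum_mem _ fun a _ => Submodule.smul_mem _ _
    (MvPolynomial.isHomogeneous_monomial (d := e a) 1 ?_)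
  rw [Finsupp.degree_eq_sum, Fin.sum_univ_three]
  show a.1 + a.2 + (_ - a.1 - a.2 : ℕ) = _
  omega

theorem cd1_deg {P : MvPolynomial (Fin 3) ℂ} {m : ℕ} (hP : P.IsHomogeneous m) {d : Fin 3 →₀ ℕ}
    (hd : d ∈ P.support) : ∑ i, d i = m := by
  rw [← Finsupp.degree_eq_sum]
  exact by_contra fun h => MvPolynomial.mem_support_iff.1 hd (hP.coeff_eq_zero h)

theorem Cd.fm_eval (X : Cd) {w : ℍ → ℝ} {N : ℕ} {φ : Fin 3 → ℍ → ℂ} (hφ : ∀ i, Hc (φ i))
    (hg : ∀ i, X.Gr N fun τ => ‖φ i τ‖) (hi : ∀ d ∈ X.D, ∀ τ, ∃ c : ℂ,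
      (∀ i, φ i (d • τ) = c * φ i τ) ∧ ‖c‖ * w (d • τ) = w τ)
    {P : MvPolynomial (Fin 3) ℂ} {m : ℕ} (hP : P.IsHomogeneous m) :
    X.Fm w N m fun τ => MvPolynomial.eval (fun i => φ i τ) P := by
  simp only [MvPolynomial.eval_eq']
  refine ⟨DifferentiableOn.fun_sum fun d _ => DifferentiableOn.const_mul
    (DifferentiableOn.fun_finsetProd fun i _ => DifferentiableOn.pow (hφ i) _) _,
    fun d hd τ => ?_, ?_⟩
  · obtain ⟨c, h1, h2⟩ := hi d hd τ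
    rw [← h2, mul_pow, ← mul_assoc, ← norm_pow, ← norm_mul, Finset.sum_mul]
    refine congrArg (‖·‖ * _) (Finset.sum_congr rfl fun e he => ?_)
    simp only [h1, mul_pow, Finset.prod_mul_distrib, Finset.prod_pow_eq_pow_sum, cd1_deg hP he]
    ring
  · choose A hA using hg
    refine ⟨∑ d ∈ P.support, ‖P.coeff d‖ * (∑ i, |A i|) ^ m, fun g hg σ hσ => ?_⟩
    rw [Finset.sum_mul]
    refine norm_sum_le_of_le _ fun d hd => ?_
    rw [norm_mul, mul_assoc, pow_mul, ← mul_pow, ← cd1_deg hP hd, ← Finset.prod_pow_eq_pow_sum,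
      norm_prod]
    refine mul_le_mul_of_nonneg_left (Finset.prod_le_prod (fun _ _ => norm_nonneg _) fun i _ => ?_)
      (norm_nonneg _)
    rw [norm_pow]
    exact pow_le_pow_left₀ (norm_nonneg _) ((hA i g hg σ hσ).trans (mul_le_mul_of_nonneg_right
      ((le_abs_self _).trans (Finset.single_le_sum (fun i _ => abs_nonneg (A i))
        (Finset.mem_univ i))) (by positivity))) _

theorem Cd.alg_dep (X : Cd) {w : ℍ → ℝ} (hw : Continuous w) (hw0 : ∀ τ, 0 < w τ) {N : ℕ}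
    (hgw : X.Gr N fun τ => (w τ)⁻¹) {φ : Fin 3 → ℍ → ℂ} (hφ : ∀ i, Hc (φ i))
    (hg : ∀ i, X.Gr N fun τ => ‖φ i τ‖) (hi : ∀ d ∈ X.D, ∀ τ, ∃ c : ℂ,
      (∀ i, φ i (d • τ) = c * φ i τ) ∧ ‖c‖ * w (d • τ) = w τ) :
    ∃ (P : MvPolynomial (Fin 3) ℂ) (m : ℕ), P ≠ 0 ∧ P.IsHomogeneous m ∧
      ∀ τ, MvPolynomial.eval (fun i => φ i τ) P = 0 := by
  by_cases h : ∀ τ0 τ1, φ 0 τ1 * φ 1 τ0 - φ 1 τ1 * φ 0 τ0 = 0
  · by_cases h0 : ∀ τ, φ 0 τ = 0
    · exact ⟨.X 0, 1, MvPolynomial.X_ne_zero 0, MvPolynomial.isHomogeneous_X _ 0, by simpa using h0⟩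
    · push Not at h0
      obtain ⟨τ0, h0⟩ := h0
      refine ⟨_, 1, fun h1 => h0 ?_, (MvPolynomial.isHomogeneous_C_mul_X (φ 1 τ0) 0).sub
        (MvPolynomial.isHomogeneous_C_mul_X (φ 0 τ0) 1), fun τ => ?_⟩
      · simpa using congrArg (MvPolynomial.eval ![0, 1, 0]) h1
      · rw [map_sub, map_mul, map_mul, MvPolynomial.eval_C, MvPolynomial.eval_C,
          MvPolynomial.eval_X, MvPolynomial.eval_X, mul_comm, mul_comm (φ 0 τ0), h]
  · push Not at h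
    obtain ⟨τ0, τ1, h⟩ := h
    obtain ⟨n, p, hp⟩ := X.vanish hw hw0 hgw fun L hL =>
      X.height (h := fun τ => φ 0 τ * φ 1 τ0 - φ 1 τ * φ 0 τ0) (τ0 := τ0)
        (DifferentiableOn.sub (DifferentiableOn.mul_const (hφ 0) _)
          (DifferentiableOn.mul_const (hφ 1) _)) h (fun d hd => by
          obtain ⟨c, hc, _⟩ := hi d hd τ0
          rw [hc, hc]
          ring) hL
    obtain ⟨m, hm, h1⟩ := exists_hom_van n
    obtain ⟨P, h2, h3, h4⟩ := h1 fun j i => φ i (p j)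
    exact ⟨P, m, h2, h3, hp m _ hm (X.fm_eval hφ hg hi h3) h4⟩

end Pool.Agent.E7
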