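import Pool.Agent.Lib.MP_7e5527_ag.EL.MSP1
import Pool.Agent.Lib.MP_7e5527_ag.E7.Psd

/-! Bounds of Schwarz and Pick for holomorphic maps from the half plane to the tube. -/

open UpperHalfPlane MatrixGroups

noncomputable section

namespace Pool.Agent.E7

theorem msp_sq (z : ℂ) : ‖z + Complex.I‖ ^ 2 = z.re ^ 2 + (z.im + 1) ^ 2 := by
  rw [Complex.sq_norm, Complex.normSq_apply]
  simp [sq]

/-- The upper bound is `pick_scalar` for the dual coordinates. For the lower bound separate the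
point from the open convex cone by a linear form and apply `pick_scalar` to this form. -/
theorem schwarz_pick {F : ℂ → Ix → ℂ} (hd : DifferentiableOn ℂ F {z | 0 < z.im})
    (hm : ∀ z : ℂ, 0 < z.im → F z ∈ HH) : ∃ C c : ℝ, 0 < c ∧ ∀ z : ℂ, 0 < z.im →
      ‖F z‖ ≤ C * ‖z + Complex.I‖ ^ 2 / z.im ∧
        (fun l => (F z l).im) - (c * z.im / ‖z + Complex.I‖ ^ 2) • one3 ∈ Om := by
  have hl (a : Ix → ℂ) : DifferentiableOn ℂ (fun z => ∑ l, a l * F z l) {z | 0 < z.im} :=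
    .fun_sum fun l _ => (differentiableOn_pi.1 hd l).const_mul _
  obtain ⟨ε, h0, h1⟩ := exists_sub_one3 (hm Complex.I (by simp))
  refine ⟨∑ i, (‖yc (F Complex.I) i‖ + (yc (F Complex.I) i).im) * ‖toR ℂ (UU i)‖, ε, h0,
    fun z hz => ?_⟩
  have h2 : z.im ≤ ‖z + Complex.I‖ ^ 2 := by
    rw [msp_sq]
    nlinarith [sq_nonneg z.re]
  rw [mul_div_assoc, mul_div_assoc]
  constructor
  · rw [← pt_yc (F z), pt, Finset.sum_mul]
    refine norm_sum_le_of_le _ fun i _ => ?_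
    rw [norm_smul, mul_right_comm]
    refine mul_le_mul_of_nonneg_right ?_ (norm_nonneg _)
    have h3 := (pick_scalar (φ := fun z => yc (F z) i) (by simpa only [yc, tr_eq_sum] using hl _)
      (fun w hw => (im_tr _ _).symm ▸ (psd_TT i).pos (TT_ne_zero i) (hm w hw)) hz).2
    nlinarith [(one_le_div hz).2 h2, norm_nonneg (yc (F Complex.I) i)]
  · by_contra h3
    obtain ⟨f, hf⟩ := geometric_hahn_banach_open_point convex_Om isOpen_Om h3
    generalize hx : (fun l => (F z l).im) - (_ : ℝ) • one3 = x at hf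
    have h4 (w : ℂ) : (f x * Complex.I -
        ∑ l, (f fun j => if l = j then 1 else 0 : ℝ) * F w l).im = f x - f fun l => (F w l).im := by
      rw [show f (fun l => (F w l).im) = _ from f.toLinearMap.pi_apply_eq_sum_univ _]
      simp [mul_comm]
    have h5 := (pick_scalar ((hl _).const_sub _)
      (fun w hw => (h4 w).symm ▸ sub_pos.2 (hf _ (hm w hw))) hz).1
    have h6 := hf _ h1
    have h7 := congrArg f hx
    rw [h4, h4] at h5
    rw [map_sub, map_smul, smul_eq_mul] at h6 h7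
    nlinarith [div_pos hz (hz.trans_le h2)]

/-- On the strip `‖σ + I‖ ^ 2 ≤ 5 y ^ 2`. -/
theorem HM.strip {f : ℍ → Ix → ℂ} (h : HM f) : ∃ C : ℝ, ∀ σ : ℍ, |σ.re| ≤ 1 → 1 ≤ σ.im →
    ‖f σ‖ ≤ C * σ.im ∧ ‖(nrm (f σ - star (f σ)))⁻¹‖ ≤ C * σ.im ^ 3 := by
  obtain ⟨C, c, hc, H⟩ := schwarz_pick h.hol fun z _ => h.mem _
  have n0 : 0 < nrm (one3 : Ix → ℝ) := one3_mem.2.2
  refine ⟨max (5 * |C|) (125 / (8 * (c ^ 3 * nrm (one3 : Ix → ℝ)))), fun σ h1 h2 => ?_⟩
  obtain ⟨h3, h4⟩ := H σ σ.im_pos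
  have y0 := σ.im_pos
  have h5 := msp_sq σ
  simp only [Function.comp_apply, ofComplex_apply, coe_im, coe_re] at h3 h4 h5
  have h6 : ‖(σ : ℂ) + Complex.I‖ ^ 2 ≤ 5 * σ.im ^ 2 := by nlinarith [abs_le.1 h1]
  have h7 : 0 < ‖(σ : ℂ) + Complex.I‖ ^ 2 := by nlinarith [sq_nonneg σ.re]
  refine ⟨h3.trans ?_, ?_⟩
  · rw [div_le_iff₀ y0]
    nlinarith [mul_le_mul (le_abs_self C) h6 h7.le (abs_nonneg C), mul_le_mul_of_nonneg_right
      (le_max_left (5 * |C|) (125 / (8 * (c ^ 3 * nrm (one3 : Ix → ℝ))))) (sq_nonneg σ.im)]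
  · have h8 := nrm_le_add (Om.smul one3_mem (div_pos (mul_pos hc y0) h7)) h4
    have h9 : c / (5 * σ.im) ≤ c * σ.im / ‖(σ : ℂ) + Complex.I‖ ^ 2 := by
      rw [div_le_div_iff₀ (by positivity) h7]
      nlinarith
    rw [add_sub_cancel, nrm_smul] at h8
    have h10 := (mul_le_mul_of_nonneg_right (pow_le_pow_left₀ (by positivity) h9 3) n0.le).trans h8
    refine le_trans ?_ (mul_le_mul_of_nonneg_right (le_max_right _ _) (by positivity))
    rw [nrm_sub_star_eq, norm_inv, norm_mul, Complex.norm_real, Real.norm_of_nonneg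
      (h.mem σ).2.2.le, show ‖-(8 * Complex.I)‖ = 8 by simp]
    refine (inv_anti₀ (by positivity) (mul_le_mul_of_nonneg_left h10 (by norm_num))).trans_eq ?_
    field_simp
    norm_num

end Pool.Agent.E7
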