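import Pool.Agent.Lib.MP_7e5527_ag.EL.RC
import Pool.Agent.Lib.MP_7e5527_ag.E7.Good3
import Pool.Agent.Lib.MP_7e5527_ag.E7.MFs

/-! Growth of modular forms; forms of negative weight vanish. -/

noncomputable section

namespace Pool.Agent.E7

theorem GoodC.bound {F : Fn} {a : (Ix → ℚ) → ℂ} (h : GoodC F a) (Z0 : HH) : ∃ S : ℝ,
    ∀ (W : HH) (L : ℝ), (∀ T, a T ≠ 0 → L ≤ tr (toR ℝ T) (imv W - imv Z0)) →
      ‖F W‖ ≤ S * Real.exp (-(2 * Real.pi * L)) := by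
  have hs := (h.sum Z0).summable.norm
  refine ⟨∑' T, ‖a T * eT T Z0‖, fun W L hL => ?_⟩
  refine (h.sum W).norm_le_of_bounded (hs.hasSum.mul_right _) fun T => ?_
  by_cases h0 : a T = 0
  · simp [h0]
  · have h1 := hL T h0
    rw [tr_sub_right] at h1
    rw [norm_mul, norm_mul, mul_assoc, norm_eT, norm_eT, ← Real.exp_add]
    refine mul_le_mul_of_nonneg_left (Real.exp_le_exp.2 ?_) (norm_nonneg _)
    have h2 := mul_le_mul_of_nonneg_left h1 Real.two_pi_pos.le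
    linarith

theorem Gd.bdd {F : Fn} (h : Gd F) {c : ℝ} (hc : 0 < c) :
    ∃ M : ℝ, ∀ W : HH, imv W - c • one3 ∈ Om → ‖F W‖ ≤ M := by
  obtain ⟨a, h⟩ := h
  obtain ⟨S, hS⟩ := h.bound ⟨((c : ℂ) * Complex.I) • fun l => ((one3 : Ix → ℝ) l : ℂ),
    smul_mem_HH one3_mem (by simpa using hc)⟩
  obtain ⟨M, -, hM⟩ := h.supp
  refine ⟨S, fun W hW => ?_⟩
  have e : imv (((c : ℂ) * Complex.I) • fun l => ((one3 : Ix → ℝ) l : ℂ)) = c • one3 := by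
    funext l
    simp [imv]
  simpa using hS W 0 fun T hT => (hM T hT).2 _ (e ▸ hW)

theorem Inv.apply {k : ℤ} {F : Fn} (hF : Inv Gam k F) {γ : Gb} (hγ : γ ∈ Gam) (Z : HH) :
    F (ofC (act γ Z)) = jf γ Z ^ k * F Z := by
  rw [← congrFun (hF γ hγ) Z, sl, ← mul_assoc, zpow_neg,
    mul_inv_cancel₀ (zpow_ne_zero k (act_spec (Gam_le hγ) Z.2).1), one_mul]

theorem IsHol.line {F : Fn} (h : IsHol F) (Z V : Ix → ℂ) {t : ℂ} (ht : Z + t • V ∈ HH) :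
    DifferentiableAt ℂ (fun s : ℂ => F (ofC (Z + s • V))) t :=
  (h.differentiableAt ht).comp t (f := fun s : ℂ => Z + s • V) (by fun_prop)

theorem growth : ∃ c0 : ℝ, 0 < c0 ∧ ∀ (k : ℕ) (F : Fn) (M : ℝ), Inv Gam k F →
    (∀ W : HH, imv W - c0 • one3 ∈ Om → ‖F W‖ ≤ M) →
      ∀ (Z : HH) (l : ℝ), 0 < l → imv Z - l • one3 ∈ Om → ‖F Z‖ * min 1 l ^ (3 * k) ≤ M := by
  obtain ⟨ε, hε, h⟩ := fund
  refine ⟨ε, hε, fun k F M hF hM Z l hl hZ => ?_⟩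
  obtain ⟨γ, hγ, h1⟩ := h Z Z.2
  have h2 := hM (ofC (act γ Z)) (by rwa [coe_ofC (act_spec (Gam_le hγ) Z.2).2.1])
  rw [hF.apply hγ, norm_mul, zpow_natCast, norm_pow, mul_comm] at h2
  refine le_trans (mul_le_mul_of_nonneg_left ?_ (norm_nonneg _)) h2
  rw [pow_mul]
  exact pow_le_pow_left₀ (pow_nonneg (le_min zero_le_one hl.le) _) (jf_low hγ hl hZ) k

theorem rd2_sq {m : ℕ} {F : Fn} (h : Gd F) (hi : Inv Gam (-(m : ℤ)) F) :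
    ∃ C : ℝ, ∀ Z : HH, ‖F Z‖ ^ 2 ≤ C * nrm (imv Z) ^ m := by
  obtain ⟨c, hc, h1⟩ := fund
  obtain ⟨M, hM⟩ := h.bdd hc
  refine ⟨M ^ 2 * (c ^ 3)⁻¹ ^ m, fun Z => ?_⟩
  obtain ⟨γ, hγ, h2⟩ := h1 Z Z.2
  obtain ⟨h3, h4, -⟩ := act_spec (Gam_le hγ) Z.2
  have h5 := hM (ofC (act γ Z)) (by rwa [coe_ofC h4])
  have h6 : F Z = F (ofC (act γ Z)) * jf γ Z ^ m := by
    rw [hi.apply hγ, zpow_neg, zpow_natCast, mul_comm, mul_inv_cancel_left₀ (pow_ne_zero _ h3)]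
  have h7 : ‖jf γ Z‖ ^ 2 ≤ (c ^ 3)⁻¹ * nrm (imv Z) := by
    rw [le_inv_mul_iff₀ (pow_pos hc 3), ← nrm_im_act hγ Z.2]
    exact mul_le_mul_of_nonneg_right (nrm_ge hc h2) (sq_nonneg _)
  rw [h6, norm_mul, norm_pow, mul_pow, ← pow_mul, mul_comm m, pow_mul, mul_assoc, ← mul_pow]
  gcongr

theorem rd2_le {m : ℕ} {F : Fn} (h : Gd F) {C : ℝ}
    (hC : ∀ Z : HH, ‖F Z‖ ^ 2 ≤ C * nrm (imv Z) ^ m) (Z : HH) {ε : ℝ} (h0 : 0 < ε) (h1 : ε ≤ 1) :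
    ‖F Z‖ ^ 2 ≤ C * (ε ^ 3 * nrm (imv Z)) ^ m := by
  have e : ∀ t : ℂ, imv (Z + t • fun l => (imv Z l : ℂ)) = (1 + t.im) • imv Z := fun t => by
    rw [imv_add_smul, add_smul, one_smul]
  have hm : ∀ t : ℂ, ε - 1 ≤ t.im → ((Z : Ix → ℂ) + t • fun l => (imv Z l : ℂ)) ∈ HH :=
    fun t ht => show imv _ ∈ Om from e t ▸ Om.smul Z.2 (by linarith)
  obtain ⟨a, ha⟩ := id h
  obtain ⟨S, hS⟩ := ha.bound ⟨_, hm ⟨0, ε - 1⟩ le_rfl⟩
  obtain ⟨M, -, hM⟩ := ha.supp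
  have h2 := pl_half (Ψ := fun t => F (ofC (Z + t • fun l => (imv Z l : ℂ)))) (a := ε - 1)
    (C := √(C * (ε ^ 3 * nrm (imv Z)) ^ m)) (z := 0) (fun t ht => h.isHol.line _ _ (hm t ht))
    (fun t ht => hS _ 0 fun T hT => by
      rw [coe_ofC (hm t ht), e, e, ← sub_smul, tr_smul_right]
      exact mul_nonneg (by linarith) ((hM T hT).2 _ Z.2))
    (fun t ht => Real.le_sqrt_of_sq_le (by
      have h3 := hC (ofC (Z + t • fun l => (imv Z l : ℂ)))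
      rwa [coe_ofC (hm t ht.ge), e, ht, add_sub_cancel, nrm_smul] at h3)) (by simpa using h1)
  rw [zero_smul, add_zero, ofC_coe] at h2
  rcases (norm_nonneg (F Z)).eq_or_lt with h3 | h3
  · have h4 := (sq_nonneg _).trans (hC Z)
    rw [← h3, mul_pow, mul_left_comm, sq, mul_zero]
    positivity
  · exact (Real.le_sqrt' h3).1 h2

theorem neg_wt {k : ℤ} (hk : k < 0) {F : Fn} (h : Gd F) (hi : Inv Gam k F) : F = 0 := by
  obtain ⟨n, rfl⟩ : ∃ n : ℕ, k = -((n + 1 : ℕ) : ℤ) := ⟨(-k - 1).toNat, by omega⟩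
  obtain ⟨C, hC⟩ := rd2_sq h hi
  funext Z
  have h1 : Continuous fun ε : ℝ => C * (ε ^ 3 * nrm (imv Z)) ^ (n + 1) := by fun_prop
  have h2 := ge_of_tendsto ((h1.tendsto 0).mono_left nhdsWithin_le_nhds) (by
    filter_upwards [Ioc_mem_nhdsGT zero_lt_one] with ε hε using rd2_le h hC Z hε.1 hε.2)
  simpa using h2

end Pool.Agent.E7
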