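import Pool.Agent.Lib.MP_7e5527_ag.EL.CD
import Pool.Agent.Lib.MP_7e5527_ag.EL.RD
import Pool.Agent.Lib.MP_7e5527_ag.EL.MSP

/-! Modular forms along a curve. -/

open UpperHalfPlane MatrixGroups

noncomputable section

namespace Pool.Agent.E7

variable {f : ℍ → Ix → ℂ}

theorem Crv.exists_cd (hf : Crv f) : ∃ X : Cd, ∀ d ∈ X.D, LiftG f d := by
  obtain ⟨K, s, hK, h1, h2⟩ := hf.cof
  let D : Subgroup SL(2, ℝ) :=
    { carrier := {d | LiftG f d}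
      one_mem' := ⟨1, one_mem _, fun τ => by rw [one_smul, act_one]⟩
      mul_mem' := fun ⟨γ, a, b⟩ ⟨δ, c, e⟩ => ⟨γ * δ, mul_mem a c, fun τ => by
        rw [mul_smul, b, e, act_mul (Gam_le a) (Gam_le c) (hf.mem τ)]⟩
      inv_mem' := fun {d} ⟨γ, a, b⟩ => ⟨γ⁻¹, inv_mem a, fun τ => by
        have e := b (d⁻¹ • τ)
        rw [smul_inv_smul] at e
        rw [e, ← act_mul (Gam_le (inv_mem a)) (Gam_le a) (hf.mem _), inv_mul_cancel, act_one]⟩ }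
  have sh : ∀ g ∈ s, ∀ n : ℤ, ∃ d ∈ D, ∀ σ : ℍ, d • g • σ = g • ((n : ℝ) +ᵥ σ) := fun g hg n =>
    ⟨_, D.zpow_mem (h1 g hg) n, fun σ => by
      rw [conj_zpow, mul_smul, inv_smul_smul, mul_smul, ← map_zpow, ← modular_T_zpow_smul]
      rfl⟩
  refine ⟨⟨D, K, s, hK, sh, fun τ => ?_⟩, fun _ h => h⟩
  obtain ⟨d, hd, h | ⟨g, hg, h⟩⟩ := h2 τ
  · exact ⟨d, hd, .inl h⟩
  · obtain ⟨e, he, h3⟩ := sh g hg (-round (g⁻¹ • d • τ).re)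
    refine ⟨e * d, mul_mem he hd, .inr ⟨g, hg, _, ?_, ?_, by
      rw [mul_smul, ← h3 (g⁻¹ • d • τ), smul_inv_smul]⟩⟩
    · rwa [vadd_im]
    · rw [vadd_re, Int.cast_neg, neg_add_eq_sub]
      exact (abs_sub_round _).trans (by norm_num)

theorem Crv.low (hf : Crv f) (X : Cd) : ∃ c : ℝ, 0 < c ∧ c ≤ 1 ∧ ∀ g ∈ X.s, ∀ σ : ℍ, 1 ≤ σ.im →
    imv (f (g • σ)) - (c / ‖(σ : ℂ) + Complex.I‖ ^ 2) • one3 ∈ Om := by
  choose C c h1 h2 using fun g : SL(2, ℝ) =>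
    schwarz_pick (Hc.smul (φ := f) hf.hol g) fun z _ => hf.mem _
  obtain ⟨e, h3, h4⟩ := X.s.finite_toSet.isCompact.exists_forall_le' (f := c)
    (X.s.finite_toSet.continuousOn _) fun g _ => h1 g
  refine ⟨min e 1, lt_min h3 one_pos, min_le_right _ _, fun g hg σ hσ => ?_⟩
  have h5 := (h2 g σ σ.2).2
  simp only [Function.comp_apply, ofComplex_apply] at h5
  exact Om.of_sub h5 (div_le_div_of_nonneg_right (((min_le_left _ _).trans (h4 g hg)).trans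
    (le_mul_of_one_le_right (h1 g).le hσ)) (sq_nonneg _))

theorem Crv.hc_form (hf : Crv f) {F : Fn} (h : IsHol F) : Hc fun τ => F (ofC (f τ)) :=
  fun z hz => (h.differentiableAt (hf.mem _)).comp_differentiableWithinAt (f := f ∘ ofComplex) z
    (hf.hol z hz)

theorem ce2_l {c : ℝ} (c1 : 0 < c) (c2 : c ≤ 1) {σ : ℍ} (hσ : 1 ≤ σ.im) :
    0 < ‖(σ : ℂ) + Complex.I‖ ∧ 0 < c / ‖(σ : ℂ) + Complex.I‖ ^ 2 ∧
      c / ‖(σ : ℂ) + Complex.I‖ ^ 2 ≤ 1 := by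
  have h : 1 ≤ ‖(σ : ℂ) + Complex.I‖ := by
    refine le_trans ?_ ((le_abs_self _).trans (Complex.abs_im_le_norm _))
    rw [Complex.add_im, Complex.I_im, coe_im]
    linarith
  exact ⟨by linarith, by positivity, div_le_one_of_le₀ (c2.trans (one_le_pow₀ h)) (sq_nonneg _)⟩

theorem Crv.gr_form (hf : Crv f) (X : Cd) {k : ℕ} {F : Fn} (h : Gd F) (hi : Inv Gam k F) :
    X.Gr (6 * k) fun τ => ‖F (ofC (f τ))‖ := by
  obtain ⟨c0, h0, h1⟩ := growth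
  obtain ⟨M, hM⟩ := h.bdd h0
  obtain ⟨c, c1, c2, h2⟩ := hf.low X
  refine ⟨M / c ^ (3 * k), fun g hg σ hσ => ?_⟩
  obtain ⟨a1, a2, a3⟩ := ce2_l c1 c2 hσ
  have h3 := h1 k F M hi hM ⟨_, hf.mem (g • σ)⟩ _ a2 (h2 g hg σ hσ)
  have e : ofC (f (g • σ)) = ⟨_, hf.mem (g • σ)⟩ := dif_pos _
  rw [min_eq_right a3, div_pow, ← pow_mul, ← mul_div_assoc, div_le_iff₀ (by positivity),
    show 2 * (3 * k) = 6 * k by ring] at h3
  rw [div_mul_eq_mul_div, le_div_iff₀ (by positivity)]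
  simpa only [e] using h3

theorem Crv.gr_w (hf : Crv f) (X : Cd) (k : ℕ) :
    X.Gr (6 * k) fun τ => (√(nrm (imv (f τ))) ^ k)⁻¹ := by
  obtain ⟨c, c1, c2, h2⟩ := hf.low X
  refine ⟨(c ^ (3 * k))⁻¹, fun g hg σ hσ => ?_⟩
  obtain ⟨a1, a2, a3⟩ := ce2_l c1 c2 hσ
  have h3 : (c / ‖(σ : ℂ) + Complex.I‖ ^ 2) ^ 3 ≤ √(nrm (imv (f (g • σ)))) :=
    Real.le_sqrt_of_sq_le ((pow_le_of_le_one (by positivity) (pow_le_one₀ a2.le a3)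
      two_ne_zero).trans (nrm_ge a2 (h2 g hg σ hσ)))
  refine (inv_anti₀ (by positivity) (pow_le_pow_left₀ (by positivity) h3 k)).trans_eq ?_
  rw [← pow_mul, div_pow, ← pow_mul, inv_div, div_eq_inv_mul, show 2 * (3 * k) = 6 * k by ring]

theorem crv_hc (hf : Crv f) (k : ℤ) (F : Fin 3 → (Ix → ℂ) → ℂ)
    (a : Fin 3 → (Ix → ℚ) → ℂ) (h : ∀ i, IsMF k (F i) (a i)) :
    ∃ (P : MvPolynomial (Fin 3) ℂ) (m : ℕ), P ≠ 0 ∧ P.IsHomogeneous m ∧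
      ∀ τ, MvPolynomial.eval (fun i => F i (f τ)) P = 0 := by
  have e : ∀ i τ, res (F i) (ofC (f τ)) = F i (f τ) := fun i τ => ext_res _ (hf.mem τ)
  rcases lt_or_ge k 0 with hk | hk
  · refine ⟨.X 0, 1, MvPolynomial.X_ne_zero 0, MvPolynomial.isHomogeneous_X _ 0, fun τ => ?_⟩
    rw [MvPolynomial.eval_X, ← e, neg_wt hk ⟨_, (h 0).good⟩ (h 0).inv_Gam, Pi.zero_apply]
  lift k to ℕ using hk
  obtain ⟨X, hX⟩ := hf.exists_cd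
  have hp : ∀ τ, 0 < nrm (imv (f τ)) := fun τ => (hf.mem τ).2.2
  have hc : Continuous fun τ => imv (f τ) := continuous_pi fun l =>
    Complex.continuous_im.comp ((continuous_apply l).comp (Hc.continuous hf.hol))
  simp only [← e]
  refine X.alg_dep (w := fun τ => √(nrm (imv (f τ))) ^ k) ((siegl_cnrm.comp hc).sqrt.pow k)
    (fun τ => pow_pos (Real.sqrt_pos.2 (hp τ)) k) (hf.gr_w X k)
    (fun i => hf.hc_form (Gd.isHol ⟨_, (h i).good⟩))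
    (fun i => hf.gr_form X ⟨_, (h i).good⟩ (h i).inv_Gam) fun d hd τ => ?_
  obtain ⟨γ, hγ, h1⟩ := hX d hd
  refine ⟨jf γ (f τ) ^ k, fun i => ?_, ?_⟩
  · rw [h1, ← zpow_natCast, ofC_eq (hf.mem τ)]
    exact (h i).inv_Gam.apply hγ ⟨f τ, hf.mem τ⟩
  · rw [h1, norm_pow, ← mul_pow, ← nrm_im_act hγ (hf.mem τ),
      Real.sqrt_mul' _ (sq_nonneg _), Real.sqrt_sq (norm_nonneg _), mul_comm]

theorem Crv.fin_zeros (hf : Crv f) {k : ℤ} {F : (Ix → ℂ) → ℂ} {a : (Ix → ℚ) → ℂ}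
    (h : IsMF k F a) {τ1 : ℍ} (h1 : F (f τ1) ≠ 0) : ∃ S : Set (Ix → ℂ), S.Finite ∧ S ⊆ HH ∧
      ∀ τ, F (f τ) = 0 → ∃ s ∈ S, ∃ γ ∈ Gam, f τ = act γ s := by
  have e : ∀ τ, res F (ofC (f τ)) = F (f τ) := fun τ => ext_res _ (hf.mem τ)
  have hk : 0 ≤ k := not_lt.1 fun hk => h1 (by
    rw [← e, neg_wt hk ⟨_, h.good⟩ h.inv_Gam, Pi.zero_apply])
  lift k to ℕ using hk
  obtain ⟨X, hX⟩ := hf.exists_cd
  obtain ⟨S, hS, h2⟩ := X.fin_zeros (hf.hc_form (Gd.isHol ⟨_, h.good⟩)) ((e τ1).trans_ne h1)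
    (fun d hd τ h0 => by
      obtain ⟨γ, hγ, h3⟩ := hX d hd
      rw [ofC_eq (hf.mem τ)] at h0
      rw [h3, h.inv_Gam.apply hγ ⟨f τ, hf.mem τ⟩, h0, mul_zero])
    (hf.gr_form X ⟨_, h.good⟩ h.inv_Gam)
  refine ⟨f '' S, hS.image f, Set.forall_mem_image.2 fun τ _ => hf.mem τ, fun τ h0 => ?_⟩
  obtain ⟨d, hd, h3⟩ := h2 τ ((e τ).trans h0)
  obtain ⟨γ, hγ, h4⟩ := hX d hd
  refine ⟨_, ⟨_, h3, rfl⟩, γ⁻¹, inv_mem hγ, ?_⟩
  rw [h4, ← act_mul (Gam_le (inv_mem hγ)) (Gam_le hγ) (hf.mem τ), inv_mul_cancel, act_one]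

end Pool.Agent.E7
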