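import Pool.Agent.Lib.MP_7e5527_ag.EL.RD

/-! Rational translates of a holomorphic function. -/

noncomputable section

namespace Pool.Agent.E7

theorem cf_real {F : Fn} (h : IsHol F) {Z : Ix → ℂ} (hZ : Z ∈ HH)
    (h0 : ∀ B : Ix → ℚ, F (ofC (Z + toR ℂ B)) = 0) (X : Ix → ℝ) :
    F (ofC (Z + fun l => (X l : ℂ))) = 0 := by
  have hc : Continuous fun X : Ix → ℝ => ext F (Z + fun l => (X l : ℂ)) :=
    h.continuousOn.comp_continuous (by fun_prop) fun X => by simpa [HH] using hZ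
  have hd : DenseRange (toR ℝ) := DenseRange.piMap fun _ => Rat.denseRange_cast
  refine hd.induction_on X (isClosed_eq hc continuous_const) fun B => ?_
  have e : (fun l => ((toR ℝ B l : ℝ) : ℂ)) = toR ℂ B := funext fun l => Complex.ofReal_ratCast _
  rw [e]
  exact h0 B

open Filter Topology in
theorem IsHol.rat_zero {F : Fn} (h : IsHol F) {Z : Ix → ℂ} (hZ : Z ∈ HH)
    (h0 : ∀ B : Ix → ℚ, F (ofC (Z + toR ℂ B)) = 0) : F = 0 := by
  funext W
  let Z1 : Ix → ℂ := Z + fun l => (((W.1 l - Z l).re : ℝ) : ℂ)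
  let V : Ix → ℂ := fun l => ((imv W - imv Z) l : ℝ)
  have hU : {t : ℂ | Z1 + t • V ∈ HH} =
      Complex.imLm ⁻¹' (AffineMap.lineMap (imv Z) (imv W) ⁻¹' Om) := by
    have e : imv Z1 = imv Z := funext fun l => by simp [imv, Z1]
    ext t
    change imv _ ∈ Om ↔ _
    rw [imv_add_smul, e, add_comm]
    rfl
  have hI : Z1 + Complex.I • V = W := funext fun l => Complex.ext (by simp [Z1, V]) (by
    simp [Z1, V, imv])
  have ha : AnalyticOnNhd ℂ (fun s : ℂ => F (ofC (Z1 + s • V))) {t | Z1 + t • V ∈ HH} :=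
    DifferentiableOn.analyticOnNhd (fun t ht => (h.line Z1 V ht).differentiableWithinAt)
      (isOpen_HH.preimage (by fun_prop))
  have ht : Tendsto ((↑) : ℝ → ℂ) (𝓝[≠] 0) (𝓝[≠] 0) := tendsto_nhdsWithin_iff.2
    ⟨(Complex.continuous_ofReal.tendsto' 0 0 rfl).mono_left nhdsWithin_le_nhds,
      eventually_mem_nhdsWithin.mono fun s hs => Complex.ofReal_ne_zero.2 hs⟩
  have := ha.eqOn_zero_of_preconnected_of_frequently_eq_zero (z₀ := 0)
    (hU ▸ ((convex_Om.affine_preimage _).linear_preimage _).isPreconnected)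
    (by simpa [HH, Z1] using hZ) (ht.frequently (.of_forall fun s => by
      rw [← cf_real h hZ h0 ((fun l => (W.1 l - Z l).re) + s • (imv W - imv Z))]
      congr 2
      funext l
      simp [Z1, V, add_assoc])) (show Z1 + Complex.I • V ∈ HH from hI ▸ W.2)
  simpa only [hI, ofC_coe, Pi.zero_apply] using this

theorem Th_eig {Z v : Ix → ℂ} (hZ : Z ∈ HH) {α β : ℂ} (hα : α ≠ 0)
    (h : ∀ B : Ix → ℚ, α * fderiv ℂ (ext ThF) (Z + toR ℂ B) v = β * ext ThF (Z + toR ℂ B)) :
    v = 0 := by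
  have hG := ((GoodC.finsum Finset.univ fun i _ => (ThF_good.dl i).smul (yc v i)).smul
    (α * (2 * Real.pi * Complex.I))).add (ThF_good.smul (-β))
  rw [(Gd.isHol ⟨_, hG⟩).rat_zero hZ fun B => by
    have h1 := h B
    have hm := HH.add_toR hZ B
    rw [fderiv_ext ThF ⟨_, hm⟩, ext, ofC_eq hm] at h1
    simp only [ofC_eq hm, Pi.add_apply, Pi.smul_apply, Finset.sum_apply, smul_eq_mul,
      mul_comm (yc v _)]
    linear_combination h1] at hG
  have h0 := congrFun hG.eq_zero 0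
  simp only [Pi.add_apply, Pi.smul_apply, Finset.sum_apply, smul_eq_mul, tr_zero_left, Kim.kc_zero,
    Rat.cast_zero, mul_zero, Finset.sum_const_zero, zero_add, mul_one, Pi.zero_apply,
    neg_eq_zero] at h0
  have h1 : yc v = 0 := funext fun i => by
    have h2 := congrFun hG.eq_zero (TT i)
    have h3 : Kim.kc (TT i) ≠ 0 := fun e => by simpa [thci, e] using thci_TT i
    simpa [-Fintype.sum_sum_type, h0, tr_TT_UU, apply_ite, hα, h3, Real.pi_ne_zero] using h2
  rw [← pt_yc v, h1, pt]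
  simp

theorem exists_Th_ne {Z : Ix → ℂ} (hZ : Z ∈ HH) : ∃ B : Ix → ℚ, ext ThF (Z + toR ℂ B) ≠ 0 := by
  by_contra hn
  have h := ThF_good
  rw [(Gd.isHol ⟨_, h⟩).rat_zero hZ fun B => by_contra fun c => hn ⟨B, c⟩] at h
  simpa [Kim.kc_zero] using congrFun h.eq_zero 0

end Pool.Agent.E7
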