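import Pool.Agent.Lib.MP_7e5527_ag.EL.CE
import Pool.Agent.Lib.MP_7e5527_ag.EL.CF
import Pool.Agent.Lib.MP_7e5527_ag.E7.Match
import Pool.Agent.Lib.MP_7e5527_ag.E7.PsiM

/-! A point of `Proj` has finitely many preimages on a curve. -/

open UpperHalfPlane MatrixGroups

noncomputable section

namespace Pool.Agent.E7

variable {f : ℍ → Ix → ℂ} {Z' : Ix → ℂ}

theorem cg1_ex (hf : Crv f) (hV : ∀ k F a, IsMF k F a → F Z' = 0 → ∀ τ, F (f τ) = 0)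
    {Δ : Subgroup Gb} (hΔ : Δ ≤ Gam) {T : Type} [Fintype T] (R : Trans Δ T) :
    ∃ t, ∀ k F, MF k F → Inv Δ k F → sl k (R.rep t) F (ofC Z') = 0 →
      ∀ τ, F (ofC (f τ)) = 0 := by
  by_contra hc
  push Not at hc
  choose k F hF hI h0 hne using hc
  obtain ⟨τ, hτ⟩ := Hc.exists_ne (fun t => hf.hc_form (hF t).gd.isHol) hne
  obtain ⟨t, ht⟩ := going_up hΔ R (h := fun _ => Z') (Z := ⟨f τ, hf.mem τ⟩)
    (fun k F a h h1 => hV k F a h h1.exists.choose_spec τ) (one_mem _)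
  have h1 := ht _ _ (hF t) (hI t) (.of_forall fun _ => h0 t)
  rw [sl_one, ← ofC_eq] at h1
  exact hτ t h1

theorem crv_up (hf : Crv f) (hZ : Z' ∈ HH)
    (hV : ∀ k F a, IsMF k F a → F Z' = 0 → ∀ τ, F (f τ) = 0) {G H : Fn} (hG : MF 4 G)
    (hH : MF 4 H) {τ1 : ℍ} (h1 : H (ofC (f τ1)) ≠ 0) :
    ∃ c : ℂ, ∀ τ, G (ofC (f τ)) = c * H (ofC (f τ)) := by
  have _ := hZ
  have hm : ∀ a, MF 4 (![G, H] a) := Fin.forall_fin_two.2 ⟨hG, hH⟩
  obtain ⟨T, _, ⟨R⟩⟩ := exists_trans (stabF_le 4 ![G, H]) (stabF_index 4 _ fun a => (hm a).2)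
  obtain ⟨t, ht⟩ := cg1_ex hf hV (stabF_le _ _) R
  have iG : Inv (stabF 4 ![G, H]) 4 G := fun δ hδ => hδ.2 0
  have iH : Inv (stabF 4 ![G, H]) 4 H := fun δ hδ => hδ.2 1
  have h2 : sl 4 (R.rep t) H (ofC Z') ≠ 0 := fun h => h1 (ht 4 H hH iH h τ1)
  refine ⟨sl 4 (R.rep t) G (ofC Z') / sl 4 (R.rep t) H (ofC Z'), fun τ => ?_⟩
  have h3 := ht 4 _ ((hG.smul (sl 4 (R.rep t) H (ofC Z'))).add
    (hH.smul (-sl 4 (R.rep t) G (ofC Z')))) ((iG.smul _).add (iH.smul _)) (by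
      rw [sl_add, sl_smul, sl_smul]
      simp only [Pi.add_apply, Pi.smul_apply, smul_eq_mul]
      ring) τ
  simp only [Pi.add_apply, Pi.smul_apply, smul_eq_mul] at h3
  rw [div_mul_eq_mul_div, eq_div_iff h2]
  linear_combination h3

theorem crv_const (hf : Crv f) (hZ : Z' ∈ HH)
    (hV : ∀ k F a, IsMF k F a → F Z' = 0 → ∀ τ, F (f τ) = 0) (τ τ' : ℍ) : f τ = f τ' := by
  have hU : IsOpen {z : ℂ | 0 < z.im} := isOpen_lt continuous_const Complex.continuous_im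
  have hd : Set.EqOn (deriv (f ∘ ofComplex)) 0 {z : ℂ | 0 < z.im} := fun z hz => by
    have hm := hf.mem (ofComplex z)
    have hg := ((hf.hol z hz).differentiableAt (hU.mem_nhds hz)).hasDerivAt
    obtain ⟨B0, h0⟩ := exists_Th_ne hm
    have e : ∀ B σ, sl 4 (nE (toR ℂ B)) ThF (ofC (f σ)) = ext ThF (f σ + toR ℂ B) := fun B σ => by
      rw [sl_nE, coe_ofC (hf.mem σ), ext]
    have d : ∀ B : Ix → ℚ, HasDerivAt (fun w => ext ThF (f (ofComplex w) + toR ℂ B))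
        (fderiv ℂ (ext ThF) (f (ofComplex z) + toR ℂ B) (deriv (f ∘ ofComplex) z)) z := fun B =>
      HasFDerivAt.comp_hasDerivAt (l := ext ThF) z
        (ThF_mf.gd.isHol.differentiableAt (HH.add_toR hm B)).hasFDerivAt (hg.add_const (toR ℂ B))
    refine Th_eig hm h0 (β := fderiv ℂ (ext ThF) (f (ofComplex z) + toR ℂ B0)
      (deriv (f ∘ ofComplex) z)) fun B => ?_
    obtain ⟨c, hc⟩ := crv_up hf hZ hV (ThF_mf.slash (nE_mem_GG B)) (ThF_mf.slash (nE_mem_GG B0))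
      ((e B0 _).trans_ne h0)
    simp only [e] at hc
    have h1 := d B
    simp only [hc] at h1
    rw [h1.unique ((d B0).const_mul c), hc]
    ring
  simpa using hU.is_const_of_deriv_eq_zero (convex_halfSpace_im_gt 0).isPreconnected hf.hol hd
    τ.im_pos τ'.im_pos

theorem crv_fin (hf : Crv f) {Z' : Ix → ℂ} (hZ : Z' ∈ HH) :
    ∃ S : Set (Ix → ℂ), S.Finite ∧ S ⊆ HH ∧ ∀ τ, SamePt (f τ) Z' →
      ∃ s ∈ S, ∃ γ ∈ Gam, f τ = act γ s := by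
  by_cases hV : ∀ k F a, IsMF k F a → F Z' = 0 → ∀ τ, F (f τ) = 0
  · refine ⟨{f I}, Set.finite_singleton _, Set.singleton_subset_iff.2 (hf.mem _), fun τ _ =>
      ⟨f I, rfl, 1, one_mem _, ?_⟩⟩
    rw [act_one, crv_const hf hZ hV τ I]
  · push Not at hV
    obtain ⟨k, F, a, h, h0, τ1, h1⟩ := hV
    obtain ⟨S, h2, h3, h4⟩ := hf.fin_zeros h h1
    refine ⟨S, h2, h3, fun τ ⟨c, _, hc⟩ => h4 τ ?_⟩
    rw [hc k F a h, h0, mul_zero]

end Pool.Agent.E7
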