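import Pool.Agent.Lib.MP_7e5527_ag.EL.GAa

/-! The group generated by the unipotent groups and the torus. -/

open Filter Topology

noncomputable section

namespace Pool.Agent.E7

theorem ga_fix {g : Gb} (hg : g ∈ G1) {c : ℂ} (h : g ee = c • ee) (h' : g r0 = r0) {A : JE}
    (hA : ∀ Z, (g (0, Z, 0, 0)).2.1 = A Z) : InE A := by
  obtain ⟨A', -, h1, h2⟩ := Lv_of_fix (G1_le_GE hg) h h'
  obtain rfl : A' = A := LinearEquiv.ext fun Z => (h2 Z).trans (hA Z)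
  exact ⟨g, hg, h1⟩

theorem ga_inv (v : W) : w0E⁻¹ v = (-dg v.2.1 0,
    mkJ ![v.1, -dg v.2.2.1 2, -dg v.2.2.1 1] ![oc v.2.2.1 0, oc v.2.1 1, oc v.2.1 2],
    mkJ ![-v.2.2.2, dg v.2.1 2, dg v.2.1 1] ![-oc v.2.1 0, oc v.2.2.1 1, oc v.2.2.1 2],
    dg v.2.2.1 0) := rfl

theorem ga_cyc (Z : Ix → ℂ) : cycE⁻¹ Z = cyc (cyc Z) := rfl

theorem ga_swp (Z : Ix → ℂ) : swpE⁻¹ Z = swp Z := rfl

theorem ga_smul (s : ℂˣ) (Z : Ix → ℂ) : (LinearEquiv.smulOfUnit s : JE) Z = (s : ℂ) • Z := rfl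

theorem ga_one (x : Fin 8 → ℂ) : omul o1 x = x := by
  apply oct_ext <;> simp [o1, omul_0, omul_1, omul_2, omul_3, omul_4, omul_5, omul_6, omul_7]

theorem inE_elm (u : Fin 8 → ℂ) : InE (elmE u) := by
  have h : InE ((cycE * swpE)⁻¹ * elmE u * (cycE * swpE)) := by
    refine ga_fix (c := 1) (G1.mul_mem (G1.mul_mem w0E_mem_G1 (nE_mem_G1 (mkJ 0 ![0, -u, 0])))
      (G1.inv_mem w0E_mem_G1)) ?_ ?_ fun Z => ?_
    all_goals simp only [mul_inv_rev, LinearEquiv.mul_apply, ga_inv, nE_apply, nfun,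
      tube1_w0E_apply, ee, r0, ga_cyc, ga_swp, cycE_apply, swpE_apply, elmE_apply, one_smul]
    on_goal 3 => apply jext
    on_goal 2 => refine Prod.ext ?_ (Prod.ext (jext ?_ ?_ ?_ ?_ ?_ ?_)
      (Prod.ext (jext ?_ ?_ ?_ ?_ ?_ ?_) ?_))
    on_goal 1 => refine Prod.ext ?_ (Prod.ext (jext ?_ ?_ ?_ ?_ ?_ ?_)
      (Prod.ext (jext ?_ ?_ ?_ ?_ ?_ ?_) ?_))
    all_goals simp [cyc, swp, elm, tr_eq, nrm_eq, dg_cross_0, dg_cross_1, dg_cross_2, oc_cross_0,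
      oc_cross_1, oc_cross_2, dg_sharp_0, dg_sharp_1, dg_sharp_2, oip_zero_right, oip_zero_left,
      omul_zero_left, omul_zero_right, oconj_zero, onorm_zero, onorm_neg, oconj_oconj, oconj_add,
      oconj_smul, omul_neg_left, oconj_neg, oip_neg_right, oip_comm u, oc_sharp_0, mul_comm,
      add_comm]
  have h1 := InE.conj (sim_cyc.mul sim_swp) h
  rwa [mul_assoc _ (elmE u), mul_inv_cancel_left, mul_inv_cancel_right] at h1

theorem inE_smul (s : ℂˣ) : InE (LinearEquiv.smulOfUnit s) :=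
  ⟨dE 1 s, dE_mem_G1 1 s, fun Z => by simp [dE_rr, ga_smul]⟩

theorem ga_dg (t : ℂˣ) : InE (dgE ![t, 1, 1]) := by
  have h : InE (LinearEquiv.smulOfUnit t⁻¹ * dgE ![t, 1, 1]) := by
    refine ga_fix (c := (t : ℂ)⁻¹) (G1.mul_mem (scE_mem_G1 t) (G1.mul_mem (G1.mul_mem w0E_mem_G1
      (dE_mem_G1 1 t⁻¹)) (G1.inv_mem w0E_mem_G1))) ?_ ?_ fun Z => ?_
    all_goals simp only [LinearEquiv.mul_apply, ga_inv, dE_apply, scE_apply, tube1_w0E_apply, ee,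
      r0, ga_smul, dgE_apply, Prod.smul_mk]
    on_goal 3 => apply jext
    on_goal 2 => refine Prod.ext ?_ (Prod.ext (jext ?_ ?_ ?_ ?_ ?_ ?_)
      (Prod.ext (jext ?_ ?_ ?_ ?_ ?_ ?_) ?_))
    on_goal 1 => refine Prod.ext ?_ (Prod.ext (jext ?_ ?_ ?_ ?_ ?_ ?_)
      (Prod.ext (jext ?_ ?_ ?_ ?_ ?_ ?_) ?_))
    all_goals simp [dgf, sq, smul_smul, ← mul_assoc]
  have h1 := (inE_smul t).mul h
  rwa [show (LinearEquiv.smulOfUnit t * (LinearEquiv.smulOfUnit t⁻¹ * dgE ![t, 1, 1]) : JE) =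
    dgE ![t, 1, 1] from LinearEquiv.ext fun Z => by simp [ga_smul, smul_smul]] at h1

theorem inE_dg (s : Fin 3 → ℂˣ) : InE (dgE s) := by
  have h := (ga_dg (s 0)).mul (InE.conj sim_cyc ((ga_dg (s 1)).mul
    (InE.conj sim_cyc (ga_dg (s 2)))))
  rwa [show dgE ![s 0, 1, 1] * (cycE * (dgE ![s 1, 1, 1] * (cycE * dgE ![s 2, 1, 1] * cycE⁻¹)) *
    cycE⁻¹) = dgE s from LinearEquiv.ext fun Z => ?_] at h
  simp only [LinearEquiv.mul_apply, ga_cyc, cycE_apply, dgE_apply]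
  apply jext <;> simp [dgf, cyc, smul_smul, mul_comm]

theorem inE_swp : InE swpE := by
  have h := (inE_dg ![1, -1, 1]).mul (((inE_elm o1).mul (InE.conj sim_swp (inE_elm (-o1)))).mul
    (inE_elm o1))
  rwa [show dgE ![1, -1, 1] * (elmE o1 * (swpE * elmE (-o1) * swpE⁻¹) * elmE o1) = swpE from
    LinearEquiv.ext fun Z => ?_] at h
  simp only [LinearEquiv.mul_apply, ga_swp, swpE_apply, elmE_apply, dgE_apply]
  apply jext <;> simp [dgf, swp, elm, ga_one, omul_neg_left, oconj_oconj, oconj_add, oconj_neg]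
  on_goal 3 => apply oct_ext
  all_goals simp [o1, oconj, oip_eq, onorm_eq]
  all_goals ring

theorem inE_cyc : InE cycE := by
  have h := inE_swp.mul (InE.conj sim_cyc inE_swp)
  rwa [show swpE * (cycE * swpE * cycE⁻¹) = cycE from LinearEquiv.ext fun Z => ?_] at h
  simp only [LinearEquiv.mul_apply, ga_cyc, cycE_apply, swpE_apply]
  apply jext <;> simp [cyc, swp, oconj_oconj]

end Pool.Agent.E7
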