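import Pool.Agent.Lib.MP_7e5527_ag.EL.SDefs

/-! Explicit similitudes of the norm. -/

open Filter Topology

noncomputable section

namespace Pool.Agent.E7

/-- The cyclic permutation. -/
def cycE : JE where
  toFun := cyc
  map_add' := cyc_add
  map_smul' := cyc_smul
  invFun Z := cyc (cyc Z)
  left_inv := cyc_cyc_cyc
  right_inv := cyc_cyc_cyc

/-- The transposition. -/
def swpE : JE where
  toFun := swp
  map_add' := swp_add
  map_smul' := swp_smul
  invFun := swp
  left_inv := swp_swp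
  right_inv := swp_swp

/-- The elementary operations. -/
def elmE (u : Fin 8 → ℂ) : JE where
  toFun := elm u
  map_add' := elm_add u
  map_smul' := elm_smul u
  invFun := elm (-u)
  left_inv := elm_neg_elm u
  right_inv X := by simpa using elm_neg_elm (-u) X

/-- Scaling of the rows and columns. -/
def dgf (s : Fin 3 → ℂ) (Z : Ix → ℂ) : Ix → ℂ :=
  mkJ (fun i => s i ^ 2 * dg Z i) fun i => (s (i + 1) * s (i + 2)) • oc Z i

theorem dgf_dgf (s t : Fin 3 → ℂ) (Z : Ix → ℂ) : dgf s (dgf t Z) = dgf (s * t) Z := by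
  apply jext <;> simp only [dgf, dg_mkJ, oc_mkJ, Pi.mul_apply, smul_smul] <;>
    first | ring | (congr 1; ring)

theorem dgf_one (Z : Ix → ℂ) : dgf 1 Z = Z := by
  apply jext <;> simp [dgf]

/-- Scaling of the rows and columns. -/
def dgE (s : Fin 3 → ℂˣ) : JE where
  toFun := dgf fun i => s i
  map_add' X Y := by apply jext <;> simp [dgf, mul_add]
  map_smul' c X := by
    apply jext <;> simp only [dgf, dg_mkJ, oc_mkJ, dg_smul, oc_smul, RingHom.id_apply, smul_smul] <;>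
      first | ring | (congr 1; ring)
  invFun := dgf fun i => ((s i)⁻¹ : ℂˣ)
  left_inv X := by
    rw [dgf_dgf, show ((fun i => (((s i)⁻¹ : ℂˣ) : ℂ)) * fun i => (s i : ℂ)) = 1 from
      funext fun i => by simp, dgf_one]
  right_inv X := by
    rw [dgf_dgf, show ((fun i => (s i : ℂ)) * fun i => (((s i)⁻¹ : ℂˣ) : ℂ)) = 1 from
      funext fun i => by simp, dgf_one]

theorem cycE_apply (Z : Ix → ℂ) : cycE Z = cyc Z := rfl
theorem swpE_apply (Z : Ix → ℂ) : swpE Z = swp Z := rfl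
theorem elmE_apply (u : Fin 8 → ℂ) (Z : Ix → ℂ) : elmE u Z = elm u Z := rfl
theorem dgE_apply (s : Fin 3 → ℂˣ) (Z : Ix → ℂ) : dgE s Z = dgf (fun i => s i) Z := rfl

theorem sim_cyc : Sim cycE 1 := ⟨one_ne_zero, fun Z => by rw [one_mul]; exact nrm_cyc Z⟩
theorem sim_swp : Sim swpE 1 := ⟨one_ne_zero, fun Z => by rw [one_mul]; exact nrm_swp Z⟩
theorem sim_elm (u : Fin 8 → ℂ) : Sim (elmE u) 1 :=
  ⟨one_ne_zero, fun Z => by rw [one_mul]; exact nrm_elm u Z⟩

theorem sim_dg (s : Fin 3 → ℂˣ) : Sim (dgE s) (((s 0 : ℂ) * s 1 * s 2) ^ 2) := by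
  refine ⟨by simp, fun Z => ?_⟩
  simp only [dgE_apply, dgf, nrm_eq, dg_mkJ, oc_mkJ, onorm_smul, omul_smul_left, omul_smul_right,
    oconj_smul, oip_smul_left, oip_smul_right]
  have e1 : (0 : Fin 3) + 1 = 1 := rfl
  have e2 : (0 : Fin 3) + 2 = 2 := rfl
  have e3 : (1 : Fin 3) + 1 = 2 := rfl
  have e4 : (1 : Fin 3) + 2 = 0 := rfl
  have e5 : (2 : Fin 3) + 1 = 0 := rfl
  have e6 : (2 : Fin 3) + 2 = 1 := rfl
  simp only [e1, e2, e3, e4, e5, e6]
  ring

/-- The unit octonion. -/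
def o1 : Fin 8 → ℂ := Pi.single 0 1

end Pool.Agent.E7
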