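import Pool.Agent.Lib.MP_7e5527_ag.EL.SC1
import Pool.Agent.Lib.MP_7e5527_ag.EL.SJ

/-! The group generated by the unipotent groups and the torus. -/

open Filter Topology

noncomputable section

namespace Pool.Agent.E7

theorem nE_mem_G1 (B : Ix → ℂ) : nE B ∈ G1 :=
  Subgroup.subset_closure (Or.inl (Or.inl ⟨B, rfl⟩))

theorem nP_mem_G1 (B : Ix → ℂ) : nP B ∈ G1 :=
  Subgroup.subset_closure (Or.inl (Or.inr ⟨B, rfl⟩))

theorem dE_mem_G1 (s t : ℂˣ) : dE s t ∈ G1 :=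
  Subgroup.subset_closure (Or.inr ⟨(s, t), rfl⟩)

theorem scE_mem_G1 (s : ℂˣ) : scE s ∈ G1 := by
  obtain ⟨u, hu⟩ := exists_dE_eq s
  exact hu ▸ dE_mem_G1 u u

theorem Lv.conj_G1 {A : JE} {c : ℂ} {g k : Gb} (hA : Sim A c) (h : Lv A g) (hk : k ∈ G1) :
    g * k * g⁻¹ ∈ G1 := by
  refine mem_cj.1 ((Subgroup.closure_le (cj g G1)).2 ?_ hk)
  rintro _ ((⟨B, rfl⟩ | ⟨B, rfl⟩) | ⟨y, rfl⟩) <;> refine mem_cj.2 ?_
  · rw [h.conj_nE]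
    exact nE_mem_G1 _
  · obtain ⟨A', -, h'⟩ := h.conj_nP hA
    rw [h']
    exact nP_mem_G1 _
  · rw [h.comm_dE, mul_inv_cancel_right]
    exact dE_mem_G1 _ _

theorem w0E_mem_G1 : w0E ∈ G1 := by
  rw [w0E_eq]
  exact mul_mem (mul_mem (nE_mem_G1 _) (nP_mem_G1 _)) (nE_mem_G1 _)

theorem wE_mem_G1 : wE ∈ G1 := by
  have h : Lv cycE cE := fun Z => by
    simp only [tube1_cE_apply, rr, cycE_apply, sharp_cyc, nrm_cyc]
  have h1 := h.inv.conj_G1 sim_cyc.inv w0E_mem_G1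
  rw [inv_inv] at h1
  rw [wE_eq]
  exact mul_mem (mul_mem w0E_mem_G1 (h.conj_G1 sim_cyc w0E_mem_G1)) h1

theorem InE.one : InE 1 := ⟨1, one_mem _, fun _ => rfl⟩

theorem InE.mul {A B : JE} (h : InE A) (h' : InE B) : InE (A * B) := by
  obtain ⟨g, hg, h1⟩ := h
  obtain ⟨k, hk, h2⟩ := h'
  exact ⟨g * k, mul_mem hg hk, h1.mul h2⟩

theorem InE.inv {A : JE} (h : InE A) : InE A⁻¹ := by
  obtain ⟨g, hg, h1⟩ := h
  exact ⟨g⁻¹, inv_mem hg, h1.inv⟩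

theorem InE.conj {A B : JE} {c : ℂ} (hA : Sim A c) (h : InE B) : InE (A * B * A⁻¹) := by
  obtain ⟨g, -, h1⟩ := hA.exists_Lv
  obtain ⟨k, hk, h2⟩ := h
  exact ⟨g * k * g⁻¹, h1.conj_G1 hA hk, (h1.mul h2).mul h1.inv⟩

end Pool.Agent.E7
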