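import Pool.Agent.Lib.MP_7e5527_ag.EL.GA

/-! Transitivity on frames. -/

open Filter Topology

noncomputable section

namespace Pool.Agent.E7

/-- Similitudes that lie in the elementary group. -/
def gb_G (B : JE) : Prop := InE B ∧ ∃ c, Sim B c

theorem gb_G.mul {A B : JE} (h : gb_G A) (h' : gb_G B) : gb_G (A * B) := by
  obtain ⟨h1, c, hc⟩ := h
  obtain ⟨h2, d, hd⟩ := h'
  exact ⟨h1.mul h2, _, hc.mul hd⟩

theorem gb_one : gb_G 1 := ⟨InE.one, 1, one_ne_zero, fun Z => by simp⟩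
theorem gb_elm (u : Fin 8 → ℂ) : gb_G (elmE u) := ⟨inE_elm u, _, sim_elm u⟩
theorem gb_swp : gb_G swpE := ⟨inE_swp, _, sim_swp⟩
theorem gb_cyc : gb_G cycE := ⟨inE_cyc, _, sim_cyc⟩
theorem gb_dg (s : Fin 3 → ℂˣ) : gb_G (dgE s) := ⟨inE_dg s, _, sim_dg s⟩

theorem gb_sharp {A : JE} {c : ℂ} (h : Sim A c) {T : Ix → ℂ} (hT : sharp T = 0) :
    sharp (A T) = 0 := by
  obtain ⟨A', -, h2, -⟩ := h.exists_adj
  rw [h2, hT, map_zero]

theorem gb_cross {A : JE} {c : ℂ} (h : Sim A c) : ∃ A' : JE,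
    (∀ X Y, tr (A' X) (A Y) = c * tr X Y) ∧ ∀ X Y, cross (A X) (A Y) = A' (cross X Y) := by
  obtain ⟨A', h1, h2, -⟩ := h.exists_adj
  refine ⟨A', h1, fun X Y => ?_⟩
  simp only [cross, ← map_add, h2, map_sub]

theorem gb_sharp_ed (i : Fin 3) : sharp (ed i : Ix → ℂ) = 0 := by
  fin_cases i <;> apply jext <;>
    simp [ed, dg_sharp_0, dg_sharp_1, dg_sharp_2, oc_sharp_0, oc_sharp_1, oc_sharp_2, onorm_zero,
      omul_zero_left, oconj_zero]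

theorem gb_cross_ed : cross (ed 0) (ed 1) = (ed 2 : Ix → ℂ) := by
  apply jext <;>
    simp [ed, dg_cross_0, dg_cross_1, dg_cross_2, oc_cross_0, oc_cross_1, oc_cross_2,
      oip_zero_left, omul_zero_left, oconj_zero]

theorem gb_ed_ne (i : Fin 3) : (ed i : Ix → ℂ) ≠ 0 := by
  intro h
  have h' : dg (ed i : Ix → ℂ) i = 0 := by rw [h]; rfl
  simp [ed] at h'

theorem gb_elm_0 (u : Fin 8 → ℂ) : elm u (ed 0) = ed 0 := by
  apply jext <;> simp [elm, ed, oconj_zero, oip_zero_right, omul_zero_right]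

theorem gb_elm_2 (u : Fin 8 → ℂ) : elm u (ed 2) = ed 2 := by
  apply jext <;> simp [elm, ed, oconj_zero, oip_zero_right, omul_zero_right]

theorem gb_swp_0 : swp (ed 0 : Ix → ℂ) = ed 0 := by apply jext <;> simp [swp, ed, oconj_zero]
theorem gb_swp_1 : swp (ed 1 : Ix → ℂ) = ed 2 := by apply jext <;> simp [swp, ed, oconj_zero]
theorem gb_swp_2 : swp (ed 2 : Ix → ℂ) = ed 1 := by apply jext <;> simp [swp, ed, oconj_zero]
theorem gb_cyc_0 : cyc (ed 0 : Ix → ℂ) = ed 1 := by apply jext <;> simp [cyc, ed]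
theorem gb_cyc_1 : cyc (ed 1 : Ix → ℂ) = ed 2 := by apply jext <;> simp [cyc, ed]
theorem gb_cyc_2 : cyc (ed 2 : Ix → ℂ) = ed 0 := by apply jext <;> simp [cyc, ed]

theorem gb_exists_oip {x : Fin 8 → ℂ} (h : x ≠ 0) : ∃ u, oip u (oconj x) ≠ 0 := by
  obtain ⟨k, hk⟩ := Function.ne_iff.1 h
  refine ⟨oconj (Pi.single k 1), ?_⟩
  rw [oip_oconj, oip, Finset.sum_eq_single k] <;> simp +contextual
  exact hk

/-- A non zero lower block can be given a non zero diagonal entry. -/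
theorem gb_piv {T : Ix → ℂ} (h : ¬(dg T 1 = 0 ∧ dg T 2 = 0 ∧ oc T 0 = 0)) :
    ∃ B, gb_G B ∧ B (ed 0) = ed 0 ∧ dg (B T) 1 ≠ 0 := by
  by_cases h1 : dg T 1 = 0
  · by_cases h2 : dg T 2 = 0
    · obtain ⟨u, hu⟩ := gb_exists_oip fun h0 => h ⟨h1, h2, h0⟩
      refine ⟨swpE * elmE u, gb_swp.mul (gb_elm u), ?_, ?_⟩
      · rw [LinearEquiv.mul_apply, elmE_apply, gb_elm_0, swpE_apply, gb_swp_0]
      · rw [LinearEquiv.mul_apply, elmE_apply, swpE_apply]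
        simpa [swp, elm, h1, h2] using hu
    · exact ⟨swpE, gb_swp, gb_swp_0, by simpa [swpE_apply, swp] using h2⟩
  · exact ⟨1, gb_one, rfl, h1⟩

theorem gb_clear0 {T : Ix → ℂ} (h : dg T 1 ≠ 0) : ∃ u, dg (elm u T) 1 = dg T 1 ∧
    oc (elm u T) 0 = 0 ∧ oc (elm u T) 2 = oc T 2 := by
  refine ⟨-((dg T 1)⁻¹ • oconj (oc T 0)), by simp [elm], ?_, by simp [elm]⟩
  simp [elm, oconj_neg, oconj_smul, oconj_oconj, smul_smul, mul_inv_cancel₀ h]

theorem gb_diag {T : Ix → ℂ} (hT : sharp T = 0) (h : dg T 1 ≠ 0) (h0 : oc T 0 = 0)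
    (h2 : oc T 2 = 0) : T = dg T 1 • ed 1 := by
  have e0 := dg_sharp_0 T
  have e2 := dg_sharp_2 T
  have e1 := oc_sharp_1 T
  rw [hT, h0, onorm_zero, sub_zero, dg_zero, eq_comm, mul_eq_zero] at e0
  rw [hT, h2, onorm_zero, sub_zero, dg_zero, eq_comm, mul_eq_zero] at e2
  rw [hT, h2, omul_zero_left, oconj_zero, oc_zero, zero_sub, eq_comm, neg_eq_zero,
    smul_eq_zero] at e1
  apply jext <;> simp [ed, h0, h2, e0.resolve_left h, e2.resolve_right h, e1.resolve_left h]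

/-- Clearing the row and the column of a pivot. -/
theorem gb_clear {T : Ix → ℂ} (hT : sharp T = 0) (h : dg T 1 ≠ 0) :
    ∃ B, gb_G B ∧ B (ed 0) = ed 0 ∧ B (ed 2) = ed 2 ∧ B T = dg T 1 • ed 1 := by
  obtain ⟨u, a1, a0, -⟩ := gb_clear0 h
  have b1 : dg (swp (cyc (elm u T))) 1 = dg T 1 := by simpa [swp, cyc] using a1
  have b2 : oc (swp (cyc (elm u T))) 2 = 0 := by simp [swp, cyc, a0, oconj_zero]
  obtain ⟨v, c1, c0, c2⟩ := gb_clear0 (T := swp (cyc (elm u T))) (by rwa [b1])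
  have hs : sharp (elm v (swp (cyc (elm u T)))) = 0 :=
    gb_sharp (sim_elm v) (gb_sharp sim_swp (gb_sharp sim_cyc (gb_sharp (sim_elm u) hT)))
  have hd := gb_diag hs (by rwa [c1, b1]) c0 (c2.trans b2)
  rw [c1, b1] at hd
  refine ⟨swpE * cycE * elmE v * swpE * cycE * elmE u,
    ((((gb_swp.mul gb_cyc).mul (gb_elm v)).mul gb_swp).mul gb_cyc).mul (gb_elm u), ?_, ?_, ?_⟩ <;>
    simp only [LinearEquiv.mul_apply, elmE_apply, swpE_apply, cycE_apply]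
  · rw [gb_elm_0, gb_cyc_0, gb_swp_1, gb_elm_2, gb_cyc_2, gb_swp_0]
  · rw [gb_elm_2, gb_cyc_2, gb_swp_0, gb_elm_0, gb_cyc_0, gb_swp_1]
  · rw [hd, cyc_smul, swp_smul, gb_cyc_1, gb_swp_2]

theorem gb_step2 {T : Ix → ℂ} (hT : sharp T = 0) (h : ¬(dg T 1 = 0 ∧ dg T 2 = 0 ∧ oc T 0 = 0)) :
    ∃ B, gb_G B ∧ B (ed 0) = ed 0 ∧ ∃ t : ℂ, B T = t • ed 1 := by
  obtain ⟨B, hB, h0, h1⟩ := gb_piv h
  obtain ⟨c, hc⟩ := hB.2
  obtain ⟨B', hB', k0, -, k1⟩ := gb_clear (gb_sharp hc hT) h1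
  exact ⟨B' * B, hB'.mul hB, by rw [LinearEquiv.mul_apply, h0, k0], _, k1⟩

theorem gb_step1 {T : Ix → ℂ} (hT : sharp T = 0) (h : T ≠ 0) :
    ∃ B, gb_G B ∧ ∃ t : ℂ, B T = t • ed 0 := by
  have key : ∀ C : JE, gb_G C → ¬(dg (C T) 1 = 0 ∧ dg (C T) 2 = 0 ∧ oc (C T) 0 = 0) →
      ∃ B, gb_G B ∧ ∃ t : ℂ, B T = t • ed 0 := by
    intro C hC h'
    obtain ⟨c, hc⟩ := hC.2
    obtain ⟨B, hB, -, t, ht⟩ := gb_step2 (gb_sharp hc hT) h'
    refine ⟨cycE * cycE * B * C, ((gb_cyc.mul gb_cyc).mul hB).mul hC, t, ?_⟩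
    simp only [LinearEquiv.mul_apply, cycE_apply]
    rw [ht, cyc_smul, cyc_smul, gb_cyc_1, gb_cyc_2]
  by_contra hn
  have a := not_not.1 fun h' => hn (key 1 gb_one h')
  have b := not_not.1 fun h' => hn (key cycE gb_cyc h')
  have c := not_not.1 fun h' => hn (key (cycE * cycE) (gb_cyc.mul gb_cyc) h')
  exact h (jext b.1 a.1 a.2.1 a.2.2 c.2.2 b.2.2)

theorem gb_step3 {T : Ix → ℂ} (hT : sharp T = 0) (h : dg T 2 ≠ 0) :
    ∃ B, gb_G B ∧ B (ed 0) = ed 0 ∧ B (ed 1) = ed 1 ∧ ∃ t : ℂ, B T = t • ed 2 := by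
  obtain ⟨B, hB, k0, k2, k1⟩ := gb_clear (T := swp T) (gb_sharp sim_swp hT) h
  refine ⟨swpE * B * swpE, (gb_swp.mul hB).mul gb_swp, ?_, ?_, dg (swp T) 1, ?_⟩ <;>
    simp only [LinearEquiv.mul_apply, swpE_apply]
  · rw [gb_swp_0, k0, gb_swp_0]
  · rw [gb_swp_1, k2, gb_swp_2]
  · rw [k1, swp_smul, gb_swp_1]

theorem gb_dgf_ed (s : Fin 3 → ℂ) (i : Fin 3) : dgf s (ed i) = s i ^ 2 • ed i := by
  fin_cases i <;> apply jext <;> simp [dgf, ed]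

theorem gb_fin {A : JE} {c : ℂ} (h : Sim A c) (ht : ∀ i, ∃ t : ℂ, A (ed i) = t • ed i) :
    ∃ B, InE B ∧ Sim (B * A) 1 ∧ ∀ i, (B * A) (ed i) = ed i := by
  choose t ht using ht
  have h0 : ∀ i, t i ≠ 0 := by
    intro i hi
    have e := ht i
    rw [hi, zero_smul, LinearEquiv.map_eq_zero_iff] at e
    exact gb_ed_ne i e
  choose r hr using fun i => IsAlgClosed.exists_pow_nat_eq (t i)⁻¹ two_pos
  have r0 : ∀ i, r i ≠ 0 := by
    intro i hi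
    have e := hr i
    rw [hi] at e
    exact inv_ne_zero (h0 i) (by rw [← e]; ring)
  have hf : ∀ i, (dgE (fun i => Units.mk0 (r i) (r0 i)) * A) (ed i) = ed i := by
    intro i
    rw [LinearEquiv.mul_apply, ht, map_smul, dgE_apply, gb_dgf_ed, Units.val_mk0, hr, smul_smul,
      mul_inv_cancel₀ (h0 i), one_smul]
  have hs := (sim_dg fun i => Units.mk0 (r i) (r0 i)).mul h
  refine ⟨_, inE_dg _, ?_, hf⟩
  have e := hs.2 (ed 0 + ed 1 + ed 2)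
  have e1 : nrm (ed 0 + ed 1 + ed 2 : Ix → ℂ) = 1 := by
    simp [nrm_eq, ed, onorm_zero, oconj_zero, oip_zero_right]
  rw [map_add, map_add, hf, hf, hf, e1, mul_one] at e
  rw [e]; exact hs

theorem frame {A : JE} {c : ℂ} (h : Sim A c) :
    ∃ B, InE B ∧ Sim (B * A) 1 ∧ ∀ i, (B * A) (ed i) = ed i := by
  obtain ⟨B1, ⟨i1, c1, s1⟩, t0, h0⟩ := gb_step1 (gb_sharp h (gb_sharp_ed 0))
    (by rw [Ne, LinearEquiv.map_eq_zero_iff]; exact gb_ed_ne 0)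
  have a1 := s1.mul h
  replace h0 : (B1 * A) (ed 0) = t0 • ed 0 := h0
  obtain ⟨B2, ⟨i2, c2, s2⟩, k0, t1, h1⟩ := gb_step2 (gb_sharp a1 (gb_sharp_ed 1)) (by
    rintro ⟨e1, e2, e0⟩
    obtain ⟨A', -, hc⟩ := gb_cross a1
    have e := hc (ed 0) (ed 1)
    rw [gb_cross_ed, h0, cross_smul_left] at e
    have e' : cross (ed 0) ((B1 * A) (ed 1)) = 0 := by
      generalize (B1 * A) (ed 1) = T at e0 e1 e2
      apply jext <;>
        simp [ed, dg_cross_0, dg_cross_1, dg_cross_2, oc_cross_0, oc_cross_1, oc_cross_2,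
          oip_zero_left, omul_zero_left, omul_zero_right, oconj_zero, e0, e1, e2]
    rw [e', smul_zero, eq_comm, LinearEquiv.map_eq_zero_iff] at e
    exact gb_ed_ne 2 e)
  have a2 := s2.mul a1
  replace h0 : (B2 * (B1 * A)) (ed 0) = t0 • ed 0 := by
    rw [LinearEquiv.mul_apply, h0, map_smul, k0]
  replace h1 : (B2 * (B1 * A)) (ed 1) = t1 • ed 1 := h1
  obtain ⟨B3, ⟨i3, c3, s3⟩, l0, l1, t2, h2⟩ := gb_step3 (gb_sharp a2 (gb_sharp_ed 2)) (by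
    intro e2
    obtain ⟨A', ht, hc⟩ := gb_cross a2
    have e := ht (ed 2) (ed 2)
    rw [← gb_cross_ed, ← hc, gb_cross_ed, h0, h1, cross_smul_left, cross_smul_right, gb_cross_ed,
      tr_smul_left, tr_smul_left, tr_comm, tr_ed, e2, tr_ed] at e
    exact a2.1 (by simpa [ed] using e.symm))
  have a3 := s3.mul a2
  obtain ⟨B, hB, hs, hf⟩ := gb_fin a3 (by
    intro i
    fin_cases i
    · exact ⟨t0, by rw [LinearEquiv.mul_apply]; erw [h0]; rw [map_smul, l0]; rfl⟩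
    · exact ⟨t1, by rw [LinearEquiv.mul_apply]; erw [h1]; rw [map_smul, l1]; rfl⟩
    · exact ⟨t2, h2⟩)
  refine ⟨B * B3 * B2 * B1, ((hB.mul i3).mul i2).mul i1, ?_, ?_⟩
  · simpa only [mul_assoc] using hs
  · simpa only [mul_assoc] using hf

end Pool.Agent.E7
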