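import Pool.Agent.Lib.MP_7e5527_ag.EL.SDefs

/-! The quartic form is invariant under translations. -/

open Filter Topology

noncomputable section

namespace Pool.Agent.E7

theorem sharp_cross_cross (B X : Ix → ℂ) :
    cross (sharp B) (cross B X) = nrm B • X + tr (sharp B) X • B := by
  have h1 := sharp_sharp (B + X)
  have h2 := sharp_sharp (B + (-1 : ℂ) • X)
  have h3 := sharp_sharp (B + (2 : ℂ) • X)
  have h4 := sharp_sharp (B + (-2 : ℂ) • X)
  simp only [sharp_add, nrm_add, cross_add_left, cross_smul_left, cross_smul_right, sharp_smul,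
    nrm_smul, tr_smul_right, sharp_sharp] at h1 h2 h3 h4
  linear_combination (norm := module) (2 / 3 : ℂ) • h1 - (2 / 3 : ℂ) • h2 - (1 / 12 : ℂ) • h3 +
    (1 / 12 : ℂ) • h4

theorem sa1_zero (B Y : Ix → ℂ) (a d : ℂ) : q4 (nE B (a, 0, Y, d)) = q4 (a, 0, Y, d) := by
  have h : tr (sharp B) (cross Y (sharp B)) = 2 * nrm B * tr Y B := by
    rw [cross_comm, ← tr_cross, cross_self, sharp_sharp, tr_smul_left, tr_smul_left, tr_comm]
    ring
  simp only [q4, nE_apply, nfun, zero_add, cross_zero_left, add_zero, tr_zero_left, sharp_zero,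
    nrm_zero, sharp_add, nrm_add, sharp_smul, nrm_smul, cross_smul_right, tr_add_right,
    tr_smul_right, tr_smul_left, sharp_sharp, nrm_sharp, h, tr_sharp_self, tr_comm B (sharp B),
    tr_comm B Y, tr_comm (sharp Y) (sharp B)]
  ring

theorem q4_nE (B : Ix → ℂ) (v : W) : q4 (nE B v) = q4 v := by
  obtain ⟨a, X, Y, d⟩ := v
  have h : ∀ a : ℂ, a ≠ 0 → q4 (nE B (a, X, Y, d)) = q4 (a, X, Y, d) := by
    intro a ha
    obtain ⟨Y', d', e⟩ : ∃ Y' d', nE (-(a⁻¹ • X)) (a, X, Y, d) = (a, 0, Y', d') := by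
      refine ⟨_, _, Prod.ext rfl (Prod.ext ?_ rfl)⟩
      simp [nE_apply, nfun, smul_smul, mul_inv_cancel₀ ha]
    have e1 : ∀ C, nE C (a, X, Y, d) = nE (C + a⁻¹ • X) (a, 0, Y', d') := fun C => by
      rw [← e, ← LinearEquiv.mul_apply, ← nE_add, add_neg_cancel_right]
    have e2 : (a, X, Y, d) = nE 0 (a, X, Y, d) := by
      simp [nE_apply, nfun, cross_zero_right, tr_zero_right, sharp_zero, nrm_zero]
    rw [e1, sa1_zero]
    conv_rhs => rw [e2, e1, sa1_zero]
  have hc : Continuous fun a : ℂ => q4 (nE B (a, X, Y, d)) - q4 (a, X, Y, d) := by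
    simp only [q4, nE_apply, nfun, sharp_add (_ : Ix → ℂ) (_ • _), nrm_add (_ : Ix → ℂ) (_ • _),
      sharp_smul, nrm_smul, cross_smul_right, tr_add_right, tr_add_left, tr_smul_right,
      tr_smul_left]
    fun_prop
  have := hc.ext_on (dense_compl_singleton 0) continuous_zero fun a ha => sub_eq_zero.2 (h a ha)
  exact sub_eq_zero.1 (congrFun this a)

theorem q4_wE (v : W) : q4 (wE v) = q4 v := by
  simp only [q4, tube1_wE_apply, tr_neg_left, sharp_neg, nrm_neg, tr_comm v.2.2.1,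
    tr_comm (sharp v.2.2.1)]
  ring

theorem q4_smul (s : ℂ) (v : W) : q4 (s • v) = s ^ 4 * q4 v := by
  simp only [q4, Prod.smul_fst, Prod.smul_snd, smul_eq_mul, tr_smul_left, tr_smul_right,
    sharp_smul, nrm_smul]
  ring

theorem nE_mem_GE (B : Ix → ℂ) : nE B ∈ GE :=
  ⟨1, one_ne_zero, fun v v' => by rw [sy_nE, one_mul], fun v => by rw [q4_nE]; ring⟩

theorem wE_mem_GE : wE ∈ GE :=
  ⟨1, one_ne_zero, fun v v' => by rw [sy_wE, one_mul], fun v => by rw [q4_wE]; ring⟩

theorem nP_mem_GE (B : Ix → ℂ) : nP B ∈ GE :=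
  mul_mem (mul_mem wE_mem_GE (nE_mem_GE B)) (inv_mem wE_mem_GE)

theorem nrm_iv {B : Ix → ℂ} (h : nrm B ≠ 0) : nrm (iv B) = (nrm B)⁻¹ := by
  rw [iv, nrm_smul, nrm_sharp]; field_simp

theorem iv_iv {B : Ix → ℂ} (h : nrm B ≠ 0) : iv (iv B) = B := by
  rw [iv, nrm_iv h, iv, sharp_smul, sharp_sharp, smul_smul, smul_smul, inv_inv]
  rw [show nrm B * (nrm B)⁻¹ ^ 2 * nrm B = 1 by field_simp, one_smul]

theorem inv_eq_iv (B : Ix → ℂ) : inv B = -iv B := by rw [inv, iv, neg_smul]

/-- A polynomial function that vanishes where the norm does not is zero. -/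
theorem PolyFn.eq_zero_of_nrm {f : (Ix → ℂ) → ℂ} (hf : PolyFn f) (h : ∀ Z, nrm Z ≠ 0 → f Z = 0)
    (Z : Ix → ℂ) : f Z = 0 := hf.eq_zero (fun Z hZ => h Z (HH.nrm_ne hZ)) Z

/-- A vector orthogonal to all adjoints is zero. -/
theorem eq_zero_of_tr_sharp {C : Ix → ℂ} (h : ∀ X, tr C (sharp X) = 0) : C = 0 := by
  refine eq_of_tr fun T => ?_
  rw [tr_zero_left]
  refine PolyFn.eq_zero_of_nrm (f := fun T => tr C T) ?_ (fun Z hZ => ?_) T
  · simp only [tr_eq_sum]
    exact PolyFn.sum _ fun l _ => (PolyFn.const _).mul (PolyFn.coord l)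
  · have := h (sharp Z)
    rw [sharp_sharp, tr_smul_right] at this
    exact (mul_eq_zero.1 this).resolve_left hZ

/-- A polynomial function that vanishes at the rational points is zero. -/
theorem PolyFn.eq_zero_of_rat {f : (Ix → ℂ) → ℂ} (hf : PolyFn f) (h : ∀ T, f (toR ℂ T) = 0)
    (Z : Ix → ℂ) : f Z = 0 := by
  obtain ⟨P, hP⟩ := hf
  have : P = 0 := by
    refine MvPolynomial.funext_set (fun _ => Set.range ((↑) : ℚ → ℂ))
      (fun _ => Set.infinite_range_of_injective Rat.cast_injective) fun x hx => ?_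
    choose T hT using fun l => hx l trivial
    rw [map_zero, ← hP, ← h T]
    exact congrArg f (funext fun l => (hT l).symm)
  rw [hP, this, map_zero]

end Pool.Agent.E7
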