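import Pool.Agent.Lib.MP_7e5527_ag.EL.SJ
import Pool.Agent.Lib.MP_7e5527_ag.EL.SA1

/-! The stabiliser of a frame, reflections of the octonions. -/

open Filter Topology

noncomputable section

namespace Pool.Agent.E7

theorem gca_nrm (l : Fin 3 → ℂ) (X : Ix → ℂ) : nrm (l 0 • ed 0 + l 1 • ed 1 + l 2 • ed 2 + X) =
    l 0 * l 1 * l 2 + (l 1 * l 2 * dg X 0 + l 2 * l 0 * dg X 1 + l 0 * l 1 * dg X 2) +
      (l 0 * dg (sharp X) 0 + l 1 * dg (sharp X) 1 + l 2 * dg (sharp X) 2) + nrm X := by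
  simp [nrm_eq, ed, dg_sharp_0, dg_sharp_1, dg_sharp_2]
  ring

theorem gca_key {A : JE} (h : Sim A 1) (hf : ∀ i, A (ed i) = ed i) (X : Ix → ℂ) (l : Fin 3 → ℂ) :
    (l 1 * l 2 * dg (A X) 0 + l 2 * l 0 * dg (A X) 1 + l 0 * l 1 * dg (A X) 2) +
      (l 0 * dg (sharp (A X)) 0 + l 1 * dg (sharp (A X)) 1 + l 2 * dg (sharp (A X)) 2) =
    (l 1 * l 2 * dg X 0 + l 2 * l 0 * dg X 1 + l 0 * l 1 * dg X 2) +
      (l 0 * dg (sharp X) 0 + l 1 * dg (sharp X) 1 + l 2 * dg (sharp X) 2) := by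
  have e := h.2 (l 0 • ed 0 + l 1 • ed 1 + l 2 • ed 2 + X)
  rw [map_add, map_add, map_add, map_smul, map_smul, map_smul, hf, hf, hf, gca_nrm, gca_nrm,
    h.2 X] at e
  linear_combination e

theorem gca_dg {A : JE} (h : Sim A 1) (hf : ∀ i, A (ed i) = ed i) (X : Ix → ℂ) :
    (∀ i, dg (A X) i = dg X i) ∧ ∀ i, onorm (oc (A X) i) = onorm (oc X i) := by
  have s0 := gca_key h hf X ![1, 0, 0]
  have s1 := gca_key h hf X ![0, 1, 0]
  have s2 := gca_key h hf X ![0, 0, 1]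
  have d0 := gca_key h hf X ![0, 1, 1]
  have d1 := gca_key h hf X ![1, 0, 1]
  have d2 := gca_key h hf X ![1, 1, 0]
  simp only [Matrix.cons_val_zero, Matrix.cons_val_one, Matrix.cons_val] at s0 s1 s2 d0 d1 d2
  have e0 : dg (A X) 0 = dg X 0 := by linear_combination d0 - s1 - s2
  have e1 : dg (A X) 1 = dg X 1 := by linear_combination d1 - s0 - s2
  have e2 : dg (A X) 2 = dg X 2 := by linear_combination d2 - s0 - s1
  simp only [dg_sharp_0, dg_sharp_1, dg_sharp_2, e0, e1, e2] at s0 s1 s2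
  refine ⟨fun i => ?_, fun i => ?_⟩ <;> fin_cases i
  · exact e0
  · exact e1
  · exact e2
  · change onorm (oc (A X) 0) = onorm (oc X 0); linear_combination -s0
  · change onorm (oc (A X) 1) = onorm (oc X 1); linear_combination -s1
  · change onorm (oc (A X) 2) = onorm (oc X 2); linear_combination -s2

theorem gca_nondeg {x : Fin 8 → ℂ} (h : ∀ y, oip x y = 0) : x = 0 := by
  funext k
  have e := h (Pi.single k 1)
  rw [oip, Finset.sum_eq_single k] at e
  · simpa using e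
  · simp +contextual
  · simp

theorem gca_oip {A : JE} (h : Sim A 1) (hf : ∀ i, A (ed i) = ed i) (X Y : Ix → ℂ) (i : Fin 3) :
    oip (oc (A X) i) (oc (A Y) i) = oip (oc X i) (oc Y i) := by
  have e := (gca_dg h hf (X + Y)).2 i
  rw [map_add, oc_add, oc_add, onorm_add, onorm_add, (gca_dg h hf X).2, (gca_dg h hf Y).2] at e
  linear_combination e

theorem gca_zero {A : JE} (h : Sim A 1) (hf : ∀ i, A (ed i) = ed i) {X : Ix → ℂ} {i : Fin 3}
    (hX : oc X i = 0) : oc (A X) i = 0 := by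
  refine gca_nondeg fun y => ?_
  have e := gca_oip h hf X (A.symm (mkJ 0 fun _ => y)) i
  rwa [hX, oip_zero_left, LinearEquiv.apply_symm_apply, oc_mkJ] at e

/-- The action on one slot. -/
def gca_g (A : JE) (i : Fin 3) : (Fin 8 → ℂ) →ₗ[ℂ] (Fin 8 → ℂ) where
  toFun x := oc (A (mkJ 0 fun _ => x)) i
  map_add' x y := by
    rw [← oc_add, ← map_add]
    congr 2
    apply jext <;> simp
  map_smul' c x := by
    rw [RingHom.id_apply, ← oc_smul, ← map_smul]
    congr 2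
    apply jext <;> simp

theorem peirce {A : JE} (h : Sim A 1) (hf : ∀ i, A (ed i) = ed i) :
    ∃ g : Fin 3 → (Fin 8 → ℂ) ≃ₗ[ℂ] (Fin 8 → ℂ), (∀ i x, onorm (g i x) = onorm x) ∧
      ∀ Z, A Z = mkJ (dg Z) fun i => g i (oc Z i) := by
  have hinj : ∀ i, Function.Injective (gca_g A i) := by
    intro i
    rw [injective_iff_map_eq_zero]
    intro x hx
    refine gca_nondeg fun y => ?_
    have e := gca_oip h hf (mkJ 0 fun _ => x) (mkJ 0 fun _ => y) i
    change oc (A (mkJ 0 fun _ => x)) i = 0 at hx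
    rw [hx, oip_zero_left] at e
    exact e.symm
  have hoc : ∀ Z i, oc (A Z) i = gca_g A i (oc Z i) := by
    intro Z i
    have e := gca_zero h hf (X := Z - mkJ 0 fun _ => oc Z i) (i := i) (by simp)
    rw [map_sub, oc_sub, sub_eq_zero] at e
    exact e
  refine ⟨fun i => LinearEquiv.ofInjectiveEndo (gca_g A i) (hinj i), fun i x => ?_, fun Z => ?_⟩
  · exact (gca_dg h hf (mkJ 0 fun _ => x)).2 i
  · exact jext ((gca_dg h hf Z).1 0) ((gca_dg h hf Z).1 1) ((gca_dg h hf Z).1 2) (hoc Z 0)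
      (hoc Z 1) (hoc Z 2)

end Pool.Agent.E7
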