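import Pool.Agent.Lib.MP_7e5527_ag.EL.GCa

/-! The stabiliser of a frame, reflections of the octonions. -/

open Filter Topology

noncomputable section

namespace Pool.Agent.E7

theorem gcb_rfo_rfo {a : Fin 8 → ℂ} (h : onorm a = 1) (x : Fin 8 → ℂ) :
    rfo a (rfo a x) = x := by
  simp only [rfo, oip_sub_left, oip_smul_left, oip_self, h]
  module

theorem gcb_onorm_rfo {a : Fin 8 → ℂ} (h : onorm a = 1) (x : Fin 8 → ℂ) :
    onorm (rfo a x) = onorm x := by
  simp only [rfo, onorm_sub, oip_smul_right, onorm_smul, h]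
  ring

/-- The reflection as a linear map. -/
def gcb_L (a : Fin 8 → ℂ) : (Fin 8 → ℂ) →ₗ[ℂ] (Fin 8 → ℂ) where
  toFun := rfo a
  map_add' x y := by simp only [rfo, oip_add_left]; module
  map_smul' c x := by simp only [rfo, oip_smul_left, RingHom.id_apply]; module

theorem gcb_exists {u v : Fin 8 → ℂ} (h : onorm u = onorm v) (h' : onorm (u - v) ≠ 0) :
    ∃ a, onorm a = 1 ∧ rfo a u = v ∧ ∀ x, oip x u = 0 → oip x v = 0 → rfo a x = x := by
  obtain ⟨r, hr⟩ := IsAlgClosed.exists_pow_nat_eq (onorm (u - v)) two_pos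
  have hr0 : r ≠ 0 := by
    rintro rfl
    exact h' (by rw [← hr]; ring)
  refine ⟨r⁻¹ • (u - v), ?_, ?_, fun x h1 h2 => ?_⟩
  · rw [onorm_smul, ← hr]; field_simp
  · have e : oip u (u - v) = r ^ 2 := by
      rw [hr, onorm_sub, oip_sub_right, oip_self, ← h]; ring
    have e' : r⁻¹ * r ^ 2 * r⁻¹ = 1 := by field_simp
    rw [rfo, oip_smul_right, e, smul_smul, e', one_smul, sub_sub_cancel]
  · rw [rfo, oip_smul_right, oip_sub_right, h1, h2]; simp

theorem gcb_oip {g : (Fin 8 → ℂ) →ₗ[ℂ] (Fin 8 → ℂ)} (hg : ∀ x, onorm (g x) = onorm x)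
    (x y : Fin 8 → ℂ) : oip (g x) (g y) = oip x y := by
  have h := hg (x + y)
  rw [map_add, onorm_add, onorm_add, hg, hg] at h
  linear_combination h

theorem gcb_single (i k : Fin 8) (h : i ≠ k) :
    oip (Pi.single i 1 : Fin 8 → ℂ) (Pi.single k 1) = 0 := by
  rw [oip, Finset.sum_eq_zero, mul_zero]
  intro j _
  by_cases hj : j = i
  · subst hj; simp [h]
  · simp [hj]

theorem gcb_single_one (k : Fin 8) : onorm (Pi.single k 1 : Fin 8 → ℂ) = 1 := by
  rw [onorm, Finset.sum_eq_single k] <;> simp +contextual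

theorem gcb_ind {p : ((Fin 8 → ℂ) → Fin 8 → ℂ) → Prop} (h1 : p id)
    (h2 : ∀ g a, onorm a = 1 → p g → p fun x => rfo a (g x)) (s : Finset (Fin 8)) :
    ∀ g : (Fin 8 → ℂ) →ₗ[ℂ] (Fin 8 → ℂ), (∀ x, onorm (g x) = onorm x) →
      (∀ i, i ∉ s → g (Pi.single i 1) = Pi.single i 1) → p g := by
  have red : ∀ (g : (Fin 8 → ℂ) →ₗ[ℂ] (Fin 8 → ℂ)) a, onorm a = 1 → p (gcb_L a ∘ₗ g) → p g := by
    intro g a ha hp
    have h := h2 _ a ha hp
    have e : (fun x => rfo a ((gcb_L a ∘ₗ g) x)) = g := funext fun x => gcb_rfo_rfo ha (g x)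
    rwa [e] at h
  induction s using Finset.induction_on with
  | empty =>
    intro g _ hf
    have e : g = LinearMap.id := by
      apply (Pi.basisFun ℂ (Fin 8)).ext
      intro i
      simpa using hf i (by simp)
    rw [e]; exact h1
  | insert k s hk ih =>
    have step : ∀ g : (Fin 8 → ℂ) →ₗ[ℂ] (Fin 8 → ℂ), (∀ x, onorm (g x) = onorm x) →
        (∀ i, i ∉ insert k s → g (Pi.single i 1) = Pi.single i 1) →
        onorm (g (Pi.single k 1) - Pi.single k 1) ≠ 0 → p g := by
      intro g hg hf h0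
      obtain ⟨a, ha, hu, hx⟩ := gcb_exists (hg _) h0
      refine red g a ha (ih _ (fun x => (gcb_onorm_rfo ha _).trans (hg x)) fun i hi => ?_)
      by_cases hik : i = k
      · subst hik; exact hu
      · have hi' := hf i (by simp [hik, hi])
        change rfo a (g _) = _
        rw [hi']
        refine hx _ ?_ (gcb_single i k hik)
        rw [← hi', gcb_oip hg]
        exact gcb_single i k hik
    intro g hg hf
    by_cases h0 : onorm (g (Pi.single k 1) - Pi.single k 1) = 0
    · have hk1 := gcb_single_one k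
      refine red g _ hk1 (step _ (fun x => (gcb_onorm_rfo hk1 _).trans (hg x)) (fun i hi => ?_) ?_)
      · have hik : i ≠ k := fun e => hi (by simp [e])
        change rfo _ (g _) = _
        rw [hf i hi, rfo, gcb_single i k hik]; simp
      · change onorm (rfo _ (g _) - _) ≠ 0
        rw [onorm_sub, hg, hk1] at h0
        rw [onorm_sub, gcb_onorm_rfo hk1, hg, hk1, rfo, oip_sub_left, oip_smul_left, oip_self, hk1]
        intro h
        have : (4 : ℂ) = 0 := by linear_combination h + h0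
        norm_num at this
    · exact step g hg hf h0

/-- Cartan-Dieudonne: isometries are products of reflections. -/
theorem refl_ind {p : ((Fin 8 → ℂ) → Fin 8 → ℂ) → Prop} (h1 : p id)
    (h2 : ∀ g a, onorm a = 1 → p g → p fun x => rfo a (g x))
    (g : (Fin 8 → ℂ) ≃ₗ[ℂ] (Fin 8 → ℂ)) (hg : ∀ x, onorm (g x) = onorm x) : p g :=
  gcb_ind h1 h2 Finset.univ g.toLinearMap hg fun i hi => absurd (Finset.mem_univ i) hi

theorem rfo_rfo {a : Fin 8 → ℂ} (h : onorm a = 1) (x : Fin 8 → ℂ) : rfo a (rfo a x) = x :=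
  gcb_rfo_rfo h x

theorem rfo_o1 (x : Fin 8 → ℂ) : rfo o1 x = -oconj x := by
  apply oct_ext <;> simp [rfo, o1, oip_eq, oconj]
  ring

end Pool.Agent.E7
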