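import Pool.Agent.Lib.MP_7e5527_ag.EL.LDefs
import Pool.Agent.Lib.MP_7e5527_ag.E7.MFs

/-! Internal form of a uniformised curve. -/

open UpperHalfPlane MatrixGroups

noncomputable section

namespace Pool.Agent.E7

/-- `f (d τ) = γ f τ` for some `γ` in `Gam`. -/
def LiftG (f : ℍ → Ix → ℂ) (d : SL(2, ℝ)) : Prop := ∃ γ ∈ Gam, ∀ τ, f (d • τ) = act γ (f τ)

/-- A uniformised curve. -/
structure Crv (f : ℍ → Ix → ℂ) : Prop where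
  hol : DifferentiableOn ℂ (f ∘ ofComplex) {z | 0 < z.im}
  mem : ∀ τ, f τ ∈ HH
  cof : ∃ (K : Set ℍ) (s : Finset SL(2, ℝ)), IsCompact K ∧
      (∀ g ∈ s, LiftG f (g * ModularGroup.T * g⁻¹)) ∧
      ∀ τ, ∃ d, LiftG f d ∧ (d • τ ∈ K ∨ ∃ g ∈ s, 1 ≤ (g⁻¹ • d • τ).im)

end Pool.Agent.E7
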