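import Pool.Agent.Lib.MP_7e5527_ag.EL.Main

/-! Curves in the Shimura variety of type E7 and the set Sigma of a Hodge generic Tate point. -/

namespace Pool.Agent.E7

theorem lit_main (p : ℕ) [Fact p.Prime] :
    (∃ (e : ℂ_[p] ≃+* ℂ) (x : Ix → ℂ), x ∈ HH ∧ MT x = GE ∧ Tate e x) ∧
    ∀ (e : ℂ_[p] ≃+* ℂ), ∀ x ∈ HH, MT x = GE → Tate e x → ∀ f, IsCurve f →
      ∃ S : Set (Ix → ℂ), S.Finite ∧ S ⊆ HH ∧ ∀ Z ∈ Sig x, (∃ τ γ j, Mv γ (f τ) Z j) →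
        (∀ a ∈ MT Z, ∀ b ∈ MT Z, a * b = b * a) ∨ ∃ s ∈ S, ∃ γ j, Mv γ s Z j := by
  refine ⟨?_, fun e x hx hg hT f hf => ?_⟩
  · obtain ⟨e, x, h1, h2, h3⟩ := exists_gen_tate p
    exact ⟨e, x, h1, h2, (tate_iff e x).2 h3⟩
  obtain ⟨S, h1, h2, h3⟩ := main_hecke hx hg ((tate_iff e x).1 hT) hf.crv
  refine ⟨S, h1, h2, fun Z hZ ⟨τ, γ, j, hm⟩ => (sig_main hx hg hZ).imp_right fun hH => ?_⟩
  have hτ := hf.crv.mem τ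
  obtain ⟨hγ, -, hact⟩ := hm.spec hτ hZ.1
  have e1 : act γ⁻¹ Z = f τ := by
    rw [← hact, ← act_mul (Gam_le (inv_mem hγ)) (Gam_le hγ) hτ, inv_mul_cancel, act_one]
  obtain ⟨s, hs, δ, hδ, e2⟩ := h3 τ (e1 ▸ hH.act_mem hx (Gam_le (inv_mem hγ)))
  refine ⟨s, hs, γ * δ, jf (γ * δ) s, ?_⟩
  have := mv_of_Gam (mul_mem hγ hδ) (h2 hs)
  rwa [act_mul (Gam_le hγ) (Gam_le hδ) (h2 hs), ← e2, hact] at this

end Pool.Agent.E7
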