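import Pool.Agent.Lib.MP_7e5527_ag.EL.Iface
import Pool.Agent.Lib.MP_7e5527_ag.E7.Krut

/-! Convexity of the cone, the real structure. -/

noncomputable section

namespace Pool.Agent.E7

/-- Additive maps that keep the cone and the norm. -/
structure MConeMap (F : (Ix → ℝ) → Ix → ℝ) : Prop where
  add : ∀ X Y, F (X + Y) = F X + F Y
  mem : ∀ Y, F Y ∈ Om ↔ Y ∈ Om
  nrm : ∀ Y, nrm (F Y) = nrm Y

theorem MConeMap.comp {F G : (Ix → ℝ) → Ix → ℝ} (h : MConeMap F) (h' : MConeMap G) :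
    MConeMap fun X => F (G X) :=
  ⟨fun X Y => by rw [h'.add, h.add], fun Y => (h.mem _).trans (h'.mem Y),
    fun Y => (h.nrm _).trans (h'.nrm Y)⟩

theorem mcone_cyc : MConeMap cyc := ⟨cyc_add, cyc_mem_Om, nrm_cyc⟩

theorem mcone_swp : MConeMap swp := ⟨swp_add, swp_mem_Om, nrm_swp⟩

theorem mcone_elm (u : Fin 8 → ℝ) : MConeMap (elm u) := ⟨elm_add u, elm_mem_Om u, nrm_elm u⟩

theorem mcone_red {D : Ix → ℝ} (h : D ∈ Om) : ∃ F, MConeMap F ∧ ∃ d0 d1 d2 : ℝ,
    0 < d0 ∧ 0 < d1 ∧ 0 < d2 ∧ F D = d0 • ed 0 + d1 • ed 1 + d2 • ed 2 := by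
  obtain ⟨d0, d1, d2, u0, u1, u2, h0, h1, h2, rfl⟩ := exists_jac h
  refine ⟨_, (mcone_elm (-oconj u0)).comp
    ((mcone_swp.comp (mcone_cyc.comp (mcone_cyc.comp ((mcone_elm (-u1)).comp
      (mcone_cyc.comp mcone_swp))))).comp
    (mcone_cyc.comp (mcone_cyc.comp ((mcone_elm (-oconj u2)).comp mcone_cyc)))),
    d0, d1, d2, h0, h1, h2, ?_⟩
  rw [elm10_jac, elm20_jac, elm_jac]
  simp only [oconj_neg, oconj_oconj, add_neg_cancel, oconj_zero, omul_zero_right, add_zero]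
  apply jext <;> simp [jac, v0, v1, ed, onorm_zero, omul_zero_right, oconj_zero]

theorem mcone_ed {Y : Ix → ℝ} (h : Y ∈ Om) {t : ℝ} (ht : 0 < t) (i : Fin 3) :
    Y + t • ed i ∈ Om ∧ nrm Y ≤ nrm (Y + t • ed i) := by
  have e : nrm (Y + t • ed i) = nrm Y + t * dg (sharp Y) i := by
    fin_cases i <;> simp [nrm_eq, ed, dg_sharp_0, dg_sharp_1, dg_sharp_2] <;> ring
  have h1 := mul_pos ht (Om.dg_sharp_pos h i)
  have h2 := mul_pos ht (Om.dg_pos h 0)
  have h3 := mul_pos ht (Om.dg_pos h 1)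
  have h4 := h.1
  have h5 := h.2.1
  have h6 := h.2.2
  rw [dg_sharp_2] at h5
  refine ⟨⟨?_, ?_, by linarith⟩, by linarith⟩
  · fin_cases i <;> simp [ed] <;> linarith
  · rw [dg_sharp_2]
    fin_cases i <;> simp [ed] <;> linarith

theorem mcone_add {Y D : Ix → ℝ} (h : Y ∈ Om) (h' : D ∈ Om) :
    Y + D ∈ Om ∧ nrm Y ≤ nrm (Y + D) := by
  obtain ⟨F, hF, d0, d1, d2, h0, h1, h2, e⟩ := mcone_red h'
  obtain ⟨a0, b0⟩ := mcone_ed ((hF.mem Y).2 h) h0 0
  obtain ⟨a1, b1⟩ := mcone_ed a0 h1 1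
  obtain ⟨a2, b2⟩ := mcone_ed a1 h2 2
  rw [← hF.mem, ← hF.nrm Y, ← hF.nrm (Y + D), hF.add, e, ← add_assoc, ← add_assoc]
  exact ⟨a2, b0.trans (b1.trans b2)⟩

theorem mcone_tr {Y D : Ix → ℝ} (h : Y ∈ Om) (h' : D ∈ Om) : 0 < tr (sharp Y) D := by
  obtain ⟨F, hF, d0, d1, d2, h0, h1, h2, e⟩ := mcone_red h'
  have pol : ∀ X Z : Ix → ℝ, 2 * tr (sharp X) Z = nrm (X + Z) - nrm (X - Z) - 2 * nrm Z := by
    intro X Z
    rw [sub_eq_add_neg X Z, nrm_add, nrm_add, sharp_neg, nrm_neg, tr_neg_right]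
    ring
  have e1 : F (Y - D) = F Y - F D := by
    rw [eq_sub_iff_add_eq, ← hF.add, sub_add_cancel]
  have e2 : 2 * tr (sharp (F Y)) (F D) = 2 * tr (sharp Y) D := by
    rw [pol, pol, ← hF.add, ← e1, hF.nrm, hF.nrm, hF.nrm]
  have hp := Om.dg_sharp_pos ((hF.mem Y).2 h)
  rw [e, tr_add_right, tr_add_right, tr_smul_right, tr_smul_right, tr_smul_right, tr_ed, tr_ed,
    tr_ed] at e2
  linarith [mul_pos h0 (hp 0), mul_pos h1 (hp 1), mul_pos h2 (hp 2)]

theorem mcone_sharp (Z : Ix → ℂ) : star (sharp Z) = sharp (star Z) :=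
  (sharp_map (starRingEnd ℂ) Z).symm

theorem mcone_nrm (Z : Ix → ℂ) : star (nrm Z) = nrm (star Z) := (nrm_map (starRingEnd ℂ) Z).symm

theorem mcone_trs (T Z : Ix → ℂ) : star (tr T Z) = tr (star T) (star Z) :=
  (tr_map (starRingEnd ℂ) T Z).symm

theorem mcone_cross (T Z : Ix → ℂ) : star (cross T Z) = cross (star T) (star Z) :=
  (cross_map (starRingEnd ℂ) T Z).symm

theorem mcone_lin (A : Matrix Ix Ix ℚ) (Z : Ix → ℂ) : star (lin A Z) = lin A (star Z) := by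
  funext l
  simp [lin, Matrix.mulVec, dotProduct]

theorem mcone_w0 (v : W) : star (w0E v) = w0E (star v) := by
  refine Prod.ext rfl (Prod.ext ?_ (Prod.ext ?_ (star_neg _)))
  · exact jext (star_neg _) rfl rfl (star_neg (oc v.2.2.1 0)) rfl rfl
  · exact jext rfl (star_neg _) (star_neg _) rfl rfl rfl

/-- Write `D = jac d0 d1 d2 u0 u1 u2` (`exists_jac`). The additive maps `elm u`, `cyc`, `swp` keep
the cone (`elm_mem_Om`, ...) and move `D` to a diagonal matrix (`elm10_jac`, `elm_jac`,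
`elm20_jac`). Adding `t • ed 0` with `t ≥ 0` keeps the three minors positive
(`Om.dg_pos`, `Om.dg_sharp_pos`); use `cyc` for the other two. -/
theorem Om.add {Y D : Ix → ℝ} (h : Y ∈ Om) (h' : D ∈ Om) : Y + D ∈ Om := (mcone_add h h').1

theorem convex_Om : Convex ℝ Om := by
  intro X hX Y hY a b ha hb hab
  rcases ha.eq_or_lt with rfl | ha'
  · rw [zero_add] at hab
    rwa [hab, zero_smul, one_smul, zero_add]
  rcases hb.eq_or_lt with rfl | hb'
  · rw [add_zero] at hab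
    rwa [hab, zero_smul, one_smul, add_zero]
  exact Om.add (Om.smul hX ha') (Om.smul hY hb')

theorem convex_HH : Convex ℝ HH := by
  intro X hX Y hY a b ha hb hab
  have e : (fun l => ((a • X + b • Y) l).im) = a • (fun l => (X l).im) + b • fun l => (Y l).im := by
    funext l
    simp
  show (fun l => ((a • X + b • Y) l).im) ∈ Om
  rw [e]
  exact convex_Om hX hY ha hb hab

theorem Om.sharp_mem {Y : Ix → ℝ} (hY : Y ∈ Om) : sharp Y ∈ Om := by
  refine ⟨Om.dg_sharp_pos hY 0, ?_, ?_⟩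
  · rw [sharp_sharp, dg_smul]
    exact mul_pos hY.2.2 (Om.dg_pos hY 2)
  · rw [nrm_sharp]
    exact pow_pos hY.2.2 2

/-- Move `D` to a diagonal matrix by `elm` and its adjoint (`tr_elm`), or: `t ↦ nrm (Y + t X)`. -/
theorem Om.tr_pos {Y D : Ix → ℝ} (hY : Y ∈ Om) (hD : D ∈ Om) : 0 < tr Y D := by
  have h := mcone_tr (Om.sharp_mem hY) hD
  rw [sharp_sharp, tr_smul_left] at h
  exact (pos_iff_pos_of_mul_pos h).1 hY.2.2

theorem nrm_le_add {Y D : Ix → ℝ} (h : Y ∈ Om) (h' : D ∈ Om) : nrm Y ≤ nrm (Y + D) := (mcone_add h h').2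

theorem sy_GamL {γ : Gb} (hγ : γ ∈ Gam) (v v' : W) : sy (γ v) (γ v') = sy v v' := by
  refine Gam_ind (p := fun g => ∀ v v', sy (g v) (g v') = sy v v') (fun B _ => sy_nE _)
    (fun A g hA hm v v' => by rw [hm v, hm v', sy_mfun 1 hA.1.1, Rat.cast_one, one_mul]) sy_w0E
    (fun g _ g' _ h h' v v' => ?_) γ hγ v v'
  rw [LinearEquiv.mul_apply, LinearEquiv.mul_apply, h, h']

theorem star_rr (Z : Ix → ℂ) : star (rr Z) = rr (star Z) :=
  Prod.ext (star_one ℂ) (Prod.ext rfl (Prod.ext (mcone_sharp Z) (mcone_nrm Z)))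

theorem star_nE (B : Ix → ℂ) (v : W) : star (nE B v) = nE (star B) (star v) := by
  obtain ⟨a, b, c, d⟩ := v
  simp only [nE_apply, nfun, Prod.star_def, star_add, star_smul, star_mul', mcone_sharp, mcone_nrm,
    mcone_trs, mcone_cross]

theorem star_wE (v : W) : star (wE v) = wE (star v) :=
  Prod.ext rfl (Prod.ext (star_neg v.2.2.1) (Prod.ext rfl (star_neg v.1)))

theorem star_inv (Z : Ix → ℂ) : star (inv Z) = inv (star Z) := by
  rw [inv, inv, star_smul, star_neg, star_inv₀, mcone_sharp, mcone_nrm]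

theorem star_sy (v v' : W) : star (sy v v') = sy (star v) (star v') := by
  simp only [sy, star_add, star_sub, star_mul', mcone_trs, Prod.fst_star, Prod.snd_star]

theorem star_GG {g : Gb} (hg : g ∈ GG) (v : W) : star (g v) = g (star v) := by
  refine GG_ind (p := fun g => ∀ v, star (g v) = g (star v)) (fun B v => ?_)
    (fun A c g _ hm v => ?_) mcone_w0 (fun g _ g' _ h h' v => ?_) g hg v
  · have e : star (toR ℂ B) = toR ℂ B := by
      funext l
      simp [toR]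
    rw [star_nE, e]
  · rw [hm, hm]
    simp only [mfun, Prod.star_def, star_smul, star_mul', mcone_lin, star_ratCast]
  · rw [LinearEquiv.mul_apply, LinearEquiv.mul_apply, h, h']

theorem nrm_sub_star_eq (Z : Ix → ℂ) :
    nrm (Z - star Z) = -(8 * Complex.I) * ((nrm fun l => (Z l).im : ℝ) : ℂ) := by
  have e : Z - star Z = (2 * Complex.I) • fun l => Complex.ofRealHom (Z l).im := by
    funext l
    apply Complex.ext <;> simp
    ring
  rw [e, nrm_smul, nrm_map, mul_pow, Complex.I_pow_three, Complex.ofRealHom_eq_coe]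
  ring

/-- `sy_rr`, `sy_GamL`, `star_GG`, `act_spec`. -/
theorem nrm_im_act {γ : Gb} (hγ : γ ∈ Gam) {Z : Ix → ℂ} (hZ : Z ∈ HH) :
    nrm (fun l => (act γ Z l).im) * ‖jf γ Z‖ ^ 2 = nrm fun l => (Z l).im := by
  obtain ⟨-, -, h1⟩ := act_spec (Gam_le hγ) hZ
  have h2 := sy_GamL hγ (rr (star Z)) (rr Z)
  rw [← star_rr, ← star_GG (Gam_le hγ), h1, star_smul, sy_smul, star_rr, star_rr, sy_rr, sy_rr,
    nrm_sub_star_eq, nrm_sub_star_eq, Complex.star_def, Complex.conj_mul', mul_left_comm] at h2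
  have h3 := mul_left_cancel₀ (neg_ne_zero.2 (mul_ne_zero (by norm_num) Complex.I_ne_zero)) h2
  rw [mul_comm]
  exact_mod_cast h3

end Pool.Agent.E7
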