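import Pool.Agent.Lib.MP_7e5527_ag.EL.ME2

/-! Matrices of translations over any commutative algebra. -/

open Matrix

noncomputable section

namespace Pool.Agent.E7

variable {κ : Type} [Fintype κ] [DecidableEq κ]

open Polynomial in
/-- A matrix coefficient of the one parameter group, as a polynomial. -/
def meq (B : Ix → ℂ) (w t : (κ → Wx) → ℂ) : ℂ[X] :=
  (fun a => C (w a)) ⬝ᵥ Rp κ (NM fun l => C (B l) * X) *ᵥ fun a => C (t a)

open Polynomial in
theorem me_eval (B : Ix → ℂ) (w t : (κ → Wx) → ℂ) (c : ℂ) :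
    (meq B w t).eval c = w ⬝ᵥ Rp κ (mat (nE (c • B))) *ᵥ t := by
  have h : (Rp κ (NM fun l => C (B l) * X)).map (aeval c : ℂ[X] →ₐ[ℂ] ℂ).toRingHom =
      Rp κ (mat (nE (c • B))) := by
    rw [Rp_map, ← NM_eq]
    refine congrArg _ ((NM_map (aeval c) _).trans (congrArg _ (funext fun l => ?_)))
    rw [map_mul, aeval_C, aeval_X, mul_comm]
    rfl
  rw [← h]
  simp [meq, dotProduct, mulVec, eval_finsetSum]

theorem me_zero (B : Ix → ℂ) (w t : (κ → Wx) → ℂ) : (meq B w t).eval 0 = w ⬝ᵥ t := by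
  have h : EM (0 : Ix → ℂ) = 0 := by simp [EM]
  rw [me_eval, zero_smul, ← NM_eq, NM, h]
  simp [Rp_one]

open Polynomial in
theorem me_der (B : Ix → ℂ) (w t : (κ → Wx) → ℂ) :
    derivative (meq B w t) = meq B w (dR κ (mt (eL B)) *ᵥ t) := by
  have h := Rp_deriv (κ := κ) _ (NM_deriv (derivative' (R := ℂ)) fun l => C (B l) * X)
  have h1 : (dR κ (mt (eL B))).map (CAlgHom : ℂ →ₐ[ℂ] ℂ[X]).toRingHom =
      dR κ (EM fun l => derivative' (R := ℂ) (C (B l) * X)) := by
    rw [dR_map, ← EM_eq]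
    refine congrArg _ ((EM_map CAlgHom _).trans (congrArg _ (funext fun l => ?_)))
    simp
  have h2 : (fun a => C ((dR κ (mt (eL B)) *ᵥ t) a)) =
      (dR κ (mt (eL B))).map (CAlgHom : ℂ →ₐ[ℂ] ℂ[X]).toRingHom *ᵥ fun a => C (t a) := by
    funext a
    simp [dotProduct, mulVec]
  rw [meq, meq, h2, mulVec_mulVec, h1, ← h]
  simp [dotProduct, mulVec]

/-- The derived representation keeps the subspaces kept by the one parameter group. -/
theorem dR_stable (U : Submodule ℂ ((κ → Wx) → ℂ)) (B : Ix → ℂ)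
    (h : ∀ c : ℂ, ∀ t ∈ U, Rp κ (mat (nE (c • B))) *ᵥ t ∈ U) {t : (κ → Wx) → ℂ} (ht : t ∈ U) :
    dR κ (mt (eL B)) *ᵥ t ∈ U := by
  by_contra hn
  obtain ⟨φ, h1, h2⟩ := Submodule.exists_dual_map_eq_bot_of_notMem hn inferInstance
  have e : ∀ v, (fun a => φ fun j => if a = j then 1 else 0) ⬝ᵥ v = φ v := fun v => by
    rw [LinearMap.pi_apply_eq_sum_univ φ v, dotProduct_comm]
    rfl
  have h3 : meq B (fun a => φ fun j => if a = j then 1 else 0) t = 0 :=
    Polynomial.funext fun c => by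
      rw [me_eval, e, Polynomial.eval_zero, ← Submodule.mem_bot ℂ, ← h2]
      exact Submodule.mem_map_of_mem (h c t ht)
  refine h1 ?_
  rw [← e, ← me_zero B, ← me_der, h3, map_zero, Polynomial.eval_zero]

/-- A vector killed by the derived representation is fixed. -/
theorem Rp_fix (B : Ix → ℂ) {t : (κ → Wx) → ℂ} (h : dR κ (mt (eL B)) *ᵥ t = 0) :
    Rp κ (mat (nE B)) *ᵥ t = t := by
  refine dotProduct_eq _ _ fun w => ?_
  have h1 : Polynomial.derivative (meq B w t) = 0 := by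
    rw [me_der, h]
    simp [meq, dotProduct, mulVec]
  have h2 := me_eval B w t 1
  have h3 := me_zero B w t
  rw [Polynomial.eq_C_of_derivative_eq_zero h1, Polynomial.eval_C] at h2 h3
  rw [dotProduct_comm, dotProduct_comm t, ← h3, h2, one_smul]

end Pool.Agent.E7
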