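import Pool.Agent.Lib.MP_7e5527_ag.EL.ME1

/-! Matrices of translations over any commutative algebra. -/

open Matrix

noncomputable section

namespace Pool.Agent.E7

variable {A : Type} [CommRing A] [Algebra ℂ A]

/-- The matrix of `eL B`. -/
def EM (B : Ix → A) : Matrix Wx Wx A :=
  ∑ l, B l • (mt (eL (Pi.single l 1))).map (algebraMap ℂ A)

/-- The matrix of `nE B`. -/
def NM (B : Ix → A) : Matrix Wx Wx A :=
  1 + EM B + (1 / 2 : ℂ) • EM B ^ 2 + (1 / 6 : ℂ) • EM B ^ 3

/-- The matrix of `eL B` as a linear function of `B`. -/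
def me2L : (Ix → ℂ) →ₗ[ℂ] Matrix Wx Wx ℂ where
  toFun B := mt (eL B)
  map_add' B B' := by rw [eL_add, mt, map_add]; rfl
  map_smul' c B := by rw [eL_smul, mt, map_smul]; rfl

theorem EM_eq (B : Ix → ℂ) : EM B = mt (eL B) := by
  have h : B = ∑ l, B l • (Pi.single l 1 : Ix → ℂ) := by
    ext k
    simp [Finset.sum_apply, Pi.single_apply]
  change _ = me2L B
  conv_rhs => rw [h, map_sum]
  refine Finset.sum_congr rfl fun l _ => ?_
  rw [map_smul]
  rfl

theorem NM_eq (B : Ix → ℂ) : NM B = mat (nE B) := by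
  have h : ∀ X, mt X = LinearMap.toMatrixAlgEquiv bW X := fun _ => rfl
  rw [mat_eq, nE_eq, NM, EM_eq, h, h]
  simp only [map_add, map_one, map_smul, map_pow]

theorem EM_map {A' : Type} [CommRing A'] [Algebra ℂ A'] (φ : A →ₐ[ℂ] A') (B : Ix → A) :
    (EM B).map φ = EM fun l => φ (B l) := by
  ext a b
  simp [EM, Matrix.sum_apply]

theorem NM_map {A' : Type} [CommRing A'] [Algebra ℂ A'] (φ : A →ₐ[ℂ] A') (B : Ix → A) :
    (NM B).map φ = NM fun l => φ (B l) := by
  have hp : ∀ n, (EM B).map φ ^ n = (EM B ^ n).map φ := fun n =>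
    (Matrix.map_pow _ (φ : A →+* A') n).symm
  rw [NM, NM, ← EM_map, hp, hp]
  ext a b
  by_cases h : a = b <;> simp [h]

theorem me2_c0 (C : Ix → ℂ) : cross 0 C = 0 := by
  simpa using cross_smul_left (0 : ℂ) (0 : Ix → ℂ) C

theorem me2_t0 (C : Ix → ℂ) : tr 0 C = 0 := by
  simpa using tr_smul_left (0 : ℂ) (0 : Ix → ℂ) C

theorem me2_hom (C : Ix → ℂ) : Hom deg 1 (mt (eL C)) := by
  intro a b h
  rw [mt_apply, crd_eq]
  rcases b with ⟨⟨⟩⟩ | b | b | ⟨⟨⟩⟩
  · rw [bW_eq.1.1]
    rcases a with a | a | a | a <;> simp_all [eL_apply, r0, deg, me2_c0, me2_t0]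
  · rw [(bW_eq.2 b).1]
    rcases a with a | a | a | a <;> simp_all [eL_apply, deg, me2_t0]
  · rw [(bW_eq.2 b).2]
    rcases a with a | a | a | a <;> simp_all [eL_apply, deg, me2_c0]
  · rw [bW_eq.1.2]
    rcases a with a | a | a | a <;> simp_all [eL_apply, ee, deg, me2_c0, me2_t0]

theorem hom_EM (B : Ix → A) : Hom deg 1 (EM B) := by
  intro a b h
  simp [EM, Matrix.sum_apply, me2_hom _ a b h]

theorem EM_comm (B B' : Ix → A) : EM B * EM B' = EM B' * EM B := by
  unfold EM
  rw [Finset.sum_mul_sum, Finset.sum_mul_sum, Finset.sum_comm]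
  refine Finset.sum_congr rfl fun l _ => Finset.sum_congr rfl fun k _ => ?_
  rw [smul_mul_smul_comm, smul_mul_smul_comm, mul_comm (B k), ← Matrix.map_mul, ← Matrix.map_mul,
    ← mt_mul, ← mt_mul, eL_comm]

theorem map_deriv_mul {ι : Type} [Fintype ι] (D : Derivation ℂ A A) (X Y : Matrix ι ι A) :
    (X * Y).map D = X.map D * Y + X * Y.map D := by
  ext a b
  simp [Matrix.mul_apply, Finset.sum_add_distrib, add_comm, mul_comm]

theorem me2_deriv (D : Derivation ℂ A A) (B : Ix → A) : (EM B).map D = EM fun l => D (B l) := by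
  ext a b
  simp [EM, Matrix.sum_apply, mul_comm]

omit [Algebra ℂ A] in
theorem me2_four {X : Matrix Wx Wx A} (h : Hom deg 4 X) : X = 0 := by
  ext a b
  refine h a b ?_
  rcases a with a | a | a | a <;> simp [deg]

/-- `(EM B).map D = EM (D ∘ B)`, `EM_comm`, and `EM B ^ 3 * EM B' = 0` (it has degree four). -/
theorem NM_deriv (D : Derivation ℂ A A) (B : Ix → A) :
    (NM B).map D = NM B * EM fun l => D (B l) := by
  have h2 : (EM B ^ 2).map D = (2 : ℂ) • (EM B * EM fun l => D (B l)) := by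
    rw [pow_two, map_deriv_mul, me2_deriv, EM_comm _ B, two_smul]
  have h3 : (EM B ^ 3).map D = (3 : ℂ) • (EM B ^ 2 * EM fun l => D (B l)) := by
    rw [pow_succ', map_deriv_mul, me2_deriv, h2, pow_two, ← mul_assoc, EM_comm _ B, mul_assoc,
      EM_comm _ B, mul_smul_comm, mul_assoc]
    module
  have h4 : EM B ^ 3 * EM (fun l => D (B l)) = 0 := by
    rw [pow_three]
    exact me2_four (((hom_EM B).mul ((hom_EM B).mul (hom_EM B))).mul (hom_EM _))
  have h1 : (1 : Matrix Wx Wx A).map D = 0 := by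
    ext a b
    by_cases h : a = b <;> simp [h]
  have h5 : (NM B).map D = (1 : Matrix Wx Wx A).map D + (EM B).map D +
      (1 / 2 : ℂ) • (EM B ^ 2).map D + (1 / 6 : ℂ) • (EM B ^ 3).map D := by
    ext a b
    simp only [NM, Matrix.map_apply, Matrix.add_apply, Matrix.smul_apply, map_add, D.map_smul]
  rw [h5, h1, h2, h3, me2_deriv, NM, add_mul, add_mul, add_mul, smul_mul_assoc, smul_mul_assoc, h4,
    one_mul]
  module

end Pool.Agent.E7
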