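import Pool.Agent.Lib.MP_7e5527_ag.EL.MFr1

/-! The variation of Hodge structure along a holomorphic map. -/

open UpperHalfPlane Matrix

noncomputable section

namespace Pool.Agent.E7

variable {κ : Type} [Fintype κ] [DecidableEq κ]

theorem uZ_sub {f : ℍ → Ix → ℂ} (h : HM f) (q : ℕ) (t : (κ → Wx) → ℂ)
    (h0 : ∀ τ, ∀ r < q, sZ κ (f τ) r t = 0) :
    (∀ τ, 0 ≤ uZ κ (f τ) q t) ∧ Sub (fun τ => Real.log (1 + uZ κ (f τ) q t)) ∧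
      ((∀ τ τ', uZ κ (f τ) q t = uZ κ (f τ') q t) → ∀ τ τ', sZ κ (f τ) q t = sZ κ (f τ') q t) := by
  obtain ⟨V, e1, e2, e3⟩ := exists_vhs h
  obtain ⟨T, f1, f2, f3⟩ := V.tensor κ
  have e : ∀ r τ, T.s r t τ = sZ κ (f τ) r t := fun r τ => by
    rw [Vhs.s, f1, e1, (f3 τ).1, (f3 τ).2, (e3 τ).1, (e3 τ).2, sZ]
  have := vhs_sub T q t fun τ r hr => (e r τ).trans (h0 τ r hr)
  simp only [e, f2, e2] at this
  exact this

/-- `exists_frame` for `Pg` (`HM.strip`), `sec_map`, `Rp_map`. -/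
theorem uZ_growth {f : ℍ → Ix → ℂ} (h : HM f) (q : ℕ) (t : (κ → Wx) → ℂ) :
    ∃ (C : ℝ) (n : ℕ), ∀ σ : ℍ, |σ.re| ≤ 1 → 1 ≤ σ.im → uZ κ (f σ) q t ≤ C * σ.im ^ n := by
  obtain ⟨C, hC⟩ := h.strip
  obtain ⟨Zb, U, -, e⟩ := exists_frame Pg (f := f)
    (fun l => ⟨C, 1, fun σ h1 h2 => (norm_le_pi_norm _ l).trans (by simpa using (hC σ h1 h2).1)⟩)
    ⟨C, 3, fun σ h1 h2 => (hC σ h1 h2).2⟩
  generalize NM Zb * _ * NM U = G, NM (-U) * _ * NM (-Zb) = G' at e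
  let s : (κ → Wx) → Pg := sec (tdeg deg) (Rp κ G) (Rp κ G') q fun a => algebraMap ℂ Pg (t a)
  have hs : ∀ σ a, evS Pg σ (s a) = sZ κ (f σ) q t a := fun σ => congrFun <| by
    refine (sec_map (evS Pg σ : Pg →+* ℂ) _ _ _ _ _).trans ?_
    rw [Rp_map, Rp_map, sZ, ← (e σ).1, ← (e σ).2]
    simp only [RingHom.coe_coe, AlgHom.commutes]
    rfl
  obtain ⟨D, n, hD⟩ := ((-1) ^ q * (star s ⬝ᵥ (Rp κ QW).map (algebraMap ℂ Pg) *ᵥ s) : Pg).2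
  refine ⟨D, n, fun σ h1 h2 => le_trans ?_ (hD σ h1 h2)⟩
  refine (Complex.re_le_norm _).trans (le_of_eq (congrArg _ ?_))
  rw [← evS_apply]
  simp only [dotProduct, mulVec, map_mul, map_pow, map_neg, map_one, map_sum, Pi.star_apply,
    evS_star, hs, map_apply, AlgHom.commutes, Algebra.algebraMap_self, RingHom.id_apply]

theorem sZ_act {γ : Gb} (h : γ ∈ GG) {Z : Ix → ℂ} (hZ : Z ∈ HH) (q : ℕ) (t : (κ → Wx) → ℂ) :
    sZ κ (act γ Z) q (Rp κ (mat γ) *ᵥ t) = Rp κ (mat γ) *ᵥ sZ κ Z q t := by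
  refine sec_equiv _ (by rw [← Rp_mul, mat_mul_inv, Rp_one]) (by rw [← Rp_mul, mat_mul_inv, Rp_one])
    ?_ q t
  rw [← Rp_mul, ← Rp_mul]
  exact (gZ_equiv h hZ).Rp

theorem uZ_act {γ : Gb} (h : γ ∈ Gam) {Z : Ix → ℂ} (hZ : Z ∈ HH) (q : ℕ) {t : (κ → Wx) → ℂ}
    {c : ℂ} (hc : c = 1 ∨ c = -1) (ht : Rp κ (mat γ) *ᵥ t = c • t) :
    uZ κ (act γ Z) q t = uZ κ Z q t := by
  have e := sZ_act (Gam_le h) hZ q t
  rw [ht, sZ, sec_smul, ← sZ] at e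
  have e1 : hn (Rp κ QW) q (Rp κ (mat γ) *ᵥ sZ κ Z q t) = uZ κ Z q t := by
    rw [hn, star_mulVec, mulVec_mulVec, ← dotProduct_mulVec, mulVec_mulVec, Rp_star, ← Rp_mul,
      ← Rp_mul, ← mul_assoc, QW_Gam h]
    rfl
  rw [← e1, ← e, uZ, hn, hn]
  rcases hc with rfl | rfl
  · rw [one_smul]
  · rw [neg_one_smul, star_neg, mulVec_neg, neg_dotProduct, dotProduct_neg, neg_neg]

/-- `mat_dE'`, `Rp_diagonal`, `sum_pr`. -/
theorem hg_sum (Z : Ix → ℂ) (z : ℂˣ) : ∃ (s : Finset ℕ) (c : ℕ → ℂ), ∀ t : (κ → Wx) → ℂ,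
    Rp κ (mat (hg Z z)) *ᵥ t = ∑ q ∈ s, c q • sZ κ Z q t := by
  let c : ℕ → ℂ := fun q => ((z : ℂ) ^ 3) ^ Fintype.card κ * (((star z : ℂˣ) : ℂ) / z) ^ q
  have e : Rp κ (mat (dE z (star z))) = diagonal fun a => c (tdeg deg a) := by
    rw [mat_dE', Rp_diagonal]
    simp only [c, tdeg, Finset.prod_mul_distrib, Finset.prod_const, Finset.card_univ,
      Finset.prod_pow_eq_pow_sum]
  refine ⟨Finset.univ.image (tdeg deg : (κ → Wx) → ℕ), c, fun t => ?_⟩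
  rw [hg, mat_mul, mat_mul, Rp_mul, Rp_mul, e, sum_pr, ← mulVec_mulVec, ← mulVec_mulVec,
    sum_mulVec, mulVec_sum]
  simp only [smul_mulVec, mulVec_smul, sZ, sec]

end Pool.Agent.E7
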