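import Pool.Agent.Lib.MP_7e5527_ag.EL.MVh2

/-! The curvature computation for a polarised variation of Hodge structure on the half plane. -/

open UpperHalfPlane Matrix
open scoped ComplexOrder

noncomputable section

namespace Pool.Agent.E7

variable {ι : Type} [Fintype ι] [DecidableEq ι]

theorem mvhs_log {u : SmH} {n : ℍ → ℝ} (hu : ∀ τ, u.1 τ = n τ) (h0 : ∀ τ, 0 ≤ n τ)
    (h : ∀ τ, ‖(D2 u).1 τ‖ ^ 2 ≤ (1 + n τ) * ((D1 (D2 u)).1 τ).re) :
    Sub fun τ => Real.log (1 + n τ) := by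
  have e : ∀ τ, (1 + u).1 τ = ((1 + n τ : ℝ) : ℂ) := fun τ => by
    rw [Complex.ofReal_add, ← hu]
    rfl
  obtain ⟨L, hL, h1, h2⟩ := exists_logSm (φ := 1 + u) fun τ => by
    rw [e, Complex.ofReal_re, Complex.ofReal_im]
    exact ⟨by linarith [h0 τ], rfl⟩
  refine ⟨L, fun τ => by rw [hL, e, Complex.ofReal_re], fun τ => ?_⟩
  have su : star u = u := Subtype.ext (funext fun σ => by
    change star (u.1 σ) = u.1 σ
    rw [hu, Complex.star_def, Complex.conj_ofReal])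
  have h3 := congrArg D1 h2
  rw [map_add, Derivation.map_one_eq_zero, zero_add] at h1 h2
  rw [Derivation.leibniz, map_add, map_add, Derivation.map_one_eq_zero,
    Derivation.map_one_eq_zero, zero_add, zero_add, smul_eq_mul, smul_eq_mul] at h3
  have h4 : (1 + u) ^ 2 * D1 (D2 L) = (1 + u) * D1 (D2 u) - D2 u * star (D2 u) := by
    rw [star_D2, su]
    linear_combination (1 + u) * h3 - D1 u * h2
  have h5 := congrArg (fun φ => (evS SmH τ φ).re) h4
  simp only [map_mul, map_sub, map_pow, evS_star] at h5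
  simp only [evS_apply, e, Complex.star_def, Complex.mul_conj, ← Complex.ofReal_pow,
    Complex.re_ofReal_mul, Complex.sub_re, Complex.ofReal_re, ← Complex.sq_norm] at h5
  refine nonneg_of_mul_nonneg_right (h5.ge.trans' (sub_nonneg.2 (h τ))) ?_
  exact pow_pos (by linarith [h0 τ]) 2

/-- `exists_logSm` for `w = 1 + u`: `w ^ 2 D1 D2 L = w D1 D2 u - D1 u D2 u`, `D1 u = star (D2 u)`. -/
theorem vhs_sub (V : Vhs ι) (q : ℕ) (t : ι → ℂ) (h : ∀ τ, ∀ r < q, V.s r t τ = 0) :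
    (∀ τ, 0 ≤ hn V.Q q (V.s q t τ)) ∧ Sub (fun τ => Real.log (1 + hn V.Q q (V.s q t τ))) ∧
      ((∀ τ τ', hn V.Q q (V.s q t τ) = hn V.Q q (V.s q t τ')) →
        ∀ τ τ', V.s q t τ = V.s q t τ') := by
  obtain ⟨u, s, α, β, hs, hu, h0, hc, ha, hb⟩ := vhs_curv V q t h
  refine ⟨h0, mvhs_log hu h0 fun τ => ?_, fun k τ τ' => ?_⟩
  · obtain ⟨a, b, c, d⟩ := hc τ
    rw [c, Complex.ofReal_re]
    nlinarith [mul_nonneg (h0 τ) a]
  · have z := (D_of_const (φ := u) fun σ σ' => by rw [hu, hu, k σ σ']).2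
    have e : ∀ σ, α σ = 0 ∧ β σ = 0 := fun σ => by
      obtain ⟨a, b, c, -⟩ := hc σ
      rw [z, map_zero] at c
      exact (add_eq_zero_iff_of_nonneg a b).1 (Complex.ofReal_eq_zero.1 c.symm)
    rw [← hs, ← hs]
    exact funext fun a => const_of_D (Subtype.ext (funext fun σ => ha σ (e σ).1 a))
      (Subtype.ext (funext fun σ => hb σ (e σ).2 a)) τ τ'

end Pool.Agent.E7
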