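import Pool.Agent.Lib.MP_7e5527_ag.EL.MQ
import Pool.Agent.Lib.MP_7e5527_ag.EL.MSP
import Pool.Agent.Lib.MP_7e5527_ag.EL.MVhs

/-! The variation of Hodge structure along a holomorphic map. -/

open UpperHalfPlane Matrix

noncomputable section

namespace Pool.Agent.E7

/-- The part of degree `q` of a tensor for the Hodge structure of `Z`. -/
def sZ (κ : Type) [Fintype κ] [DecidableEq κ] (Z : Ix → ℂ) (q : ℕ) (t : (κ → Wx) → ℂ) :
    (κ → Wx) → ℂ :=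
  sec (tdeg deg) (Rp κ (mat (gZ Z))) (Rp κ (mat (gZ Z)⁻¹)) q t

/-- Its norm. -/
def uZ (κ : Type) [Fintype κ] [DecidableEq κ] (Z : Ix → ℂ) (q : ℕ) (t : (κ → Wx) → ℂ) : ℝ :=
  hn (Rp κ QW) q (sZ κ Z q t)

/-- Functions of polynomial growth in the strip. -/
def Pg : StarSubalgebra ℂ (ℍ → ℂ) where
  carrier := {φ | ∃ (C : ℝ) (n : ℕ), ∀ σ : ℍ, |σ.re| ≤ 1 → 1 ≤ σ.im → ‖φ σ‖ ≤ C * σ.im ^ n}
  mul_mem' := by
    rintro φ ψ ⟨C, n, h⟩ ⟨D, m, k⟩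
    refine ⟨C * D, n + m, fun σ h1 h2 => ?_⟩
    rw [Pi.mul_apply, norm_mul, pow_add, mul_mul_mul_comm]
    exact mul_le_mul (h σ h1 h2) (k σ h1 h2) (norm_nonneg _) ((norm_nonneg _).trans (h σ h1 h2))
  add_mem' := by
    rintro φ ψ ⟨C, n, h⟩ ⟨D, m, k⟩
    refine ⟨|C| + |D|, n + m, fun σ h1 h2 => ?_⟩
    have e : ∀ (C : ℝ) (a : ℕ), a ≤ n + m → C * σ.im ^ a ≤ |C| * σ.im ^ (n + m) := fun C a ha =>
      mul_le_mul (le_abs_self C) (pow_le_pow_right₀ h2 ha) (pow_nonneg σ.im_pos.le a) (abs_nonneg C)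
    rw [add_mul]
    exact (norm_add_le _ _).trans (add_le_add ((h σ h1 h2).trans (e C n le_self_add))
      ((k σ h1 h2).trans (e D m le_add_self)))
  algebraMap_mem' c := ⟨‖c‖, 0, fun σ _ _ => by simp⟩
  star_mem' := by
    rintro φ ⟨C, n, h⟩
    exact ⟨C, n, fun σ h1 h2 => (norm_star (φ σ)).trans_le (h σ h1 h2)⟩

/-- `G = NM Zb * w * NM U`, `G' = NM (-U) * w⁻¹ * NM (-Zb)` with `Zb = star f` and
`U = inv (f - star f)` (`sharp_map`, `NM_map`, `NM_eq`). -/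
theorem exists_frame (𝓑 : StarSubalgebra ℂ (ℍ → ℂ)) {f : ℍ → Ix → ℂ}
    (hZ : ∀ l, (fun τ => f τ l) ∈ 𝓑) (hN : (fun τ => (nrm (f τ - star (f τ)))⁻¹) ∈ 𝓑) :
    ∃ Zb U : Ix → 𝓑, (∀ l τ, (Zb l).1 τ = star (f τ l)) ∧ ∀ τ,
      mv (NM Zb * (mat wE).map (algebraMap ℂ 𝓑) * NM U) τ = mat (gZ (f τ)) ∧
      mv (NM (-U) * (mat wE⁻¹).map (algebraMap ℂ 𝓑) * NM (-Zb)) τ = mat (gZ (f τ))⁻¹ := by
  let Z : Ix → 𝓑 := fun l => ⟨_, hZ l⟩
  let N : 𝓑 := ⟨_, hN⟩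
  refine ⟨star Z, -N • sharp (Z - star Z), fun _ _ => rfl, fun τ => ?_⟩
  have e0 : ∀ M : Matrix Wx Wx ℂ, (M.map (algebraMap ℂ 𝓑)).map (evS 𝓑 τ) = M := fun M =>
    Matrix.ext fun a b => (evS 𝓑 τ).commutes (M a b)
  have e1 : (fun l => evS 𝓑 τ ((-N • sharp (Z - star Z)) l)) = inv (f τ - star (f τ)) := by
    have e := sharp_map (evS 𝓑 τ).toRingHom (Z - star Z)
    funext l
    exact congrArg (-(nrm (f τ - star (f τ)))⁻¹ * ·) (congrFun e l).symm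
  have e2 : (fun l => evS 𝓑 τ (star Z l)) = star (f τ) := rfl
  have e3 : ∀ B : Ix → 𝓑, (fun l => evS 𝓑 τ ((-B) l)) = -fun l => evS 𝓑 τ (B l) := fun _ => rfl
  simp only [mv, Matrix.map_mul, NM_map, e0, e3, e1, e2, NM_eq, ← mat_mul]
  exact ⟨rfl, by rw [gZ, nE_neg, nE_neg, _root_.mul_inv_rev, _root_.mul_inv_rev, mul_assoc]⟩

/-- `D1 Zb = 0` (`star_D2`, `D2_hol`), so `G.map D1 = G * EM (D1 ∘ U)`. -/
theorem exists_vhs {f : ℍ → Ix → ℂ} (h : HM f) : ∃ V : Vhs Wx, V.deg = deg ∧ V.Q = QW ∧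
    ∀ τ, mv V.G τ = mat (gZ (f τ)) ∧ mv V.G' τ = mat (gZ (f τ))⁻¹ := by
  have hd : ∀ l, DifferentiableOn ℂ ((fun τ => f τ l) ∘ ofComplex) {z | 0 < z.im} :=
    differentiableOn_pi.1 h.hol
  let Z : Ix → SmH := fun l => ⟨_, hol_mem (hd l)⟩
  have hn : (fun τ => nrm (f τ - star (f τ))) = (nrm (Z - star Z)).1 :=
    funext fun τ => nrm_map (evS SmH τ).toRingHom (Z - star Z)
  obtain ⟨Zb, U, h1, h2⟩ := exists_frame SmH (fun l => (Z l).2)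
    (inv_mem_Sm (hn ▸ (nrm (Z - star Z)).2) fun τ => nrm_sub_star (h.mem τ))
  have e1 : (fun l => D1 (Zb l)) = 0 := funext fun l => by
    rw [show Zb l = star (Z l) from Subtype.ext (funext (h1 l)), ← star_D2, D2_hol (hd l)]
    exact star_zero _
  have e2 : ((mat wE).map (algebraMap ℂ SmH)).map D1 = 0 :=
    Matrix.ext fun a b => D1.map_algebraMap _
  have e3 : EM (0 : Ix → SmH) = 0 := by simp [EM]
  refine ⟨⟨deg, _, _, EM fun l => D1 (U l), QW, ?_, ?_, hom_EM _, QW_herm, fun τ => ?_,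
    fun τ => ?_⟩, rfl, rfl, h2⟩
  · refine Matrix.ext fun a b => Subtype.ext (funext fun τ => ?_)
    have e := mat_mul_inv (gZ (f τ))
    rw [← (h2 τ).1, ← (h2 τ).2, mv, mv, ← Matrix.map_mul,
      ← Matrix.map_one (evS SmH τ) (map_zero _) (map_one _)] at e
    exact congrFun (congrFun e a) b
  · rw [map_deriv_mul, map_deriv_mul, NM_deriv, NM_deriv, e1, e2, e3]
    simp only [mul_zero, zero_mul, zero_add, mul_assoc]
  · rw [(h2 τ).1]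
    exact HW_blk (h.mem τ)
  · rw [(h2 τ).1]
    exact HW_pos (h.mem τ)

end Pool.Agent.E7
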