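import Pool.Agent.Lib.MP_7e5527_ag.EL.MT
import Pool.Agent.Lib.MP_7e5527_ag.EL.SC1a
import Pool.Agent.Lib.MP_7e5527_ag.EL.SC3

/-! The Lie algebra of vector fields tangent to the cone; invariant subspaces. -/

open Matrix

noncomputable section

namespace Pool.Agent.E7

/-- Conjugation. -/
def AdL (g : Gb) (X : W →ₗ[ℂ] W) : W →ₗ[ℂ] W := (g : W →ₗ[ℂ] W) * X * (g⁻¹ : Gb)

/-- Endomorphisms tangent to the cone. -/
def Lg : Submodule ℂ (W →ₗ[ℂ] W) where
  carrier := {X | ∀ Z, (nE (-Z) (X (rr Z))).2.2 = 0}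
  add_mem' := fun h h' Z => by
    rw [LinearMap.add_apply, map_add, Prod.snd_add, Prod.snd_add, h Z, h' Z, add_zero]
  zero_mem' := fun Z => by simp
  smul_mem' := fun c X h Z => by
    rw [LinearMap.smul_apply, map_smul, Prod.smul_snd, Prod.smul_snd, h Z, smul_zero]

theorem mt_Ad (g : Gb) (X : W →ₗ[ℂ] W) : mt (AdL g X) = mat g * mt X * mat g⁻¹ := by
  rw [AdL, mt_mul, mt_mul, mat_eq, mat_eq]

theorem trace_Ad (g : Gb) (X : W →ₗ[ℂ] W) : (mt (AdL g X)).trace = (mt X).trace := by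
  rw [mt_Ad, trace_mul_comm, ← Matrix.mul_assoc, mat_inv_mul, Matrix.one_mul]

theorem eL_mem (B : Ix → ℂ) : eL B ∈ Lg := fun Z => by
  simp only [eL_apply, rr, nE_apply, nfun, one_smul, zero_smul, zero_mul, add_zero, cross_neg_right,
    tr_neg_right, sharp_neg, cross_comm B Z, add_neg_cancel, Prod.mk_eq_zero, true_and]
  rw [cross_comm, tr_cross, cross_self, tr_smul_right, tr_comm B]
  ring

/-- Conjugate by `wE` and use `stab_fst`, `stab_snd`. -/
theorem stab_low {g : Gb} (hg : g ∈ GE) {s : ℂ} (h : g r0 = s • r0) {v : W} (hv : v.2.2 = 0) :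
    (g v).2.2 = 0 := by
  have hk : wE⁻¹ * g * wE ∈ GE := mul_mem (mul_mem (inv_mem wE_mem_GE) hg) wE_mem_GE
  have he : (wE⁻¹ * g * wE) ee = s • ee := by
    rw [LinearEquiv.mul_apply, LinearEquiv.mul_apply, wE_ee, h, map_smul, ← wE_ee]
    exact congrArg _ (wE.symm_apply_apply ee)
  have h1 := (stab_fst hk he).2 (0, 0, -v.2.1, 0)
  have h2 := stab_snd hk he (-v.2.1)
  have e : wE (0, 0, -v.2.1, 0) = (0, v.2.1, 0, 0) := by simp [tube1_wE_apply]
  simp only [LinearEquiv.mul_apply, e, tube1_wE_inv_apply, mul_zero, neg_eq_zero] at h1 h2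
  have e' : v = v.1 • r0 + (0, v.2.1, 0, 0) := by
    obtain ⟨a, b, c⟩ := v
    obtain rfl : c = 0 := hv
    simp [r0, Prod.ext_iff]
  rw [e', map_add, map_smul, h]
  simp [r0, Prod.ext_iff, h1, h2]

theorem ml1_crd (φ : W →ₗ[ℂ] ℂ) (v : W) : φ v = ∑ a, crd v a * φ (bW a) := by
  conv_lhs => rw [← bW.sum_repr v]
  simp only [map_sum, map_smul, smul_eq_mul, crd]

theorem ml1_neg (φ : W →ₗ[ℂ] ℂ) : PolyFn fun Z => φ (rr (-Z)) := by
  obtain ⟨P, hP⟩ := polyFn_rr φ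
  refine ⟨MvPolynomial.aeval (fun l => -MvPolynomial.X l) P, fun Z => ?_⟩
  refine (hP (-Z)).trans ?_
  clear hP
  induction P using MvPolynomial.induction_on with
  | C c => simp
  | add P Q h1 h2 => simp only [map_add, h1, h2]
  | mul_X P l h1 => simp [h1]

theorem ml1_poly (φ : W →ₗ[ℂ] ℂ) (w : W) : PolyFn fun Z => φ (nE (-Z) w) := by
  let L : W →ₗ[ℂ] W :=
    { toFun := fun u => (u.1 * w.1, u.1 • w.2.1 + w.1 • u.2.1,
        u.1 • w.2.2.1 + cross w.2.1 u.2.1 + w.1 • u.2.2.1,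
        u.1 * w.2.2.2 + tr w.2.2.1 u.2.1 + tr w.2.1 u.2.2.1 + w.1 * u.2.2.2)
      map_add' := fun u u' => by
        simp only [Prod.fst_add, Prod.snd_add, cross_add_right, tr_add_right, Prod.mk_add_mk,
          Prod.mk.injEq]
        exact ⟨by ring, by module, by module, by ring⟩
      map_smul' := fun c u => by
        simp only [Prod.smul_fst, Prod.smul_snd, cross_smul_right, tr_smul_right, Prod.smul_mk,
          smul_eq_mul, RingHom.id_apply, Prod.mk.injEq]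
        exact ⟨by ring, by module, by module, by ring⟩ }
  have e : ∀ B, nE B w = L (rr B) := fun B => by simp [L, rr, nE_apply, nfun]
  simp only [e]
  exact ml1_neg (φ.comp L)

theorem ml1_poly' (φ : W →ₗ[ℂ] ℂ) (Y : W →ₗ[ℂ] W) : PolyFn fun Z => φ (nE (-Z) (Y (rr Z))) := by
  have e : ∀ Z, φ (nE (-Z) (Y (rr Z))) =
      ∑ a, (bW.coord a ∘ₗ Y) (rr Z) * φ (nE (-Z) (bW a)) := fun Z =>
    ml1_crd (φ.comp (nE (-Z)).toLinearMap) _
  simp only [e]
  exact PolyFn.sum _ fun a _ => (polyFn_rr _).mul (ml1_poly φ _)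

theorem ml1_dense {f j : (Ix → ℂ) → ℂ} (hf : PolyFn f) (hj : PolyFn j) (h0 : ¬ ∀ Z, j Z = 0)
    (h : ∀ Z, j Z ≠ 0 → f Z = 0) (Z : Ix → ℂ) : f Z = 0 := by
  obtain ⟨P, hP⟩ := hf
  obtain ⟨Q, hQ⟩ := hj
  have e : P * Q = 0 := MvPolynomial.funext fun Z => by
    rw [map_mul, ← hP, ← hQ, map_zero]
    by_cases h1 : j Z = 0
    · rw [h1, mul_zero]
    · rw [h Z h1, zero_mul]
  rcases mul_eq_zero.1 e with e | e
  · rw [hP, e, map_zero]
  · exact absurd (fun Z => by rw [hQ, e, map_zero]) h0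

/-- If `j = (g⁻¹ (rr Z)).1 ≠ 0` then `g⁻¹ (rr Z) = j • rr Z'` (`Cn_map`, `CnW.eq_rr`) and
`nE (-Z) * g * nE Z'` fixes the first axis. The coordinates of `nE (-Z) (Y (rr Z))` are polynomial
in `Z`, and `j` is a non zero polynomial (`eq_zero_of_rr`). -/
theorem Ad_mem {g : Gb} (hg : g ∈ GE) {X : W →ₗ[ℂ] W} (hX : X ∈ Lg) : AdL g X ∈ Lg := by
  intro Z
  let j : W →ₗ[ℂ] ℂ := LinearMap.fst ℂ ℂ _ ∘ₗ (g⁻¹ : Gb).toLinearMap
  have e1 : ∀ v, g (g⁻¹ v) = v := g.apply_symm_apply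
  have h0 : ¬ ∀ Z, j (rr Z) = 0 := fun h => by
    have h1 := LinearMap.congr_fun (eq_zero_of_rr j fun Z _ => h Z) (g r0)
    have h2 : j (g r0) = r0.1 := congrArg Prod.fst (g.symm_apply_apply r0)
    rw [h2] at h1
    simp [r0] at h1
  refine (Module.forall_dual_apply_eq_zero_iff ℂ _).1 fun ψ => ?_
  refine ml1_dense (ml1_poly' (ψ ∘ₗ LinearMap.snd ℂ _ _ ∘ₗ LinearMap.snd ℂ _ _) (AdL g X))
    (polyFn_rr j) h0 (fun Z hZ => ?_) Z
  obtain ⟨c, Z', hc, he⟩ : ∃ (c : ℂ) (Z' : Ix → ℂ), c ≠ 0 ∧ g⁻¹ (rr Z) = c • rr Z' :=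
    ⟨_, _, hZ, CnW.eq_rr (Cn_map (inv_mem hg) (rr_mem_Cn Z)) hZ⟩
  have hk : nE (-Z) * g * nE Z' ∈ GE := mul_mem (mul_mem (nE_mem_GE _) hg) (nE_mem_GE _)
  have h3 : g (rr Z') = c⁻¹ • rr Z := by
    rw [← e1 (rr Z), he, map_smul, inv_smul_smul₀ hc]
  have h4 : (nE (-Z) * g * nE Z') r0 = c⁻¹ • r0 := by
    rw [LinearEquiv.mul_apply, LinearEquiv.mul_apply, ← rr_zero, nE_rr, zero_add, h3, map_smul,
      nE_rr, add_neg_cancel]
  have h5 := stab_low hk h4 (hX Z')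
  have h6 : nE Z' (nE (-Z') (X (rr Z'))) = X (rr Z') := by
    rw [← LinearEquiv.mul_apply, ← nE_add, add_neg_cancel, nE_zero]; rfl
  rw [LinearEquiv.mul_apply, LinearEquiv.mul_apply, h6] at h5
  change ψ (nE (-Z) (g (X (g⁻¹ (rr Z))))).2.2 = 0
  rw [he, map_smul, map_smul, map_smul, Prod.smul_snd, Prod.smul_snd, h5, smul_zero, map_zero]

theorem ml1_r0 (b : Wx) : crd r0 b = if b = .inl () then 1 else 0 := by
  rw [crd_eq]
  rcases b with b | b | b | b <;> simp [r0]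

/-- An element of `Lg` that raises the degree is a translation (`ext_rr`). -/
theorem eq_eL {X : W →ₗ[ℂ] W} (hX : X ∈ Lg) (h : ∀ a b, deg a ≤ deg b → mt X a b = 0) :
    X = eL (X r0).2.1 := by
  have h1 : ∀ v, (X v).1 = 0 := fun v => by
    have e := congrFun (mt_crd X v) (.inl ())
    rw [crd_eq (X v), mulVec, dotProduct, Finset.sum_eq_zero fun b _ => by
      rw [h _ b (Nat.zero_le _), zero_mul]] at e
    exact e.symm
  have h2 : ∀ v, (X v).2.1 = v.1 • (X r0).2.1 := fun v => funext fun l => by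
    have e : ∀ v, (X v).2.1 l = mt X (.inr (.inl l)) (.inl ()) * v.1 := fun v => by
      have e := congrFun (mt_crd X v) (.inr (.inl l))
      rw [crd_eq (X v), mulVec, dotProduct, Finset.sum_eq_single (.inl ()) (fun b _ hb => by
        rw [h _ b, zero_mul]
        rcases b with b | b | b | b
        · exact absurd rfl hb
        all_goals simp [deg]) (by simp), crd_eq] at e
      exact e.symm
    rw [Pi.smul_apply, e, e r0, smul_eq_mul, mul_comm]
    simp [r0]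
  refine ext_rr _ _ fun Z _ => ?_
  have e : nE (-Z) (X (rr Z)) = nE (-Z) (eL (X r0).2.1 (rr Z)) := by
    refine Prod.ext ?_ (Prod.ext ?_ ((hX Z).trans (eL_mem _ Z).symm))
    · exact h1 _
    · simp only [nE_apply, nfun, h1, h2 (rr Z), eL_apply]
  exact (nE (-Z)).injective e

end Pool.Agent.E7
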