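import Pool.Agent.Lib.MP_7e5527_ag.EL.ML1

/-! The Lie algebra of vector fields tangent to the cone; invariant subspaces. -/

open Matrix

noncomputable section

namespace Pool.Agent.E7

theorem ml2_ext {X Y : W →ₗ[ℂ] W} (h : ∀ a b, mt X a b = mt Y a b) : X = Y :=
  (LinearMap.toMatrix bW bW).injective (Matrix.ext h)

theorem ml2_add (X Y : W →ₗ[ℂ] W) (a b : Wx) : mt (X + Y) a b = mt X a b + mt Y a b :=
  congrFun₂ (map_add (LinearMap.toMatrix bW bW) X Y) a b

theorem ml2_smul (c : ℂ) (X : W →ₗ[ℂ] W) (a b : Wx) : mt (c • X) a b = c * mt X a b :=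
  congrFun₂ (map_smul (LinearMap.toMatrix bW bW) c X) a b

theorem ml2_deg (a : Wx) : deg a ≤ 3 := by rcases a with _ | _ | _ | _ <;> simp [deg]

/-- The parts that raise, keep, lower the degree stay in a space stable under the torus: the entry
`a b` of `t ^ 3 • AdL (dE 1 t) X` is `t ^ (3 + deg a - deg b)` times that of `X`; `coeff_mem`. -/
theorem exists_parts (N : Submodule ℂ (W →ₗ[ℂ] W)) (h : ∀ s t, ∀ X ∈ N, AdL (dE s t) X ∈ N)
    {X : W →ₗ[ℂ] W} (hX : X ∈ N) : ∃ P ∈ N, ∃ O ∈ N, ∃ M ∈ N, X = P + O + M ∧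
      (∀ a b, deg a ≤ deg b → mt P a b = 0) ∧ Hom deg 0 (mt O) ∧
      ∀ a b, deg b ≤ deg a → mt M a b = 0 := by
  obtain ⟨v, hv⟩ : ∃ v : ℕ → W →ₗ[ℂ] W, ∀ k a b,
      mt (v k) a b = if 3 + deg a = k + deg b then mt X a b else 0 :=
    ⟨fun k => (LinearMap.toMatrix bW bW).symm
      (of fun a b => if 3 + deg a = k + deg b then mt X a b else 0),
      fun k a b => congrFun₂ ((LinearMap.toMatrix bW bW).apply_symm_apply _) a b⟩
  have hm : ∀ k < 7, v k ∈ N := fun k hk => coeff_mem N 7 v (fun t ht => by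
    have e : ∑ k ∈ Finset.range 7, t ^ k • v k = t ^ 3 • AdL (dE 1 (Units.mk0 t ht)) X :=
      ml2_ext fun a b => by
        have h1 := ml2_deg a
        have h2 := ml2_deg b
        simp only [Finset.sum_range_succ, Finset.sum_range_zero, zero_add, ml2_add, ml2_smul, hv,
          mt_Ad, dE_inv, mat_dE', mul_diagonal, diagonal_mul, inv_one, Units.val_one, one_pow,
          div_one, one_mul, Units.val_inv_eq_inv_val, Units.val_mk0]
        generalize deg a = i at *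
        generalize deg b = j at *
        interval_cases i <;> interval_cases j <;> simp [ht] <;> field_simp
    exact e ▸ N.smul_mem _ (h _ _ X hX)) hk
  refine ⟨v 4 + v 5 + v 6, N.add_mem (N.add_mem (hm 4 (by decide)) (hm 5 (by decide)))
    (hm 6 (by decide)), v 3, hm 3 (by decide), v 0 + v 1 + v 2,
    N.add_mem (N.add_mem (hm 0 (by decide)) (hm 1 (by decide))) (hm 2 (by decide)),
    ml2_ext fun a b => ?_, fun a b hab => ?_, fun a b hab => ?_, fun a b hab => ?_⟩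
  · have h1 := ml2_deg a
    have h2 := ml2_deg b
    simp only [ml2_add, hv]
    generalize deg a = i at *
    generalize deg b = j at *
    interval_cases i <;> interval_cases j <;> simp
  · rw [ml2_add, ml2_add, hv, hv, hv, if_neg (by omega), if_neg (by omega), if_neg (by omega),
      add_zero, add_zero]
  · rw [hv, if_neg (by omega)]
  · rw [ml2_add, ml2_add, hv, hv, hv, if_neg (by omega), if_neg (by omega), if_neg (by omega),
      add_zero, add_zero]

theorem ml2_nE (t : ℂ) (B : Ix → ℂ) : (nE (t • B) : W →ₗ[ℂ] W) =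
    1 + t • eL B + t ^ 2 • (1 / 2 : ℂ) • eL B ^ 2 + t ^ 3 • (1 / 6 : ℂ) • eL B ^ 3 := by
  rw [nE_eq, eL_smul, smul_pow, smul_pow, smul_comm (t ^ 2), smul_comm (t ^ 3)]

/-- The coefficient of degree one of `AdL (nE (t • B)) X` (`nE_eq`, `coeff_mem`). -/
theorem ad_mem (N : Submodule ℂ (W →ₗ[ℂ] W)) (h : ∀ B, ∀ X ∈ N, AdL (nE B) X ∈ N)
    {X : W →ₗ[ℂ] W} (hX : X ∈ N) (B : Ix → ℂ) : eL B * X - X * eL B ∈ N := by
  have key : ∀ t : ℂ, AdL (nE (t • B)) X ∈ N := fun t => h _ X hX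
  simp only [AdL, ← nE_neg, ← neg_smul, ml2_nE] at key
  generalize (1 / 2 : ℂ) • eL B ^ 2 = F at key
  generalize (1 / 6 : ℂ) • eL B ^ 3 = G at key
  generalize eL B = E at key ⊢
  refine coeff_mem N 7 (fun k => [X, E * X - X * E, F * X - E * X * E + X * F,
    G * X - F * X * E + E * X * F - X * G, F * X * F - G * X * E - E * X * G,
    G * X * F - F * X * G, -(G * X * G)].getD k 0) (fun t _ => ?_) (k := 1) (by decide)
  refine (congrArg (· ∈ N) ?_).mp (key t)
  simp only [Finset.sum_range_succ, Finset.sum_range_zero, List.getD_cons_zero, List.getD_cons_succ,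
    mul_add, add_mul, smul_mul_assoc, mul_smul_comm, one_mul, mul_one]
  module

theorem Ad_wE_low {X : W →ₗ[ℂ] W} (h : ∀ a b, deg b ≤ deg a → mt X a b = 0) (a b : Wx)
    (hab : deg a ≤ deg b) : mt (AdL wE X) a b = 0 := by
  obtain ⟨⟨e0, e3⟩, e⟩ := bW_eq
  obtain ⟨b', c, h1, h2⟩ : ∃ (b' : Wx) (c : ℂ), deg b' + deg b = 3 ∧
      wE.symm (bW b) = c • bW b' := by
    rcases b with _ | l | l | _
    · exact ⟨.inr (.inr (.inr ())), 1, rfl, by rw [e0, e3]; simp [wE, r0, ee]⟩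
    · exact ⟨.inr (.inr (.inl l)), -1, rfl, by rw [(e l).1, (e l).2]; simp [wE]⟩
    · exact ⟨.inr (.inl l), 1, rfl, by rw [(e l).1, (e l).2]; simp [wE]⟩
    · exact ⟨.inl (), -1, rfl, by rw [e0, e3]; simp [wE, r0, ee]⟩
  obtain ⟨a', d, h3, h4⟩ : ∃ (a' : Wx) (d : ℂ), deg a' + deg a = 3 ∧
      ∀ v, crd (wE v) a = d * crd v a' := by
    rcases a with _ | l | l | _
    · exact ⟨.inr (.inr (.inr ())), 1, rfl, fun v => by simp [crd_eq, wE]⟩
    · exact ⟨.inr (.inr (.inl l)), -1, rfl, fun v => by simp [crd_eq, wE]⟩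
    · exact ⟨.inr (.inl l), 1, rfl, fun v => by simp [crd_eq, wE]⟩
    · exact ⟨.inl (), -1, rfl, fun v => by simp [crd_eq, wE]⟩
  rw [mt_apply]
  show crd (wE (X (wE.symm (bW b)))) a = 0
  rw [h2, h4, map_smul, crd_smul, Pi.smul_apply, ← mt_apply, h a' b' (by omega), smul_zero,
    mul_zero]

/-- `g * nE (t • B) * g⁻¹ = nE (t • A B)`; compare the terms of degree one in `t`. -/
theorem Lv.Ad_eL {A : JE} {g : Gb} (h : Lv A g) (B : Ix → ℂ) : AdL g (eL B) = eL (A B) := by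
  have key : ∀ t : ℂ, AdL g (nE (t • B)) = nE (t • A B) := fun t =>
    map_smul A t B ▸ congrArg LinearEquiv.toLinearMap (h.conj_nE (t • B))
  simp only [AdL, ml2_nE] at key
  refine sub_eq_zero.1 ((Submodule.mem_bot ℂ).1 (coeff_mem ⊥ 4 (fun k => [AdL g 1 - 1,
    AdL g (eL B) - eL (A B), AdL g ((1 / 2 : ℂ) • eL B ^ 2) - (1 / 2 : ℂ) • eL (A B) ^ 2,
    AdL g ((1 / 6 : ℂ) • eL B ^ 3) - (1 / 6 : ℂ) • eL (A B) ^ 3].getD k 0) (fun t _ => ?_)
    (k := 1) (by decide)))
  refine (Submodule.mem_bot ℂ).2 (Eq.trans ?_ (sub_eq_zero.2 (key t)))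
  simp only [Finset.sum_range_succ, Finset.sum_range_zero, List.getD_cons_zero, List.getD_cons_succ,
    AdL, mul_add, add_mul, smul_mul_assoc, mul_smul_comm]
  module

end Pool.Agent.E7
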