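import Pool.Agent.Lib.MP_7e5527_ag.EL.ML2

/-! The Lie algebra of vector fields tangent to the cone; invariant subspaces. -/

open Matrix

noncomputable section

namespace Pool.Agent.E7

/-- Find `B ≠ 0` with `eL B ∈ N`: `exists_parts`, `eq_eL`, `Ad_wE_low`; if `X` keeps the degree,
use `ad_mem`; if it commutes with all `eL B` it is a scalar, of trace zero. Then `irred` for
`{B | eL B ∈ N}` with `Sim.exists_Lv`, `Lv.Ad_eL`. -/
theorem lie_simple (N : Submodule ℂ (W →ₗ[ℂ] W)) (h1 : N ≤ Lg) (h2 : ∀ X ∈ N, (mt X).trace = 0)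
    (h3 : ∀ g ∈ GE, ∀ X ∈ N, AdL g X ∈ N) (h0 : N ≠ ⊥) (B : Ix → ℂ) : eL B ∈ N := by
  let K : Submodule ℂ (Ix → ℂ) :=
    { carrier := {B | eL B ∈ N}
      add_mem' := fun h h' => by rw [Set.mem_ofPred_eq, eL_add]; exact add_mem h h'
      zero_mem' := by
        have := eL_smul 0 0
        rw [zero_smul, zero_smul] at this
        rw [Set.mem_ofPred_eq, this]
        exact zero_mem _
      smul_mem' := fun c B h => by rw [Set.mem_ofPred_eq, eL_smul]; exact N.smul_mem c h }
  rcases irred K (fun A c hA X hX => by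
    obtain ⟨g, hg, hL⟩ := hA.exists_Lv
    exact (hL.Ad_eL X ▸ h3 g hg _ hX : eL (A X) ∈ N)) with hK | hK
  swap
  · exact (hK ▸ Submodule.mem_top : B ∈ K)
  have up : ∀ X ∈ N, (∀ a b, deg a ≤ deg b → mt X a b = 0) → X = 0 := by
    intro X hX h
    have e := eq_eL (h1 hX) h
    have : (X r0).2.1 ∈ K := (e ▸ hX : eL (X r0).2.1 ∈ N)
    rw [hK, Submodule.mem_bot] at this
    rw [e, this, ← zero_smul ℂ (0 : Ix → ℂ), eL_smul, zero_smul]
  refine absurd ((Submodule.eq_bot_iff _).2 fun X hX => ?_) h0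
  obtain ⟨P, hP, O, hO, M, hM, rfl, p1, p2, p3⟩ :=
    exists_parts N (fun s t => h3 _ (dE_mem_GE s t)) hX
  have e3 : M = 0 := LinearMap.ext fun v => wE.injective <| by
    simpa [AdL] using LinearMap.congr_fun (up _ (h3 _ wE_mem_GE _ hM) (Ad_wE_low p3)) (wE v)
  have hs : ∀ X Y, mt (X - Y) = mt X - mt Y := map_sub (LinearMap.toMatrix bW bW)
  have c1 : ∀ B, Commute (eL B) O := fun B => sub_eq_zero.1 <|
    up _ (ad_mem N (fun B => h3 _ (nE_mem_GE B)) hO B) fun a b hab => by
      have q1 := ((EM_eq B ▸ hom_EM B).mul p2) a b (by omega)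
      have q2 := (p2.mul (EM_eq B ▸ hom_EM B)) a b (by omega)
      rw [hs, mt_mul, mt_mul, Matrix.sub_apply, q1, q2, sub_zero]
  have c2 : ∀ B, Commute (nE B : W →ₗ[ℂ] W) O := fun B => by
    rw [nE_eq]
    exact (((Commute.one_left _).add_left (c1 B)).add_left
      (((c1 B).pow_left 2).smul_left _)).add_left (((c1 B).pow_left 3).smul_left _)
  have c3 : O r0 = (O r0).1 • r0 := by
    have q : ∀ a, deg a ≠ 0 → crd (O r0) a = 0 := fun a ha => by
      rw [← bW_eq.1.1, ← mt_apply]
      exact p2 a _ ha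
    rw [crd_eq] at q
    exact Prod.ext (by simp [r0]) (Prod.ext (funext fun l => by
      simpa [r0] using q (.inr (.inl l)) (by simp [deg])) (Prod.ext (funext fun l => by
        simpa [r0] using q (.inr (.inr (.inl l))) (by simp [deg]))
          (by simpa [r0] using q (.inr (.inr (.inr ()))) (by simp [deg]))))
  have c4 : O = (O r0).1 • 1 := ext_rr _ _ fun Z _ => by
    have := LinearMap.congr_fun (c2 Z) r0
    simp only [Module.End.mul_apply, LinearEquiv.coe_coe] at this
    rw [c3, map_smul, ← rr_zero, nE_rr, zero_add] at this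
    rw [← this, rr_zero]
    rfl
  have c5 := h2 O hO
  rw [c4, mt, map_smul, LinearMap.toMatrix_one, trace_smul, trace_one, smul_eq_mul,
    mul_eq_zero] at c5
  rw [up P hP p1, e3, c4, c5.resolve_right (Nat.cast_ne_zero.2 Fintype.card_ne_zero)]
  simp

end Pool.Agent.E7
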