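import Pool.Agent.Lib.MP_7e5527_ag.EL.MSm

/-! Subharmonic functions on a curve of finite type with slow growth at the cusps are constant. -/

open UpperHalfPlane MatrixGroups

noncomputable section

namespace Pool.Agent.E7

theorem mli1_cpt (p : ℂ) {s : ℝ} (h : s < p.im) : IsCompact {τ : ℍ | ‖(τ : ℂ) - p‖ ≤ s} := by
  have := isOpenEmbedding_coe.isInducing.isCompact_preimage' (isCompact_closedBall p s) (fun z hz => by
    rw [Metric.mem_closedBall, dist_eq_norm] at hz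
    have h1 := (abs_le.1 ((Complex.abs_im_le_norm (z - p)).trans hz)).1
    rw [Complex.sub_im] at h1
    exact ⟨⟨z, by linarith⟩, rfl⟩)
  simpa only [Set.preimage, Metric.mem_closedBall, dist_eq_norm] using this

theorem mli1_bar (c : ℂ) {κ : ℝ} (hκ : 0 < κ) : ∃ g : SmH,
    (∀ τ : ℍ, g.1 τ = ((‖(τ : ℂ) - c‖ ^ 2 + κ)⁻¹ : ℝ)) ∧
      ∀ τ : ℍ, κ < ‖(τ : ℂ) - c‖ ^ 2 → 0 < ((D1 (D2 g)).1 τ).re := by
  obtain ⟨a, ha⟩ : ∃ a : SmH, a = zS - algebraMap ℂ SmH c := ⟨_, rfl⟩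
  have av : ∀ τ : ℍ, (a * star a).1 τ = ((‖(τ : ℂ) - c‖ ^ 2 : ℝ) : ℂ) := fun τ => by
    rw [ha, Complex.ofReal_pow, ← Complex.mul_conj']
    rfl
  obtain ⟨u, hu⟩ : ∃ u : SmH, u = a * star a + algebraMap ℂ SmH κ := ⟨_, rfl⟩
  have uv : ∀ τ : ℍ, u.1 τ = ((‖(τ : ℂ) - c‖ ^ 2 + κ : ℝ) : ℂ) := fun τ => by
    rw [hu, Complex.ofReal_add, ← av]
    rfl
  have u0 : ∀ τ : ℍ, u.1 τ ≠ 0 := fun τ => by
    rw [uv]
    exact Complex.ofReal_ne_zero.2 (by positivity)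
  obtain ⟨g, hg⟩ : ∃ g : SmH, ∀ τ, g.1 τ = (u.1 τ)⁻¹ := ⟨⟨_, inv_mem_Sm u.2 u0⟩, fun _ => rfl⟩
  have gu : g * u = 1 := Subtype.ext (funext fun τ => by
    show g.1 τ * u.1 τ = 1
    rw [hg, inv_mul_cancel₀ (u0 τ)])
  have a1 : D1 a = 2 := by rw [ha, map_sub, D1_zS, Derivation.map_algebraMap, sub_zero]
  have a2 : D2 a = 0 := by rw [ha, map_sub, D2_zS, Derivation.map_algebraMap, sub_zero]
  have b1 : D1 (star a) = 0 := by rw [← star_D2, a2, star_zero]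
  have b2 : D2 (star a) = 2 := by rw [← star_D1, a1, star_ofNat]
  have g1 : D1 g = -(2 * (g * g * star a)) := by
    rw [D1.leibniz_of_mul_eq_one gu, hu, map_add, Derivation.map_algebraMap, Derivation.leibniz, a1, b1]
    simp only [smul_eq_mul]
    ring
  have g2 : D2 g = -(g * g * a + g * g * a) := by
    rw [D2.leibniz_of_mul_eq_one gu, hu, map_add, Derivation.map_algebraMap, Derivation.leibniz, a2, b2]
    simp only [smul_eq_mul]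
    ring
  have g3 : D1 (D2 g) = 8 * (g * g * g * (a * star a)) - 4 * (g * g) := by
    rw [g2, map_neg, map_add, Derivation.leibniz, Derivation.leibniz, a1, g1]
    simp only [smul_eq_mul]
    ring
  have gv : ∀ τ : ℍ, g.1 τ = ((‖(τ : ℂ) - c‖ ^ 2 + κ)⁻¹ : ℝ) := fun τ => by
    rw [hg, uv, Complex.ofReal_inv]
  refine ⟨g, gv, fun τ hτ => ?_⟩
  have e : (D1 (D2 g)).1 τ = 8 * (g.1 τ * g.1 τ * g.1 τ * (a * star a).1 τ) - 4 * (g.1 τ * g.1 τ) := by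
    rw [g3]
    rfl
  rw [e, gv, av]
  generalize ‖(τ : ℂ) - c‖ ^ 2 = ρ at hτ
  have p : 0 < ρ + κ := by linarith
  have : (8 * ((ρ + κ)⁻¹ * (ρ + κ)⁻¹ * (ρ + κ)⁻¹ * ρ) - 4 * ((ρ + κ)⁻¹ * (ρ + κ)⁻¹) : ℝ) =
      4 * (ρ - κ) * (ρ + κ)⁻¹ ^ 3 := by
    field_simp
    ring
  norm_cast
  rw [this]
  have : 0 < ρ - κ := by linarith
  positivity

theorem mli1_par (z p c : ℂ) :
    ‖z - (c + p) / 2‖ ^ 2 = (‖z - c‖ ^ 2 + ‖z - p‖ ^ 2) / 2 - ‖p - c‖ ^ 2 / 4 := by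
  simp only [Complex.sq_norm, Complex.normSq_apply, Complex.sub_re, Complex.sub_im, Complex.add_re,
    Complex.add_im, Complex.div_ofNat_re, Complex.div_ofNat_im]
  ring

/-- The barrier argument at a point `p` of the maximum set nearest to `c0`. -/
theorem mli1_hopf {v : ℍ → ℝ} (h : Sub v) {p : ℍ} (hm : ∀ τ, v τ ≤ v p) {c0 : ℂ} {R : ℝ} (hR : 0 < R)
    (e : ‖(p : ℂ) - c0‖ = 2 * R) (hi : R / 2 < (p : ℂ).im)
    (hn : ∀ τ : ℍ, ‖(τ : ℂ) - p‖ ≤ R / 2 → v τ = v p → 2 * R ≤ ‖(τ : ℂ) - c0‖) : False := by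
  obtain ⟨φ, hφ, hs⟩ := h
  have cv : Continuous v := by
    have := Complex.continuous_re.comp (SmH.continuous φ)
    exact this.congr fun τ => by simp [hφ]
  have hκ : 0 < R ^ 2 / 16 := by positivity
  obtain ⟨g, gv, gs⟩ := mli1_bar ((c0 + p) / 2) hκ
  obtain ⟨ρ, hρ⟩ : ∃ ρ : ℍ → ℝ, ∀ τ, ρ τ = ‖(τ : ℂ) - (c0 + p) / 2‖ ^ 2 := ⟨_, fun _ => rfl⟩
  simp only [← hρ] at gv gs
  have ρ0 : ∀ τ, 0 ≤ ρ τ := fun τ => by rw [hρ]; positivity
  have cρ : Continuous ρ := by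
    rw [show ρ = _ from funext hρ]
    exact ((continuous_coe.sub continuous_const).norm).pow 2
  have ρp : ρ p = R ^ 2 := by
    rw [hρ, mli1_par, e, sub_self, norm_zero]
    ring
  have cn : Continuous fun τ : ℍ => ‖(τ : ℂ) - p‖ := (continuous_coe.sub continuous_const).norm
  have hB := mli1_cpt (p : ℂ) hi
  obtain ⟨ε, ε0, hε⟩ : ∃ ε : ℝ, 0 < ε ∧ ∀ τ : ℍ, ‖(τ : ℂ) - p‖ = R / 2 → ρ τ ≤ R ^ 2 →
      v τ + ε * (R ^ 2 / 16)⁻¹ < v p := by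
    have hS : IsCompact {τ : ℍ | ‖(τ : ℂ) - p‖ = R / 2 ∧ ρ τ ≤ R ^ 2} :=
      hB.of_isClosed_subset ((isClosed_eq cn continuous_const).inter (isClosed_le cρ continuous_const))
        (fun τ hτ => hτ.1.le)
    rcases Set.eq_empty_or_nonempty {τ : ℍ | ‖(τ : ℂ) - p‖ = R / 2 ∧ ρ τ ≤ R ^ 2} with q | q
    · exact ⟨1, one_pos, fun τ h1 h2 => absurd (q ▸ ⟨h1, h2⟩ : τ ∈ (∅ : Set ℍ)) (Set.notMem_empty τ)⟩
    · obtain ⟨σ, ⟨s1, s2⟩, s3⟩ := hS.exists_isMaxOn q cv.continuousOn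
      have lt : v σ < v p := lt_of_le_of_ne (hm σ) fun r => by
        have h1 := hn σ s1.le r
        rw [hρ, mli1_par, e, s1] at s2
        nlinarith
      refine ⟨(v p - v σ) / 2 * (R ^ 2 / 16), mul_pos (by linarith) hκ, fun τ h1 h2 => ?_⟩
      have : v τ ≤ v σ := s3 (show τ ∈ {τ : ℍ | ‖(τ : ℂ) - p‖ = R / 2 ∧ ρ τ ≤ R ^ 2} from ⟨h1, h2⟩)
      rw [mul_assoc, mul_inv_cancel₀ hκ.ne']
      linarith
  have wv : ∀ τ, ((φ + (ε : ℂ) • g).1 τ).re = v τ + ε * (ρ τ + R ^ 2 / 16)⁻¹ := fun τ => by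
    show (φ.1 τ + (ε : ℂ) * g.1 τ).re = _
    rw [hφ, gv]
    norm_cast
  obtain ⟨q, q1, q2⟩ := hB.exists_isMaxOn ⟨p, by simp [hR.le, div_nonneg]⟩
    (Complex.continuous_re.comp (SmH.continuous (φ + (ε : ℂ) • g))).continuousOn
  have q1' : ‖(q : ℂ) - p‖ ≤ R / 2 := q1
  have qp : ((φ + (ε : ℂ) • g).1 p).re ≤ ((φ + (ε : ℂ) • g).1 q).re :=
    q2 (show p ∈ {τ : ℍ | ‖(τ : ℂ) - p‖ ≤ R / 2} by simp [hR.le, div_nonneg])
  rw [wv, wv, ρp] at qp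
  have lt : ‖(q : ℂ) - p‖ < R / 2 := lt_of_le_of_ne q1' fun r => by
    have p1 : 0 < ε * (R ^ 2 + R ^ 2 / 16)⁻¹ := by positivity
    rcases le_or_gt (ρ q) (R ^ 2) with l | l
    · have := hε q r l
      have := mul_le_mul_of_nonneg_left (inv_anti₀ hκ (le_add_of_nonneg_left (ρ0 q))) ε0.le
      linarith
    · have := mul_lt_mul_of_pos_left
        (inv_strictAnti₀ (by positivity) (add_lt_add_left l (R ^ 2 / 16))) ε0
      linarith [hm q]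
  have lm := lap_max (φ + (ε : ℂ) • g) (τ := q) (q2.isLocalMax (Filter.mem_of_superset
    ((isOpen_lt cn continuous_const).mem_nhds lt) fun τ hτ =>
      (le_of_lt hτ : ‖(τ : ℂ) - p‖ ≤ R / 2)))
  have hq : R ^ 2 / 16 < ρ q := by
    have t : ‖(p : ℂ) - (c0 + p) / 2‖ = R := by
      have := ρp
      rw [hρ] at this
      exact (sq_eq_sq₀ (norm_nonneg _) hR.le).1 this
    have t2 := norm_sub_le_norm_sub_add_norm_sub (p : ℂ) q ((c0 + p) / 2)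
    rw [t, norm_sub_rev (p : ℂ) q] at t2
    rw [hρ]
    nlinarith
  rw [map_add, map_add, Derivation.map_smul, Derivation.map_smul] at lm
  have lm' : ((D1 (D2 φ)).1 q + (ε : ℂ) * (D1 (D2 g)).1 q).re ≤ 0 := lm
  rw [Complex.add_re, Complex.re_ofReal_mul] at lm'
  linarith [hs q, mul_pos ε0 (gs q hq)]

/-- If the closed set `M` where the maximum `m` is reached is not everything, there are `p0 ∈ M`,
`r` with `closedBall p0 (4 r)` (in `ℂ`) inside the half plane and `c0 ∉ M` with `‖c0 - p0‖ < r`.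
Let `p ∈ M` be nearest to `c0`, `c = (c0 + p) / 2`, `R = ‖p - c0‖ / 2`, `ρ = ‖z - c‖ ^ 2`
(`(zS - c) * star (zS - c)`); on `M`, `ρ ≥ R ^ 2 + ‖z - p‖ ^ 2 / 2` (parallelogram law). For
`h = (ρ + κ)⁻¹ - (R ^ 2 + κ)⁻¹`, `κ = R ^ 2 / 16`, one has `D1 D2 h = 4 (ρ - κ) / (ρ + κ) ^ 3 > 0`
on the ball `‖z - p‖ ≤ R / 2`; for small `ε`, `v + ε h < m` on its boundary and `= m` at `p`, so
there is an interior maximum, against `lap_max`. -/
theorem strong_max {v : ℍ → ℝ} (h : Sub v) {τ0 : ℍ} (hm : ∀ τ, v τ ≤ v τ0) (τ : ℍ) :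
    v τ = v τ0 := by
  have cv : Continuous v := by
    obtain ⟨φ, hφ, -⟩ := h
    have := Complex.continuous_re.comp (SmH.continuous φ)
    exact this.congr fun τ => by simp [hφ]
  have cl : IsClosed {σ : ℍ | v σ = v τ0} := isClosed_eq cv continuous_const
  have op : IsOpen {σ : ℍ | v σ = v τ0} := by
    rw [isOpen_iff_mem_nhds]
    intro p0 hp0
    by_contra hn
    have y0 : 0 < (p0 : ℂ).im := p0.im_pos
    have cn : ∀ c : ℂ, Continuous fun τ : ℍ => ‖(τ : ℂ) - c‖ := fun c =>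
      (continuous_coe.sub continuous_const).norm
    obtain ⟨c0, c1, c2⟩ : ∃ c0 : ℍ, ‖(c0 : ℂ) - p0‖ < (p0 : ℂ).im / 8 ∧ v c0 ≠ v τ0 := by
      by_contra r
      refine hn (Filter.mem_of_superset ((isOpen_lt (cn p0) continuous_const).mem_nhds
        (show ‖(p0 : ℂ) - p0‖ < (p0 : ℂ).im / 8 by simpa using y0)) fun σ hσ => ?_)
      by_contra r'
      exact r ⟨σ, hσ, r'⟩
    obtain ⟨p, ⟨p1, p2⟩, p3⟩ := ((mli1_cpt (p0 : ℂ) (half_lt_self y0)).inter_right cl).exists_isMinOn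
      ⟨p0, by simpa using (half_pos y0).le, hp0⟩ (cn c0).continuousOn
    have p2' : v p = v τ0 := p2
    have p1' : ‖(p : ℂ) - p0‖ ≤ (p0 : ℂ).im / 2 := p1
    have d0 : 0 < ‖(p : ℂ) - c0‖ := norm_pos_iff.2 fun r =>
      c2 (UpperHalfPlane.ext (sub_eq_zero.1 r) ▸ p2')
    have d1 : ‖(p : ℂ) - c0‖ ≤ ‖(p0 : ℂ) - c0‖ := p3 ⟨by simpa using (half_pos y0).le, hp0⟩
    rw [norm_sub_rev (p0 : ℂ)] at d1
    have d2 := (abs_le.1 ((Complex.abs_im_le_norm ((p : ℂ) - p0)).trans p1')).1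
    rw [Complex.sub_im] at d2
    refine mli1_hopf h (p := p) (fun σ => p2' ▸ hm σ) (c0 := c0) (half_pos d0) (by ring) (by linarith)
      fun σ s1 s2 => ?_
    have t1 := norm_sub_le_norm_sub_add_norm_sub (σ : ℂ) p p0
    have t2 := norm_sub_le_norm_sub_add_norm_sub (p : ℂ) c0 p0
    have : ‖(p : ℂ) - c0‖ ≤ ‖(σ : ℂ) - c0‖ :=
      p3 ⟨show ‖(σ : ℂ) - p0‖ ≤ (p0 : ℂ).im / 2 by linarith, s2.trans p2'⟩
    linarith
  have := IsClopen.eq_univ ⟨cl, op⟩ ⟨τ0, rfl⟩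
  exact (this ▸ Set.mem_univ τ : τ ∈ {σ : ℍ | v σ = v τ0})

end Pool.Agent.E7
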