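import Pool.Agent.Lib.MP_7e5527_ag.EL.MLi1

/-! Subharmonic functions on a curve of finite type with slow growth at the cusps are constant. -/

open UpperHalfPlane MatrixGroups

noncomputable section

namespace Pool.Agent.E7

theorem mli2_fn : ∃ u : SmH, ∀ τ : ℍ, u.1 τ = (τ.im - τ.im⁻¹ : ℝ) ∧
    (D1 (D2 u)).1 τ = (-(2 * τ.im⁻¹ ^ 3) : ℝ) := by
  let y : SmH := (-Complex.I / 2) • (zS - star zS)
  have ey : ∀ τ : ℍ, y.1 τ = τ.im := fun τ => by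
    show -Complex.I / 2 * ((τ : ℂ) - (starRingEnd ℂ) τ) = _
    rw [Complex.sub_conj, coe_im]
    push_cast
    linear_combination (-τ.im : ℂ) * Complex.I_mul_I
  have hy : ∀ τ, y.1 τ ≠ 0 := fun τ => by
    rw [ey]
    exact_mod_cast τ.im_ne_zero
  let i : SmH := ⟨_, inv_mem_Sm y.2 hy⟩
  have hi : i * y = 1 := Subtype.ext (funext fun τ => inv_mul_cancel₀ (hy τ))
  have y1 : D1 y = (-Complex.I / 2) • 2 := by
    rw [Derivation.map_smul, map_sub, ← star_D2, D1_zS, D2_zS, star_zero, sub_zero]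
  have y2 : D2 y = -((-Complex.I / 2) • 2) := by
    rw [Derivation.map_smul, map_sub, ← star_D1, D1_zS, D2_zS, star_ofNat, zero_sub, smul_neg]
  have c1 : D1 ((-Complex.I / 2) • (2 : SmH)) = 0 := by
    rw [Derivation.map_smul, ← one_add_one_eq_two (R := SmH), map_add,
      Derivation.map_one_eq_zero, add_zero, smul_zero]
  refine ⟨y - i, fun τ => ⟨?_, ?_⟩⟩
  · show y.1 τ - (y.1 τ)⁻¹ = _
    rw [ey]
    simp
  · rw [map_sub, D2.leibniz_of_mul_eq_one hi, y2, map_sub, map_neg, c1, smul_eq_mul,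
      Derivation.leibniz, map_neg, c1, map_neg, Derivation.leibniz_pow,
      D1.leibniz_of_mul_eq_one hi, y1]
    have e : evS SmH τ i = (τ.im : ℂ)⁻¹ := by rw [← ey]; rfl
    rw [← evS_apply]
    simp only [smul_eq_mul, map_sub, map_neg, map_zero, map_add, map_mul, map_pow, map_smul,
      map_ofNat, e, nsmul_eq_mul, Nat.cast_ofNat]
    push_cast
    linear_combination (2 * (τ.im : ℂ)⁻¹ ^ 3) * Complex.I_mul_I

theorem mli2_red {v : ℍ → ℝ} (hp : ∀ σ, v ((1 : ℝ) +ᵥ σ) = v σ) (σ : ℍ) :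
    ∃ τ : ℍ, |τ.re| ≤ 1 ∧ τ.im = σ.im ∧ v τ = v σ := by
  have h : Function.Periodic (fun x : ℝ => v (x +ᵥ σ)) 1 := fun x => by
    simp only [add_comm x, add_vadd, hp]
  refine ⟨((-⌊σ.re⌋ : ℤ) * 1 : ℝ) +ᵥ σ, ?_, vadd_im _ _, (h.int_mul_eq _).trans (by simp)⟩
  rw [vadd_re, abs_le]
  push_cast
  constructor <;> linarith [Int.floor_le σ.re, Int.lt_floor_add_one σ.re]

/-- `v - ε y + η / y` is periodic, tends to `-∞`, so reaches its maximum on `1 ≤ y`; as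
`D1 D2 y = 0` and `D1 D2 y⁻¹ = 2 / y ^ 3 > 0` it is reached on `y = 1` (`lap_max`). -/
theorem cusp_max {v : ℍ → ℝ} (h : Sub v) (hp : ∀ σ, v ((1 : ℝ) +ᵥ σ) = v σ)
    (hg : ∀ ε : ℝ, 0 < ε → ∃ C, ∀ σ : ℍ, |σ.re| ≤ 1 → 1 ≤ σ.im → v σ ≤ C + ε * σ.im) {m : ℝ}
    (hm : ∀ σ : ℍ, |σ.re| ≤ 1 → σ.im = 1 → v σ ≤ m) {σ : ℍ} (hσ : 1 ≤ σ.im) : v σ ≤ m := by
  obtain ⟨φ, e, hφ⟩ := h
  obtain ⟨u, hu⟩ := mli2_fn
  refine le_of_forall_pos_le_add fun δ hδ => ?_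
  have hε := div_pos hδ σ.im_pos
  suffices h : v σ - δ / σ.im * (σ.im - σ.im⁻¹) ≤ m by
    rw [mul_sub, div_mul_cancel₀ _ σ.im_ne_zero] at h
    linarith [mul_pos hε (inv_pos.2 σ.im_pos)]
  generalize δ / σ.im = ε at hε
  by_contra hc
  obtain ⟨C, hC⟩ := hg (ε / 2) (half_pos hε)
  have ew : ∀ τ : ℍ, ((φ - (ε : ℂ) • u).1 τ).re = v τ - ε * (τ.im - τ.im⁻¹) := fun τ => by
    show (φ.1 τ - ε * u.1 τ).re = _
    rw [e, (hu τ).1]
    norm_cast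
  have hK : IsCompact (((↑) : ℍ → ℂ) ⁻¹'
      (Set.Icc (-1) 1 ×ℂ Set.Icc 1 (max σ.im ((C + ε - m) / (ε / 2))))) :=
    (isEmbedding_coe.isInducing.isCompact_preimage_iff fun z hz =>
      ⟨⟨z, one_pos.trans_le hz.2.1⟩, rfl⟩).2 (isCompact_Icc.reProdIm isCompact_Icc)
  obtain ⟨σ', s1, s2, s3⟩ := mli2_red hp σ
  have hσ' : (σ' : ℂ) ∈ Set.Icc (-1) 1 ×ℂ Set.Icc 1 (max σ.im ((C + ε - m) / (ε / 2))) :=
    ⟨abs_le.1 s1, hσ.trans s2.ge, s2.le.trans (le_max_left _ _)⟩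
  obtain ⟨p, p1, p2⟩ := hK.exists_isMaxOn ⟨σ', hσ'⟩
    (Complex.continuous_re.comp (SmH.continuous (φ - (ε : ℂ) • u))).continuousOn
  simp only [isMaxOn_iff, Function.comp_apply, ew] at p2
  have p3 := p2 σ' hσ'
  rw [s2, s3] at p3
  have p4 : 1 < p.im := lt_of_le_of_ne p1.2.1 fun e1 => by
    have := hm p (abs_le.2 p1.1) e1.symm
    rw [← e1, inv_one, sub_self, mul_zero] at p3
    linarith
  have p5 := lap_max (φ - (ε : ℂ) • u) (τ := p) (((isOpen_lt continuous_const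
    continuous_im).eventually_mem p4).mono fun τ hτ => by
      obtain ⟨τ', t1, t2, t3⟩ := mli2_red hp τ
      have t4 : 1 ≤ τ'.im := t2 ▸ le_of_lt hτ
      simp only [ew]
      rw [← t2, ← t3]
      by_cases t5 : τ'.im ≤ max σ.im ((C + ε - m) / (ε / 2))
      · exact p2 τ' ⟨abs_le.1 t1, t4, t5⟩
      · have t6 := (div_lt_iff₀ (half_pos hε)).1 ((le_max_right _ _).trans_lt (not_le.1 t5))
        have t7 := mul_le_of_le_one_right hε.le (inv_le_one_of_one_le₀ t4)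
        linarith [hC τ' t1 t4])
  rw [map_sub, map_sub, Derivation.map_smul, Derivation.map_smul] at p5
  change ((D1 (D2 φ)).1 p - ε * (D1 (D2 u)).1 p).re ≤ 0 at p5
  rw [(hu p).2, ← Complex.ofReal_mul, Complex.sub_re, Complex.ofReal_re] at p5
  have := mul_pos hε (pow_pos (inv_pos.2 p.im_pos) 3)
  linarith [hφ p]

end Pool.Agent.E7
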