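import Pool.Agent.Lib.MP_7e5527_ag.EL.MT

/-! A subspace is determined by a line in a tensor power. -/

open Matrix

noncomputable section

namespace Pool.Agent.E7

/-- Plucker coordinates of a family of vectors. -/
def pl {r : ℕ} {n : Type} (a : Fin r → n → ℂ) (c : Fin r → n) : ℂ :=
  (Matrix.of fun i j => a i (c j)).det

theorem pl_ne {r : ℕ} {n : Type} [Fintype n] {a : Fin r → n → ℂ} (h : LinearIndependent ℂ a) :
    ∃ c, pl a c ≠ 0 := by
  have hr : (Matrix.of a).rank = r := by
    rw [LinearIndependent.rank_matrix (M := Matrix.of a) h, Fintype.card_fin]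
  have hs : Submodule.span ℂ (Set.range (Matrix.of a).col) = ⊤ :=
    Submodule.eq_top_of_finrank_eq (by rw [← rank_eq_finrank_span_cols, hr]; simp)
  obtain ⟨b, hb, -, hi⟩ := Submodule.exists_fun_fin_finrank_span_eq ℂ (Set.range (Matrix.of a).col)
  generalize hk : Module.finrank ℂ (Submodule.span ℂ (Set.range (Matrix.of a).col)) = k at b hb hi
  obtain rfl : k = r := by rw [← hk, hs]; simp
  choose c hc using hb
  refine ⟨c, ((isUnit_iff_isUnit_det _).1 (linearIndependent_cols_iff_isUnit.1 ?_)).ne_zero⟩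
  rwa [← funext hc] at hi

theorem pl_mul {r : ℕ} {n : Type} (M : Matrix (Fin r) (Fin r) ℂ) (a : Fin r → n → ℂ)
    (c : Fin r → n) : pl (fun i => ∑ j, M i j • a j) c = M.det * pl a c := by
  rw [pl, pl, ← det_mul]
  congr 1
  ext i j
  simp [mul_apply]

/-- Cramer: for `x` in the span of `b`, `x y * pl b c = ∑ j, x (c j) * pl b (update c j y)`; and if
`pl a c ≠ 0` these equations for `a` force `x` to be in the span of `a`. -/
theorem mem_span_of_pl {r : ℕ} {n : Type} {a b : Fin r → n → ℂ} (h : pl b = pl a) {c : Fin r → n}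
    (hc : pl a c ≠ 0) (i : Fin r) : b i ∈ Submodule.span ℂ (Set.range a) := by
  have e : ∀ (a : Fin r → n → ℂ) (y : n), cramer (Matrix.of fun i j => a i (c j)) (fun i => a i y) =
      fun j => pl a (Function.update c j y) := fun a y => funext fun j => by
    rw [cramer_apply, pl]
    congr 1
    ext i k
    by_cases hk : k = j <;> simp [updateCol_apply, hk]
  refine (Submodule.mem_span_range_iff_exists_fun ℂ).2 ⟨fun k => (pl a c)⁻¹ *
    ∑ j, b i (c j) * adjugate (Matrix.of fun i j => a i (c j)) j k, funext fun y => ?_⟩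
  have h1 := congrFun (mulVec_cramer (Matrix.of fun i j => b i (c j)) fun i => b i y) i
  rw [e, h, ← e, cramer_eq_adjugate_mulVec, ← pl, h] at h1
  apply mul_left_cancel₀ hc
  simp only [mulVec, dotProduct, of_apply, Pi.smul_apply, smul_eq_mul, Finset.mul_sum] at h1
  simp only [Finset.sum_apply, Pi.smul_apply, smul_eq_mul, mul_assoc, ← Finset.mul_sum,
    mul_inv_cancel_left₀ hc, ← h1, Finset.sum_mul]
  rw [Finset.sum_comm]
  simp only [Finset.mul_sum]

/-- The determinant is multilinear in the columns. -/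
theorem pl_Rp {r : ℕ} {m : Type} [Fintype m] [DecidableEq m] (G : Matrix m m ℂ)
    (a : Fin r → Matrix m m ℂ) (μ x : Fin r → m) :
    pl (fun i (y : m × m) => (G * a i) y.1 y.2) (fun j => (x j, μ j)) =
      (Rp (Fin r) G *ᵥ fun x' => pl (fun i (y : m × m) => a i y.1 y.2) fun j => (x' j, μ j)) x := by
  simp only [pl, det_apply', of_apply, mul_apply, Finset.prod_univ_sum, Fintype.piFinset_univ,
    mulVec, dotProduct, Rp, tp, Finset.mul_sum, Finset.prod_mul_distrib]
  rw [Finset.sum_comm]
  simp only [mul_left_comm]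

theorem Rp_curry {r d : ℕ} {ι : Type} [Fintype ι] [DecidableEq ι] (G : Matrix ι ι ℂ)
    (v : (Fin r → Fin d → ι) → ℂ) (x : Fin r × Fin d → ι) :
    (Rp (Fin r × Fin d) G *ᵥ fun x' => v fun j k => x' (j, k)) x =
      (Rp (Fin r) (Rp (Fin d) G) *ᵥ v) fun j k => x (j, k) := by
  simp only [mulVec, dotProduct, Rp, tp, of_apply, Fintype.prod_prod_type]
  exact Fintype.sum_equiv (Equiv.curry _ _ _) _ _ fun _ => rfl

end Pool.Agent.E7
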