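import Pool.Agent.Lib.MP_7e5527_ag.EL.MP1

/-! A subspace is determined by a line in a tensor power. -/

open Matrix

noncomputable section

namespace Pool.Agent.E7

/-- A number all of whose powers, positive and negative, have bounded denominators. -/
theorem sign_of_den {c v : ℂ} (hv : v ≠ 0) (hc : c ≠ 0) {M : ℕ} (hM : 0 < M)
    (h : ∀ k : ℤ, ∃ n : ℤ, (M : ℂ) * (c ^ k * v) = n) : c = 1 ∨ c = -1 := by
  have hM' : (M : ℂ) ≠ 0 := Nat.cast_ne_zero.2 hM.ne'
  have key : ∀ k : ℤ, 1 ≤ ‖(M : ℂ) * v‖ * ‖c‖ ^ k := by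
    intro k
    obtain ⟨n, hn⟩ := h k
    have h0 : n ≠ 0 := by
      rintro rfl
      exact mul_ne_zero hM' (mul_ne_zero (zpow_ne_zero k hc) hv) (by simpa using hn)
    have : ‖(M : ℂ) * v‖ * ‖c‖ ^ k = ‖(n : ℂ)‖ := by
      rw [← hn, ← norm_zpow, ← norm_mul]
      congr 1
      ring
    rw [this, Complex.norm_intCast]
    exact_mod_cast Int.one_le_abs h0
  have small : ∀ x : ℝ, 0 ≤ x → x < 1 → ¬ ∀ k : ℕ, 1 ≤ ‖(M : ℂ) * v‖ * x ^ k := by
    intro x h0 h1 hk
    have := (tendsto_pow_atTop_nhds_zero_of_lt_one h0 h1).const_mul ‖(M : ℂ) * v‖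
    have := ge_of_tendsto' this hk
    norm_num at this
  have h1 : ‖c‖ = 1 := by
    rcases lt_trichotomy ‖c‖ 1 with h1 | h1 | h1
    · exact absurd (fun k => by simpa using key k) (small _ (norm_nonneg _) h1)
    · exact h1
    · exact absurd (fun k => by simpa using key (-k))
        (small _ (inv_nonneg.2 (norm_nonneg c)) (inv_lt_one_of_one_lt₀ h1))
  obtain ⟨a, ha⟩ := h 0
  obtain ⟨b, hb⟩ := h 1
  simp only [zpow_zero, one_mul, zpow_one] at ha hb
  have e : c = ((b / a : ℝ) : ℂ) := by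
    push_cast
    rw [← ha, ← hb]
    field_simp
  rw [e, Complex.norm_real, Real.norm_eq_abs] at h1
  rw [e]
  rcases abs_eq (zero_le_one' ℝ) |>.1 h1 with h2 | h2 <;> rw [h2] <;> simp

theorem mpl_int {γ : Gb} (h : γ ∈ Gam) (d : ℕ) (x y : Fin d → Wx) :
    ∃ n : ℤ, (2 : ℂ) ^ d * Rp (Fin d) (mat γ) x y = n := by
  choose n hn using mat_int h
  refine ⟨∏ k, n (x k) (y k), ?_⟩
  simp only [Rp, tp, Matrix.of_apply, Int.cast_prod, ← hn, Finset.prod_mul_distrib,
    Finset.prod_const, Finset.card_univ, Fintype.card_fin]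

theorem mpl_det {r : ℕ} {n : Type} {a : Fin r → n → ℂ} {s : ℂ} (h : ∀ i y, ∃ m : ℤ, s * a i y = m)
    (c : Fin r → n) : ∃ m : ℤ, s ^ r * pl a c = m := by
  choose m hm using h
  refine ⟨(Matrix.of fun i j => m i (c j)).det, ?_⟩
  have : (Matrix.of fun i j => m i (c j)).map (Int.castRingHom ℂ) =
      s • Matrix.of fun i j => a i (c j) := by
    ext i j
    simp [hm]
  rw [← eq_intCast (Int.castRingHom ℂ), RingHom.map_det, RingHom.mapMatrix_apply, this,
    Matrix.det_smul, Fintype.card_fin, pl]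

/-- Choose a basis `a i = Rp (mat (γ i))` of the span. `γ` multiplies the Plucker vector by
`χ γ = det M`; `χ` is multiplicative and `2 ^ (d r) χ γ pl a c` is an integer (`mat_int`). If `g`
fixes the tensors `x ↦ pl a (x, μ)` then `pl (g a) = pl a`, so `g` keeps the span, which contains
`1`. -/
theorem pluck {Λ : Subgroup Gb} (h : Λ ≤ Gam) (d : ℕ) : ∃ (r : ℕ) (χ : Gb → ℂ),
    (∀ γ ∈ Λ, χ γ = 1 ∨ χ γ = -1) ∧ ∀ g : Gb,
      (∀ t ∈ Tch (Fin r × Fin d) Λ χ, Rp (Fin r × Fin d) (mat g) *ᵥ t = t) →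
        Rp (Fin d) (mat g) ∈ Submodule.span ℂ ((fun γ => Rp (Fin d) (mat γ)) '' Λ) := by
  set R : Gb → Matrix (Fin d → Wx) (Fin d → Wx) ℂ := fun γ => Rp (Fin d) (mat γ) with hR
  have Rm : ∀ g k, R (g * k) = R g * R k := fun g k => by simp only [hR, mat_mul, Rp_mul]
  let u : Matrix (Fin d → Wx) (Fin d → Wx) ℂ ≃ₗ[ℂ] ((Fin d → Wx) × (Fin d → Wx) → ℂ) :=
    (LinearEquiv.curry ℂ ℂ _ _).symm
  obtain ⟨a, ha, hs, hi⟩ := Submodule.exists_fun_fin_finrank_span_eq ℂ (R '' Λ)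
  generalize Module.finrank ℂ (Submodule.span ℂ (R '' Λ)) = r at a ha hs hi
  choose γ hγ e using ha
  obtain rfl : a = fun i => R (γ i) := (funext e).symm
  let A : Gb → Fin r → (Fin d → Wx) × (Fin d → Wx) → ℂ := fun g i y => R (g * γ i) y.1 y.2
  have A1 : A 1 = fun i => u (R (γ i)) := by simp only [A, one_mul]; rfl
  obtain ⟨c, hc⟩ : ∃ c, pl (A 1) c ≠ 0 := pl_ne (A1 ▸ hi.map' u.toLinearMap u.ker)
  have act : ∀ g k (μ x : Fin r → Fin d → Wx), pl (A (g * k)) (fun j => (x j, μ j)) =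
      (Rp (Fin r) (R g) *ᵥ fun x' => pl (A k) fun j => (x' j, μ j)) x := fun g k μ x => by
    simp only [A, mul_assoc, Rm g]
    exact pl_Rp _ _ _ _
  have ex : ∀ g ∈ Λ, ∃ m : ℂ, ∀ c', pl (A g) c' = m * pl (A 1) c' := by
    intro g hg
    have : ∀ i, ∃ M : Fin r → ℂ, ∑ j, M j • R (γ j) = R (g * γ i) := fun i =>
      (Submodule.mem_span_range_iff_exists_fun ℂ).1
        (hs ▸ Submodule.subset_span ⟨_, Λ.mul_mem hg (hγ i), rfl⟩)
    choose M hM using this
    refine ⟨(Matrix.of M).det, fun c' => ?_⟩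
    rw [← pl_mul]
    congr 1
    ext i y
    simp [A, ← hM, Matrix.sum_apply]
  choose! χ hχ using ex
  have mul : ∀ g ∈ Λ, ∀ k ∈ Λ, χ (g * k) = χ g * χ k := by
    intro g hg k hk
    refine mul_right_cancel₀ hc ?_
    have e1 := act g k (fun j => (c j).2) fun j => (c j).1
    have e2 := act g 1 (fun j => (c j).2) fun j => (c j).1
    simp only [hχ k hk, Prod.mk.eta, mul_one] at e1 e2
    rw [← hχ _ (Λ.mul_mem hg hk), e1, mul_comm (χ g), mul_assoc, ← hχ g hg, e2]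
    simp only [Matrix.mulVec, dotProduct, Finset.mul_sum, mul_left_comm]
  have one : χ 1 = 1 := mul_right_cancel₀ hc (by rw [← hχ 1 Λ.one_mem, one_mul])
  have ne : ∀ g ∈ Λ, χ g ≠ 0 := fun g hg h0 => by
    have := mul g hg _ (Λ.inv_mem hg)
    rw [mul_inv_cancel, one, h0, zero_mul] at this
    exact one_ne_zero this
  have zp : ∀ g ∈ Λ, ∀ k : ℤ, χ (g ^ k) = χ g ^ k := by
    intro g hg k
    induction k with
    | zero => simpa using one
    | succ k ih => 
      rw [_root_.zpow_add_one, mul _ (Λ.zpow_mem hg _) _ hg, ih, zpow_add_one₀ (ne g hg)]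
    | pred k ih =>
      refine mul_right_cancel₀ (ne g hg) ?_
      rw [← mul _ (Λ.zpow_mem hg _) _ hg, ← _root_.zpow_add_one, ← zpow_add_one₀ (ne g hg),
        sub_add_cancel, ih]
  refine ⟨r, χ, fun g hg => sign_of_den hc (ne g hg) (M := (2 ^ d) ^ r) (by positivity) fun k => ?_,
    fun g hg => ?_⟩
  · rw [← zp g hg, ← hχ _ (Λ.zpow_mem hg k)]
    push_cast
    exact mpl_det (fun i y => mpl_int (h (Λ.mul_mem (Λ.zpow_mem hg k) (hγ i))) d _ _) c
  · have e1 : pl (A g) = pl (A 1) := by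
      ext c'
      have := congrFun (hg (fun x => pl (A 1) fun j => (fun k => x (j, k), (c' j).2))
        fun k hk => funext fun x => by
          rw [Rp_curry (v := fun x' => pl (A 1) fun j => (x' j, (c' j).2)), ← act, mul_one,
            hχ k hk]
          rfl) fun y => (c' y.1).1 y.2
      rwa [Rp_curry (v := fun x' => pl (A 1) fun j => (x' j, (c' j).2)), ← act, mul_one] at this
    have e2 : ∀ i, R g * R (γ i) ∈ Submodule.span ℂ (R '' Λ) := fun i => by
      have := mem_span_of_pl e1 hc i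
      rw [A1, show (fun i => u (R (γ i))) = u.toLinearMap ∘ fun i => R (γ i) from rfl,
        Set.range_comp, ← Submodule.map_span, hs] at this
      obtain ⟨x, hx, e⟩ := this
      rwa [← Rm, ← u.injective (e.trans (show _ = u (R (g * γ i)) from rfl))]
    have e3 : ∀ x ∈ Submodule.span ℂ (Set.range fun i => R (γ i)),
        R g * x ∈ Submodule.span ℂ (R '' Λ) := by
      intro x hx
      obtain ⟨m, rfl⟩ := (Submodule.mem_span_range_iff_exists_fun ℂ).1 hx
      rw [Finset.mul_sum]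
      exact Submodule.sum_mem _ fun i _ => by
        rw [Matrix.mul_smul]; exact Submodule.smul_mem _ _ (e2 i)
    have := e3 (R 1) (hs ▸ Submodule.subset_span ⟨1, Λ.one_mem, rfl⟩)
    rwa [← Rm, mul_one] at this

theorem mpl_cons {d : ℕ} (l : (Fin d → Wx) → ℂ) (b : Wx) : ∃ l' : (Fin (d + 1) → Wx) → ℂ,
    ∀ v : Wx → ℂ, l' ⬝ᵥ pw (Fin (d + 1)) v = l ⬝ᵥ pw (Fin d) v * v b := by
  refine ⟨fun a => if a 0 = b then l (Fin.tail a) else 0, fun v => ?_⟩
  simp only [dotProduct, pw]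
  rw [← (Fin.consEquiv fun _ => Wx).sum_comp, Fintype.sum_prod_type, Finset.sum_eq_single b]
  · simp [Fin.prod_univ_succ, Finset.mul_sum, Fin.consEquiv, mul_comm, mul_left_comm]
  · intro b' _ hb
    simp [Fin.consEquiv, hb]
  · simp

/-- A polynomial is a linear form in a tensor power of `rr Z`, whose first coordinate is one. -/
theorem exists_form (P : MvPolynomial Ix ℂ) : ∃ (d : ℕ) (l : (Fin d → Wx) → ℂ),
    ∀ Z, MvPolynomial.eval Z P = l ⬝ᵥ pw (Fin d) (crd (rr Z)) := by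
  have up : ∀ (f : (Ix → ℂ) → ℂ) (d n : ℕ), (∃ l : (Fin d → Wx) → ℂ,
      ∀ Z, f Z = l ⬝ᵥ pw (Fin d) (crd (rr Z))) → ∃ l : (Fin (d + n) → Wx) → ℂ,
        ∀ Z, f Z = l ⬝ᵥ pw (Fin (d + n)) (crd (rr Z)) := by
    intro f d n h
    induction n with
    | zero => exact h
    | succ n ih =>
      obtain ⟨l, hl⟩ := ih
      obtain ⟨l', hl'⟩ := mpl_cons l (.inl ())
      exact ⟨l', fun Z => ((hl' _).trans (by rw [hl, crd_eq (rr Z)]; simp [rr])).symm⟩
  induction P using MvPolynomial.induction_on with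
  | C c => exact ⟨0, fun _ => c, fun Z => by simp [dotProduct, pw]⟩
  | add P Q hP hQ =>
    obtain ⟨d, hd⟩ := hP
    obtain ⟨e, he⟩ := hQ
    obtain ⟨l, hl⟩ := up _ d e hd
    have := up _ e d he
    rw [add_comm] at this
    obtain ⟨l', hl'⟩ := this
    exact ⟨d + e, l + l', fun Z => by rw [map_add, hl, hl', add_dotProduct]⟩
  | mul_X P i hP =>
    obtain ⟨d, l, hl⟩ := hP
    obtain ⟨l', hl'⟩ := mpl_cons l (.inr (.inl i))
    exact ⟨d + 1, l', fun Z => by
      rw [map_mul, hl, hl', MvPolynomial.eval_X, crd_eq (rr Z)]; simp [rr]⟩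

end Pool.Agent.E7
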