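import Pool.Agent.Lib.MP_7e5527_ag.EL.MQ2

/-! The polarisation of the Hodge structures on `W`. -/

open Matrix
open scoped ComplexOrder

noncomputable section

namespace Pool.Agent.E7

/-- Along a path of invertible Hermitian matrices positivity is kept: the minimum of the form on
the unit sphere is continuous; or the set of `t` with `M t` positive definite is open and closed
(`PosSemidef.posDef_iff_isUnit`). -/
theorem posDef_path {ι : Type} [Fintype ι] [DecidableEq ι] {M : ℝ → Matrix ι ι ℂ}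
    (hc : ContinuousOn M (Set.Icc 0 1)) (hh : ∀ t ∈ Set.Icc (0 : ℝ) 1, (M t).IsHermitian)
    (hu : ∀ t ∈ Set.Icc (0 : ℝ) 1, IsUnit (M t)) (h0 : (M 0).PosDef) : (M 1).PosDef := by
  have cf : ContinuousOn (fun p : ℝ × (ι → ℂ) => (star p.2 ⬝ᵥ M p.1 *ᵥ p.2).re)
      (Set.Icc 0 1 ×ˢ Set.univ) := by
    have h1 : ContinuousOn (fun p : ℝ × (ι → ℂ) => (M p.1, p.2)) (Set.Icc 0 1 ×ˢ Set.univ) :=
      (hc.comp continuousOn_fst fun p hp => hp.1).prodMk continuousOn_snd
    have h2 : Continuous fun q : Matrix ι ι ℂ × (ι → ℂ) => (star q.2 ⬝ᵥ q.1 *ᵥ q.2).re :=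
      Complex.continuous_re.comp (continuous_snd.star.dotProduct
        (continuous_fst.matrix_mulVec continuous_snd))
    have h3 := h2.comp_continuousOn h1
    simpa only [Function.comp_def] using h3
  have key : ∀ t ∈ Set.Icc (0 : ℝ) 1, ¬(M t).PosDef →
      ∃ x ∈ Metric.sphere (0 : ι → ℂ) 1, (star x ⬝ᵥ M t *ᵥ x).re ≤ 0 := fun t ht k => by
    by_contra j
    refine k (.of_dotProduct_mulVec_pos (hh t ht) fun x hx => RCLike.pos_iff.2
      ⟨?_, (hh t ht).im_star_dotProduct_mulVec_self x⟩)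
    have n0 : 0 < ‖x‖⁻¹ := inv_pos.2 (norm_pos_iff.2 hx)
    have j1 : 0 < (star (‖x‖⁻¹ • x) ⬝ᵥ M t *ᵥ (‖x‖⁻¹ • x)).re := not_le.1 fun j1 =>
      j ⟨_, by simp [norm_smul, inv_mul_cancel₀ (norm_pos_iff.2 hx).ne'], j1⟩
    rw [star_smul, star_trivial, mulVec_smul, smul_dotProduct, dotProduct_smul, Complex.smul_re,
      Complex.smul_re, smul_eq_mul, smul_eq_mul] at j1
    exact (mul_pos_iff_of_pos_left n0).1 ((mul_pos_iff_of_pos_left n0).1 j1)
  by_contra k
  obtain ⟨x, hx, j⟩ := key 1 ⟨zero_le_one, le_rfl⟩ k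
  have cK : IsCompact (Set.Icc (0 : ℝ) 1 ×ˢ Metric.sphere (0 : ι → ℂ) 1) :=
    isCompact_Icc.prod (isCompact_sphere _ _)
  have cB := cK.of_isClosed_subset ((cf.mono (Set.prod_mono le_rfl (Set.subset_univ _))
    ).preimage_isClosed_of_isClosed cK.isClosed (isClosed_Iic (a := 0))) Set.inter_subset_left
  obtain ⟨⟨t, y⟩, ⟨⟨ht, hy⟩, hty⟩, hm⟩ := cB.exists_isMinOn
    ⟨(1, x), ⟨⟨zero_le_one, le_rfl⟩, hx⟩, j⟩ continuousOn_fst
  have y0 : y ≠ 0 := fun e => by simp [e] at hy
  refine ((PosSemidef.posDef_iff_isUnit ?_).2 (hu t ht)).re_dotProduct_pos y0 |>.not_ge hty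
  rcases ht.1.eq_or_lt with e | e
  · exact (show (0 : ℝ) = t from e) ▸ h0.posSemidef
  refine .of_dotProduct_mulVec_nonneg (hh t ht) fun z => RCLike.nonneg_iff.2
    ⟨?_, (hh t ht).im_star_dotProduct_mulVec_self z⟩
  have c1 : ContinuousOn (fun s => (star z ⬝ᵥ M s *ᵥ z).re) (Set.Icc 0 1) :=
    cf.comp (f := fun s => (s, z)) (by fun_prop) fun s hs => ⟨hs, trivial⟩
  have sub : Set.Ico 0 t ⊆ Set.Icc 0 1 := fun s hs => ⟨hs.1, hs.2.le.trans ht.2⟩
  refine ContinuousWithinAt.closure_le (s := Set.Ico 0 t) (f := fun _ => (0 : ℝ))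
    (by rw [closure_Ico (show (0 : ℝ) ≠ t from e.ne)]; exact ⟨ht.1, le_rfl⟩)
    continuousWithinAt_const ((c1 t ht).mono sub) fun s hs => ?_
  have : (M s).PosDef := by_contra fun k' => by
    obtain ⟨w, hw, j'⟩ := key s (sub hs) k'
    exact hs.2.not_ge (hm (a := (s, w)) ⟨⟨sub hs, hw⟩, j'⟩)
  exact this.posSemidef.re_dotProduct_nonneg z

theorem mq_NM : Continuous fun B : Ix → ℂ => mat (nE B) := by
  have h : Continuous fun B : Ix → ℂ => EM B :=
    continuous_finsetSum _ fun l _ => (continuous_apply l).smul continuous_const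
  simp only [← NM_eq, NM]
  exact ((continuous_const.add h).add ((h.pow 2).const_smul (1 / 2 : ℂ))).add
    ((h.pow 3).const_smul (1 / 6 : ℂ))

theorem mq_poly {f : (Ix → ℂ) → ℂ} (P : MvPolynomial Ix ℂ) (h : ∀ Z, MvPolynomial.eval Z P = f Z) :
    Continuous f := (funext h : _ = f) ▸ P.continuous_eval

theorem mq_inv : ContinuousOn (fun Z : Ix → ℂ => inv (Z - star Z)) HH := by
  have h0 : Continuous fun Z : Ix → ℂ => Z - star Z := continuous_id.sub continuous_star
  have h1 : Continuous (nrm : (Ix → ℂ) → ℂ) := mq_poly (nrm MvPolynomial.X) fun Z => by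
    simpa only [MvPolynomial.eval_X] using
      (nrm_map (MvPolynomial.eval Z) (MvPolynomial.X : Ix → MvPolynomial Ix ℂ)).symm
  have h2 : Continuous (sharp : (Ix → ℂ) → Ix → ℂ) := continuous_pi fun l =>
    mq_poly (sharp MvPolynomial.X l) fun Z => by
      simpa only [MvPolynomial.eval_X] using (congrFun
        (sharp_map (MvPolynomial.eval Z) (MvPolynomial.X : Ix → MvPolynomial Ix ℂ)) l).symm
  exact ((h1.comp h0).continuousOn.inv₀ fun Z hZ => nrm_sub_star hZ).neg.smul
    (h2.comp h0).continuousOn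

theorem mq_mul (g g' : Gb) : mat (g * g') = mat g * mat g' := mt_mul _ _

theorem continuousOn_HW : ContinuousOn HW HH := by
  have h : ContinuousOn (fun Z => mat (gZ Z)) HH := by
    simp only [gZ, mq_mul]
    exact ((mq_NM.comp continuous_star).continuousOn.mul continuousOn_const).mul
      (mq_NM.comp_continuousOn mq_inv)
  exact ((continuous_id.matrix_conjTranspose.comp_continuousOn h).mul continuousOn_const).mul h

theorem HW_pos {Z : Ix → ℂ} (hZ : Z ∈ HH) : (sg deg * HW Z).PosDef := by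
  have h0 : (Complex.I / 2) • (one3 : Ix → ℂ) ∈ HH := by
    have e : (fun l => (((one3 : Ix → ℝ) l : ℝ) : ℂ)) = one3 := by
      funext l
      rcases l with i | a <;> simp [one3, mkJ]
    rw [← e]
    exact smul_mem_HH one3_mem (by norm_num)
  have hm : ∀ t ∈ Set.Icc (0 : ℝ) 1, (1 - t) • (Complex.I / 2) • (one3 : Ix → ℂ) + t • Z ∈ HH :=
    fun t ht => convex_HH h0 hZ (sub_nonneg.2 ht.2) ht.1 (sub_add_cancel 1 t)
  have := posDef_path (M := fun t => sg deg * HW ((1 - t) • (Complex.I / 2) • one3 + t • Z))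
    (continuousOn_const.mul (continuousOn_HW.comp (by fun_prop) hm)) (fun t ht => ?_)
    (fun t _ => ?_) (by simpa using HW_base)
  · simpa using this
  · have hb := HW_blk (hm t ht)
    generalize (1 - t) • (Complex.I / 2) • (one3 : Ix → ℂ) + t • Z = Y at hb
    have hH : (HW Y)ᴴ = HW Y := by
      simp only [HW, conjTranspose_mul, conjTranspose_conjTranspose, QW_herm, Matrix.mul_assoc]
    ext a b
    have e : star (HW Y b a) = HW Y a b := congrFun (congrFun hH a) b
    simp only [conjTranspose_apply, sg, diagonal_mul, star_mul', star_pow, star_neg, star_one, e]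
    by_cases k : deg a = deg b
    · rw [k]
    · rw [hb a b k, mul_zero, mul_zero]
  · have u := IsUnit.of_mul_eq_one _ (mat_mul_inv (gZ ((1 - t) • (Complex.I / 2) • one3 + t • Z)))
    refine IsUnit.mul (IsUnit.of_mul_eq_one (sg deg) ?_) ((u.star.mul QW_unit).mul u)
    simp [sg, ← mul_pow]

end Pool.Agent.E7
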