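import Pool.Agent.Lib.MP_7e5527_ag.EL.MQ1

/-! The polarisation of the Hodge structures on `W`. -/

open Matrix
open scoped ComplexOrder

noncomputable section

namespace Pool.Agent.E7

theorem mq2_sharp : sharp (one3 : Ix → ℂ) = one3 := by
  apply jext <;> simp [dg_sharp_0, dg_sharp_1, dg_sharp_2, oc_sharp_0, oc_sharp_1, oc_sharp_2, one3,
    onorm_zero, omul_zero_left, oconj_zero]

theorem mq2_cross (X : Ix → ℂ) : cross X one3 = tr X one3 • one3 - X := by
  apply jext <;> simp [dg_cross_0, dg_cross_1, dg_cross_2, oc_cross_0, oc_cross_1, oc_cross_2, one3,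
    tr_eq, omul_zero_left, omul_zero_right, oconj_zero, oip_zero_right] <;> ring

theorem mq2_tr : tr (one3 : Ix → ℂ) one3 = 3 := by
  simpa [mq2_sharp, stab_nrm_one3] using tr_sharp_self (one3 : Ix → ℂ)

theorem mq2_n (c : ℂ) (v : W) : nE (c • one3) v = (v.1, v.2.1 + (v.1 * c) • one3,
    v.2.2.1 + c • (tr v.2.1 one3 • one3 - v.2.1) + (v.1 * c ^ 2) • one3,
    v.2.2.2 + c * tr v.2.2.1 one3 + c ^ 2 * tr v.2.1 one3 + v.1 * c ^ 3) := by
  simp only [nE_apply, nfun, cross_smul_right, mq2_cross, sharp_smul, mq2_sharp, nrm_smul,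
    stab_nrm_one3, tr_smul_right, smul_smul, mul_one]

theorem mq2_star (c : ℂ) : star (c • (one3 : Ix → ℂ)) = star c • one3 := by
  rw [star_smul]
  congr 1
  funext l
  rcases l with i | a <;> simp [one3, mkJ]

theorem mq2_inv {c : ℂ} (h : c ^ 2 = -1) : inv (c • (one3 : Ix → ℂ)) = c • one3 := by
  have h1 : (c ^ 3)⁻¹ = c := inv_eq_of_mul_eq_one_right (by linear_combination (c ^ 2 - 1) * h)
  rw [inv, sharp_smul, mq2_sharp, nrm_smul, stab_nrm_one3, mul_one, smul_smul, h1, h]
  simp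

theorem mq2_k (v : W) :
    ((gZ (star ((Complex.I / 2) • one3)))⁻¹ * gZ ((Complex.I / 2) • one3)) v =
      -Complex.I • (v.2.2.2, v.2.2.1, v.2.1, v.1) := by
  have h1 : star (Complex.I / 2) = -(Complex.I / 2) := by simp [neg_div]
  have h2 : Complex.I / 2 - -(Complex.I / 2) = Complex.I := by ring
  have h3 : -(Complex.I / 2) - Complex.I / 2 = -Complex.I := by ring
  have h4 : Complex.I ^ 2 = -1 := Complex.I_sq
  rw [gZ, gZ, star_star, mq2_star, h1, ← sub_smul, ← sub_smul, h2, h3, mq2_inv h4,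
    mq2_inv (by simp), _root_.mul_inv_rev, _root_.mul_inv_rev, ← nE_neg, ← nE_neg, ← neg_smul,
    ← neg_smul]
  simp only [LinearEquiv.mul_apply, mq2_n, tube1_wE_apply, tube1_wE_inv_apply, tr_add_left,
    tr_smul_left, tr_sub_left, tr_neg_left, mq2_tr, Prod.smul_mk, smul_eq_mul, Prod.mk.injEq]
  refine ⟨by grind, ?_, ?_, by grind⟩ <;> match_scalars <;> grind

/-- At `Z = (I / 2) • one3`: `k = nE (I • 1) * wE⁻¹ * nE (-I • 1) * wE * nE (I • 1)` sends
`(a, B, C, d)` to `-I • wE⁻¹ (a, -B, C, -d)` (use `cross X one3 = tr X one3 • one3 - X`), and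
`sy (star v) (wE⁻¹ v) = |a| ^ 2 + tr (star B) B + tr (star C) C + |d| ^ 2`. -/
theorem HW_base : (sg deg * HW ((Complex.I / 2) • one3)).PosDef := by
  let D : Wx → ℂ := Sum.elim 1 (Sum.elim (fun l => wt l) (Sum.elim (fun l => wt l) 1))
  have h : ∀ x y, star x ⬝ᵥ (sg deg * HW ((Complex.I / 2) • one3)) *ᵥ y =
      star x ⬝ᵥ diagonal D *ᵥ y := fun x y => by
    obtain ⟨v, rfl⟩ := crd_surj x
    obtain ⟨v', rfl⟩ := crd_surj y
    have e : star (crd v) ᵥ* sg deg = star (crd (v.1, -v.2.1, v.2.2.1, -v.2.2.2)) := by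
      funext a
      rw [sg, vecMul_diagonal]
      rcases a with _ | l | l | _ <;> simp [crd_eq, deg] <;> norm_num
    rw [← mulVec_mulVec, dotProduct_mulVec, e, HW_crd, mq2_k]
    have e2 : ∀ X Y : Ix → ℂ, ∑ l, star (X l) * (wt l * Y l) = tr (star X) Y := fun X Y => by
      rw [tr_eq_sum]
      exact Finset.sum_congr rfl fun l _ => by rw [Pi.star_apply]; ring
    have h4 : Complex.I ^ 2 = -1 := Complex.I_sq
    simp only [crd_eq, dotProduct, mulVec_diagonal, Fintype.sum_sum_type, D, Pi.star_apply,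
      Sum.elim_inl, Sum.elim_inr, e2, sy, Prod.smul_mk, Prod.fst_star, Prod.snd_star, star_neg,
      tr_smul_right, tr_neg_left, smul_eq_mul, Finset.univ_unique, Finset.sum_singleton,
      Pi.one_apply]
    grind
  have e : sg deg * HW ((Complex.I / 2) • one3) = diagonal D := Matrix.ext fun a b => by
    simpa only [← Pi.single_star, star_one, single_one_dotProduct, mulVec_single_one, col_apply]
      using h (Pi.single a 1) (Pi.single b 1)
  rw [e]
  refine PosDef.diagonal ?_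
  rintro (_ | (l | l) | (l | l) | _) <;> simp [D, wt]

end Pool.Agent.E7
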