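import Pool.Agent.Lib.MP_7e5527_ag.EL.MCone

/-! Bounds of Schwarz and Pick for holomorphic maps from the half plane to the tube. -/

open UpperHalfPlane MatrixGroups

noncomputable section

namespace Pool.Agent.E7

/-- Holomorphic maps from the half plane to the tube. -/
structure HM (f : ℍ → Ix → ℂ) : Prop where
  hol : DifferentiableOn ℂ (f ∘ ofComplex) {z | 0 < z.im}
  mem : ∀ τ, f τ ∈ HH

theorem Crv.hm {f : ℍ → Ix → ℂ} (h : Crv f) : HM f := ⟨h.hol, h.mem⟩

theorem HM.smul {f : ℍ → Ix → ℂ} (h : HM f) (g : SL(2, ℝ)) : HM fun τ => f (g • τ) :=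
  ⟨differentiableOn_pi.2 fun i => UpperHalfPlane.mdifferentiable_iff.1
    (((UpperHalfPlane.mdifferentiable_iff (f := fun τ => f τ i)).2
      (differentiableOn_pi.1 h.hol i)).comp
      (mdifferentiable_smul (g := Matrix.SpecialLinearGroup.mapGL ℝ g) (by simp))),
    fun _ => h.mem _⟩

theorem msp1_sq (a b : ℂ) : ‖b - star a‖ ^ 2 = ‖b - a‖ ^ 2 + 4 * (a.im * b.im) := by
  simp [Complex.sq_norm, Complex.normSq_apply]
  ring

theorem msp1_lt {a b : ℂ} (ha : 0 < a.im) (hb : 0 < b.im) : ‖b - a‖ < ‖b - star a‖ :=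
  lt_of_pow_lt_pow_left₀ 2 (norm_nonneg _) (by linarith [msp1_sq a b, mul_pos ha hb])

theorem msp1_schwarz {φ : ℂ → ℂ} (h : DifferentiableOn ℂ φ {z | 0 < z.im})
    (hp : ∀ z : ℂ, 0 < z.im → 0 < (φ z).im) {z : ℂ} (hz : 0 < z.im) :
    ‖φ z - φ .I‖ / ‖φ z - star (φ .I)‖ ≤ ‖z - .I‖ / ‖z + .I‖ := by
  have n1 : ∀ w ∈ Metric.ball (0 : ℂ) 1, 1 - w ≠ 0 := fun w hw e => by
    simp [← sub_eq_zero.1 e] at hw
  have m : ∀ w ∈ Metric.ball (0 : ℂ) 1, 0 < (Complex.I * ((1 + w) / (1 - w))).im := fun w hw => by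
    have h1 := Complex.normSq_pos.2 (n1 w hw)
    have h2 : Complex.normSq w < 1 := by
      rw [← Complex.sq_norm]
      exact pow_lt_one₀ (norm_nonneg _) (mem_ball_zero_iff.1 hw) two_ne_zero
    rw [Complex.I_mul_im, Complex.div_re, ← add_div]
    refine div_pos ?_ h1
    simp only [Complex.normSq_apply] at h2
    simp
    linarith
  have a0 := hp .I (by simp)
  have k := fun w hw => msp1_lt a0 (hp _ (m w hw))
  have d : DifferentiableOn ℂ (fun w => φ (.I * ((1 + w) / (1 - w)))) (Metric.ball 0 1) :=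
    h.comp (((differentiableOn_id.const_add 1).div (differentiableOn_id.const_sub 1) n1).const_mul
      _) m
  have z1 := msp1_lt (a := .I) (by simp) hz
  rw [Complex.star_def, Complex.conj_I, sub_neg_eq_add] at z1
  have z0 := (norm_nonneg _).trans_lt z1
  have z2 := norm_pos_iff.1 z0
  have e : Complex.I * ((1 + (z - .I) / (z + .I)) / (1 - (z - .I) / (z + .I))) = z := by
    field_simp
    ring
  have := Complex.norm_le_norm_of_mapsTo_ball (z := (z - .I) / (z + .I))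
    ((d.sub_const (φ .I)).div (d.sub_const (star (φ .I))) fun w hw =>
      norm_pos_iff.1 ((norm_nonneg _).trans_lt (k w hw)))
    (fun w hw => mem_closedBall_zero_iff.2
      ((norm_div _ _).trans_le (div_le_one_of_le₀ (k w hw).le (norm_nonneg _))))
    (by simp) (by rwa [norm_div, div_lt_one z0])
  simpa only [Pi.div_apply, e, norm_div] using this

/-- With `a = φ I`, `b = φ z`, `r = ‖z - I‖ / ‖z + I‖`: the Schwarz lemma for
`w ↦ (φ (I (1 + w) / (1 - w)) - a) / (φ (..) - conj a)` gives `‖b - a‖ ≤ r ‖b - conj a‖`;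
`‖b - conj a‖ ^ 2 - ‖b - a‖ ^ 2 = 4 (Im a) (Im b)` and `1 - r ^ 2 = 4 Im z / ‖z + I‖ ^ 2`. -/
theorem pick_scalar {φ : ℂ → ℂ} (h : DifferentiableOn ℂ φ {z | 0 < z.im})
    (hp : ∀ z : ℂ, 0 < z.im → 0 < (φ z).im) {z : ℂ} (hz : 0 < z.im) :
    (φ Complex.I).im * (z.im / ‖z + Complex.I‖ ^ 2) ≤ (φ z).im ∧
      ‖φ z‖ ≤ ‖φ Complex.I‖ + (φ Complex.I).im * (‖z + Complex.I‖ ^ 2 / z.im) := by
  have a0 := hp .I (by simp)
  have b0 := hp z hz
  have h1 := msp1_schwarz h hp hz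
  have h2 := msp1_sq (φ .I) (φ z)
  have h3 := msp1_sq .I z
  have h4 : (φ z).im + (φ .I).im ≤ ‖φ z - star (φ .I)‖ := by
    simpa using Complex.im_le_norm (φ z - star (φ .I))
  have h5 : ‖φ z‖ ≤ ‖φ z - star (φ .I)‖ + ‖φ .I‖ := by
    simpa using norm_add_le (φ z - star (φ .I)) (star (φ .I))
  rw [Complex.star_def, Complex.conj_I, sub_neg_eq_add, Complex.I_im, one_mul] at h3
  have n0 : 0 < ‖z + .I‖ ^ 2 := by nlinarith
  have d0 : 0 < ‖φ z - star (φ .I)‖ := by linarith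
  have h6 := pow_le_pow_left₀ (by positivity) h1 2
  rw [div_pow, div_pow, div_le_div_iff₀ (by positivity) n0] at h6
  generalize ‖φ z - star (φ .I)‖ = D at *
  generalize ‖z + .I‖ ^ 2 = N at *
  have h7 : D ^ 2 * z.im ≤ (φ .I).im * (φ z).im * N := by nlinarith
  refine ⟨?_, h5.trans ((add_comm _ _).trans_le (add_le_add le_rfl ?_))⟩
  · rw [← mul_div_assoc, div_le_iff₀ n0]
    refine le_of_mul_le_mul_left ?_ a0
    have := mul_le_mul_of_nonneg_right
      (pow_le_pow_left₀ a0.le (show (φ .I).im ≤ D by linarith) 2) hz.le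
    linarith
  · rw [← mul_div_assoc, le_div_iff₀ hz]
    refine le_of_mul_le_mul_left ?_ d0
    have := mul_le_mul_of_nonneg_left (show (φ z).im ≤ D by linarith) (mul_pos a0 n0).le
    linarith

end Pool.Agent.E7
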