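import Pool.Agent.Lib.MP_7e5527_ag.EL.MSm1

/-! The ring of smooth functions on the half plane with its two derivations. -/

open UpperHalfPlane MatrixGroups ContDiff

noncomputable section

namespace Pool.Agent.E7

theorem msm_diff (φ : SmH) {z : ℂ} (hz : 0 < z.im) : DifferentiableAt ℝ (φ.1 ∘ ofComplex) z :=
  (ContDiffOn.contDiffAt φ.2 (isOpen_UH.mem_nhds hz)).differentiableAt (by simp)

theorem msm_D1 (φ : SmH) (τ : ℍ) : (D1 φ).1 τ = (dv 1 φ).1 τ - Complex.I * (dv Complex.I φ).1 τ :=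
  rfl

theorem msm_D2 (φ : SmH) (τ : ℍ) : (D2 φ).1 τ = (dv 1 φ).1 τ + Complex.I * (dv Complex.I φ).1 τ :=
  rfl

theorem hol_mem {φ : ℍ → ℂ} (h : DifferentiableOn ℂ (φ ∘ ofComplex) {z | 0 < z.im}) : φ ∈ SmH :=
  (h.contDiffOn (n := ∞) isOpen_UH).restrict_scalars ℝ

theorem D2_hol {φ : SmH} (h : DifferentiableOn ℂ (φ.1 ∘ ofComplex) {z | 0 < z.im}) : D2 φ = 0 := by
  refine Subtype.ext (funext fun τ => ?_)
  have := (h.differentiableAt (isOpen_UH.mem_nhds τ.im_pos)).hasDerivAt.hasFDerivAt.restrictScalars ℝ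
  rw [msm_D2, dv_apply, dv_apply, this.fderiv]
  simp
  linear_combination deriv (φ.1 ∘ ofComplex) τ * Complex.I_mul_I

theorem const_of_D {φ : SmH} (h1 : D1 φ = 0) (h2 : D2 φ = 0) (τ τ' : ℍ) : φ.1 τ = φ.1 τ' := by
  have := isOpen_UH.is_const_of_fderiv_eq_zero (𝕜 := ℝ) (convex_halfSpace_im_gt 0).isPreconnected
    (fun z hz => (msm_diff φ hz).differentiableWithinAt) (fun z hz => by
      have e1 : (D1 φ).1 ⟨z, hz⟩ = 0 := by rw [h1]; rfl
      have e2 : (D2 φ).1 ⟨z, hz⟩ = 0 := by rw [h2]; rfl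
      rw [msm_D1, dv_apply, dv_apply] at e1
      rw [msm_D2, dv_apply, dv_apply] at e2
      have a : fderiv ℝ (φ.1 ∘ ofComplex) z 1 = 0 := by linear_combination (e1 + e2) / 2
      have b : fderiv ℝ (φ.1 ∘ ofComplex) z Complex.I = 0 :=
        (mul_eq_zero.1 (by linear_combination (e2 - e1) / 2)).resolve_left Complex.I_ne_zero
      ext w
      have : w = w.re • (1 : ℂ) + w.im • Complex.I := by simp
      rw [this, map_add, map_smul, map_smul, a, b]
      simp) τ.im_pos τ'.im_pos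
  simpa using this

theorem D_of_const {φ : SmH} (h : ∀ τ τ', φ.1 τ = φ.1 τ') : D1 φ = 0 ∧ D2 φ = 0 := by
  have e : φ.1 ∘ ofComplex = fun _ => φ.1 UpperHalfPlane.I := funext fun _ => h _ _
  constructor <;> refine Subtype.ext (funext fun τ => ?_)
  · rw [msm_D1, dv_apply, dv_apply, e]; simp
  · rw [msm_D2, dv_apply, dv_apply, e]; simp

theorem inv_mem_Sm {φ : ℍ → ℂ} (h : φ ∈ SmH) (h0 : ∀ τ, φ τ ≠ 0) : (fun τ => (φ τ)⁻¹) ∈ SmH :=
  ContDiffOn.inv h fun _ _ => h0 _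

theorem exists_logSm {φ : SmH} (h : ∀ τ, 0 < (φ.1 τ).re ∧ (φ.1 τ).im = 0) : ∃ L : SmH,
    (∀ τ, L.1 τ = (Real.log (φ.1 τ).re : ℝ)) ∧ φ * D1 L = D1 φ ∧ φ * D2 L = D2 φ := by
  have sl : ∀ τ, φ.1 τ ∈ Complex.slitPlane := fun τ => Or.inl (h τ).1
  have mem : (fun τ => Complex.log (φ.1 τ)) ∈ SmH := fun z hz =>
    ((Complex.contDiffAt_log (n := ∞) (sl (ofComplex z))).restrict_scalars ℝ).comp_contDiffWithinAt
      (f := φ.1 ∘ ofComplex) z (φ.2 z hz)
  have key : ∀ (v : ℂ) (τ : ℍ), φ.1 τ * (dv v ⟨_, mem⟩).1 τ = (dv v φ).1 τ := fun v τ => by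
    have := ((Complex.hasDerivAt_log (sl (ofComplex τ))).hasFDerivAt.restrictScalars ℝ).comp (τ : ℂ)
      (msm_diff φ τ.im_pos).hasFDerivAt
    show φ.1 τ * fderiv ℝ (Complex.log ∘ φ.1 ∘ ofComplex) τ v = _
    rw [dv_apply, this.fderiv]
    simp
    field_simp [Complex.slitPlane_ne_zero (sl τ)]
  refine ⟨⟨_, mem⟩, fun τ => ?_, Subtype.ext (funext fun τ => ?_), Subtype.ext (funext fun τ => ?_)⟩
  · rw [Complex.ofReal_log (h τ).1.le]
    exact congrArg Complex.log (Complex.ext (by simp) (by simp [(h τ).2]))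
  · show φ.1 τ * (D1 ⟨_, mem⟩).1 τ = _
    rw [msm_D1, msm_D1, ← key 1 τ, ← key Complex.I τ]; ring
  · show φ.1 τ * (D2 ⟨_, mem⟩).1 τ = _
    rw [msm_D2, msm_D2, ← key 1 τ, ← key Complex.I τ]; ring

/-- The coordinate. -/
def zS : SmH := ⟨fun τ => (τ : ℂ), hol_mem (differentiableOn_id.congr fun z hz => by
  simp [ofComplex_apply_of_im_pos hz])⟩

theorem D1_zS : D1 zS = 2 := by
  refine Subtype.ext (funext fun τ => ?_)
  have : fderiv ℝ (zS.1 ∘ ofComplex) τ = _ :=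
    (eventuallyEq_coe_comp_ofComplex τ.im_pos).fderiv_eq.trans fderiv_id
  rw [msm_D1, dv_apply, dv_apply, this]
  show _ = (2 : ℂ)
  simp
  norm_num

theorem D2_zS : D2 zS = 0 := D2_hol (differentiableOn_id.congr fun z hz => by
  simp [zS, ofComplex_apply_of_im_pos hz])

theorem msm_second {g : ℝ → ℝ} (h : IsLocalMax g 0) (hc : ContinuousAt g 0) :
    deriv (deriv g) 0 ≤ 0 := by
  by_contra n
  have h' := isLocalMin_of_deriv_deriv_pos (not_le.1 n) h.deriv_eq_zero hc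
  have e : g =ᶠ[nhds 0] fun _ => g 0 := (Filter.Eventually.and h h').mono fun _ k => le_antisymm k.1 k.2
  exact n (by rw [e.deriv.deriv_eq]; simp)

theorem msm_line (φ : SmH) (τ v : ℂ) {t : ℝ} (ht : 0 < (τ + t • v).im) :
    HasDerivAt (fun s : ℝ => ((φ.1 ∘ ofComplex) (τ + s • v)).re)
      (((dv v φ).1 ∘ ofComplex) (τ + t • v)).re t := by
  have h1 : HasDerivAt (fun s : ℝ => τ + s • v) v t := by
    simpa using ((hasDerivAt_id t).smul_const v).const_add τ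
  have := Complex.reCLM.hasFDerivAt.comp_hasDerivAt t
    ((msm_diff φ ht).hasFDerivAt.comp_hasDerivAt t h1)
  rw [Function.comp_apply, ofComplex_apply_of_im_pos ht, dv_apply]
  exact this

theorem msm_dir (φ : SmH) {τ : ℍ} (h : IsLocalMax (fun σ => (φ.1 σ).re) τ) (v : ℂ) :
    ((dv v (dv v φ)).1 τ).re ≤ 0 := by
  have c : Continuous fun s : ℝ => (τ : ℂ) + s • v := by fun_prop
  have h0 : 0 < ((τ : ℂ) + (0 : ℝ) • v).im := by simpa using τ.im_pos
  have ev : ∀ᶠ t : ℝ in nhds 0, 0 < ((τ : ℂ) + t • v).im :=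
    c.continuousAt.eventually_mem (isOpen_UH.mem_nhds h0)
  have co : ContinuousAt (fun s : ℝ => ofComplex ((τ : ℂ) + s • v)) 0 :=
    (contMDiffAt_ofComplex (n := 0) h0).continuousAt.comp (f := fun s : ℝ => (τ : ℂ) + s • v)
      c.continuousAt
  have := msm_second (IsLocalMax.comp_continuous (f := fun σ => (φ.1 σ).re) (by simpa using h) co)
    (msm_line φ τ v h0).continuousAt
  have e : deriv (fun s : ℝ => ((φ.1 ∘ ofComplex) (τ + s • v)).re) =ᶠ[nhds 0]
      fun s : ℝ => (((dv v φ).1 ∘ ofComplex) (τ + s • v)).re := ev.mono fun t ht =>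
    (msm_line φ τ v ht).deriv
  have e' := e.deriv_eq.trans (msm_line (dv v φ) τ v h0).deriv
  simp only [zero_smul, add_zero, Function.comp_apply, ofComplex_apply] at e'
  exact e' ▸ this

/-- Restrict to the lines `τ + t` and `τ + t I`: at a local maximum of a function of one real
variable the second derivative is not positive. -/
theorem lap_max (φ : SmH) {τ : ℍ} (h : IsLocalMax (fun σ => (φ.1 σ).re) τ) :
    ((D1 (D2 φ)).1 τ).re ≤ 0 := by
  rw [D1_D2_eq]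
  exact (Complex.add_re _ _).trans_le (add_nonpos (msm_dir φ h 1) (msm_dir φ h Complex.I))

/-- Smooth subharmonic functions. -/
def Sub (v : ℍ → ℝ) : Prop :=
  ∃ φ : SmH, (∀ τ, φ.1 τ = v τ) ∧ ∀ τ, 0 ≤ ((D1 (D2 φ)).1 τ).re

end Pool.Agent.E7
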