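import Mathlib

/-! The ring of smooth functions on the half plane with its two derivations. -/

open UpperHalfPlane MatrixGroups ContDiff

noncomputable section

namespace Pool.Agent.E7

/-- Smooth functions on the half plane. -/
def SmH : StarSubalgebra ℂ (ℍ → ℂ) where
  carrier := {φ | ContDiffOn ℝ ∞ (φ ∘ ofComplex) {z | 0 < z.im}}
  mul_mem' := fun hF hG => ContDiffOn.mul hF hG
  add_mem' := fun hF hG => ContDiffOn.add hF hG
  algebraMap_mem' := fun c => contDiffOn_const (c := c)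
  star_mem' := fun h => Complex.conjCLE.contDiff.comp_contDiffOn h

/-- Evaluation. -/
def evS (𝓑 : StarSubalgebra ℂ (ℍ → ℂ)) (τ : ℍ) : 𝓑 →ₐ[ℂ] ℂ :=
  (Pi.evalAlgHom ℂ (fun _ => ℂ) τ).comp 𝓑.toSubalgebra.val

theorem evS_apply (𝓑 : StarSubalgebra ℂ (ℍ → ℂ)) (τ : ℍ) (φ : 𝓑) : evS 𝓑 τ φ = φ.1 τ := rfl

theorem evS_star (𝓑 : StarSubalgebra ℂ (ℍ → ℂ)) (τ : ℍ) (φ : 𝓑) :
    evS 𝓑 τ (star φ) = star (evS 𝓑 τ φ) := rfl

theorem isOpen_UH : IsOpen {z : ℂ | 0 < z.im} := isOpen_lt continuous_const Complex.continuous_im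

theorem msm1_at (φ : SmH) (τ : ℍ) : ContDiffAt ℝ ∞ (φ.1 ∘ ofComplex) τ :=
  ContDiffOn.contDiffAt φ.2 (isOpen_UH.mem_nhds τ.im_pos)

theorem msm1_diff (φ : SmH) (τ : ℍ) : DifferentiableAt ℝ (φ.1 ∘ ofComplex) τ :=
  (msm1_at φ τ).differentiableAt (by simp)

theorem msm1_eq (v : ℂ) (f : ℂ → ℂ) {z : ℂ} (hz : 0 < z.im) :
    ((fun τ : ℍ => fderiv ℝ f τ v) ∘ ofComplex) z = fderiv ℝ f z v := by
  rw [Function.comp_apply, ofComplex_apply_of_im_pos hz]

theorem SmH.continuous (φ : SmH) : Continuous φ.1 := by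
  refine continuous_iff_continuousAt.2 fun τ => ?_
  have h := (msm1_at φ τ).continuousAt.comp continuous_coe.continuousAt
  refine h.congr (Filter.Eventually.of_forall fun σ => ?_)
  simp only [Function.comp_apply, ofComplex_apply]

theorem dv_mem (v : ℂ) (φ : SmH) : (fun τ : ℍ => fderiv ℝ (φ.1 ∘ ofComplex) τ v) ∈ SmH :=
  ((ContDiffOn.fderiv_of_isOpen (m := ∞) φ.2 isOpen_UH (by simp)).clm_apply
    contDiffOn_const).congr fun _ hz => msm1_eq v _ hz

theorem dv_add (v : ℂ) (φ ψ : SmH) (τ : ℍ) : fderiv ℝ ((φ + ψ).1 ∘ ofComplex) τ v =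
    fderiv ℝ (φ.1 ∘ ofComplex) τ v + fderiv ℝ (ψ.1 ∘ ofComplex) τ v :=
  DFunLike.congr_fun (fderiv_add (msm1_diff φ τ) (msm1_diff ψ τ)) v

theorem dv_smul (v c : ℂ) (φ : SmH) (τ : ℍ) : fderiv ℝ ((c • φ).1 ∘ ofComplex) τ v =
    c * fderiv ℝ (φ.1 ∘ ofComplex) τ v :=
  DFunLike.congr_fun (fderiv_const_smul (msm1_diff φ τ) c) v

theorem dv_mul (v : ℂ) (φ ψ : SmH) (τ : ℍ) : fderiv ℝ ((φ * ψ).1 ∘ ofComplex) τ v =
    φ.1 τ * fderiv ℝ (ψ.1 ∘ ofComplex) τ v + ψ.1 τ * fderiv ℝ (φ.1 ∘ ofComplex) τ v := by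
  have h := DFunLike.congr_fun (fderiv_mul (msm1_diff φ τ) (msm1_diff ψ τ)) v
  simp only [add_apply, smul_apply, Function.comp_apply, ofComplex_apply, smul_eq_mul] at h
  exact h

/-- The derivative in the direction `v`. -/
def dv (v : ℂ) : Derivation ℂ SmH SmH :=
  Derivation.mk'
    { toFun := fun φ => ⟨_, dv_mem v φ⟩
      map_add' := fun φ ψ => Subtype.ext (funext (dv_add v φ ψ))
      map_smul' := fun c φ => Subtype.ext (funext (dv_smul v c φ)) }
    fun φ ψ => Subtype.ext (funext (dv_mul v φ ψ))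

theorem dv_apply (v : ℂ) (φ : SmH) (τ : ℍ) : (dv v φ).1 τ = fderiv ℝ (φ.1 ∘ ofComplex) τ v := rfl

/-- Twice the derivative in `z`. -/
def D1 : Derivation ℂ SmH SmH := dv 1 - Complex.I • dv Complex.I

/-- Twice the derivative in the conjugate of `z`. -/
def D2 : Derivation ℂ SmH SmH := dv 1 + Complex.I • dv Complex.I

theorem msm1_two (v w : ℂ) (φ : SmH) (τ : ℍ) :
    (dv v (dv w φ)).1 τ = fderiv ℝ (fderiv ℝ (φ.1 ∘ ofComplex)) τ v w := by
  have h : (dv w φ).1 ∘ ofComplex =ᶠ[nhds (τ : ℂ)] fun z => fderiv ℝ (φ.1 ∘ ofComplex) z w :=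
    Filter.eventually_of_mem (isOpen_UH.mem_nhds τ.im_pos) fun _ hz => msm1_eq w _ hz
  have h2 : DifferentiableAt ℝ (fderiv ℝ (φ.1 ∘ ofComplex)) τ :=
    ((msm1_at φ τ).fderiv_right (m := 1) (by norm_cast)).differentiableAt one_ne_zero
  rw [dv_apply, h.fderiv_eq, fderiv_clm_apply h2 (differentiableAt_const w)]
  simp

/-- Symmetry of the second derivative. -/
theorem dv_comm (v w : ℂ) (φ : SmH) : dv v (dv w φ) = dv w (dv v φ) :=
  Subtype.ext (funext fun τ => by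
    rw [msm1_two, msm1_two]
    exact ((msm1_at φ τ).isSymmSndFDerivAt (by simp; norm_cast)).eq v w)

theorem star_dv (v : ℂ) (φ : SmH) : star (dv v φ) = dv v (star φ) :=
  Subtype.ext (funext fun τ => (DFunLike.congr_fun
    (Complex.conjCLE.comp_fderiv (f := φ.1 ∘ ofComplex) (x := τ)) v).symm)

theorem msm1_D1 (φ : SmH) : D1 φ = dv 1 φ - Complex.I • dv Complex.I φ := rfl

theorem msm1_D2 (φ : SmH) : D2 φ = dv 1 φ + Complex.I • dv Complex.I φ := rfl

theorem D1_D2 (φ : SmH) : D1 (D2 φ) = D2 (D1 φ) := by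
  simp only [msm1_D1, msm1_D2, map_add, map_sub, Derivation.map_smul, dv_comm 1 Complex.I]
  module

theorem D1_D2_eq (φ : SmH) :
    D1 (D2 φ) = dv 1 (dv 1 φ) + dv Complex.I (dv Complex.I φ) := by
  simp only [msm1_D1, msm1_D2, map_add, Derivation.map_smul, dv_comm 1 Complex.I]
  match_scalars <;> simp [← sq]

theorem star_D1 (φ : SmH) : star (D1 φ) = D2 (star φ) := by
  rw [msm1_D1, msm1_D2, star_sub, star_smul, star_dv, star_dv, Complex.star_def, Complex.conj_I]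
  module

theorem star_D2 (φ : SmH) : star (D2 φ) = D1 (star φ) := by
  rw [msm1_D1, msm1_D2, star_add, star_smul, star_dv, star_dv, Complex.star_def, Complex.conj_I]
  module

end Pool.Agent.E7
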