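import Mathlib

/-! Tensor powers of matrices. -/

open Matrix
open scoped ComplexOrder

noncomputable section

namespace Pool.Agent.E7

variable {A : Type} [CommRing A] {ι κ : Type} [Fintype ι] [DecidableEq ι] [Fintype κ]
  [DecidableEq κ]

/-- Tensor product of a family of matrices. -/
def tp (G : κ → Matrix ι ι A) : Matrix (κ → ι) (κ → ι) A :=
  Matrix.of fun a b => ∏ k, G k (a k) (b k)

/-- Tensor power. -/
def Rp (κ : Type) [Fintype κ] (G : Matrix ι ι A) : Matrix (κ → ι) (κ → ι) A := tp fun _ => G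

/-- The derived representation. -/
def dR (κ : Type) [Fintype κ] [DecidableEq κ] (X : Matrix ι ι A) : Matrix (κ → ι) (κ → ι) A :=
  ∑ k : κ, tp (Function.update (fun _ => 1) k X)

/-- `X` raises the degree by `n`. -/
def Hom (deg : ι → ℕ) (n : ℕ) (X : Matrix ι ι A) : Prop := ∀ a b, deg a ≠ deg b + n → X a b = 0

/-- Total degree. -/
def tdeg (deg : ι → ℕ) (a : κ → ι) : ℕ := ∑ k, deg (a k)

/-- Projection on the part of degree `q`. -/
def pr (A : Type) [CommRing A] (deg : ι → ℕ) (q : ℕ) : Matrix ι ι A :=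
  diagonal fun a => if deg a = q then 1 else 0

/-- The sign of the degree. -/
def sg (deg : ι → ℕ) : Matrix ι ι ℂ := diagonal fun a => (-1) ^ deg a

/-- The part of degree `q` in the frame `G`. -/
def sec (deg : ι → ℕ) (G G' : Matrix ι ι A) (q : ℕ) (t : ι → A) : ι → A :=
  G *ᵥ pr A deg q *ᵥ G' *ᵥ t

/-- Tensor power of a vector. -/
def pw (κ : Type) [Fintype κ] (v : ι → A) : (κ → ι) → A := fun a => ∏ k, v (a k)

/-- `Finset.prod_univ_sum`, `Fintype.piFinset_univ`. -/
theorem tp_mul (G H : κ → Matrix ι ι A) : tp (fun k => G k * H k) = tp G * tp H := by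
  ext a b
  simp only [tp, of_apply, Matrix.mul_apply, ← Finset.prod_mul_distrib, Finset.prod_univ_sum,
    Fintype.piFinset_univ]

theorem mte1_upd (G : κ → Matrix ι ι A) (k : κ) (X : Matrix ι ι A) (a b : κ → ι) :
    tp (Function.update G k X) a b =
      X (a k) (b k) * ∏ l ∈ Finset.univ.erase k, G l (a l) (b l) := by
  rw [tp, of_apply, ← Finset.mul_prod_erase _ _ (Finset.mem_univ k), Function.update_self]
  exact congrArg _ (Finset.prod_congr rfl fun l hl => by
    rw [Function.update_of_ne (Finset.ne_of_mem_erase hl)])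

theorem Rp_one : Rp κ (1 : Matrix ι ι A) = 1 := by
  ext a b
  simp only [Rp, tp, of_apply, Matrix.one_apply, Finset.prod_boole, Finset.mem_univ, forall_const,
    funext_iff]

theorem Rp_mul (G H : Matrix ι ι A) : Rp κ (G * H) = Rp κ G * Rp κ H := tp_mul _ _

theorem Rp_map {B : Type} [CommRing B] (φ : A →+* B) (G : Matrix ι ι A) :
    (Rp κ G).map φ = Rp κ (G.map φ) := by
  ext a b
  simp only [Rp, tp, of_apply, Matrix.map_apply, map_prod]

theorem dR_map {B : Type} [CommRing B] (φ : A →+* B) (X : Matrix ι ι A) :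
    (dR κ X).map φ = dR κ (X.map φ) := by
  ext a b
  simp only [dR, Matrix.map_apply, Matrix.sum_apply, mte1_upd, map_sum, map_mul, map_prod, Matrix.one_apply,
    apply_ite φ, map_one, map_zero]

theorem Rp_star [StarRing A] (G : Matrix ι ι A) : (Rp κ G)ᴴ = Rp κ Gᴴ := by
  ext a b
  simp only [Rp, tp, of_apply, conjTranspose_apply, star_prod]

theorem Rp_diagonal (c : ι → A) : Rp κ (diagonal c) = diagonal fun a => ∏ k, c (a k) := by
  ext a b
  by_cases h : a = b
  · simp [Rp, tp, h]
  · obtain ⟨k, hk⟩ := Function.ne_iff.1 h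
    rw [diagonal_apply_ne _ h]
    exact Finset.prod_eq_zero (Finset.mem_univ k) (diagonal_apply_ne _ hk)

theorem Rp_pw (G : Matrix ι ι A) (v : ι → A) : Rp κ G *ᵥ pw κ v = pw κ (G *ᵥ v) := by
  ext a
  simp only [Rp, tp, pw, of_apply, mulVec, dotProduct, ← Finset.prod_mul_distrib,
    Finset.prod_univ_sum, Fintype.piFinset_univ]

theorem pw_smul (c : A) (v : ι → A) : pw κ (c • v) = c ^ Fintype.card κ • pw κ v := by
  ext a
  simp [pw, Finset.prod_mul_distrib]

theorem dR_add (X Y : Matrix ι ι A) : dR κ (X + Y) = dR κ X + dR κ Y := by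
  ext a b
  simp only [dR, Matrix.add_apply, Matrix.sum_apply, mte1_upd, add_mul, Finset.sum_add_distrib]

theorem dR_smul (c : A) (X : Matrix ι ι A) : dR κ (c • X) = c • dR κ X := by
  ext a b
  simp only [dR, Matrix.smul_apply, Matrix.sum_apply, mte1_upd, smul_eq_mul, mul_assoc, Finset.mul_sum]

theorem dR_zero : dR κ (0 : Matrix ι ι A) = 0 := by
  simpa using dR_smul (κ := κ) 0 (0 : Matrix ι ι A)

theorem dR_conj {G G' : Matrix ι ι A} (h : G * G' = 1) (X : Matrix ι ι A) :
    dR κ (G * X * G') = Rp κ G * dR κ X * Rp κ G' := by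
  simp only [dR, Rp, Finset.mul_sum, Finset.sum_mul, ← tp_mul]
  refine Finset.sum_congr rfl fun k _ => congrArg _ (funext fun l => ?_)
  by_cases e : l = k <;> simp [e, h]

theorem mte1_leib [Algebra ℂ A] (D : Derivation ℂ A A) (f : κ → A) (s : Finset κ) :
    D (∏ k ∈ s, f k) = ∑ k ∈ s, D (f k) * ∏ l ∈ s.erase k, f l := by
  induction s using Finset.induction_on with
  | empty => simp
  | insert a s ha ih =>
    rw [Finset.prod_insert ha, Finset.sum_insert ha, Finset.erase_insert ha, D.leibniz, ih,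
      smul_eq_mul, smul_eq_mul, add_comm, mul_comm, Finset.mul_sum]
    refine congrArg _ (Finset.sum_congr rfl fun k hk => ?_)
    rw [Finset.erase_insert_of_ne (ne_of_mem_of_not_mem hk ha).symm,
      Finset.prod_insert fun h => ha (Finset.mem_of_mem_erase h), mul_left_comm]

/-- Product rule and `tp_mul`. -/
theorem Rp_deriv [Algebra ℂ A] (D : Derivation ℂ A A) {G Θ : Matrix ι ι A}
    (h : G.map D = G * Θ) : (Rp κ G).map D = Rp κ G * dR κ Θ := by
  have e : ∀ k : κ, Rp κ G * tp (Function.update (fun _ => 1) k Θ) =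
      tp (Function.update (fun _ => G) k (G.map D)) := fun k => by
    rw [Rp, ← tp_mul]
    refine congrArg _ (funext fun l => ?_)
    by_cases e : l = k <;> simp [e, h]
  ext a b
  simp only [dR, Finset.mul_sum, e, Matrix.sum_apply, mte1_upd]
  simp only [Rp, tp, Matrix.map_apply, of_apply, mte1_leib]

end Pool.Agent.E7
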