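import Pool.Agent.Lib.MP_7e5527_ag.EL.MSm
import Pool.Agent.Lib.MP_7e5527_ag.EL.MTen

/-! The curvature computation for a polarised variation of Hodge structure on the half plane. -/

open UpperHalfPlane Matrix
open scoped ComplexOrder

noncomputable section

namespace Pool.Agent.E7

/-- The value of a matrix of functions. -/
def mv {ι : Type} {𝓑 : StarSubalgebra ℂ (ℍ → ℂ)} (G : Matrix ι ι 𝓑) (τ : ℍ) : Matrix ι ι ℂ :=
  G.map (evS 𝓑 τ)

/-- The Hodge norm of a vector of degree `q`. -/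
def hn {ι : Type} [Fintype ι] (Q : Matrix ι ι ℂ) (q : ℕ) (s : ι → ℂ) : ℝ :=
  ((-1) ^ q * (star s ⬝ᵥ Q *ᵥ s)).re

/-- A frame adapted to the Hodge decomposition. -/
structure Vhs (ι : Type) [Fintype ι] [DecidableEq ι] where
  deg : ι → ℕ
  G : Matrix ι ι SmH
  G' : Matrix ι ι SmH
  Θ : Matrix ι ι SmH
  Q : Matrix ι ι ℂ
  inv : G * G' = 1
  d1 : G.map D1 = G * Θ
  hom : Hom deg 1 Θ
  herm : Qᴴ = Q
  blk : ∀ τ, Hom deg 0 ((mv G τ)ᴴ * Q * mv G τ)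
  pos : ∀ τ, (sg deg * ((mv G τ)ᴴ * Q * mv G τ)).PosDef

variable {ι : Type} [Fintype ι] [DecidableEq ι]

/-- The part of degree `q` of a constant vector. -/
def Vhs.s (V : Vhs ι) (q : ℕ) (t : ι → ℂ) (τ : ℍ) : ι → ℂ :=
  sec V.deg (mv V.G τ) (mv V.G' τ) q t

omit [DecidableEq ι] in
theorem mvh1_H (G : Matrix ι ι SmH) (Q : Matrix ι ι ℂ) (τ : ℍ) :
    mv (Gᴴ * Q.map (algebraMap ℂ SmH) * G) τ = (mv G τ)ᴴ * Q * mv G τ := by
  ext a b
  simp [mv, Matrix.mul_apply, evS_star]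

theorem mvh1_Rp (κ : Type) [Fintype κ] [DecidableEq κ] (G : Matrix ι ι SmH) (τ : ℍ) :
    mv (Rp κ G) τ = Rp κ (mv G τ) := Rp_map (evS SmH τ).toRingHom G

/-- The tensor power. -/
theorem Vhs.tensor (V : Vhs ι) (κ : Type) [Fintype κ] [DecidableEq κ] : ∃ T : Vhs (κ → ι),
    T.deg = tdeg V.deg ∧ T.Q = Rp κ V.Q ∧
      ∀ τ, mv T.G τ = Rp κ (mv V.G τ) ∧ mv T.G' τ = Rp κ (mv V.G' τ) := by
  have e : ∀ τ, (mv (Rp κ V.G) τ)ᴴ * Rp κ V.Q * mv (Rp κ V.G) τ =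
      Rp κ ((mv V.G τ)ᴴ * V.Q * mv V.G τ) := fun τ => by
    rw [mvh1_Rp, Rp_star, Rp_mul, Rp_mul]
  exact ⟨⟨tdeg V.deg, Rp κ V.G, Rp κ V.G', dR κ V.Θ, Rp κ V.Q,
    by rw [← Rp_mul, V.inv, Rp_one], Rp_deriv D1 V.d1, V.hom.dR, by rw [Rp_star, V.herm],
    fun τ => (e τ).symm ▸ (V.blk τ).Rp,
    fun τ => by rw [e, ← Rp_sg, ← Rp_mul]; exact posDef_Rp (V.pos τ)⟩, rfl, rfl,
    fun τ => ⟨mvh1_Rp κ _ τ, mvh1_Rp κ _ τ⟩⟩

section Alg

variable {A : Type} [CommRing A] [Algebra ℂ A] (D : Derivation ℂ A A)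

omit [DecidableEq ι] in
theorem mvh1_vec (M : Matrix ι ι A) (v : ι → A) :
    (fun a => D ((M *ᵥ v) a)) = M.map D *ᵥ v + M *ᵥ fun a => D (v a) := by
  funext a
  simp [mulVec, dotProduct, Finset.sum_add_distrib, mul_comm, add_comm]

omit [DecidableEq ι] in
theorem mvh1_mul (M N : Matrix ι ι A) : (M * N).map D = M.map D * N + M * N.map D := by
  ext a b
  simp [Matrix.mul_apply, Finset.sum_add_distrib, mul_comm, add_comm]

theorem mvh1_pr (deg : ι → ℕ) (q : ℕ) (v : ι → A) :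
    (fun a => D ((pr A deg q *ᵥ v) a)) = pr A deg q *ᵥ fun a => D (v a) := by
  funext a
  simp only [pr, mulVec_diagonal]
  split_ifs <;> simp

omit [Fintype ι] [Algebra ℂ A] in
theorem mvh1_star [StarRing A] (deg : ι → ℕ) (q : ℕ) : (pr A deg q)ᴴ = pr A deg q := by
  rw [pr, diagonal_conjTranspose]
  congr 1
  funext a
  simp only [Pi.star_apply]
  split_ifs <;> simp

omit [Algebra ℂ A] in
theorem mvh1_com {deg : ι → ℕ} {X : Matrix ι ι A} (h : Hom deg 0 X) (q : ℕ) (v : ι → A) :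
    pr A deg q *ᵥ X *ᵥ v = X *ᵥ pr A deg q *ᵥ v := by
  rw [mulVec_mulVec, mulVec_mulVec, ← h.pr_mul q, add_zero]

end Alg

/-- The algebra of the computation, in any ring with two derivations. Put `y = G' t`, `x = π y`,
`H = Gᴴ Q G`, `Θ' = G' * G.map D2`, `z = Θ' x + D2 x`. From `G y = t`: `D1 y = -Θ y`,
`D2 y = -Θ' y`; `D1 x = 0` (`Hom.pr_mul`, `Hom.pr_lt`, lower parts vanish), so `D1 s = G Θ x` and
`D2 s = G z`. `H.map D2 = Θᴴ H + H Θ'`; the part of degree `q - 1` of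
`H D2 y = -(H.map D2) y + Θᴴ H y` is `Θᴴ H x = 0`; so `H z = (H.map D2) x + H D2 x` has degree `q`. -/
theorem vhs_alg (V : Vhs ι) (q : ℕ) (t : ι → ℂ) (h : ∀ τ, ∀ r < q, V.s r t τ = 0) :
    ∃ (s x z : ι → SmH) (H : Matrix ι ι SmH), (∀ τ, (fun a => (s a).1 τ) = V.s q t τ) ∧
      H = V.Gᴴ * V.Q.map (algebraMap ℂ SmH) * V.G ∧ s = V.G *ᵥ x ∧
      (fun a => D1 (s a)) = V.G *ᵥ V.Θ *ᵥ x ∧ (fun a => D2 (s a)) = V.G *ᵥ z ∧
      pr SmH V.deg q *ᵥ x = x ∧ V.Θᴴ *ᵥ H *ᵥ x = 0 ∧ pr SmH V.deg q *ᵥ H *ᵥ z = H *ᵥ z := by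
  obtain ⟨u, hu⟩ : ∃ u : ι → SmH, u = fun a => algebraMap ℂ SmH (t a) := ⟨_, rfl⟩
  obtain ⟨y, hy⟩ : ∃ y, y = V.G' *ᵥ u := ⟨_, rfl⟩
  obtain ⟨H, hH⟩ : ∃ H, H = V.Gᴴ * V.Q.map (algebraMap ℂ SmH) * V.G := ⟨_, rfl⟩
  obtain ⟨Θ', hΘ⟩ : ∃ X, X = V.G' * V.G.map D2 := ⟨_, rfl⟩
  have inv' : V.G' * V.G = 1 := mul_eq_one_comm.1 V.inv
  have can : ∀ v, V.G *ᵥ v = 0 → v = 0 := fun v k => by
    rw [← one_mulVec v, ← inv', ← mulVec_mulVec, k, mulVec_zero]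
  have val : ∀ r τ, (fun a => ((V.G *ᵥ pr SmH V.deg r *ᵥ y) a).1 τ) = V.s r t τ := fun r τ => by
    have := sec_map (evS SmH τ).toRingHom V.deg V.G V.G' r u
    rw [hy]
    refine this.trans (congrArg _ (funext fun a => ?_))
    rw [hu]
    exact (evS SmH τ).commutes _
  have low : ∀ r < q, pr SmH V.deg r *ᵥ y = 0 := fun r hr => can _ (funext fun a =>
    Subtype.ext (funext fun τ => congrFun ((val r τ).trans (h τ r hr)) a))
  have d2 : V.G.map D2 = V.G * Θ' := by rw [hΘ, ← Matrix.mul_assoc, V.inv, Matrix.one_mul]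
  have dy : ∀ (D : Derivation ℂ SmH SmH) (X : Matrix ι ι SmH), V.G.map D = V.G * X →
      (fun a => D (y a)) = -(X *ᵥ y) := fun D X k => by
    have k1 := mvh1_vec D V.G y
    have k2 : V.G *ᵥ y = u := by rw [hy, mulVec_mulVec, V.inv, one_mulVec]
    have k3 : (fun a => D (u a)) = 0 := funext fun a => by rw [hu]; exact D.map_algebraMap _
    rw [k2, k3, k, ← mulVec_mulVec, ← mulVec_add] at k1
    exact eq_neg_of_add_eq_zero_right (can _ k1.symm)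
  have h0 : Hom V.deg 0 H := fun a b k => Subtype.ext (funext fun τ => by
    have := V.blk τ a b k
    rw [← mvh1_H, ← hH] at this
    exact this)
  have h2 : Hom V.deg 0 (H.map D2) := h0.map D2.toLinearMap.toAddMonoidHom
  have dH : H.map D2 = V.Θᴴ * H + H * Θ' := by
    have k1 : V.Gᴴ.map D2 = V.Θᴴ * V.Gᴴ := by
      rw [← conjTranspose_mul, ← V.d1]
      ext1 a b
      exact (star_D1 _).symm
    have k2 : (V.Q.map (algebraMap ℂ SmH)).map D2 = 0 := by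
      ext1 a b
      exact D2.map_algebraMap _
    rw [hH, mvh1_mul, mvh1_mul, k1, k2, d2]
    simp only [Matrix.mul_zero, add_zero, Matrix.mul_assoc]
  obtain ⟨x, hx⟩ : ∃ x, x = pr SmH V.deg q *ᵥ y := ⟨_, rfl⟩
  have px : pr SmH V.deg q *ᵥ x = x := by rw [hx, mulVec_mulVec, pr_mul_pr, if_pos rfl]
  have d1x : (fun a => D1 (x a)) = 0 := by
    rw [hx, mvh1_pr, dy D1 _ V.d1, mulVec_neg, mulVec_mulVec]
    rcases q with _ | r
    · rw [V.hom.pr_lt zero_lt_one, zero_mulVec, neg_zero]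
    · rw [V.hom.pr_mul, ← mulVec_mulVec, low r r.lt_succ_self, mulVec_zero, neg_zero]
  have hz : V.Θᴴ *ᵥ H *ᵥ x = 0 := by
    rw [hx, ← mvh1_com h0, mulVec_mulVec, ← mvh1_star, ← conjTranspose_mul]
    rcases q with _ | r
    · rw [V.hom.pr_lt zero_lt_one, conjTranspose_zero, zero_mulVec]
    · have k1 := mvh1_com h2 r y
      have k2 := mvh1_com h0 r fun a => D2 (y a)
      rw [← mvh1_pr, low r r.lt_succ_self, dy D2 _ d2] at k2
      rw [low r r.lt_succ_self, mulVec_zero, dH, add_mulVec, mulVec_add, ← mulVec_mulVec,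
        ← mulVec_mulVec] at k1
      simp only [mulVec_neg, Pi.zero_apply, map_zero] at k2
      rw [neg_eq_iff_eq_neg.1 k2, show (fun _ : ι => (0 : SmH)) = 0 from rfl, mulVec_zero, neg_zero,
        add_zero] at k1
      rw [V.hom.pr_mul, conjTranspose_mul, mvh1_star, ← mulVec_mulVec, k1]
  refine ⟨V.G *ᵥ x, x, Θ' *ᵥ x + fun a => D2 (x a), H, hx ▸ val q, hH, rfl, ?_, ?_, px, hz, ?_⟩
  · rw [mvh1_vec, d1x, V.d1, mulVec_zero, add_zero, mulVec_mulVec]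
  · rw [mvh1_vec, d2, mulVec_add, mulVec_mulVec]
  · have k : H *ᵥ Θ' *ᵥ x = H.map D2 *ᵥ x := by
      rw [dH, add_mulVec, ← mulVec_mulVec, hz, zero_add, mulVec_mulVec]
    rw [mulVec_add, k, mulVec_add, mvh1_com h2, mvh1_com h0, ← mvh1_pr, px]

end Pool.Agent.E7
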