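import Pool.Agent.Lib.MP_7e5527_ag.EL.MVh1

/-! The curvature computation for a polarised variation of Hodge structure on the half plane. -/

open UpperHalfPlane Matrix
open scoped ComplexOrder

noncomputable section

namespace Pool.Agent.E7

variable {ι : Type} [Fintype ι] [DecidableEq ι]

omit [DecidableEq ι] in
theorem mvh2_symm {A : Type} [CommRing A] [StarRing A] {P : Matrix ι ι A} (h : Pᴴ = P)
    (x y : ι → A) : star (star y ⬝ᵥ P *ᵥ x) = star x ⬝ᵥ P *ᵥ y := by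
  rw [star_dotProduct, star_star, star_mulVec, h, ← dotProduct_mulVec]

omit [DecidableEq ι] in
theorem mvh2_cs {P : Matrix ι ι ℂ} (h : P.PosSemidef) (x y : ι → ℂ) :
    ‖star x ⬝ᵥ P *ᵥ y‖ ^ 2 ≤ (star x ⬝ᵥ P *ᵥ x).re * (star y ⬝ᵥ P *ᵥ y).re := by
  let c : PreInnerProductSpace.Core ℂ (ι → ℂ) :=
    { inner := fun x y => star x ⬝ᵥ P *ᵥ y
      conj_inner_symm := fun x y => mvh2_symm h.isHermitian x y
      re_inner_nonneg := h.re_dotProduct_nonneg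
      add_left := fun x y z => by rw [star_add, add_dotProduct]
      smul_left := fun x y r => by rw [star_smul, smul_dotProduct]; rfl }
  have h1 : ‖star x ⬝ᵥ P *ᵥ y‖ * ‖star y ⬝ᵥ P *ᵥ x‖ ≤ _ :=
    InnerProductSpace.Core.inner_mul_inner_self_le (𝕜 := ℂ) (c := c) x y
  rwa [← mvh2_symm h.isHermitian y x, norm_star, ← sq] at h1

omit [DecidableEq ι] in
theorem mvh2_adj {A : Type} [CommRing A] [StarRing A] (G Q : Matrix ι ι A) (y w : ι → A) :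
    star (G *ᵥ y) ⬝ᵥ Q *ᵥ G *ᵥ w = star y ⬝ᵥ (Gᴴ * Q * G) *ᵥ w := by
  rw [star_mulVec, ← dotProduct_mulVec, mulVec_mulVec, mulVec_mulVec]

omit [DecidableEq ι] in
theorem mvh2_leib {D D' : Derivation ℂ SmH SmH} (h : ∀ φ, star (D' φ) = D (star φ))
    (Q : Matrix ι ι ℂ) (v w : ι → SmH) : D (star v ⬝ᵥ Q.map (algebraMap ℂ SmH) *ᵥ w) =
      star (fun a => D' (v a)) ⬝ᵥ Q.map (algebraMap ℂ SmH) *ᵥ w +
        star v ⬝ᵥ Q.map (algebraMap ℂ SmH) *ᵥ fun a => D (w a) := by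
  simp only [dotProduct, mulVec, map_sum, Derivation.leibniz, Pi.star_apply, h, map_apply,
    Derivation.map_algebraMap, smul_eq_mul, mul_zero, add_zero, ← Finset.sum_add_distrib]
  exact Finset.sum_congr rfl fun a _ => by ring

omit [DecidableEq ι] in
theorem mvh2_ev (M : Matrix ι ι SmH) (w : ι → SmH) (τ : ℍ) :
    (fun a => ((M *ᵥ w) a).1 τ) = mv M τ *ᵥ fun a => (w a).1 τ :=
  funext fun a => RingHom.map_mulVec (evS SmH τ : SmH →+* ℂ) M w a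

omit [DecidableEq ι] in
theorem mvh2_evB (Q : Matrix ι ι ℂ) (v w : ι → SmH) (τ : ℍ) :
    (star v ⬝ᵥ Q.map (algebraMap ℂ SmH) *ᵥ w).1 τ =
      star (fun a => (v a).1 τ) ⬝ᵥ Q *ᵥ fun a => (w a).1 τ := by
  rw [← evS_apply]
  simp only [dotProduct, mulVec, map_sum, map_mul, Pi.star_apply, evS_star, map_apply,
    AlgHom.commutes]
  rfl

omit [Fintype ι] in
theorem mvh2_pr (deg : ι → ℕ) (q : ℕ) (τ : ℍ) : mv (pr SmH deg q) τ = pr ℂ deg q := by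
  simp [mv, pr, diagonal_map, apply_ite]

theorem mvh2_sg {deg : ι → ℕ} {r : ℕ} {v : ι → ℂ} (h : pr ℂ deg r *ᵥ v = v) :
    sg deg *ᵥ v = (-1 : ℂ) ^ r • v := by
  funext a
  rw [← h]
  by_cases e : deg a = r <;> simp [sg, pr, mulVec_diagonal, e]

/-- The form at a point. -/
theorem mvh2_pt (V : Vhs ι) (τ : ℍ) {r : ℕ} {w : ι → ℂ}
    (h : pr ℂ V.deg r *ᵥ ((mv V.G τ)ᴴ * V.Q * mv V.G τ) *ᵥ w =
      ((mv V.G τ)ᴴ * V.Q * mv V.G τ) *ᵥ w) :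
    (∀ y, (-1) ^ r * (star (mv V.G τ *ᵥ y) ⬝ᵥ V.Q *ᵥ mv V.G τ *ᵥ w) =
      star y ⬝ᵥ (sg V.deg * ((mv V.G τ)ᴴ * V.Q * mv V.G τ)) *ᵥ w) ∧
    (-1) ^ r * (star (mv V.G τ *ᵥ w) ⬝ᵥ V.Q *ᵥ mv V.G τ *ᵥ w) = hn V.Q r (mv V.G τ *ᵥ w) ∧
    0 ≤ hn V.Q r (mv V.G τ *ᵥ w) ∧ (hn V.Q r (mv V.G τ *ᵥ w) = 0 → mv V.G τ *ᵥ w = 0) := by
  have h1 : ∀ y, (-1) ^ r * (star (mv V.G τ *ᵥ y) ⬝ᵥ V.Q *ᵥ mv V.G τ *ᵥ w) =
      star y ⬝ᵥ (sg V.deg * ((mv V.G τ)ᴴ * V.Q * mv V.G τ)) *ᵥ w := fun y => by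
    rw [mvh2_adj, ← mulVec_mulVec _ (sg _), mvh2_sg h, dotProduct_smul, smul_eq_mul]
  have h2 := Complex.nonneg_iff.1 ((V.pos τ).posSemidef.dotProduct_mulVec_nonneg w)
  refine ⟨h1, ?_, ?_, fun h3 => ?_⟩
  · rw [hn, h1]
    exact Complex.ext rfl h2.2.symm
  · rw [hn, h1]
    exact h2.1
  · rw [hn, h1] at h3
    rw [not_not.1 fun e => ((V.pos τ).re_dotProduct_pos e).ne' h3, mulVec_zero]

theorem mvh2_deg (V : Vhs ι) (τ : ℍ) {r : ℕ} {w : ι → ℂ} (h : pr ℂ V.deg r *ᵥ w = w) :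
    pr ℂ V.deg r *ᵥ ((mv V.G τ)ᴴ * V.Q * mv V.G τ) *ᵥ w =
      ((mv V.G τ)ᴴ * V.Q * mv V.G τ) *ᵥ w := by
  rw [mulVec_mulVec, show pr ℂ V.deg r * _ = _ from (V.blk τ).pr_mul r, ← mulVec_mulVec, h]

/-- With `a = D1 s`, `b = D2 s`, `u = star s ⬝ᵥ Q s`: `star s ⬝ᵥ Q a = 0`; its `D2` gives
`star s ⬝ᵥ Q (D2 a) = - star a ⬝ᵥ Q a`; `D2 u = star s ⬝ᵥ Q b`, `D1 u = star b ⬝ᵥ Q s`,
`D1 D2 u = star b ⬝ᵥ Q b - star a ⬝ᵥ Q a`. At each point, `P = sg * H` is positive definite, `x`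
and `z` have degree `q`, `Θ x` has degree `q + 1`; Cauchy-Schwarz for `P`. -/
theorem vhs_curv (V : Vhs ι) (q : ℕ) (t : ι → ℂ) (h : ∀ τ, ∀ r < q, V.s r t τ = 0) :
    ∃ (u : SmH) (s : ι → SmH) (α β : ℍ → ℝ), (∀ τ, (fun a => (s a).1 τ) = V.s q t τ) ∧
      (∀ τ, u.1 τ = hn V.Q q (V.s q t τ)) ∧ (∀ τ, 0 ≤ hn V.Q q (V.s q t τ)) ∧
      (∀ τ, 0 ≤ α τ ∧ 0 ≤ β τ ∧ (D1 (D2 u)).1 τ = (α τ + β τ : ℝ) ∧
        ‖(D2 u).1 τ‖ ^ 2 ≤ hn V.Q q (V.s q t τ) * β τ) ∧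
      (∀ τ, α τ = 0 → ∀ a, (D1 (s a)).1 τ = 0) ∧ ∀ τ, β τ = 0 → ∀ a, (D2 (s a)).1 τ = 0 := by
  obtain ⟨s, x, z, H, h1, hH, hs, ha, hb, hx, h0, hz⟩ := vhs_alg V q t h
  have hQ : (V.Q.map (algebraMap ℂ SmH))ᴴ = V.Q.map (algebraMap ℂ SmH) := by
    rw [← conjTranspose_map _ fun c => algebraMap_star_comm c, V.herm]
  have e1 : star (fun a => D1 (s a)) ⬝ᵥ V.Q.map (algebraMap ℂ SmH) *ᵥ s = 0 := by
    rw [ha, hs, mvh2_adj, ← hH, star_mulVec, ← dotProduct_mulVec, h0, dotProduct_zero]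
  have e2 := congrArg D2 ((mvh2_symm hQ _ _).symm.trans ((congrArg star e1).trans (star_zero _)))
  rw [mvh2_leib star_D1, map_zero, add_comm, add_eq_zero_iff_eq_neg] at e2
  have e3 := mvh2_leib star_D1 V.Q s s
  rw [e1, zero_add] at e3
  have e4 := congrArg D1 e3
  rw [mvh2_leib star_D2 V.Q s fun a => D2 (s a)] at e4
  simp only [D1_D2 (s _)] at e4
  rw [e2] at e4
  have mH : ∀ τ, mv H τ = (mv V.G τ)ᴴ * V.Q * mv V.G τ := fun τ => by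
    rw [hH, mv, Matrix.map_mul, Matrix.map_mul, conjTranspose_map _ (evS_star SmH τ), map_map]
    congr 2
  have ps := fun τ => (congrArg (fun v : ι → SmH => fun a => (v a).1 τ) hs).trans (mvh2_ev _ _ τ)
  have pa := fun τ => (congrArg (fun v : ι → SmH => fun a => (v a).1 τ) ha).trans (mvh2_ev _ _ τ)
  have pb := fun τ => (congrArg (fun v : ι → SmH => fun a => (v a).1 τ) hb).trans (mvh2_ev _ _ τ)
  have dx := fun τ => mvh2_pt V τ (mvh2_deg V τ (r := q) (w := fun a => (x a).1 τ) (by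
    rw [← mvh2_pr, ← mvh2_ev, hx]))
  have da := fun τ => mvh2_pt V τ (mvh2_deg V τ (r := q + 1)
    (w := fun a => ((V.Θ *ᵥ x) a).1 τ) (by
      rw [← mvh2_pr, ← mvh2_ev, mulVec_mulVec, V.hom.pr_mul, ← mulVec_mulVec, hx]))
  have db := fun τ => mvh2_pt V τ (r := q) (w := fun a => (z a).1 τ) (by
    rw [← mvh2_pr, ← mH, ← mvh2_ev, ← mvh2_ev, hz])
  refine ⟨(-1 : ℂ) ^ q • (star s ⬝ᵥ V.Q.map (algebraMap ℂ SmH) *ᵥ s), s,
    fun τ => hn V.Q (q + 1) fun a => (D1 (s a)).1 τ, fun τ => hn V.Q q fun a => (D2 (s a)).1 τ,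
    h1, fun τ => ?_, fun τ => ?_, fun τ => ?_, fun τ e => congrFun ?_, fun τ e => congrFun ?_⟩
  · rw [← h1, ps, ← (dx τ).2.1, ← ps, ← mvh2_evB]
    rfl
  · rw [← h1, ps]
    exact (dx τ).2.2.1
  · beta_reduce
    rw [Derivation.map_smul, Derivation.map_smul, e4, e3, ← h1, ps, pa, pb]
    refine ⟨(da τ).2.2.1, (db τ).2.2.1, ?_, ?_⟩
    · rw [Complex.ofReal_add, ← (da τ).2.1, ← (db τ).2.1, ← pa, ← pb, ← mvh2_evB, ← mvh2_evB]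
      simp only [← evS_apply, map_smul, map_add, map_neg, smul_eq_mul]
      ring
    · rw [← evS_apply, map_smul, evS_apply, mvh2_evB, smul_eq_mul, ps, pb, hn, hn, (db τ).1,
        (db τ).1, (dx τ).1]
      exact mvh2_cs (V.pos τ).posSemidef _ _
  · exact (pa τ).trans ((da τ).2.2.2 (pa τ ▸ e))
  · exact (pb τ).trans ((db τ).2.2.2 (pb τ ▸ e))

end Pool.Agent.E7
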