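import Pool.Agent.Lib.MP_7e5527_ag.EL.MFix
import Pool.Agent.Lib.MP_7e5527_ag.EL.MLie
import Pool.Agent.Lib.MP_7e5527_ag.EL.MPl

/-! A curve through a Hodge generic point is Zariski dense in the compact dual. -/

open UpperHalfPlane Matrix

noncomputable section

namespace Pool.Agent.E7

theorem mono {f : ℍ → Ix → ℂ} (hf : Crv f) {τ0 : ℍ} (hg : MT (f τ0) = GE) (hn : ∃ τ, f τ ≠ f τ0)
    {P : MvPolynomial Ix ℂ} (hP : ∀ τ, MvPolynomial.eval (f τ) P = 0) : P = 0 := by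
  obtain ⟨d, l, hl⟩ := exists_form P
  obtain ⟨r, χ, hχ, hpl⟩ := pluck (Lf_le hf.hm) d
  have hG : Lf hf.hm ≤ GG := (Lf_le hf.hm).trans Gam_le
  have hS : GE ≤ StabT (Tch (Fin r × Fin d) (Lf hf.hm) χ) := by
    rw [← hg]
    exact sInf_le ⟨qcl_stab hG hχ, hg_stab hf hχ τ0⟩
  rcases normal_dich (hG.trans GG_le_GE) hχ hS with h | h
  · obtain ⟨τ, hτ⟩ := hn
    exact absurd (const_of_scalar hf h τ τ0) hτ
  · have key : ∀ M ∈ Submodule.span ℂ ((fun γ => Rp (Fin d) (mat γ)) '' (Lf hf.hm)),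
        l ⬝ᵥ M *ᵥ pw (Fin d) (crd (rr (f τ0))) = 0 := by
      intro M hM
      induction hM using Submodule.span_induction with
      | mem M hM =>
        obtain ⟨γ, ⟨hγ, δ, hδ⟩, rfl⟩ := hM
        rw [Rp_pw, mat_eq, mt_crd, LinearEquiv.coe_coe, (act_spec (Gam_le hγ) (hf.mem τ0)).2.2,
          crd_smul, pw_smul, dotProduct_smul, ← hδ, ← hl, hP, smul_zero]
      | zero => rw [zero_mulVec, dotProduct_zero]
      | add M M' _ _ h1 h2 => rw [add_mulVec, dotProduct_add, h1, h2, add_zero]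
      | smul c M _ h1 => rw [smul_mulVec, dotProduct_smul, h1, smul_zero]
    refine poly_eq_zero fun Z _ => ?_
    have := key _ (hpl _ (h (Z - f τ0)))
    rwa [Rp_pw, mat_eq, mt_crd, LinearEquiv.coe_coe, nE_rr, add_sub_cancel, ← hl] at this

end Pool.Agent.E7
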