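import Pool.Agent.Lib.MP_7e5527_ag.EL.SH
import Pool.Agent.Lib.MP_7e5527_ag.EL.TateMain
import Pool.Agent.Lib.MP_7e5527_ag.EL.Mono
import Pool.Agent.Lib.MP_7e5527_ag.EL.RE
import Pool.Agent.Lib.MP_7e5527_ag.EL.CG
import Pool.Agent.Lib.MP_7e5527_ag.EL.A7
import Pool.Agent.Lib.MP_7e5527_ag.EL.GD

/-! Assembly: points of the Hecke orbit on a uniformised curve. -/

open Filter Topology UpperHalfPlane

noncomputable section

namespace Pool.Agent.E7

theorem exists_gen_tate (p : ℕ) [Fact p.Prime] :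
    ∃ (e : ℂ_[p] ≃+* ℂ) (x : Ix → ℂ), x ∈ HH ∧ MT x = GE ∧ IsTate e x :=
  exists_gen_tate_of p mf_findim (fun Z _ => MT_le_GE Z) dE_mem_MT fun _ => GE_le

theorem main_ident {g : ℂ → ℂ} (hg : DifferentiableOn ℂ g {z | 0 < z.im}) (τ0 : ℍ)
    (h : ∀ᶠ t in 𝓝 (0 : ℂ), g (τ0 + t) = 0) (τ : ℍ) : g τ = 0 := by
  have ho : IsOpen {z : ℂ | 0 < z.im} := isOpen_lt continuous_const Complex.continuous_im
  have hc : IsPreconnected {z : ℂ | 0 < z.im} := (convex_halfSpace_im_gt 0).isPreconnected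
  have h1 : ∀ᶠ z in 𝓝 (τ0 : ℂ), g z = 0 := by
    have ht : Tendsto (fun z : ℂ => z - τ0) (𝓝 (τ0 : ℂ)) (𝓝 0) := by
      simpa using (continuous_sub_right (τ0 : ℂ)).tendsto (τ0 : ℂ)
    filter_upwards [ht.eventually h] with z hz
    simpa using hz
  exact (hg.analyticOnNhd ho).eqOn_zero_of_preconnected_of_eventuallyEq_zero hc τ0.im_pos h1
    τ.im_pos

theorem main_hecke {p : ℕ} [Fact p.Prime] {e : ℂ_[p] ≃+* ℂ} {x : Ix → ℂ} (hx : x ∈ HH)
    (hg' : MT x = GE) (hT : IsTate e x) {f : ℍ → Ix → ℂ} (hf : Crv f) :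
    ∃ S : Set (Ix → ℂ), S.Finite ∧ S ⊆ HH ∧ ∀ τ, Hecke x (f τ) →
      ∃ s ∈ S, ∃ γ ∈ Gam, f τ = act γ s := by
  by_cases h0 : ∃ τ0, Hecke x (f τ0)
  swap
  · exact ⟨∅, Set.finite_empty, Set.empty_subset _, fun τ h => (h0 ⟨τ, h⟩).elim⟩
  obtain ⟨τ0, h0⟩ := h0
  by_cases hn : ∃ τ, f τ ≠ f τ0
  swap
  · push Not at hn
    exact ⟨{f τ0}, Set.finite_singleton _, by simpa using hf.mem τ0, fun τ _ =>
      ⟨f τ0, rfl, 1, one_mem _, by rw [act_one, hn]⟩⟩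
  obtain ⟨g, hg, hfg⟩ := h0.exists_act hx
  have hm : MT (f τ0) = GE := by rw [hfg]; exact MT_act hg hx hg'
  have ho : IsOpen {z : ℂ | 0 < z.im} := isOpen_lt continuous_const Complex.continuous_im
  have hv : ∀ τ : ℍ, (f ∘ ofComplex) (τ : ℂ) = f τ := fun τ => by simp
  have hmaps : Set.MapsTo (f ∘ ofComplex) {z | 0 < z.im} HH := fun z _ => hf.mem _
  have han : AnalyticAt ℂ (fun t : ℂ => (f ∘ ofComplex) (τ0 + t)) 0 := by
    have h1 : AnalyticAt ℂ (f ∘ ofComplex) ((τ0 : ℂ) + 0) := by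
      rw [add_zero]; exact hf.hol.analyticOnNhd ho _ τ0.im_pos
    exact h1.comp (f := fun t : ℂ => (τ0 : ℂ) + t) (analyticAt_const.add analyticAt_id)
  obtain ⟨S, hS, hSH, h⟩ := tate_main p e x hx hT (fun t => (f ∘ ofComplex) (τ0 + t)) han
    (hf.mem _) (fun P hP => mono hf hm hn fun τ => by
      have hd : DifferentiableOn ℂ (fun z => MvPolynomial.eval ((f ∘ ofComplex) z) P)
          {z | 0 < z.im} :=
        (PolyFn.differentiable (f := fun Z => MvPolynomial.eval Z P)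
          ⟨P, fun _ => rfl⟩).comp_differentiableOn hf.hol
      simpa using main_ident hd τ0 hP τ)
    fun k F a hF => by
      obtain ⟨P, m, h1, h2, h3⟩ := crv_hc hf k F a hF
      exact ⟨P, m, h1, h2, Eventually.of_forall fun t => h3 _⟩
  choose! T hT1 hT2 hT3 using fun Z' (hZ : Z' ∈ HH) => crv_fin hf hZ
  refine ⟨⋃ Z' ∈ S, T Z', hS.biUnion fun Z' hZ => hT1 Z' (hSH hZ),
    Set.iUnion₂_subset fun Z' hZ => hT2 Z' (hSH hZ), fun τ hτ => ?_⟩
  obtain ⟨Z', hZ, hs⟩ := h (f τ) hτ fun k F a hF hv => by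
    have hd : DifferentiableOn ℂ (fun z => F ((f ∘ ofComplex) z)) {z | 0 < z.im} := by
      intro z hz
      have h1 := (Gd.isHol ⟨a, hF.good⟩).differentiableAt (hmaps hz)
      refine ((h1.differentiableWithinAt (s := HH)).comp z (hf.hol z hz) hmaps).congr
        (fun w hw => ?_) ?_
      · exact (ext_res F (hmaps hw)).symm
      · exact (ext_res F (hmaps hz)).symm
    simpa using main_ident hd τ0 hv τ
  obtain ⟨s, hs1, hs2⟩ := hT3 Z' (hSH hZ) τ hs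
  exact ⟨s, Set.mem_biUnion hZ hs1, hs2⟩

end Pool.Agent.E7
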