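import Mathlib

/-! One variable complex analysis: finite Blaschke products. -/

open Complex

namespace Pool.Agent.E7

theorem ra4_ne {w z : ℂ} (hw : 0 < w.im) (hz : 0 < z.im) : z - (starRingEnd ℂ) w ≠ 0 := fun e => by
  have := congrArg im e
  simp only [sub_im, conj_im, zero_im] at this
  linarith

theorem blaschke_one {Ψ : ℂ → ℂ} {C : ℝ} (hd : DifferentiableOn ℂ Ψ {z | 0 < z.im})
    (hb : ∀ z : ℂ, 0 < z.im → ‖Ψ z‖ ≤ C) {w : ℂ} (hw : 0 < w.im) (h0 : Ψ w = 0) {z : ℂ}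
    (hz : 0 < z.im) : ‖Ψ z‖ ≤ C * ‖(z - w) / (z - (starRingEnd ℂ) w)‖ := by
  have h1 : ∀ u ∈ Metric.ball (0 : ℂ) 1, 1 - u ≠ 0 := fun u hu e => by
    simp [← sub_eq_zero.1 e] at hu
  have h2 : ∀ u ∈ Metric.ball (0 : ℂ) 1, 0 < ((w - (starRingEnd ℂ) w * u) / (1 - u)).im := by
    intro u hu
    have h3 : u.re ^ 2 + u.im ^ 2 < 1 := by
      have := (sq_lt_one_iff₀ (norm_nonneg u)).2 (mem_ball_zero_iff.1 hu)
      rwa [Complex.sq_norm, normSq_apply, ← sq, ← sq] at this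
    rw [div_im, ← sub_div]
    refine div_pos ?_ (normSq_pos.2 (h1 u hu))
    simp only [sub_im, sub_re, mul_im, mul_re, conj_re, conj_im, one_re, one_im]
    nlinarith [mul_pos hw (sub_pos.2 h3)]
  have h3 := ra4_ne hw hz
  have h4 := dist_le_div_mul_dist_of_mapsTo_ball (c := 0) (R₁ := 1) (R₂ := C)
    (f := fun u => Ψ ((w - (starRingEnd ℂ) w * u) / (1 - u)))
    (z := (z - w) / (z - (starRingEnd ℂ) w))
    (hd.comp (DifferentiableOn.div (by fun_prop) (by fun_prop) h1) h2)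
    (fun u hu => by simpa [h0] using hb _ (h2 u hu)) (by
      rw [mem_ball_zero_iff, norm_div, div_lt_one (norm_pos_iff.2 h3),
        ← sq_lt_sq₀ (norm_nonneg _) (norm_nonneg _), Complex.sq_norm, Complex.sq_norm]
      simp only [normSq_apply, sub_im, sub_re, conj_re, conj_im]
      nlinarith [mul_pos hw hz])
  have h5 : (w - (starRingEnd ℂ) w * ((z - w) / (z - (starRingEnd ℂ) w))) /
      (1 - (z - w) / (z - (starRingEnd ℂ) w)) = z := by
    have h6 := ra4_ne hw hw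
    rw [one_sub_div h3, sub_sub_sub_cancel_left]
    field_simp
    ring
  simpa only [h5, mul_zero, sub_zero, div_one, h0, dist_zero_right] using h4

theorem blaschke {Ψ : ℂ → ℂ} {C : ℝ} (hd : DifferentiableOn ℂ Ψ {z | 0 < z.im})
    (hb : ∀ z : ℂ, 0 < z.im → ‖Ψ z‖ ≤ C) (s : Finset ℂ) (hs : ∀ w ∈ s, 0 < w.im ∧ Ψ w = 0)
    {z : ℂ} (hz : 0 < z.im) :
    ‖Ψ z‖ ≤ C * ∏ w ∈ s, ‖(z - w) / (z - (starRingEnd ℂ) w)‖ := by
  classical
  induction s using Finset.induction_on generalizing Ψ with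
  | empty => simpa using hb z hz
  | insert w s hw ih =>
    obtain ⟨w1, w2⟩ := hs w (Finset.mem_insert_self w s)
    have ho : IsOpen {z : ℂ | 0 < z.im} := isOpen_lt continuous_const continuous_im
    have h1 : DifferentiableOn ℂ (fun z => dslope Ψ w z * (z - (starRingEnd ℂ) w))
        {z | 0 < z.im} := ((differentiableOn_dslope (ho.mem_nhds w1)).2 hd).mul (by fun_prop)
    have h2 : ∀ z : ℂ, 0 < z.im → ‖Ψ z‖ = ‖dslope Ψ w z * (z - (starRingEnd ℂ) w)‖ *
        ‖(z - w) / (z - (starRingEnd ℂ) w)‖ := fun z hz => by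
      have h3 := sub_smul_dslope Ψ w z
      rw [w2, sub_zero, smul_eq_mul] at h3
      rw [← norm_mul, mul_assoc, mul_div_cancel₀ _ (ra4_ne w1 hz), mul_comm, h3]
    have h3 : ∀ z : ℂ, 0 < z.im → z ≠ w →
        ‖dslope Ψ w z * (z - (starRingEnd ℂ) w)‖ ≤ C := fun z hz e =>
      le_of_mul_le_mul_right (h2 z hz ▸ blaschke_one hd hb w1 w2 hz)
        (norm_pos_iff.2 (div_ne_zero (sub_ne_zero.2 e) (ra4_ne w1 hz)))
    have h4 := ih h1 (fun z hz => by
      rcases eq_or_ne z w with rfl | e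
      · refine le_of_tendsto (f := fun u => ‖dslope Ψ z u * (u - (starRingEnd ℂ) z)‖)
          (x := nhdsWithin z {z}ᶜ) ((h1.differentiableAt
            (ho.mem_nhds hz)).continuousAt.norm.tendsto.mono_left nhdsWithin_le_nhds) ?_
        filter_upwards [self_mem_nhdsWithin, nhdsWithin_le_nhds (ho.mem_nhds hz)] with u a b
          using h3 u b a
      · exact h3 z hz e) fun v hv => by
      obtain ⟨v1, v2⟩ := hs v (Finset.mem_insert_of_mem hv)
      have h5 := h2 v v1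
      rw [v2, norm_zero, eq_comm, mul_eq_zero, norm_eq_zero, norm_eq_zero] at h5
      exact ⟨v1, h5.resolve_right (div_ne_zero (sub_ne_zero.2 fun e => hw (e ▸ hv))
        (ra4_ne w1 v1))⟩
    rw [Finset.prod_insert hw, h2 z hz, mul_comm ‖(z - w) / _‖, ← mul_assoc]
    exact mul_le_mul_of_nonneg_right h4 (norm_nonneg _)

end Pool.Agent.E7
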