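import Pool.Agent.Lib.MP_7e5527_ag.EL.MCone
import Pool.Agent.Lib.MP_7e5527_ag.EL.RA1

/-! A lower bound for the automorphy factor. -/

noncomputable section

namespace Pool.Agent.E7

/-- The imaginary part. -/
abbrev imv (Z : Ix → ℂ) : Ix → ℝ := fun l => (Z l).im

theorem Om.add_smul {Y D : Ix → ℝ} (h : Y ∈ Om) (h' : D ∈ Om) {s : ℝ} (hs : 0 ≤ s) :
    Y + s • D ∈ Om := by
  rcases hs.eq_or_lt with rfl | hs
  · simpa using h
  · exact Om.add h (Om.smul h' hs)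

theorem Om.of_sub {Y : Ix → ℝ} {l l' : ℝ} (h : Y - l • one3 ∈ Om) (hl : l' ≤ l) :
    Y - l' • one3 ∈ Om := by
  have h1 := Om.add_smul h one3_mem (sub_nonneg.2 hl)
  rwa [sub_smul, sub_add_sub_cancel] at h1

theorem nrm_ge {Y : Ix → ℝ} {l : ℝ} (hl : 0 < l) (h : Y - l • one3 ∈ Om) : l ^ 3 ≤ nrm Y := by
  have h1 := nrm_le_add (Om.smul one3_mem hl) h
  have h2 : nrm (one3 : Ix → ℝ) = 1 := by
    simp [nrm_eq, one3, onorm_zero, omul_zero_left, oip_zero_left]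
  rwa [add_sub_cancel, nrm_smul, h2, mul_one] at h1

theorem imv_add_smul (Z : Ix → ℂ) (t : ℂ) (Y : Ix → ℝ) :
    imv (Z + t • fun l => (Y l : ℂ)) = imv Z + t.im • Y := by
  funext l
  simp [imv]

theorem rb_int {n : ℤ} (hn : n ≠ 0) : 1 ≤ ‖(n : ℂ)‖ := by
  rw [Complex.norm_intCast]
  exact_mod_cast Int.one_le_abs hn

theorem rb_tr {R : Type} [CommRing R] (T : Ix → R) : tr one3 T = dg T 0 + dg T 1 + dg T 2 := by
  simp [tr_eq, one3, oip_zero_left]

theorem rb_sharp : sharp (one3 : Ix → ℂ) = one3 := by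
  apply jext <;> simp [dg_sharp_0, dg_sharp_1, dg_sharp_2, oc_sharp_0, oc_sharp_1, oc_sharp_2,
    one3, onorm_zero, omul_zero_left, oconj_zero]

theorem rb_nrm : nrm (one3 : Ix → ℂ) = 1 := by
  simp [nrm_eq, one3, onorm_zero, omul_zero_left, oip_zero_left]

theorem rb_zero {T : Ix → ℚ} (h : sharp T = 0) (h0 : dg T 0 + dg T 1 + dg T 2 = 0) : T = 0 := by
  have a0 := dg_sharp_0 T
  have a1 := dg_sharp_1 T
  have a2 := dg_sharp_2 T
  rw [h, dg_zero] at a0 a1 a2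
  have n0 := onorm_nonneg (oc T 0)
  have n1 := onorm_nonneg (oc T 1)
  have n2 := onorm_nonneg (oc T 2)
  have e : dg T 0 ^ 2 + dg T 1 ^ 2 + dg T 2 ^ 2 +
      2 * (onorm (oc T 0) + onorm (oc T 1) + onorm (oc T 2)) = 0 := by
    linear_combination (dg T 0 + dg T 1 + dg T 2) * h0 + 2 * a0 + 2 * a1 + 2 * a2
  have s0 := sq_nonneg (dg T 0)
  have s1 := sq_nonneg (dg T 1)
  have s2 := sq_nonneg (dg T 2)
  refine jext ?_ ?_ ?_ (onorm_eq_zero (by linarith)) (onorm_eq_zero (by linarith))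
    (onorm_eq_zero (by linarith))
  all_goals exact pow_eq_zero_iff (n := 2) two_ne_zero |>.1 (by linarith)

theorem rb_one {T : Ix → ℚ} (hT : T ∈ Lam) (h : sharp (toR ℂ T) = 0) (h0 : T ≠ 0) :
    1 ≤ ‖tr one3 (toR ℂ T)‖ := by
  have h1 : sharp T = 0 := toR_inj (F := ℂ) (by rw [← sharp_toR, h, toR_zero])
  obtain ⟨n0, e0⟩ := hT.1 0
  obtain ⟨n1, e1⟩ := hT.1 1
  obtain ⟨n2, e2⟩ := hT.1 2
  have e : tr one3 (toR ℂ T) = ((n0 + n1 + n2 : ℤ) : ℂ) := by
    rw [rb_tr, dg_toR, dg_toR, dg_toR, e0, e1, e2]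
    push_cast
    rfl
  rw [e]
  refine rb_int fun hn => h0 (rb_zero h1 ?_)
  rw [e0, e1, e2]
  exact_mod_cast hn

theorem rb_exp (v : W) (Z : Ix → ℂ) (t : ℂ) : sy (rr (Z + t • one3)) v =
    (v.2.2.2 - tr Z v.2.2.1 + tr (sharp Z) v.2.1 - nrm Z * v.1) +
    (tr (cross Z one3) v.2.1 - tr one3 v.2.2.1 - tr (sharp Z) one3 * v.1) * t +
    (tr one3 v.2.1 - tr Z one3 * v.1) * t ^ 2 + (-v.1) * t ^ 3 := by
  simp only [sy, rr, nrm_add, sharp_add, sharp_smul, nrm_smul, cross_smul_right, tr_add_left,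
    tr_smul_left, tr_smul_right, rb_sharp, rb_nrm]
  ring

theorem rb_cast : (fun l => (((one3 : Ix → ℝ) l : ℝ) : ℂ)) = one3 := by
  funext l
  rcases l with i | a <;> simp [one3, mkJ]

theorem jf_low {γ : Gb} (hγ : γ ∈ Gam) {Z : Ix → ℂ} {l : ℝ} (hl : 0 < l)
    (h : imv Z - l • one3 ∈ Om) : min 1 l ^ 3 ≤ ‖jf γ Z‖ := by
  have hee : ee ∈ WZ := ⟨⟨0, by simp [ee]⟩, ⟨0, Lam.zero, by simp [ee, toR_zero]⟩,
    ⟨0, Lam.zero, by simp [ee, toR_zero]⟩, ⟨1, by simp [ee]⟩⟩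
  have hv := WZ_map (Gam.inv_mem hγ) hee
  have hr := rank_one (Gam_le (Gam.inv_mem hγ)) 1 (v := γ⁻¹ ee) (one_smul _ _).symm
  have hj : ∀ X, jf γ X = sy (rr X) (γ⁻¹ ee) := fun X => by
    rw [← sy_GamL hγ, jf, ← sy_ee]
    simp
  have hne : γ⁻¹ ee ≠ 0 := fun h0 => by
    have := congrArg (fun w : W => w.2.2.2) ((LinearEquiv.map_eq_zero_iff _).1 h0)
    simp [ee] at this
  generalize γ⁻¹ ee = v at hv hr hj hne
  obtain ⟨a, B, C, d⟩ := v
  obtain ⟨⟨n, hn⟩, ⟨T, hT, hB⟩, ⟨T', hT', hC⟩, ⟨m, hm⟩⟩ := hv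
  simp only at hn hB hC hm hr
  subst hn hB hC hm
  have e : Z = (Z - ((l : ℂ) * Complex.I) • one3) + ((l : ℂ) * Complex.I) • one3 := by simp
  rw [hj, e, rb_exp]
  refine cubic_low hl (fun t ht => ?_) ?_
  · rw [← rb_exp, ← hj]
    refine (act_spec (Gam_le hγ) ?_).1
    have e1 : Z - ((l : ℂ) * Complex.I) • one3 + t • one3 =
        Z + (t - l * Complex.I) • fun k => (((one3 : Ix → ℝ) k : ℝ) : ℂ) := by
      rw [rb_cast, sub_smul]
      abel
    change imv _ ∈ Om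
    rw [e1, imv_add_smul]
    have h2 := Om.add_smul h one3_mem ht.le
    have e2 : (t - l * Complex.I).im = t.im - l := by simp
    rw [e2, sub_smul]
    rwa [sub_add_eq_add_sub, add_sub_assoc] at h2
  · by_cases h3 : n = 0
    · subst h3
      refine Or.inr ⟨by simp, ?_⟩
      simp only [Int.cast_zero, zero_smul, mul_zero, sub_zero] at hr ⊢
      by_cases h2 : T = 0
      · subst h2
        rw [toR_zero, smul_zero] at hr
        simp only [toR_zero, tr_zero_right, zero_sub, add_zero, norm_neg]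
        refine Or.inr ⟨trivial, ?_⟩
        by_cases h1 : T' = 0
        · subst h1
          simp only [toR_zero, tr_zero_right, neg_zero, sub_zero]
          refine Or.inr ⟨trivial, rb_int fun h0 => hne ?_⟩
          simp [h0, toR_zero]
        · exact Or.inl (rb_one hT' hr.2.1 h1)
      · exact Or.inl (rb_one hT hr.1 h2)
    · exact Or.inl (by rw [norm_neg]; exact rb_int h3)

end Pool.Agent.E7
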