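import Pool.Agent.Lib.MP_7e5527_ag.EL.RB
import Pool.Agent.Lib.MP_7e5527_ag.E7.Sieg

/-! Reduction theory on the tube domain. -/

noncomputable section

namespace Pool.Agent.E7

theorem compact_low {C : Set (Ix → ℝ)} (hC : IsCompact C) (h : C ⊆ Om) :
    ∃ ε : ℝ, 0 < ε ∧ ∀ Y ∈ C, Y - ε • one3 ∈ Om := by
  have h1 : Continuous fun z : ℝ × (Ix → ℝ) => z.2 - z.1 • (one3 : Ix → ℝ) := by fun_prop
  have h2 : ∀ᶠ ε in nhds (0 : ℝ), ∀ Y ∈ C, Y - ε • one3 ∈ Om :=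
    hC.eventually_forall_of_forall_eventually fun Y hY =>
      h1.continuousAt.eventually_mem (isOpen_Om.mem_nhds (by simpa using h hY))
  obtain ⟨ε, h3, h4⟩ := ((h2.filter_mono nhdsWithin_le_nhds).and
    (self_mem_nhdsWithin (s := Set.Ioi 0))).exists
  exact ⟨ε, h4, h3⟩

theorem rc1_jac : Continuous fun u : (Fin 8 → ℝ) × (Fin 8 → ℝ) × (Fin 8 → ℝ) =>
    jac 1 1 1 u.1 u.2.1 u.2.2 := by
  refine continuous_pi ?_
  rintro (i | ⟨i, k⟩) <;> fin_cases i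
  rotate_left 3
  · fin_cases k <;> simp [jac, v0, v1, mkJ, oconj, omul_0, omul_1, omul_2, omul_3, omul_4, omul_5,
      omul_6, omul_7] <;> fun_prop
  all_goals
    simp [jac, v0, v1, mkJ, onorm]
    fun_prop

theorem rc1_ball {u : Fin 8 → ℝ} (h : onorm u ≤ 1) : u ∈ Metric.closedBall 0 1 := by
  rw [mem_closedBall_zero_iff, pi_norm_le_iff_of_nonneg zero_le_one]
  exact fun k => (sq_le_one_iff_abs_le_one _).1 ((Finset.single_le_sum (f := fun k => u k ^ 2)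
    (fun _ _ => sq_nonneg _) (Finset.mem_univ k)).trans h)

theorem sieg_low : ∃ c : ℝ, 0 < c ∧ ∀ Y ∈ Sieg, 1 / 4 ≤ dg Y 0 → Y - c • one3 ∈ Om := by
  have hb := isCompact_closedBall (0 : Fin 8 → ℝ) 1
  obtain ⟨ε, hε, h⟩ := compact_low ((hb.prod (hb.prod hb)).image rc1_jac) (by
    rintro _ ⟨u, -, rfl⟩
    exact jac_mem one_pos one_pos one_pos _ _ _)
  refine ⟨1 / 512 * ε, by positivity, ?_⟩
  rintro _ ⟨d0, d1, d2, u0, u1, u2, -, h1, h2, n0, n1, n2, rfl⟩ h0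
  rw [dg_jac_0] at h0
  have h3 := Om.add (jac_mem (d0 := d0 - 1 / 512) (d1 := d1 - 1 / 512) (d2 := d2 - 1 / 512)
    (by linarith) (by linarith) (by linarith) u0 u1 u2) (Om.smul (c := 1 / 512)
      (h _ ⟨(u0, u1, u2), ⟨rc1_ball n0, rc1_ball n1, rc1_ball n2⟩, rfl⟩) (by norm_num))
  refine (congrArg (· ∈ Om) ?_).mp h3
  simp only [jac]
  module

theorem exists_min {Z : Ix → ℂ} (hZ : Z ∈ HH) :
    ∃ γ0 ∈ Gam, ∀ γ ∈ Gam, 1 / 2 ≤ ‖jf γ (act γ0 Z)‖ ^ 2 := by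
  obtain ⟨l, hl, h⟩ := exists_sub_one3 hZ
  have m : 0 < min 1 l ^ 3 := by positivity
  have lo : ∀ x ∈ (fun γ => ‖jf γ Z‖ ^ 2) '' Gam, (min 1 l ^ 3) ^ 2 ≤ x := by
    rintro _ ⟨γ, hγ, rfl⟩
    exact pow_le_pow_left₀ m.le (jf_low hγ hl h) 2
  have ne : ((fun γ => ‖jf γ Z‖ ^ 2) '' Gam).Nonempty := ⟨_, 1, Gam.one_mem, rfl⟩
  have p := (pow_pos m 2).trans_le (le_csInf ne lo)
  obtain ⟨_, ⟨γ0, h0, rfl⟩, lt⟩ := exists_lt_of_csInf_lt ne (lt_two_mul_self p)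
  refine ⟨γ0, h0, fun γ hγ => ?_⟩
  have e := csInf_le ⟨_, lo⟩ ⟨γ * γ0, Gam.mul_mem hγ h0, rfl⟩
  have q := (pow_pos m 2).trans_le (lo _ ⟨γ0, h0, rfl⟩)
  simp only [jf_mul γ (Gam_le h0) hZ, norm_mul, mul_pow] at e lt q
  exact le_of_mul_le_mul_right (by linarith) q

theorem exists_rat_near {Y : Ix → ℝ} (h : Y ∈ Om) : ∃ Y' : Ix → ℚ, toR ℝ Y' ∈ Om ∧
    (2 : ℝ) • Y - toR ℝ Y' ∈ Om ∧ (2 : ℝ) • toR ℝ Y' - Y ∈ Om := by
  have hd : DenseRange (toR ℝ) := DenseRange.piMap fun _ : Ix => Rat.denseRange_cast (𝕜 := ℝ)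
  have h2 : (2 : ℝ) • Y - Y ∈ Om := by rwa [two_smul, add_sub_cancel_right]
  exact hd.exists_mem_open (isOpen_Om.inter
    ((isOpen_Om.preimage (f := fun W => (2 : ℝ) • Y - W) (by fun_prop)).inter
      (isOpen_Om.preimage (f := fun W => (2 : ℝ) • W - Y) (by fun_prop)))) ⟨Y, h, h2, h2⟩

theorem fund : ∃ ε : ℝ, 0 < ε ∧ ∀ Z ∈ HH, ∃ γ ∈ Gam,
    (fun l => (act γ Z l).im) - ε • one3 ∈ Om := by
  obtain ⟨c, hc, low⟩ := sieg_low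
  refine ⟨c / 2, half_pos hc, fun Z hZ => ?_⟩
  obtain ⟨γ0, h0, mn⟩ := exists_min hZ
  have h1 := (act_spec (Gam_le h0) hZ).2.1
  obtain ⟨Y, y1, y2, y3⟩ := exists_rat_near h1
  obtain ⟨A, hA, hS⟩ := reduce y1
  obtain ⟨m, hm⟩ := exists_m hA.1
  have h2 := HH.lin_mem h1 hA.1
  have k := nE_mem_Gam (Lam.zsmul (ed_mem 0) (-round (dg (lin A (act γ0 Z)) 0).re))
  have e := mn _ (Gam.mul_mem (Gam.mul_mem w0E_mem k) (hm.mem_Gam hA))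
  rw [jf_mul _ (hm.mem_GG hA.1) h1, hm.jf_eq, hm.act_eq, mul_one, jf_mul _ (Gam_le k) h2, jf_nE,
    mul_one, act_nE, jf_w0E, toR_smul, toR_ed, dg_add, dg_smul, Complex.sq_norm,
    Complex.normSq_apply] at e
  have r := abs_le.1 (abs_sub_round (dg (lin A (act γ0 Z)) 0).re)
  have p := HH.dg_im_pos h2 0
  have q : (dg (lin A (act γ0 Z)) 0).im = dg (lin A fun l => (act γ0 Z l).im) 0 :=
    congrFun (im_lin A _) _
  simp [ed, ← sub_eq_add_neg] at e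
  have y4 := ((hA.1.2.2 _).2 y3).1
  have y5 := (hA.1.2.2 _).2 y2
  rw [lin_sub, lin_smul, lin_toR] at y4 y5
  rw [dg_sub, dg_smul, ← q] at y4
  have y6 := Om.smul (Om.add (low _ hS (by nlinarith)) y5) one_half_pos
  refine ⟨m * γ0, Gam.mul_mem (hm.mem_Gam hA) h0, ?_⟩
  rw [act_mul (hm.mem_GG hA.1) (Gam_le h0) hZ, hm.act_eq, im_lin]
  exact Set.mem_of_eq_of_mem (by module) y6

end Pool.Agent.E7
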