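import Pool.Agent.Lib.MP_7e5527_ag.EL.SA2a

/-! The torus, the scalars and the Hodge homomorphisms. -/

open Filter Topology

noncomputable section

namespace Pool.Agent.E7

theorem rr_zero : rr 0 = r0 := by simp only [rr, r0, sharp_zero, nrm_zero]

theorem dE_rr (s t : ℂˣ) (Z : Ix → ℂ) :
    dE s t (rr Z) = (s : ℂ) ^ 3 • rr (((t : ℂ) / s) • Z) := by
  have := s.ne_zero
  simp only [dE_apply, rr, sharp_smul, nrm_smul, Prod.smul_mk, smul_smul, smul_eq_mul,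
    Prod.mk.injEq, true_and]
  refine ⟨?_, ?_, ?_⟩
  · congr 1
    field_simp
  · congr 1
    field_simp
  · field_simp

theorem dE_nE (s t : ℂˣ) (B : Ix → ℂ) :
    dE s t * nE B * (dE s t)⁻¹ = nE (((t : ℂ) / s) • B) := by
  rw [mul_inv_eq_iff_eq_mul]
  refine LinearEquiv.toLinearMap_injective (ext_rr _ _ fun Z _ => ?_)
  simp only [LinearEquiv.coe_coe, LinearEquiv.mul_apply, nE_rr, dE_rr, map_smul, smul_add]

theorem wE_dE (s t : ℂˣ) : wE * dE s t * wE⁻¹ = dE t s := by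
  rw [mul_inv_eq_iff_eq_mul]
  refine LinearEquiv.ext fun v => ?_
  simp only [LinearEquiv.mul_apply, dE_apply, tube1_wE_apply, smul_neg, mul_neg, mul_comm (s : ℂ),
    mul_comm (t : ℂ)]

theorem wE_inv : wE⁻¹ = scE (-1) * wE := by
  refine LinearEquiv.ext fun v => ?_
  simp [tube1_wE_inv_apply, scE_apply, tube1_wE_apply]

theorem sa2_conj (g : Gb) : wE⁻¹ * g * wE = wE * g * wE⁻¹ := by
  rw [wE_inv, ← mul_assoc _ _ wE, ← scE_comm, mul_assoc (scE _)]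

theorem wE_nP (B : Ix → ℂ) : wE * nP B * wE⁻¹ = nE B := by
  rw [← sa2_conj, nP]
  group

theorem dE_nP (s t : ℂˣ) (B : Ix → ℂ) :
    dE s t * nP B * (dE s t)⁻¹ = nP (((s : ℂ) / t) • B) := by
  rw [nP, nP, ← dE_nE, ← wE_dE t s]
  group

theorem nE_ee (B : Ix → ℂ) : nE B ee = ee := by
  simp [nE_apply, nfun, ee, cross_zero_left, tr_zero_left]

theorem wE_ee : wE ee = r0 := by simp [tube1_wE_apply, ee, r0]

theorem wE_r0 : wE r0 = -ee := by simp [tube1_wE_apply, ee, r0]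

theorem nP_r0 (B : Ix → ℂ) : nP B r0 = r0 := by
  have : wE⁻¹ r0 = ee := by simp [tube1_wE_inv_apply, ee, r0]
  rw [nP, LinearEquiv.mul_apply, LinearEquiv.mul_apply, this, nE_ee, wE_ee]

theorem nP_ee (B : Ix → ℂ) : nP B ee = (-nrm B, sharp B, -B, 1) := by
  have : wE⁻¹ ee = -rr 0 := by simp [tube1_wE_inv_apply, ee, r0, rr_zero]
  rw [nP, LinearEquiv.mul_apply, LinearEquiv.mul_apply, this, map_neg, nE_rr]
  simp [tube1_wE_apply, rr]

theorem nE_inj {B B' : Ix → ℂ} (h : nE B = nE B') : B = B' := by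
  have := congrArg (fun g : Gb => (g (rr 0)).2.1) h
  simp only [nE_rr] at this
  simpa [rr] using this

theorem dT_nE {t : ℂ} (ht : t ≠ 0) (B : Ix → ℂ) : dT t * nE B * (dT t)⁻¹ = nE (t • B) := by
  rw [dT, dif_neg ht, dE_nE]
  simp

theorem wB_ee {B : Ix → ℂ} (h : nrm B ≠ 0) : wB B ee = (-(nrm B)⁻¹) • r0 := by
  have : nP (iv B) ee = (-(nrm B)⁻¹) • rr (-B) := by
    rw [nP_ee, nrm_iv h]
    simp only [iv, rr, sharp_smul, sharp_sharp, sharp_neg, nrm_neg, Prod.smul_mk, smul_smul,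
      smul_eq_mul, mul_one, Prod.mk.injEq, true_and, smul_neg, neg_smul, neg_neg, Prod.neg_mk,
      mul_neg, inv_mul_cancel₀ h, and_true]
    congr 1
    field_simp
  rw [wB, LinearEquiv.mul_apply, LinearEquiv.mul_apply, nE_ee, this, map_smul, nE_rr,
    neg_add_cancel, rr_zero]

theorem wB_r0 {B : Ix → ℂ} (h : nrm B ≠ 0) : wB B r0 = nrm B • ee := by
  simp only [wB, nP, wE_inv, LinearEquiv.mul_apply, ← rr_zero, nE_rr, zero_add, wE_rr h, scE_apply,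
    map_smul, inv_eq_iv, neg_add_cancel]
  simp [rr_zero, wE_r0, nE_ee]

theorem nrm_sub_star {Z : Ix → ℂ} (h : Z ∈ HH) : nrm (Z - star Z) ≠ 0 := by
  have e : Z - star Z = (2 * Complex.I) • fun l => Complex.ofRealHom (Z l).im := by
    funext l
    simp [Complex.sub_conj]
    ring
  rw [e, nrm_smul, nrm_map]
  have : nrm (fun l => (Z l).im) ≠ 0 := ne_of_gt h.2.2
  simp [this]

theorem gZ_mem_GE (Z : Ix → ℂ) : gZ Z ∈ GE :=
  mul_mem (mul_mem (nE_mem_GE _) wE_mem_GE) (nE_mem_GE _)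

theorem hg_mem_GE (Z : Ix → ℂ) (z : ℂˣ) : hg Z z ∈ GE :=
  mul_mem (mul_mem (gZ_mem_GE Z) (dE_mem_GE _ _)) (inv_mem (gZ_mem_GE Z))

theorem gZ_r0 {Z : Ix → ℂ} (h : Z ∈ HH) : gZ Z r0 = (-(nrm (Z - star Z))⁻¹) • rr Z := by
  have h0 := nrm_sub_star h
  have h1 : nrm (inv (Z - star Z)) = -(nrm (Z - star Z))⁻¹ := by
    rw [inv_eq_iv, nrm_neg, nrm_iv h0]
  have h2 : inv (inv (Z - star Z)) = Z - star Z := by
    rw [inv, h1, inv_eq_iv, sharp_neg, inv_neg, neg_neg, ← nrm_iv h0]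
    exact iv_iv h0
  rw [gZ, LinearEquiv.mul_apply, LinearEquiv.mul_apply, ← rr_zero, nE_rr, zero_add,
    wE_rr (by rw [h1]; simpa using h0), map_smul, nE_rr, h1, h2, sub_add_cancel]

theorem gZ_ee (Z : Ix → ℂ) : gZ Z ee = rr (star Z) := by
  rw [gZ, LinearEquiv.mul_apply, LinearEquiv.mul_apply, nE_ee, wE_ee, ← rr_zero, nE_rr, zero_add]

theorem G0_le_GE : G0 ≤ GE := by
  refine (Subgroup.closure_le _).2 ?_
  rintro _ (⟨B, rfl⟩ | ⟨B, rfl⟩)
  exacts [nE_mem_GE B, nP_mem_GE B]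

theorem G1_le_GE : G1 ≤ GE := by
  refine (Subgroup.closure_le _).2 ?_
  rintro _ ((⟨B, rfl⟩ | ⟨B, rfl⟩) | ⟨y, rfl⟩)
  exacts [nE_mem_GE B, nP_mem_GE B, dE_mem_GE _ _]

theorem G0_conj_gZ (Z : Ix → ℂ) {g : Gb} (h : g ∈ G0) : (gZ Z)⁻¹ * g * gZ Z ∈ G0 := by
  have hn : ∀ B, nE B ∈ G0 := fun B => Subgroup.subset_closure (Or.inl ⟨B, rfl⟩)
  have hw : G0 ≤ cj wE G0 := by
    refine (Subgroup.closure_le _).2 ?_
    rintro _ (⟨B, rfl⟩ | ⟨B, rfl⟩)
    · exact Subgroup.subset_closure (Or.inr ⟨B, rfl⟩)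
    · exact mem_cj.2 (wE_nP B ▸ hn B)
  have h1 := mem_cj.1 (hw (mul_mem (mul_mem (inv_mem (hn (star Z))) h) (hn (star Z))))
  rw [← sa2_conj] at h1
  have h2 := mul_mem (mul_mem (inv_mem (hn (inv (Z - star Z)))) h1) (hn (inv (Z - star Z)))
  simpa only [gZ, mul_inv_rev, mul_assoc] using h2

end Pool.Agent.E7
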