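import Pool.Agent.Lib.MP_7e5527_ag.EL.SA1

/-! The torus, the scalars and the Hodge homomorphisms. -/

open Filter Topology

noncomputable section

namespace Pool.Agent.E7

theorem dE_apply (s t : ℂˣ) (v : W) : dE s t v = ((s : ℂ) ^ 3 * v.1, ((s : ℂ) ^ 2 * t) • v.2.1,
    ((s : ℂ) * (t : ℂ) ^ 2) • v.2.2.1, (t : ℂ) ^ 3 * v.2.2.2) := by
  simp only [← Units.val_pow_eq_pow_val, ← Units.val_mul]
  rfl

theorem scE_apply (s : ℂˣ) (v : W) : scE s v = (s : ℂ) • v := rfl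

theorem dE_mul (s t s' t' : ℂˣ) : dE (s * s') (t * t') = dE s t * dE s' t' := by
  refine LinearEquiv.ext fun v => ?_
  simp only [LinearEquiv.mul_apply, dE_apply, Units.val_mul, smul_smul, Prod.mk.injEq]
  refine ⟨by ring, by module, by module, by ring⟩

theorem dE_one : dE 1 1 = 1 := LinearEquiv.ext fun v => by simp [dE_apply]

theorem dE_inv (s t : ℂˣ) : (dE s t)⁻¹ = dE s⁻¹ t⁻¹ :=
  inv_eq_of_mul_eq_one_right (by rw [← dE_mul, mul_inv_cancel, mul_inv_cancel, dE_one])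

theorem dE_self (s : ℂˣ) : dE s s = scE (s ^ 3) := by
  refine LinearEquiv.ext fun v => ?_
  rw [dE_apply, scE_apply, Units.val_pow_eq_pow_val, ← pow_succ, ← pow_succ']
  rfl

theorem exists_dE_eq (s : ℂˣ) : ∃ u, dE u u = scE s := by
  obtain ⟨z, hz⟩ := IsAlgClosed.exists_pow_nat_eq (s : ℂ) (n := 3) (by norm_num)
  refine ⟨Units.mk0 z fun h => s.ne_zero (by rw [← hz, h, zero_pow three_ne_zero]), ?_⟩
  rw [dE_self]
  exact congrArg scE (Units.ext hz)

theorem scE_comm (s : ℂˣ) (g : Gb) : scE s * g = g * scE s :=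
  LinearEquiv.ext fun v => (g.map_smul (s : ℂ) v).symm

theorem dE_mem_GE (s t : ℂˣ) : dE s t ∈ GE := by
  refine ⟨((s : ℂ) * t) ^ 3, by simp, fun v v' => ?_, fun v => ?_⟩ <;>
    simp only [sy, q4, dE_apply, tr_smul_left, tr_smul_right, nrm_smul, sharp_smul] <;> ring

theorem sy_dE (s t : ℂˣ) (v v' : W) :
    sy (dE s t v) (dE s t v') = ((s : ℂ) * t) ^ 3 * sy v v' := by
  simp only [sy, dE_apply, tr_smul_left, tr_smul_right]
  ring

theorem scE_mem_GE (s : ℂˣ) : scE s ∈ GE := by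
  obtain ⟨u, hu⟩ := exists_dE_eq s
  exact hu ▸ dE_mem_GE u u

end Pool.Agent.E7
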