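import Pool.Agent.Lib.MP_7e5527_ag.EL.SA2

/-! Levi elements of complex similitudes. -/

open Filter Topology

noncomputable section

namespace Pool.Agent.E7

theorem sa3a_lin (A : JE) {c : ℂ} (h : ∀ Z, nrm (A Z) = c * nrm Z) (Z Y : Ix → ℂ) :
    tr (sharp (A Z)) (A Y) = c * tr (sharp Z) Y := by
  have h1 := h (Z + Y)
  have h2 := h (Z + (-1 : ℂ) • Y)
  have h3 := h Y
  rw [map_add, nrm_add, nrm_add] at h1
  rw [map_add, map_smul, nrm_add, nrm_add] at h2
  simp only [sharp_smul, tr_smul_right, nrm_smul] at h2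
  linear_combination (1 / 2 : ℂ) * h1 - (1 / 2 : ℂ) * h2 - h3

theorem sa3a_adj (A : JE) {c : ℂ} (hc : c ≠ 0) :
    ∃ A' : JE, ∀ X Y, tr (A' X) (A Y) = c * tr X Y := by
  let f : (Ix → ℂ) →ₗ[ℂ] Ix → ℂ :=
    { toFun X l := c * (wt l : ℂ)⁻¹ * tr X (A.symm (Pi.single l 1))
      map_add' X Y := by funext l; simp only [tr_add_left, Pi.add_apply, mul_add]
      map_smul' s X := by
        funext l; simp only [tr_smul_left, Pi.smul_apply, smul_eq_mul, RingHom.id_apply]; ring }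
  have hf : ∀ X Y, tr (f X) (A Y) = c * tr X Y := fun X Y => by
    have e : Y = ∑ l, A Y l • A.symm (Pi.single l 1) := by
      simp only [← map_smul, ← map_sum, LinearEquiv.eq_symm_apply]
      exact pi_eq_sum_univ' _
    conv_rhs => rw [e]
    rw [tr_eq_sum, tr_sum_right, Finset.mul_sum]
    refine Finset.sum_congr rfl fun l _ => ?_
    have := lin_wt (F := ℂ) l
    rw [tr_smul_right]
    change _ * (c * _ * _) * _ = _
    field_simp
  refine ⟨LinearEquiv.ofInjectiveEndo f ((injective_iff_map_eq_zero _).2 fun X hX =>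
    eq_of_tr fun Y => ?_), hf⟩
  have := hf X Y
  rw [hX, tr_zero_left] at this
  rw [tr_zero_left, (mul_eq_zero.1 this.symm).resolve_left hc]

/-- The companion of a similitude. -/
theorem Sim.exists_adj {A : JE} {c : ℂ} (h : Sim A c) : ∃ A' : JE,
    (∀ X Y, tr (A' X) (A Y) = c * tr X Y) ∧ (∀ Z, sharp (A Z) = A' (sharp Z)) ∧
    (∀ C, sharp (A' C) = c • A (sharp C)) ∧ ∀ C, nrm (A' C) = c ^ 2 * nrm C := by
  obtain ⟨A', h1⟩ := sa3a_adj A h.1
  have h2 : ∀ Z, sharp (A Z) = A' (sharp Z) := fun Z => eq_of_tr fun T => by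
    obtain ⟨Y, rfl⟩ := A.surjective T
    rw [h1, sa3a_lin A h.2]
  have h4 : ∀ C, nrm (A' C) = c ^ 2 * nrm C := fun C => by
    have k1 := congrArg nrm (h2 (sharp C))
    rw [sharp_sharp, map_smul, nrm_smul, nrm_sharp, h.2, nrm_sharp] at k1
    obtain ⟨Z, hZ⟩ := A.surjective (sharp (A' C))
    have k2 := h2 Z
    rw [hZ, sharp_sharp, ← map_smul, A'.injective.eq_iff] at k2
    have k3 := congrArg nrm k2
    have k4 := h.2 Z
    rw [nrm_smul, nrm_sharp] at k3
    rw [hZ, nrm_sharp] at k4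
    by_contra h0
    have e1 : nrm C = 0 := pow_eq_zero_iff (n := 3) (by norm_num) |>.1
      ((mul_eq_zero.1 (show nrm C ^ 3 * (nrm (A' C) - c ^ 2 * nrm C) = 0 by
        linear_combination -k1)).resolve_right (sub_ne_zero.2 h0))
    rw [e1, mul_zero] at h0 k3
    rw [pow_eq_zero_iff (by norm_num) |>.1 k3.symm, mul_zero] at k4
    exact h0 (pow_eq_zero_iff (by norm_num) |>.1 k4)
  refine ⟨A', h1, h2, fun C => eq_of_tr fun T => ?_, h4⟩
  obtain ⟨Y, rfl⟩ := A'.surjective T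
  rw [sa3a_lin A' h4, tr_smul_left, tr_comm (A _), h1, tr_comm Y]
  ring

theorem Sim.exists_Lv {A : JE} {c : ℂ} (h : Sim A c) : ∃ g ∈ GE, Lv A g := by
  obtain ⟨A', h1, h2, h3, h4⟩ := h.exists_adj
  let g : Gb := (LinearEquiv.refl ℂ ℂ).prodCongr (A.prodCongr (A'.prodCongr
    (LinearEquiv.smulOfUnit (Units.mk0 c h.1))))
  have e : ∀ v, g v = (v.1, A v.2.1, A' v.2.2.1, c * v.2.2.2) := fun v => rfl
  refine ⟨g, ⟨c, h.1, fun v v' => ?_, fun v => ?_⟩, fun Z => ?_⟩
  · simp only [e, sy, h1, tr_comm (A _), tr_comm v.2.1]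
    ring
  · simp only [e, q4, h1, h2, h3, h4, h.2, tr_comm (A _), tr_comm v.2.1, tr_smul_right]
    ring
  · simp only [e, rr, h2, h.2]

end Pool.Agent.E7
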