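import Pool.Agent.Lib.MP_7e5527_ag.EL.SBa

/-! The cone of vectors of rank one. -/

open Filter Topology

noncomputable section

namespace Pool.Agent.E7

theorem sb_ne {g : Gb} {s : ℂ} (h : g ee = s • ee) : s ≠ 0 := by
  rintro rfl
  rw [zero_smul, g.map_eq_zero_iff] at h
  simpa [ee] using congrArg (·.2.2.2) h

/-- The stabiliser of the last axis preserves the first step of the filtration. -/
theorem stab_fst {g : Gb} (hg : g ∈ GE) {s : ℂ} (h : g ee = s • ee) :
    (g r0).1 ≠ 0 ∧ ∀ v, (g v).1 = (g r0).1 * v.1 := by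
  obtain ⟨ν, h0, h1, -⟩ := hg
  have e : ∀ v, s * (g v).1 = ν * v.1 := fun v => by
    have := h1 v ee
    rwa [h, ← one_smul ℂ (g v), sy_smul, sy_ee, sy_ee, one_mul] at this
  have e0 : s * (g r0).1 = ν := (e r0).trans (mul_one _)
  exact ⟨right_ne_zero_of_mul (e0 ▸ h0),
    fun v => mul_left_cancel₀ (sb_ne h) (by rw [e, ← mul_assoc, e0])⟩

/-- The stabiliser of the last axis preserves the second step of the filtration. -/
theorem stab_snd {g : Gb} (hg : g ∈ GE) {s : ℂ} (h : g ee = s • ee) (C : Ix → ℂ) :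
    (g (0, 0, C, 0)).2.1 = 0 := by
  obtain ⟨U, c, U0, e⟩ : ∃ U : ℂ → W, Continuous U ∧ U 0 = g (0, 0, C, 0) ∧
      ∀ t : ℂ, g (wE (rr (t • C))) = t • U t - s • ee := by
    refine ⟨fun t => g (t ^ 2 * nrm C, -(t • sharp C), C, 0),
      g.toLinearMap.continuous_of_finiteDimensional.comp (by fun_prop), by simp, fun t => ?_⟩
    rw [← h, ← map_smul, ← map_sub, tube1_wE_apply]
    simp only [rr, ee, sharp_smul, nrm_smul, Prod.smul_mk, Prod.mk_sub_mk, sub_zero, smul_neg,
      smul_smul, smul_eq_mul, mul_zero, zero_sub, ← sq, ← mul_assoc, ← pow_succ']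
  have cs : Continuous (sharp : (Ix → ℂ) → Ix → ℂ) := continuous_pi fun l =>
    (polyFn_rr (LinearMap.proj l ∘ₗ LinearMap.fst ℂ _ _ ∘ₗ LinearMap.snd ℂ _ _ ∘ₗ
      LinearMap.snd ℂ _ _)).differentiable.continuous
  have d : Continuous fun t => t * (U t).2.2.2 - s := by fun_prop
  have k := tendsto_nhds_unique_of_eventuallyEq (l := 𝓝[≠] (0 : ℂ))
    ((by fun_prop : Continuous fun t : ℂ => t • sharp (U t).2.2.1).tendsto 0 |>.mono_left
      nhdsWithin_le_nhds) ((by fun_prop : Continuous fun t : ℂ =>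
        (t * (U t).2.2.2 - s) • (U t).2.1).tendsto 0 |>.mono_left nhdsWithin_le_nhds) (by
      filter_upwards [self_mem_nhdsWithin, ((d.continuousAt (x := 0)).eventually_ne
        (y := 0) (by simpa using sb_ne h)).filter_mono nhdsWithin_le_nhds] with t t0 t1
      have := (CnW.last (Cn_map hg (Cn_map wE_mem_GE (rr_mem_Cn (t • C)))) (by
        simpa [e, ee] using t1)).1
      refine smul_right_injective _ t0 ?_
      simpa [e, ee, sharp_smul, smul_smul, sq, mul_comm] using this)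
  simpa [U0, sb_ne h] using k

theorem stab_r0 {g : Gb} (hg : g ∈ GE) {s : ℂ} (h : g ee = s • ee) :
    nE (-((g r0).1⁻¹ • (g r0).2.1)) (g r0) = (g r0).1 • r0 := by
  have := congrArg (nE (-((g r0).1⁻¹ • (g r0).2.1)))
    (CnW.eq_rr (Cn_map hg (rr_zero ▸ rr_mem_Cn 0)) (stab_fst hg h).1)
  rwa [map_smul, nE_rr, add_neg_cancel, rr_zero] at this

end Pool.Agent.E7
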