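import Pool.Agent.Lib.MP_7e5527_ag.EL.SA2

/-! The cone of vectors of rank one. -/

open Filter Topology

noncomputable section

namespace Pool.Agent.E7

theorem Cn_map {g : Gb} (hg : g ∈ GE) {v : W} (hv : v ∈ CnW) : g v ∈ CnW := by
  obtain ⟨ν, -, h1, h2⟩ := hg
  intro w
  obtain ⟨w, rfl⟩ := g.surjective w
  rw [← map_add, ← map_sub, h1, h2, h2, h2, h2]
  linear_combination ν ^ 2 * hv w

theorem Cn_smul (s : ℂ) {v : W} (hv : v ∈ CnW) : s • v ∈ CnW := by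
  rcases eq_or_ne s 0 with rfl | hs
  · intro w
    have h1 := q4_smul (-1) w
    have h2 := q4_smul 0 w
    have h3 := sy_smul 0 1 v w
    rw [neg_one_smul] at h1
    rw [one_smul] at h3
    rw [h3, zero_smul, zero_add, zero_sub, h1, ← zero_smul ℂ w, h2]
    ring
  · exact scE_apply (Units.mk0 s hs) v ▸ Cn_map (scE_mem_GE (Units.mk0 s hs)) hv

theorem ee_mem_Cn : ee ∈ CnW := by
  rintro ⟨a, B, C, d⟩
  simp only [q4, sy, ee, Prod.mk_add_mk, Prod.mk_sub_mk, zero_add, zero_sub, tr_neg_left,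
    tr_neg_right, nrm_neg, sharp_neg, tr_zero_left, nrm_zero, sharp_zero]
  ring

theorem rr_mem_Cn (Z : Ix → ℂ) : rr Z ∈ CnW := by
  have h := Cn_map (nE_mem_GE Z) (Cn_map wE_mem_GE ee_mem_Cn)
  rwa [wE_ee, ← rr_zero, nE_rr, zero_add] at h

theorem sba_axis {a d : ℂ} {C : Ix → ℂ} (hv : ((a, 0, C, d) : W) ∈ CnW) (h : a ≠ 0) :
    C = 0 ∧ d = 0 := by
  obtain rfl : C = 0 := by
    refine eq_zero_of_tr_sharp fun X => mul_left_cancel₀ h ?_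
    have h1 := hv (0, 0, X, 0)
    simp only [q4, sy, Prod.mk_add_mk, Prod.mk_sub_mk, sub_eq_add_neg C, nrm_add, add_zero,
      sub_zero, tr_neg_right, nrm_neg, sharp_neg, tr_zero_left, tr_zero_right, nrm_zero,
      sharp_zero] at h1
    linear_combination (1 / 8 : ℂ) * h1
  refine ⟨rfl, mul_left_cancel₀ h ?_⟩
  have h1 := hv (1, 0, 0, 1)
  simp only [q4, sy, Prod.mk_add_mk, Prod.mk_sub_mk, add_zero, sub_zero, tr_zero_left, nrm_zero,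
    sharp_zero] at h1
  linear_combination (1 / 12 : ℂ) * h1

theorem sba_shift {v : W} (hv : v ∈ CnW) (h : v.1 ≠ 0) :
    nE (-(v.1⁻¹ • v.2.1)) v = v.1 • r0 := by
  have h1 := Cn_map (nE_mem_GE (-(v.1⁻¹ • v.2.1))) hv
  have h2 : v.2.1 + v.1 • -(v.1⁻¹ • v.2.1) = 0 := by
    rw [smul_neg, smul_inv_smul₀ h, add_neg_cancel]
  rw [nE_apply, nfun, h2] at h1 ⊢
  obtain ⟨h3, h4⟩ := sba_axis h1 h
  rw [h3, h4]
  simp [r0]

theorem CnW.eq_rr {v : W} (hv : v ∈ CnW) (h : v.1 ≠ 0) : v = v.1 • rr (v.1⁻¹ • v.2.1) := by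
  have h1 := congrArg (nE (v.1⁻¹ • v.2.1)) (sba_shift hv h)
  rwa [← LinearEquiv.mul_apply, ← nE_add, add_neg_cancel, nE_zero, map_smul, ← rr_zero, nE_rr,
    zero_add] at h1

theorem CnW.last {v : W} (hv : v ∈ CnW) (h : v.2.2.2 ≠ 0) :
    sharp v.2.2.1 = v.2.2.2 • v.2.1 ∧ nrm v.2.2.1 = v.2.2.2 ^ 2 * v.1 := by
  obtain ⟨a, B, C, d⟩ := v
  have h1 := CnW.eq_rr (Cn_map wE_mem_GE hv) h
  simp only [tube1_wE_apply, rr, Prod.smul_mk, Prod.mk.injEq, sharp_smul, sharp_neg, nrm_smul,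
    nrm_neg, smul_smul, smul_eq_mul] at h1 h ⊢
  obtain ⟨-, -, h2, h3⟩ := h1
  refine ⟨?_, ?_⟩
  · rw [h2, smul_smul, show d * (d * d⁻¹ ^ 2) = 1 by field_simp, one_smul]
  · rw [neg_eq_iff_eq_neg.1 h3]
    field_simp

theorem CnW.to_ee {v : W} (hv : v ∈ CnW) (h : v.1 ≠ 0) :
    wE (nE (-(v.1⁻¹ • v.2.1)) v) = (-v.1) • ee := by
  rw [sba_shift hv h, map_smul, wE_r0, smul_neg, neg_smul]

end Pool.Agent.E7
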