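import Pool.Agent.Lib.MP_7e5527_ag.EL.SC1b

/-! Elements that fix both axes, triangular elements. -/

open Filter Topology

noncomputable section

namespace Pool.Agent.E7

theorem sc1_rat {v : W} (hv : v ∈ WQ) : ∃ T, -(v.1⁻¹ • v.2.1) = toR ℂ T := by
  obtain ⟨⟨n, hn⟩, ⟨T, hT⟩, -⟩ := hv
  refine ⟨-(n⁻¹ • T), funext fun l => ?_⟩
  simp [hn, hT, toR]

theorem sc1_mk (a d : ℚ) (T T' : Ix → ℚ) : (((a : ℂ), toR ℂ T, toR ℂ T', (d : ℂ)) : W) ∈ WQ :=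
  ⟨⟨a, rfl⟩, ⟨T, rfl⟩, ⟨T', rfl⟩, d, rfl⟩

theorem sc1_ee : ee ∈ WQ := by simpa [toR_zero, ee] using sc1_mk 0 1 0 0

theorem sc1_r0 : r0 ∈ WQ := by simpa [toR_zero, r0] using sc1_mk 1 0 0 0

theorem sc1_bW (i : Wx) : bW i ∈ WQ := by
  rcases i with i | i | i | i
  · simpa [bW, r0, Prod.mk_zero_zero] using sc1_r0
  · simpa [bW, toR_zero, toR_single, Prod.mk_zero_zero] using sc1_mk 0 0 (Pi.single i 1) 0
  · simpa [bW, toR_zero, toR_single] using sc1_mk 0 0 0 (Pi.single i 1)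
  · simpa [bW, ee] using sc1_ee

theorem sc1_fix {v : W} (hv : v ∈ WQ) : star v = v := by
  obtain ⟨a, X, Y, d⟩ := v
  obtain ⟨⟨n, rfl⟩, ⟨T, rfl⟩, ⟨T', rfl⟩, m, rfl⟩ := hv
  refine Prod.ext (by simp) (Prod.ext (funext fun l => ?_) (Prod.ext (funext fun l => ?_) (by simp)))
  all_goals simp [toR]

theorem sc1_star {g : Gb} (hg : g ∈ GG) (v : W) : g (star v) = star (g v) := by
  let f : W →ₗ[ℂ] W :=
    { toFun := fun v => star (g (star v))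
      map_add' := fun v w => by rw [star_add, map_add, star_add]
      map_smul' := fun c v => by rw [star_smul, map_smul, star_smul, star_star, RingHom.id_apply] }
  have e : f = g := bW.ext fun i => by
    change star (g (star (bW i))) = g (bW i)
    rw [sc1_fix (sc1_bW i), sc1_fix (WQ_map hg (sc1_bW i))]
  have h : star (g (star v)) = g v := LinearMap.congr_fun e v
  rw [← h, star_star]

theorem sc1_rr (Z : Ix → ℂ) : rr (star Z) = star (rr Z) :=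
  Prod.ext (star_one ℂ).symm (Prod.ext rfl
    (Prod.ext (sharp_map (starRingEnd ℂ) Z) (nrm_map (starRingEnd ℂ) Z)))

/-- Every element of `GE` is brought to the Levi group. -/
theorem GE_reduce {g : Gb} (hg : g ∈ GE) : ∃ γ ∈ Gam, ∃ (B B' : Ix → ℂ) (s : ℂˣ) (A : JE) (c : ℂ),
    Sim A c ∧ Lv A (scE s * nE B' * wE * nE B * γ * g) ∧
    ((∀ v ∈ WQ, g v ∈ WQ) → (∃ T, B = toR ℂ T) ∧ (∃ T, B' = toR ℂ T) ∧ ∃ r : ℚ, (s : ℂ) = r) := by
  have h0 : g ee ≠ 0 := fun h => one_ne_zero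
    (congrArg (fun v : W => v.2.2.2) (g.map_eq_zero_iff.1 h))
  obtain ⟨γ, hγ, h1⟩ := exists_fst_ne h0
  have hγ' : γ ∈ GE := GG_le_GE (Gam_le hγ)
  obtain ⟨B, hB⟩ : ∃ B, B = -((γ (g ee)).1⁻¹ • (γ (g ee)).2.1) := ⟨_, rfl⟩
  obtain ⟨p, hp⟩ : ∃ p, p = wE * nE B * γ * g := ⟨_, rfl⟩
  have pG : p ∈ GE := hp ▸ mul_mem (mul_mem (mul_mem wE_mem_GE (nE_mem_GE B)) hγ') hg
  have pe : p ee = (-(γ (g ee)).1) • ee := by
    rw [hp, hB]
    exact CnW.to_ee (Cn_map hγ' (Cn_map hg ee_mem_Cn)) h1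
  have ht := (stab_fst pG pe).1
  obtain ⟨B', hB'⟩ : ∃ B', B' = -((p r0).1⁻¹ • (p r0).2.1) := ⟨_, rfl⟩
  have e : scE (Units.mk0 _ ht)⁻¹ * nE B' * wE * nE B * γ * g =
      scE (Units.mk0 _ ht)⁻¹ * nE B' * p := by simp only [hp, mul_assoc]
  obtain ⟨A, hA, hL, -⟩ := Lv_of_fix (c := (p r0).1⁻¹ * -(γ (g ee)).1)
    (mul_mem (mul_mem (scE_mem_GE (Units.mk0 _ ht)⁻¹) (nE_mem_GE B')) pG)
    (by rw [LinearEquiv.mul_apply, LinearEquiv.mul_apply, pe, map_smul, nE_ee, scE_apply,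
          smul_smul, Units.val_inv_eq_inv_val, Units.val_mk0])
    (by rw [LinearEquiv.mul_apply, LinearEquiv.mul_apply, hB', stab_r0 pG pe, scE_apply,
          smul_smul, Units.val_inv_eq_inv_val, Units.val_mk0, inv_mul_cancel₀ ht, one_smul])
  refine ⟨γ, hγ, B, B', (Units.mk0 _ ht)⁻¹, A, _, hA, e ▸ hL, fun hq => ?_⟩
  obtain ⟨T, hT⟩ := sc1_rat (WQ_map (Gam_le hγ) (hq _ sc1_ee))
  have hn : nE B ∈ GG := Subgroup.subset_closure (Or.inl ⟨T, by rw [hB, hT]⟩)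
  have h2 : p r0 ∈ WQ := by
    rw [hp]
    exact WQ_map (Gam_le wE_mem) (WQ_map hn (WQ_map (Gam_le hγ) (hq _ sc1_r0)))
  obtain ⟨r, hr⟩ := h2.1
  refine ⟨⟨T, hB.trans hT⟩, hB' ▸ sc1_rat h2, r⁻¹, ?_⟩
  rw [Units.val_inv_eq_inv_val, Units.val_mk0, hr, Rat.cast_inv]

/-- The Hodge homomorphisms are permuted by conjugation. -/
theorem hg_act {g : Gb} (hg' : g ∈ GG) {Z : Ix → ℂ} (hZ : Z ∈ HH) (z : ℂˣ) :
    hg (act g Z) z = g * hg Z z * g⁻¹ := by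
  obtain ⟨-, hZ', e⟩ := act_spec hg' hZ
  have kG : (gZ (act g Z))⁻¹ * g * gZ Z ∈ GE :=
    mul_mem (mul_mem (inv_mem (gZ_mem_GE _)) (GG_le_GE hg')) (gZ_mem_GE _)
  have hi : ∀ v, (gZ (act g Z))⁻¹ (gZ (act g Z) v) = v := fun v =>
    (gZ (act g Z)).symm_apply_apply v
  have h1 : ((gZ (act g Z))⁻¹ * g * gZ Z) ee = star (jf g Z) • ee := by
    rw [LinearEquiv.mul_apply, LinearEquiv.mul_apply, gZ_ee, sc1_rr, sc1_star hg', e, star_smul,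
      ← sc1_rr, ← gZ_ee, map_smul, hi]
  have h3 : rr (act g Z) = (-nrm (act g Z - star (act g Z))) • gZ (act g Z) r0 := by
    rw [gZ_r0 hZ', smul_smul, neg_mul_neg, mul_inv_cancel₀ (nrm_sub_star hZ'), one_smul]
  have h2 : ((gZ (act g Z))⁻¹ * g * gZ Z) r0 = (-(nrm (Z - star Z))⁻¹ * jf g Z *
      -nrm (act g Z - star (act g Z))) • r0 := by
    rw [LinearEquiv.mul_apply, LinearEquiv.mul_apply, gZ_r0 hZ, map_smul, e, h3, smul_smul,
      smul_smul, map_smul, hi]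
  have h4 := comm_dE kG h1 h2 z (star z)
  calc hg (act g Z) z = gZ (act g Z) * (dE z (star z) * ((gZ (act g Z))⁻¹ * g * gZ Z)) *
        (gZ Z)⁻¹ * g⁻¹ := by rw [hg]; group
    _ = _ := by rw [← h4, hg]; group

end Pool.Agent.E7
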