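import Pool.Agent.Lib.MP_7e5527_ag.EL.SC1a

/-! Elements that fix both axes, triangular elements. -/

open Filter Topology

noncomputable section

namespace Pool.Agent.E7

theorem wB_mem_G0 (B : Ix → ℂ) : wB B ∈ G0 := by
  have h : nE B ∈ G0 := Subgroup.subset_closure (Or.inl ⟨B, rfl⟩)
  exact mul_mem (mul_mem h (Subgroup.subset_closure (Or.inr ⟨_, rfl⟩))) h

theorem sc1b_fix {B : Ix → ℂ} (h : nrm B ≠ 0) : wE⁻¹ * wB B ∈ GE ∧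
    (wE⁻¹ * wB B) ee = (-(nrm B)⁻¹) • ee ∧ (wE⁻¹ * wB B) r0 = (-nrm B) • r0 := by
  have e1 : wE⁻¹ r0 = ee := wE.symm_apply_eq.2 wE_ee.symm
  have e2 : wE⁻¹ ee = -r0 := wE.symm_apply_eq.2 (by rw [map_neg, wE_r0, neg_neg])
  refine ⟨mul_mem (inv_mem wE_mem_GE) (G0_le_GE (wB_mem_G0 B)), ?_, ?_⟩
  · rw [LinearEquiv.mul_apply, wB_ee h, map_smul, e1]
  · rw [LinearEquiv.mul_apply, wB_r0 h, map_smul, e2, smul_neg, neg_smul]

theorem wB_dE {B : Ix → ℂ} (h : nrm B ≠ 0) (s t : ℂˣ) :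
    wB B * dE s t * (wB B)⁻¹ = dE t s := by
  obtain ⟨h1, h2, h3⟩ := sc1b_fix h
  have e := comm_dE h1 h2 h3 s t
  rw [← wE_dE s t]
  calc wB B * dE s t * (wB B)⁻¹ = wE * (wE⁻¹ * wB B * dE s t) * (wB B)⁻¹ := by group
    _ = _ := by rw [e]; group

theorem wB_nP {B : Ix → ℂ} (h : nrm B ≠ 0) :
    ∃ A : JE, ∀ C, wB B * nP C * (wB B)⁻¹ = nE (A C) := by
  obtain ⟨h1, h2, h3⟩ := sc1b_fix h
  have h0 : (-nrm B)⁻¹ ≠ 0 := inv_ne_zero (neg_ne_zero.2 h)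
  obtain ⟨A, hA, hL, -⟩ := Lv_of_fix (mul_mem (scE_mem_GE (Units.mk0 _ h0)) h1)
    (c := (-nrm B)⁻¹ * -(nrm B)⁻¹) (by rw [LinearEquiv.mul_apply, h2, scE_apply, smul_smul]; rfl)
    (by rw [LinearEquiv.mul_apply, h3, scE_apply, smul_smul, Units.val_mk0,
      inv_mul_cancel₀ (neg_ne_zero.2 h), one_smul])
  obtain ⟨A', -, hC⟩ := hL.conj_nP hA
  refine ⟨A', fun C => ?_⟩
  rw [← wE_nP, ← hC, mul_assoc (scE _), mul_inv_rev (scE _), ← mul_assoc (scE _ * _), scE_comm,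
    mul_assoc _ (scE _), scE_comm]
  group

end Pool.Agent.E7
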