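import Pool.Agent.Lib.MP_7e5527_ag.EL.SA2

/-! Matrices in the rational basis. -/

open Filter Topology

noncomputable section

namespace Pool.Agent.E7

theorem mat_mul (g k : Gb) : mat (g * k) = mat g * mat k :=
  LinearMap.toMatrix_mul bW (g : W →ₗ[ℂ] W) k

theorem mat_one : mat 1 = 1 := LinearMap.toMatrix_one bW

theorem mat_inj {g k : Gb} (h : mat g = mat k) : g = k :=
  LinearEquiv.toLinearMap_injective ((LinearMap.toMatrix bW bW).injective h)

theorem mat_unit (g : Gb) : IsUnit (mat g).det := LinearEquiv.isUnit_det g bW bW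

theorem mat_inv (g : Gb) : mat g⁻¹ = (mat g)⁻¹ :=
  (Matrix.inv_eq_left_inv (by rw [← mat_mul, inv_mul_cancel, mat_one])).symm

theorem exists_mat {M : Matrix Wx Wx ℂ} (h : IsUnit M.det) : ∃ g, mat g = M :=
  ⟨Matrix.toLinearEquiv bW M h, LinearMap.toMatrix_toLin bW bW M⟩

theorem sc2a_dE (s t : ℂˣ) (j : Wx) :
    dE s t (bW j) = ((s : ℂ) ^ (3 - deg j) * (t : ℂ) ^ deg j) • bW j := by
  rw [dE_apply]
  rcases j with j | j | j | j <;> simp [bW, deg, Prod.ext_iff]

theorem mat_dE (s t : ℂˣ) :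
    mat (dE s t) = Matrix.diagonal fun i => (s : ℂ) ^ (3 - deg i) * (t : ℂ) ^ deg i := by
  ext i j
  rw [mat, LinearMap.toMatrix_apply, LinearEquiv.coe_coe, sc2a_dE, map_smul, bW.repr_self,
    Finsupp.smul_apply, Finsupp.single_apply, Matrix.diagonal_apply]
  by_cases h : i = j
  · rw [if_pos h, if_pos h.symm, h, smul_eq_mul, mul_one]
  · rw [if_neg h, if_neg (Ne.symm h), smul_zero]

theorem mat_scE (s : ℂˣ) : mat (scE s) = (s : ℂ) • (1 : Matrix Wx Wx ℂ) := by
  rw [← LinearMap.toMatrix_one bW, ← map_smul]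
  exact congrArg (LinearMap.toMatrix bW bW) (LinearMap.ext (scE_apply s))

theorem mat_dT_conj {t : ℂ} (ht : t ≠ 0) (g : Gb) (i j : Wx) :
    mat (dT t * g * (dT t)⁻¹) i j = t ^ ((deg i : ℤ) - deg j) * mat g i j := by
  rw [dT, dif_neg ht, dE_inv, mat_mul, mat_mul, mat_dE, mat_dE, Matrix.mul_diagonal,
    Matrix.diagonal_mul, zpow_sub₀ ht, zpow_natCast, zpow_natCast]
  simp only [Units.val_one, inv_one, one_pow, one_mul, Units.val_inv_eq_inv_val, Units.val_mk0,
    inv_pow]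
  ring

end Pool.Agent.E7
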