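import Pool.Agent.Lib.MP_7e5527_ag.EL.SC2
import Pool.Agent.Lib.MP_7e5527_ag.EL.SJ

/-! Irreducibility of the representation. -/

open Filter Topology

noncomputable section

namespace Pool.Agent.E7

theorem sc3a_zero (φ : W →ₗ[ℂ] ℂ) (h : ∀ T, φ (rr (toR ℂ T)) = 0) : φ = 0 :=
  eq_zero_of_rr φ fun Z _ => (polyFn_rr φ).eq_zero_of_rat h Z

theorem span_nP_ee : Submodule.span ℂ (Set.range fun T : Ix → ℚ => nP (toR ℂ T) ee) = ⊤ := by
  by_contra h
  obtain ⟨f, h0, h1⟩ := Submodule.exists_le_ker_of_lt_top _ (lt_top_iff_ne_top.2 h)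
  have h2 := sc3a_zero (f ∘ₗ (wE : Gb)) fun T => by
    have e : wE (rr (toR ℂ T)) = -nP (toR ℂ T) ee := by simp [nP_ee, tube1_wE_apply, rr]
    simpa [e] using h1 (Submodule.subset_span ⟨T, rfl⟩)
  exact h0 (LinearMap.ext fun v => by simpa using LinearMap.congr_fun h2 (wE.symm v))

theorem fixed_nE {v : W} (h : ∀ T : Ix → ℚ, nE (toR ℂ T) v = v) : ∃ s : ℂ, v = s • ee := by
  obtain ⟨a, B, C, d⟩ := v
  have h2 := LinearMap.congr_fun <| sc3a_zero
    { toFun := fun w => tr C w.2.1 + tr B w.2.2.1 + a * w.2.2.2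
      map_add' := fun v w => by
        simp only [Prod.fst_add, Prod.snd_add, tr_add_right]
        ring
      map_smul' := fun c w => by
        simp only [Prod.smul_fst, Prod.smul_snd, tr_smul_right, smul_eq_mul, RingHom.id_apply]
        ring } fun T => by
    have e := congrArg (fun w : W => w.2.2.2) (h T)
    simp only [nE_apply, nfun] at e
    simp only [rr, LinearMap.coe_mk, AddHom.coe_mk]
    linear_combination e
  have ha : a = 0 := by simpa [tr_zero_right] using h2 (0, 0, 0, 1)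
  have hB : B = 0 := eq_of_tr fun T => by
    simpa [tr_zero_right, tr_zero_left] using h2 (0, 0, T, 0)
  have hC : C = 0 := eq_of_tr fun T => by
    simpa [tr_zero_right, tr_zero_left] using h2 (0, T, 0, 0)
  exact ⟨d, by simp [ha, hB, hC, ee]⟩

/-- Schur: what commutes with the rational unipotent elements is a scalar. -/
theorem schur {M : Matrix Wx Wx ℂ} (h : ∀ T : Ix → ℚ,
    M * mat (nE (toR ℂ T)) = mat (nE (toR ℂ T)) * M ∧
      M * mat (nP (toR ℂ T)) = mat (nP (toR ℂ T)) * M) :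
    ∃ s : ℂ, M = s • (1 : Matrix Wx Wx ℂ) := by
  obtain ⟨f, rfl⟩ := (LinearMap.toMatrix bW bW).surjective M
  have e : ∀ g : Gb, LinearMap.toMatrix bW bW f * mat g = mat g * LinearMap.toMatrix bW bW f →
      ∀ v, f (g v) = g (f v) := fun g h v => by
    rw [mat, ← LinearMap.toMatrix_comp, ← LinearMap.toMatrix_comp] at h
    exact LinearMap.congr_fun ((LinearMap.toMatrix bW bW).injective h) v
  obtain ⟨s, hs⟩ := fixed_nE (v := f ee) fun T => by rw [← e _ (h T).1, nE_ee]
  have : f = s • LinearMap.id := LinearMap.ext_on_range span_nP_ee fun T => by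
    simp [e _ (h T).2, hs]
  exact ⟨s, by rw [this, map_smul, LinearMap.toMatrix_id]⟩

theorem CenG.scalar {N : Subgroup Gb} (hn : ∀ B, nE B ∈ N ∧ nP B ∈ N) {z : Gb} (h : CenG N z) :
    ∃ s, z = scE s := by
  obtain ⟨s, hs⟩ := schur (M := mat z) fun T => by
    simp only [← mat_mul, h.2 _ (hn _).1, h.2 _ (hn _).2, and_self]
  have h0 : s ≠ 0 := by
    rintro rfl
    simpa [hs] using mat_unit z
  exact ⟨Units.mk0 s h0, mat_inj (by rw [mat_scE, hs, Units.val_mk0])⟩

end Pool.Agent.E7
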