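import Pool.Agent.Lib.MP_7e5527_ag.EL.SC3a

/-! Irreducibility of the representation. -/

open Filter Topology

noncomputable section

namespace Pool.Agent.E7

/-- The last coordinate. -/
def sc3b_last : W →ₗ[ℂ] ℂ :=
  (LinearMap.snd ℂ _ _).comp ((LinearMap.snd ℂ _ _).comp (LinearMap.snd ℂ _ _))

theorem sc3b_last_apply (v : W) : sc3b_last v = v.2.2.2 := rfl

/-- The last coordinates of the translates determine a vector. -/
theorem sc3b_sep {v : W} (h : ∀ B, (nE B v).2.2.2 = 0) : v = 0 := by
  obtain ⟨a, b, c, d⟩ := v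
  let φ : W →ₗ[ℂ] ℂ :=
    { toFun := fun w => d * w.1 + tr c w.2.1 + tr b w.2.2.1 + a * w.2.2.2
      map_add' := fun w w' => by
        simp only [Prod.fst_add, Prod.snd_add, tr_add_right]
        ring
      map_smul' := fun s w => by
        simp only [Prod.smul_fst, Prod.smul_snd, tr_smul_right, smul_eq_mul, RingHom.id_apply]
        ring }
  have h0 : φ = 0 := eq_zero_of_rr φ fun Z _ => by
    have h1 := h Z
    simp only [nE_apply, nfun] at h1
    show d * 1 + tr c Z + tr b (sharp Z) + a * nrm Z = 0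
    rw [mul_one]
    exact h1
  have h1 : ∀ w : W, d * w.1 + tr c w.2.1 + tr b w.2.2.1 + a * w.2.2.2 = 0 := fun w =>
    LinearMap.congr_fun h0 w
  have ha : a = 0 := by simpa [tr_zero_right] using h1 (0, 0, 0, 1)
  have hd : d = 0 := by simpa [tr_zero_right] using h1 (1, 0, 0, 0)
  have hb : b = 0 := eq_of_tr fun T => by
    simpa [tr_zero_right, tr_zero_left] using h1 (0, 0, T, 0)
  have hc : c = 0 := eq_of_tr fun T => by
    simpa [tr_zero_right, tr_zero_left] using h1 (0, T, 0, 0)
  rw [ha, hb, hc, hd]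
  rfl

/-- The projector on the last axis is the third difference of the contraction. -/
theorem sc3b_proj : sc3b_last.smulRight ee = (1 / 6 : ℂ) •
    ((dE 1 (Units.mk0 4 (by norm_num))).toLinearMap
      - (3 : ℂ) • (dE 1 (Units.mk0 3 (by norm_num))).toLinearMap
      + (3 : ℂ) • (dE 1 (Units.mk0 2 (by norm_num))).toLinearMap
      - (dE 1 1).toLinearMap) := by
  refine LinearMap.ext fun v => ?_
  simp only [LinearMap.smulRight_apply, sc3b_last_apply, ee, LinearMap.smul_apply,
    LinearMap.sub_apply, LinearMap.add_apply, LinearEquiv.coe_coe, dE_apply, Units.val_one,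
    Units.val_mk0, Prod.smul_mk, Prod.mk_add_mk, Prod.mk_sub_mk, smul_eq_mul, Prod.mk.injEq]
  refine ⟨by ring, by module, by module, by ring⟩

theorem sc3b_span {N : Subgroup Gb} (hn : ∀ B, nE B ∈ N ∧ nP B ∈ N) (hd : ∀ s t, dE s t ∈ N) :
    Submodule.span ℂ ((fun g : Gb => g.toLinearMap) '' N) = ⊤ := by
  set A := Submodule.span ℂ ((fun g : Gb => g.toLinearMap) '' N) with hA
  have mem : ∀ g ∈ N, g.toLinearMap ∈ A := fun g hg => Submodule.subset_span ⟨g, hg, rfl⟩
  have two : ∀ g ∈ N, ∀ k ∈ N, ∀ f ∈ A, g.toLinearMap ∘ₗ f ∘ₗ k.toLinearMap ∈ A := by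
    intro g hg k hk f hf
    induction hf using Submodule.span_induction with
    | mem f hf =>
      obtain ⟨u, hu, rfl⟩ := hf
      exact mem (g * u * k) (N.mul_mem (N.mul_mem hg hu) hk)
    | zero => simp
    | add f f' _ _ h1 h2 =>
      rw [LinearMap.add_comp, LinearMap.comp_add]
      exact A.add_mem h1 h2
    | smul s f _ h1 =>
      rw [LinearMap.smul_comp, LinearMap.comp_smul]
      exact A.smul_mem s h1
  have hp : sc3b_last.smulRight ee ∈ A := by
    rw [sc3b_proj]
    exact A.smul_mem _ (A.sub_mem (A.add_mem (A.sub_mem (mem _ (hd _ _))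
      (A.smul_mem _ (mem _ (hd _ _)))) (A.smul_mem _ (mem _ (hd _ _)))) (mem _ (hd _ _)))
  have h1 : ∀ g ∈ N, ∀ l : W →ₗ[ℂ] ℂ, l.smulRight (g ee) ∈ A := by
    intro g hg l
    have ht : Submodule.span ℂ (Set.range fun B => sc3b_last ∘ₗ (nE B).toLinearMap) = ⊤ := by
      refine Submodule.span_eq_top_of_ne_zero fun z hz => ?_
      by_contra hc
      exact hz (sc3b_sep fun B => by
        by_contra h
        exact hc ⟨_, ⟨B, rfl⟩, h⟩)
    have hl : l ∈ Submodule.span ℂ (Set.range fun B => sc3b_last ∘ₗ (nE B).toLinearMap) :=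
      ht ▸ Submodule.mem_top
    induction hl using Submodule.span_induction with
    | mem f hf =>
      obtain ⟨B, rfl⟩ := hf
      have e : (sc3b_last ∘ₗ (nE B).toLinearMap).smulRight (g ee) =
          g.toLinearMap ∘ₗ sc3b_last.smulRight ee ∘ₗ (nE B).toLinearMap :=
        LinearMap.ext fun v => by simp
      rw [e]
      exact two g hg _ (hn B).1 _ hp
    | zero =>
      rw [show (0 : W →ₗ[ℂ] ℂ).smulRight (g ee) = 0 from LinearMap.ext fun v => by simp]
      exact A.zero_mem
    | add f f' _ _ h1 h2 =>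
      rw [show (f + f').smulRight (g ee) = f.smulRight (g ee) + f'.smulRight (g ee) from
        LinearMap.ext fun v => by simp [add_smul]]
      exact A.add_mem h1 h2
    | smul s f _ h1 =>
      rw [show (s • f).smulRight (g ee) = s • f.smulRight (g ee) from
        LinearMap.ext fun v => by simp [mul_smul]]
      exact A.smul_mem s h1
  have h2 : ∀ (l : W →ₗ[ℂ] ℂ) (u : W), l.smulRight u ∈ A := by
    intro l u
    have hu : u ∈ Submodule.span ℂ (Set.range fun T : Ix → ℚ => nP (toR ℂ T) ee) :=
      span_nP_ee ▸ Submodule.mem_top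
    induction hu using Submodule.span_induction with
    | mem u hu =>
      obtain ⟨T, rfl⟩ := hu
      exact h1 _ (hn _).2 l
    | zero =>
      rw [show l.smulRight (0 : W) = 0 from LinearMap.ext fun v => by simp]
      exact A.zero_mem
    | add u u' _ _ h1 h2 =>
      rw [show l.smulRight (u + u') = l.smulRight u + l.smulRight u' from
        LinearMap.ext fun v => by simp [smul_add]]
      exact A.add_mem h1 h2
    | smul s u _ h1 =>
      rw [show l.smulRight (s • u) = s • l.smulRight u from
        LinearMap.ext fun v => by simp [smul_comm s]]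
      exact A.smul_mem s h1
  refine eq_top_iff.2 fun f _ => ?_
  have e : f = ∑ i, (bW.coord i).smulRight (f (bW i)) := by
    refine LinearMap.ext fun v => ?_
    simp only [LinearMap.sum_apply, LinearMap.smulRight_apply, Module.Basis.coord_apply,
      ← map_smul, ← map_sum, Module.Basis.sum_repr]
  rw [e]
  exact A.sum_mem fun i _ => h2 _ _

/-- Burnside: the group spans all matrices. -/
theorem burnside {N : Subgroup Gb} (hn : ∀ B, nE B ∈ N ∧ nP B ∈ N) (hd : ∀ s t, dE s t ∈ N) :
    Submodule.span ℂ (mat '' N) = ⊤ := by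
  have h := congrArg (Submodule.map (LinearMap.toMatrix bW bW).toLinearMap) (sc3b_span hn hd)
  rw [Submodule.map_span, Set.image_image, Submodule.map_top, LinearEquiv.range] at h
  exact h

end Pool.Agent.E7
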