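import Pool.Agent.Lib.MP_7e5527_ag.EL.SD1a

/-! The cone is a component; rational scalars; Hecke orbits. -/

open Filter Topology

noncomputable section

namespace Pool.Agent.E7

/-- The weights of a diagonal similitude with factor `r`. -/
def sd1_w (r : ℚ) : Ix → ℚ := Sum.elim ![r⁻¹, r, r] fun a => ![r, 1, 1] a.1

theorem sd1_lin {F : Type} [Field F] [CharZero F] (r : ℚ) (Z : Ix → F) :
    lin (Matrix.diagonal (sd1_w r)) Z =
      mkJ ![(r : F)⁻¹ * dg Z 0, r * dg Z 1, r * dg Z 2] ![(r : F) • oc Z 0, oc Z 1, oc Z 2] := by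
  have e : ∀ l, lin (Matrix.diagonal (sd1_w r)) Z l = (sd1_w r l : F) * Z l := fun l => by
    rw [lin_cast, Matrix.diagonal_map (map_zero _), Matrix.mulVec_diagonal]
    rfl
  funext l
  rw [e]
  rcases l with i | ⟨i, k⟩ <;> fin_cases i <;> simp [sd1_w, mkJ, dg, oc]

theorem sd1_sim {r : ℚ} (hr : 0 < r) : IsSim (Matrix.diagonal (sd1_w r)) r := by
  have h0 : (r : ℂ) ≠ 0 := by exact_mod_cast hr.ne'
  have h1 : (0 : ℝ) < r := by exact_mod_cast hr
  refine isSim_of_pt ?_ hr.ne' (fun Z => ?_) one3_mem ?_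
  · rw [Matrix.det_diagonal, isUnit_iff_ne_zero, Finset.prod_ne_zero_iff]
    rintro (i | ⟨i, k⟩) - <;> fin_cases i <;> simp [sd1_w, hr.ne']
  · simp only [sd1_lin, nrm_eq, dg_mkJ, oc_mkJ, Matrix.cons_val_zero, Matrix.cons_val_one,
      Matrix.cons_val, onorm_smul, omul_smul_left, oip_smul_left]
    field_simp
  · rw [sd1_lin]
    simp [Om, one3, dg_sharp_2, nrm_eq, onorm_zero, omul_zero_left, oip_zero_left, h1, h1.ne']

theorem sd1_pos {A : Matrix Ix Ix ℚ} {c : ℚ} (hA : IsSim A c) {s : ℂˣ} (h : (s : ℂ) = c) :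
    scE s ∈ GG := by
  obtain ⟨m, hm⟩ := exists_m hA
  obtain ⟨m', hm'⟩ := exists_m hA.adj
  have hw := Gam_le wE_mem
  have e : scE s = m' * (wE * m * wE⁻¹) := by
    refine LinearEquiv.ext fun v => ?_
    rw [scE_apply, h, LinearEquiv.mul_apply, LinearEquiv.mul_apply, LinearEquiv.mul_apply, hm',
      hm, tube1_wE_inv_apply, tube1_wE_apply]
    have e1 : ∀ B : Ix → ℂ, lin (adjM A)⁻¹ (-B) = -lin (adjM A)⁻¹ B := fun B => by
      rw [← neg_one_smul ℂ B, lin_smul, neg_one_smul]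
    simp only [mfun, adjM_adjM, e1, smul_neg, neg_neg, lin_smul, lin_lin_inv hA.adj.1,
      lin_inv_lin hA.1]
    rfl
  rw [e]
  exact mul_mem (hm'.mem_GG hA.adj) (mul_mem (mul_mem hw (hm.mem_GG hA)) (inv_mem hw))

theorem scE_mem_GG {s : ℂˣ} {r : ℚ} (h : (s : ℂ) = r) : scE s ∈ GG := by
  have h0 : r ≠ 0 := by
    rintro rfl
    exact s.ne_zero (h.trans Rat.cast_zero)
  rcases lt_or_gt_of_ne h0 with hr | hr
  · have hw := Gam_le wE_mem
    have h1 : scE (-s) ∈ GG := sd1_pos (sd1_sim (neg_pos.2 hr)) (by rw [Units.val_neg, h]; simp)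
    have e : scE s = wE * wE * scE (-s) := by
      refine LinearEquiv.ext fun v => ?_
      rw [LinearEquiv.mul_apply, LinearEquiv.mul_apply, wE_sq, scE_apply, scE_apply, Units.val_neg,
        neg_smul, neg_neg]
    rw [e]
    exact mul_mem (mul_mem hw hw) h1
  · exact sd1_pos (sd1_sim hr) h

theorem Hecke.act_mem {x Z : Ix → ℂ} (hx : x ∈ HH) (h : Hecke x Z) {g : Gb} (hg : g ∈ GG) :
    Hecke x (act g Z) := by
  have hH : ∀ Z, Hecke x Z → Z ∈ HH := fun Z hZ => by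
    obtain ⟨k, hk, rfl⟩ := hZ.exists_act hx
    exact (act_spec hk hx).2.1
  have hn : ∀ B, nE (toR ℂ B) ∈ GG ∧ ∀ Z, Hecke x Z → Hecke x (act (nE (toR ℂ B)) Z) :=
    fun B => ⟨nE_mem_GG B, fun Z hZ => by rw [act_nE]; exact hZ.add Z B⟩
  have hw : wE ∈ GG ∧ ∀ Z, Hecke x Z → Hecke x (act wE Z) :=
    ⟨Gam_le wE_mem, fun Z hZ => by rw [act_wE]; exact hZ.flip Z⟩
  have hmul : ∀ {g g' : Gb}, (g ∈ GG ∧ ∀ Z, Hecke x Z → Hecke x (act g Z)) →
      (g' ∈ GG ∧ ∀ Z, Hecke x Z → Hecke x (act g' Z)) →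
      g * g' ∈ GG ∧ ∀ Z, Hecke x Z → Hecke x (act (g * g') Z) := fun p p' =>
    ⟨mul_mem p.1 p'.1, fun Z hZ => by
      rw [act_mul p.1 p'.1 (hH Z hZ)]; exact p.2 _ (p'.2 Z hZ)⟩
  refine GG_ind (p := fun g => ∀ Z, Hecke x Z → Hecke x (act g Z)) (fun B => (hn B).2)
    (fun A c m hA hm Z hZ => ?_) ?_ (fun g hg g' hg' p p' => (hmul ⟨hg, p⟩ ⟨hg', p'⟩).2) g hg Z h
  · rw [hm.act_eq]
    exact hZ.sim Z A c hA
  · have h0 := hn (-ed 0)
    rw [toR_neg, toR_ed] at h0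
    rw [w0E_eq, actx_wE_inv]
    exact (hmul (hmul h0 (hmul (hmul hw h0) (hmul (hmul hw hw) hw))) h0).2

end Pool.Agent.E7
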