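import Pool.Agent.Lib.MP_7e5527_ag.EL.SA3

/-! The cone is a component; rational scalars; Hecke orbits. -/

open Filter Topology

noncomputable section

namespace Pool.Agent.E7

theorem sd1a_add {Y : Ix → ℝ} (h : Y ∈ Om) {s : ℝ} (hs : 0 ≤ s) : Y + s • one3 ∈ Om := by
  have e1 : ∀ i, dg (Y + s • one3) i = dg Y i + s := fun i => by simp [one3]
  have e2 : ∀ i, oc (Y + s • one3) i = oc Y i := fun i => by simp [one3]
  have a := fun i => Om.dg_pos h i
  have b := fun i => Om.dg_sharp_pos h i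
  refine ⟨(e1 0).symm ▸ add_pos_of_pos_of_nonneg (a 0) hs, ?_, ?_⟩
  · have e : dg (sharp (Y + s • one3)) 2 = dg (sharp Y) 2 + s * (dg Y 0 + dg Y 1 + s) := by
      simp only [dg_sharp_2, e1, e2]
      ring
    rw [e]
    exact add_pos_of_pos_of_nonneg (b 2) (mul_nonneg hs (by linarith [a 0, a 1]))
  · have e : nrm (Y + s • one3) = nrm Y + s * (dg (sharp Y) 0 + dg (sharp Y) 1 + dg (sharp Y) 2 +
        s * (dg Y 0 + dg Y 1 + dg Y 2 + s)) := by
      simp only [nrm_eq, dg_sharp_0, dg_sharp_1, dg_sharp_2, e1, e2]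
      ring
    rw [e]
    exact add_pos_of_pos_of_nonneg h.2.2 (mul_nonneg hs (add_nonneg (by linarith [b 0, b 1, b 2])
      (mul_nonneg hs (by linarith [a 0, a 1, a 2]))))

theorem isPreconnected_Om : IsPreconnected Om := by
  have h : StarConvex ℝ one3 Om := fun Y hY a b ha hb hab => by
    rcases hb.eq_or_lt with rfl | hb
    · rw [add_zero] at hab
      rw [hab, one_smul, zero_smul, add_zero]
      exact one3_mem
    · rw [add_comm]
      exact sd1a_add (Om.smul hY hb) ha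
  exact (h.isPathConnected one3_mem).isConnected.isPreconnected

theorem mem_Om_of_closure {Y : Ix → ℝ} (h : Y ∈ closure Om) (hn : nrm Y ≠ 0) : Y ∈ Om := by
  have key : ∀ f : (Ix → ℝ) → ℝ, Continuous f → (∀ Z ∈ Om, 0 < f Z) → 0 ≤ f Y := fun f hf h0 =>
    closure_minimal (t := {Z | 0 ≤ f Z}) (fun Z hZ => (h0 Z hZ).le)
      (isClosed_le continuous_const hf) h
  have a0 : 0 ≤ dg Y 0 := key (dg · 0) (continuous_apply _) fun Z hZ => hZ.1
  have b1 : 0 ≤ dg (sharp Y) 1 := key (fun Z => dg (sharp Z) 1) (by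
    simp only [dg_sharp_1]
    simp only [onorm_eq, dg, oc]
    fun_prop) fun Z hZ => Om.dg_sharp_pos hZ 1
  have b2 : 0 ≤ dg (sharp Y) 2 := key (fun Z => dg (sharp Z) 2) (by
    simp only [dg_sharp_2]
    simp only [onorm_eq, dg, oc]
    fun_prop) fun Z hZ => hZ.2.1
  have c0 : 0 < nrm Y := lt_of_le_of_ne (key nrm (by
    change Continuous fun Y : Ix → ℝ => nrm Y
    simp only [nrm_eq, onorm_eq, oip_eq, omul_0, omul_1, omul_2, omul_3, omul_4, omul_5, omul_6,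
      omul_7, oconj_0, oconj_1, oconj_2, oconj_3, oconj_4, oconj_5, oconj_6, oconj_7, dg, oc]
    fun_prop) fun Z hZ => hZ.2.2) hn.symm
  have a1 : 0 < dg Y 0 := lt_of_le_of_ne a0 fun e => hn (by
    rw [dg_sharp_1, ← e, mul_zero] at b1
    rw [dg_sharp_2, ← e, zero_mul] at b2
    have x1 := onorm_eq_zero (x := oc Y 1) (by linarith [onorm_nonneg (oc Y 1)])
    have x2 := onorm_eq_zero (x := oc Y 2) (by linarith [onorm_nonneg (oc Y 2)])
    rw [nrm_eq, ← e, x1, x2, onorm_zero, omul_zero_right, oip_zero_left]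
    ring)
  refine ⟨a1, lt_of_le_of_ne b2 fun e => ?_, c0⟩
  have e0 := dg_sharp_0 (sharp Y)
  rw [sharp_sharp, dg_smul, ← e, mul_zero] at e0
  linarith [mul_pos c0 a1, onorm_nonneg (oc (sharp Y) 0)]

theorem sd1a_map {A : Matrix Ix Ix ℚ} {c : ℝ} (hc : c ≠ 0)
    (h : ∀ Z : Ix → ℝ, nrm (lin A Z) = c * nrm Z) {Y : Ix → ℝ} (hY : Y ∈ Om)
    (hY' : lin A Y ∈ Om) {Z : Ix → ℝ} (hZ : Z ∈ Om) : lin A Z ∈ Om := by
  have hf : Continuous fun Z : Ix → ℝ => lin A Z := continuous_const.matrix_mulVec continuous_id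
  refine (isPreconnected_Om.image _ hf.continuousOn).subset_of_closure_inter_subset isOpen_Om
    ⟨_, ⟨Y, hY, rfl⟩, hY'⟩ ?_ ⟨Z, hZ, rfl⟩
  rintro _ ⟨h1, X, hX, rfl⟩
  exact mem_Om_of_closure h1 (h X ▸ mul_ne_zero hc hX.2.2.ne')

theorem isSim_of_pt {A : Matrix Ix Ix ℚ} {c : ℚ} (hA : IsUnit A.det) (hc : c ≠ 0)
    (h : ∀ Z : Ix → ℂ, nrm (lin A Z) = c * nrm Z) {Y : Ix → ℝ} (hY : Y ∈ Om)
    (hY' : lin A Y ∈ Om) : IsSim A c := by
  have h1 : ∀ Z : Ix → ℝ, nrm (lin A Z) = c * nrm Z := fun Z => by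
    apply Complex.ofRealHom.injective
    rw [← nrm_map, ← lin_map, h, nrm_map, map_mul, map_ratCast]
  have h2 : (c : ℝ) ≠ 0 := by exact_mod_cast hc
  refine ⟨hA, h, fun Z => ⟨fun hZ => ?_, sd1a_map h2 h1 hY hY'⟩⟩
  have h3 := sd1a_map (A := A⁻¹) (inv_ne_zero h2) (fun X => by
    rw [eq_inv_mul_iff_mul_eq₀ h2, ← h1, lin_lin_inv hA]) hY' (by rwa [lin_inv_lin hA]) hZ
  rwa [lin_inv_lin hA] at h3

end Pool.Agent.E7
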