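import Pool.Agent.Lib.MP_7e5527_ag.EL.SC1
import Pool.Agent.Lib.MP_7e5527_ag.EL.SC2
import Pool.Agent.Lib.MP_7e5527_ag.EL.SD1
import Pool.Agent.Lib.MP_7e5527_ag.EL.Iface

/-! Rational and integral points of the group. -/

open Filter Topology

noncomputable section

namespace Pool.Agent.E7

theorem sd2_rr_WQ (T : Ix → ℚ) : rr (toR ℂ T) ∈ WQ :=
  ⟨⟨1, by simp [rr]⟩, ⟨T, rfl⟩, ⟨sharp T, sharp_toR T⟩, nrm T, nrm_toR T⟩

theorem sd2_smul_WQ (r : ℚ) {v : W} (hv : v ∈ WQ) : (r : ℂ) • v ∈ WQ := by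
  obtain ⟨⟨a, ha⟩, ⟨T, hT⟩, ⟨T', hT'⟩, d, hd⟩ := hv
  refine ⟨⟨r * a, ?_⟩, ⟨r • T, ?_⟩, ⟨r • T', ?_⟩, r * d, ?_⟩
  · rw [Prod.smul_fst, ha, smul_eq_mul, Rat.cast_mul]
  · rw [Prod.smul_snd, Prod.smul_fst, hT, toR_smul]
  · rw [Prod.smul_snd, Prod.smul_snd, Prod.smul_fst, hT', toR_smul]
  · rw [Prod.smul_snd, Prod.smul_snd, Prod.smul_snd, hd, smul_eq_mul, Rat.cast_mul]

/-- A rational Levi element that keeps one point in the domain. -/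
theorem sd2_levi {p : Gb} {A : JE} {c : ℂ} (hA : Sim A c) (hp : Lv A p)
    (hq : ∀ v ∈ WQ, p v ∈ WQ) {Z : Ix → ℂ} (hZ : Z ∈ HH) (hZ' : A Z ∈ HH) : p ∈ GG := by
  have hr : ∀ T, ∃ T', (A : (Ix → ℂ) →ₗ[ℂ] (Ix → ℂ)) (toR ℂ T) = toR ℂ T' := by
    intro T
    obtain ⟨-, ⟨T', hT'⟩, -⟩ := hq _ (sd2_rr_WQ T)
    rw [hp] at hT'
    exact ⟨T', hT'⟩
  obtain ⟨A0, hA0⟩ := stab_mat _ hr
  have hA1 : ∀ X, lin A0 X = A X := hA0
  have hu : IsUnit A0.det := by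
    rw [← Matrix.isUnit_iff_isUnit_det, ← Matrix.mulVec_injective_iff_isUnit]
    intro T T' e
    have e1 : lin A0 T = lin A0 T' := by
      funext l
      have := congrFun e l
      simpa [lin_apply, Matrix.mulVec, dotProduct] using this
    have e2 : A (toR ℂ T) = A (toR ℂ T') := by rw [← hA1, ← hA1, lin_toR, lin_toR, e1]
    exact toR_inj (A.injective e2)
  have hc : c = ((nrm (lin A0 one3) : ℚ) : ℂ) := by
    have := hA.2 one3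
    rw [stab_nrm_one3, mul_one, ← hA1, ← toR_one3, lin_toR, nrm_toR] at this
    exact this.symm
  have hS : IsSim A0 (nrm (lin A0 one3)) := by
    refine isSim_of_pt hu ?_ (fun X => ?_) hZ ?_
    · intro e
      exact hA.1 (by rw [hc, e, Rat.cast_zero])
    · rw [← hc, hA1, hA.2]
    · rw [← im_lin, hA1]
      exact hZ'
  obtain ⟨m, hm⟩ := exists_m hS
  obtain ⟨A', -, h1, h2⟩ := hS.exists_Sim
  have e : A' = A := LinearEquiv.ext fun X => by rw [h1, hA1]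
  have := h2 m hm
  rw [e] at this
  rw [hp.unique this]
  exact hm.mem_GG hS

theorem mem_GG_of_rat {g : Gb} (hg : g ∈ GE) (hq : ∀ v ∈ WQ, g v ∈ WQ) {Z Z' : Ix → ℂ}
    (hZ : Z ∈ HH) (hZ' : Z' ∈ HH) {j : ℂ} (h : g (rr Z) = j • rr Z') : g ∈ GG := by
  obtain ⟨γ, hγ, B, B', s, A, c, hA, hp, hr⟩ := GE_reduce hg
  obtain ⟨⟨T, rfl⟩, ⟨T', rfl⟩, r, hs⟩ := hr hq
  have hk : scE s * nE (toR ℂ T') * wE * nE (toR ℂ T) * γ ∈ GG :=
    GG.mul_mem (GG.mul_mem (GG.mul_mem (GG.mul_mem (scE_mem_GG hs) (nE_mem_GG T'))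
      (Gam_le wE_mem)) (nE_mem_GG T)) (Gam_le hγ)
  generalize scE s * nE (toR ℂ T') * wE * nE (toR ℂ T) * γ = k at hk hp
  obtain ⟨h1, h2, h3⟩ := act_spec hk hZ'
  have e : rr (A Z) = (j * jf k Z') • rr (act k Z') := by
    rw [← hp, LinearEquiv.mul_apply, h, map_smul, h3, smul_smul]
  have e1 : j * jf k Z' = 1 := by
    have := congrArg Prod.fst e
    simpa [rr] using this.symm
  have e2 : A Z = act k Z' := by
    rw [e1, one_smul] at e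
    exact congrArg (fun v : W => v.2.1) e
  have hm : k * g ∈ GG := by
    refine sd2_levi hA hp (fun v hv => ?_) hZ (e2 ▸ h2)
    rw [LinearEquiv.mul_apply]
    exact WQ_map hk (hq v hv)
  exact (GG.mul_mem_cancel_left hk).1 hm

theorem Mv.spec {γ : Gb} {Z Z' : Ix → ℂ} {j : ℂ} (h : Mv γ Z Z' j) (hZ : Z ∈ HH) (hZ' : Z' ∈ HH) :
    γ ∈ Gam ∧ jf γ Z = j ∧ act γ Z = Z' := by
  obtain ⟨h1, h2, h3⟩ := h
  have hq : ∀ v ∈ WQ, γ v ∈ WQ := by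
    intro v hv
    obtain ⟨M, hM, hv'⟩ := exists_den_W hv
    have hM' : (M : ℂ) ≠ 0 := Nat.cast_ne_zero.2 hM.ne'
    have := sd2_smul_WQ (M : ℚ)⁻¹ (WZ_sub ((h2 _).2 hv'))
    rw [map_smul, smul_smul, Rat.cast_inv, Rat.cast_natCast, inv_mul_cancel₀ hM', one_smul] at this
    exact this
  have hj : j ≠ 0 := by
    rintro rfl
    rw [zero_smul, γ.map_eq_zero_iff] at h3
    have := congrArg Prod.fst h3
    simp [rr] at this
  exact ⟨mem_Gam_of_WZ (mem_GG_of_rat h1 hq hZ hZ' h3) h2, act_of_eq hj h3⟩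

theorem mv_of_Gam {γ : Gb} (h : γ ∈ Gam) {Z : Ix → ℂ} (hZ : Z ∈ HH) :
    Mv γ Z (act γ Z) (jf γ Z) :=
  ⟨GG_le_GE (Gam_le h), kr_iff h, (act_spec (Gam_le h) hZ).2.2⟩

theorem form_iff (k : ℤ) (F : (Ix → ℂ) → ℂ) (a : (Ix → ℚ) → ℂ) : Form k F a ↔ IsMF k F a := by
  constructor
  · rintro ⟨h1, h2, h3, h4⟩
    refine ⟨h1, h2, h3, fun A hA hA' Z hZ => ?_, fun Z hZ => ?_⟩
    · obtain ⟨m, hm⟩ := exists_m hA
      have hm' : m ∈ Gam := hm.mem_Gam ⟨hA, hA'⟩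
      have := h4 m _ Z hZ _ (act_spec (Gam_le hm') hZ).2.1 (mv_of_Gam hm' hZ)
      rw [hm.act_eq, hm.jf_eq, one_zpow, one_mul] at this
      exact this
    · have := h4 wE _ Z hZ _ (act_spec (Gam_le wE_mem) hZ).2.1 (mv_of_Gam wE_mem hZ)
      rw [act_wE, jf_wE] at this
      exact this
  · intro h
    refine ⟨h.1, h.2.1, h.2.2.1, fun γ j Z hZ Z' hZ' hm => ?_⟩
    obtain ⟨h1, h2, h3⟩ := hm.spec hZ hZ'
    have hj : j ≠ 0 := h2 ▸ (act_spec (Gam_le h1) hZ).1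
    have := congrFun (h.inv_Gam γ h1) ⟨Z, hZ⟩
    simp only [sl, res] at this
    rw [h2, h3, coe_ofC hZ'] at this
    rw [← this, ← mul_assoc, ← zpow_add₀ hj, add_neg_cancel, zpow_zero, one_mul]

theorem tate_iff {p : ℕ} [Fact p.Prime] (e : ℂ_[p] ≃+* ℂ) (x : Ix → ℂ) :
    Tate e x ↔ IsTate e x := by
  simp only [Tate, IsTate, form_iff]

theorem sd2_lift {f : UpperHalfPlane → Ix → ℂ} (hf : ∀ τ, f τ ∈ HH)
    {d : Matrix.SpecialLinearGroup (Fin 2) ℝ} (h : Lift f d) : LiftG f d := by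
  obtain ⟨γ, hγ⟩ := h
  refine ⟨γ, ?_, fun τ => ?_⟩
  · obtain ⟨j, hj⟩ := hγ UpperHalfPlane.I
    exact (hj.spec (hf _) (hf _)).1
  · obtain ⟨j, hj⟩ := hγ τ
    exact (hj.spec (hf _) (hf _)).2.2.symm

theorem IsCurve.crv {f : UpperHalfPlane → Ix → ℂ} (h : IsCurve f) : Crv f := by
  obtain ⟨h1, h2, K, s, hK, h3, h4⟩ := h
  refine ⟨h1, h2, K, s, hK, fun g hg => sd2_lift h2 (h3 g hg), fun τ => ?_⟩
  obtain ⟨d, hd, h5⟩ := h4 τ
  exact ⟨d, sd2_lift h2 hd, h5⟩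

end Pool.Agent.E7
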