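import Pool.Agent.Lib.MP_7e5527_ag.EL.SC2
import Pool.Agent.Lib.MP_7e5527_ag.EL.SC1

/-! Algebraic subgroups defined over the rationals. -/

open Filter Topology

noncomputable section

namespace Pool.Agent.E7

open MvPolynomial Matrix

section

variable {R S : Type} [CommRing R] [CommRing S]

/-- The symplectic form in coordinates. -/
def se1a_s (x y : Wx → R) : R :=
  x (.inl ()) * y (.inr (.inr (.inr ()))) -
    tr (fun l => x (.inr (.inl l))) (fun l => y (.inr (.inr (.inl l)))) +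
    tr (fun l => x (.inr (.inr (.inl l)))) (fun l => y (.inr (.inl l))) -
    x (.inr (.inr (.inr ()))) * y (.inl ())

/-- The quartic form in coordinates. -/
def se1a_q (x : Wx → R) : R :=
  (x (.inl ()) * x (.inr (.inr (.inr ()))) -
    tr (fun l => x (.inr (.inl l))) fun l => x (.inr (.inr (.inl l)))) ^ 2 +
    4 * (x (.inl ()) * nrm (fun l => x (.inr (.inr (.inl l)))) +
      x (.inr (.inr (.inr ()))) * nrm (fun l => x (.inr (.inl l))) -
      tr (sharp fun l => x (.inr (.inl l))) (sharp fun l => x (.inr (.inr (.inl l)))))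

/-- The multiplier. -/
def se1a_n (M : Matrix Wx Wx R) : R :=
  se1a_s (fun i => M i (.inl ())) fun i => M i (.inr (.inr (.inr ())))

/-- The equations. -/
def se1a_e (M : Matrix Wx Wx R) (x y : Wx → R) (b : Bool) : R :=
  if b then se1a_s (M *ᵥ x) (M *ᵥ y) - se1a_n M * se1a_s x y
  else se1a_q (M *ᵥ x) - se1a_n M ^ 2 * se1a_q x

theorem se1a_s_map (f : R →+* S) (x y : Wx → R) :
    f (se1a_s x y) = se1a_s (fun i => f (x i)) fun i => f (y i) := by
  simp only [se1a_s, map_add, map_sub, map_mul, ← tr_map]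

theorem se1a_q_map (f : R →+* S) (x : Wx → R) : f (se1a_q x) = se1a_q fun i => f (x i) := by
  simp only [se1a_q, map_add, map_sub, map_mul, map_pow, map_ofNat, ← tr_map, ← nrm_map,
    ← sharp_map]

theorem se1a_e_map (f : R →+* S) (M : Matrix Wx Wx R) (x y : Wx → R) (b : Bool) :
    f (se1a_e M x y b) = se1a_e (M.map f) (fun i => f (x i)) (fun i => f (y i)) b := by
  cases b <;> simp only [se1a_e, se1a_n, map_sub, map_mul, map_pow, se1a_s_map, se1a_q_map,
    RingHom.map_mulVec, Bool.false_eq_true, if_true, if_false] <;> rfl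

end

theorem se1a_sy (v w : W) : sy v w = se1a_s (bW.repr v) (bW.repr w) := by
  simp [se1a_s, sy, bW]

theorem se1a_q4 (v : W) : q4 v = se1a_q (bW.repr v) := by
  simp [se1a_q, q4, bW]

theorem se1a_mv (g : Gb) (v : W) : mat g *ᵥ bW.repr v = bW.repr (g v) :=
  LinearMap.toMatrix_mulVec_repr bW bW (g : W →ₗ[ℂ] W) v

theorem se1a_sy0 : sy r0 ee = 1 := by simp [sy, r0, ee, tr, dg, oc]

theorem se1a_nu (g : Gb) : se1a_n (mat g) = sy (g r0) (g ee) := by
  have e1 : bW (.inl ()) = r0 := by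
    simp [bW, r0, Prod.ext_iff]
  have e2 : bW (.inr (.inr (.inr ()))) = ee := by
    simp [bW, ee]
  simp only [se1a_sy, se1a_n, mat, LinearMap.toMatrix_apply, e1, e2]
  rfl

theorem se1a_GE (g : Gb) : g ∈ GE ↔ ∀ b x y, se1a_e (mat g) x y b = 0 := by
  have e1 : ∀ v w, se1a_e (mat g) (bW.repr v) (bW.repr w) true =
      sy (g v) (g w) - sy (g r0) (g ee) * sy v w := fun v w => by
    simp only [se1a_e, if_true, se1a_mv, ← se1a_sy, se1a_nu]
  have e2 : ∀ v w, se1a_e (mat g) (bW.repr v) (bW.repr w) false =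
      q4 (g v) - sy (g r0) (g ee) ^ 2 * q4 v := fun v w => by
    simp only [se1a_e, Bool.false_eq_true, if_false, se1a_mv, ← se1a_q4, se1a_nu]
  constructor
  · rintro ⟨ν, -, h1, h2⟩ b x y
    obtain ⟨v, rfl⟩ := bW.equivFun.surjective x
    obtain ⟨w, rfl⟩ := bW.equivFun.surjective y
    cases b
    · rw [bW.equivFun_apply, bW.equivFun_apply, e2, h1, h2, se1a_sy0, mul_one, sub_self]
    · rw [bW.equivFun_apply, bW.equivFun_apply, e1, h1, h1, se1a_sy0, mul_one, sub_self]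
  · intro h
    have h1 := fun v w => sub_eq_zero.1 ((e1 v w).symm.trans (h _ _ _))
    refine ⟨_, fun h0 => ?_, h1, fun v => sub_eq_zero.1 ((e2 v v).symm.trans (h _ _ _))⟩
    have := h1 (g.symm r0) (g.symm ee)
    rw [h0, zero_mul, g.apply_symm_apply, g.apply_symm_apply, se1a_sy0] at this
    exact one_ne_zero this

theorem se1a_coef {σ τ : Type} (m : σ → ℂ) (P : MvPolynomial τ (MvPolynomial σ ℚ)) :
    (∀ y : τ → ℂ, eval₂Hom (aeval m : MvPolynomial σ ℚ →ₐ[ℚ] ℂ).toRingHom y P = 0) ↔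
      ∀ d, aeval m (P.coeff d) = 0 := by
  have : (∀ d, aeval m (P.coeff d) = 0) ↔
      map (aeval m : MvPolynomial σ ℚ →ₐ[ℚ] ℂ).toRingHom P = 0 := by
    simp only [MvPolynomial.ext_iff, coeff_map, coeff_zero]
    rfl
  rw [this]
  refine ⟨fun h => MvPolynomial.funext fun y => ?_, fun h y => ?_⟩
  · rw [eval_map, map_zero]
    exact h y
  · rw [coe_eval₂Hom, ← eval_map, h, map_zero]

theorem qcl_GE : QCl GE := by
  let P : Bool → MvPolynomial (Wx ⊕ Wx) (MvPolynomial (Wx × Wx) ℚ) :=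
    se1a_e (Matrix.of fun i j => C (X (i, j))) (fun i => X (.inl i)) fun i => X (.inr i)
  refine ⟨Set.range fun d : Bool × _ => (P d.1).coeff d.2, fun g => ?_⟩
  have e : ∀ b y, eval₂Hom (aeval (fun y : Wx × Wx => mat g y.1 y.2) :
      MvPolynomial (Wx × Wx) ℚ →ₐ[ℚ] ℂ).toRingHom y (P b) =
      se1a_e (mat g) (fun i => y (.inl i)) (fun i => y (.inr i)) b := fun b y => by
    rw [se1a_e_map]
    refine congrFun (congr (congr (congrArg se1a_e ?_) ?_) ?_) b
    · ext i j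
      simp
    · simp
    · simp
  rw [se1a_GE, Set.forall_mem_range, Prod.forall]
  refine forall_congr' fun b => Iff.trans ?_ (se1a_coef _ (P b))
  simp only [e]
  exact ⟨fun h y => h _ _, fun h x y => h (Sum.elim x y)⟩

theorem MT_le_GE (Z : Ix → ℂ) : MT Z ≤ GE := sInf_le ⟨qcl_GE, hg_mem_GE Z⟩

theorem hg_mem_MT (Z : Ix → ℂ) (z : ℂˣ) : hg Z z ∈ MT Z :=
  Subgroup.mem_sInf.2 fun _ h => h.2 z

theorem QCl.limCl {H : Subgroup Gb} (h : QCl H) : LimCl H := by
  obtain ⟨S, hS⟩ := h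
  refine fun u g hu hl => (hS g).2 fun P hP => ?_
  have c : Continuous fun M : Matrix Wx Wx ℂ => aeval (fun y : Wx × Wx => M y.1 y.2) P := by
    simp only [aeval_def, ← eval_map]
    exact (continuous_eval _).comp (by fun_prop)
  exact tendsto_nhds_unique ((c.tendsto _).comp hl) (tendsto_const_nhds.congr'
    (eventually_nhdsWithin_of_forall fun t ht => ((hS _).1 (hu t ht) P hP).symm))

theorem limCl_MT (Z : Ix → ℂ) : LimCl (MT Z) := fun u g hu hl =>
  Subgroup.mem_sInf.2 fun _ h => h.1.limCl u g (fun t ht => Subgroup.mem_sInf.1 (hu t ht) _ h) hl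

theorem LimCl.cj {N : Subgroup Gb} (h : LimCl N) (k : Gb) : LimCl (cj k N) := fun u g hu hl =>
  h (fun t => k * u t * k⁻¹) (k * g * k⁻¹) hu (by
    simp only [mat_mul]
    exact (hl.const_mul _).mul_const _)

theorem QCl.cj {H : Subgroup Gb} (h : QCl H) {k : Gb} (hk : RatM (mat k))
    (hk' : RatM (mat k⁻¹)) : QCl (cj k H) := by
  obtain ⟨S, hS⟩ := h
  obtain ⟨a, ha⟩ := hk.exists_map
  obtain ⟨b, hb⟩ := hk'.exists_map
  refine ⟨bind₁ (fun y : Wx × Wx => (a.map C * Matrix.of (fun i j => X (i, j)) * b.map C :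
    Matrix Wx Wx (MvPolynomial (Wx × Wx) ℚ)) y.1 y.2) '' S, fun g => ?_⟩
  rw [mem_cj, hS, Set.forall_mem_image]
  refine forall_congr' fun P => forall_congr' fun _ => ?_
  rw [aeval_bind₁, mat_mul, mat_mul, ha, hb]
  simp [Matrix.mul_apply]

theorem MT_act {g : Gb} (hg' : g ∈ GG) {Z : Ix → ℂ} (hZ : Z ∈ HH) (h : MT Z = GE) :
    MT (act g Z) = GE := by
  refine (MT_le_GE _).antisymm (le_sInf fun H hH k hk => ?_)
  have h1 : MT Z ≤ cj g H := sInf_le ⟨hH.1.cj (ratM_GG hg') (ratM_GG (inv_mem hg')),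
    fun z => mem_cj.2 (hg_act hg' hZ z ▸ hH.2 z)⟩
  have h2 := GG_le_GE hg'
  have h3 := mem_cj.1 (h1 (h ▸ mul_mem (mul_mem (inv_mem h2) hk) h2))
  simpa [mul_assoc] using h3

end Pool.Agent.E7
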