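import Pool.Agent.Lib.MP_7e5527_ag.EL.SE2a

/-! Descent by the automorphisms of the complex numbers. -/

open Filter Topology

noncomputable section

namespace Pool.Agent.E7

theorem MT_aut (Z : Ix → ℂ) (σ : ℂ ≃+* ℂ) {g : Gb} (h : g ∈ MT Z) :
    ∃ k ∈ MT Z, mat k = (mat g).map σ := by
  have hu : IsUnit ((mat g).map σ).det := by
    have e := σ.toRingHom.map_det (mat g)
    rw [show (mat g).map σ = σ.toRingHom.mapMatrix (mat g) from rfl, ← e]
    exact (mat_unit g).map _
  obtain ⟨k, hk⟩ := exists_mat hu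
  refine ⟨k, Subgroup.mem_sInf.2 fun H hH => ?_, hk⟩
  obtain ⟨S, hS⟩ := hH.1
  refine (hS k).2 fun P hP => ?_
  have h1 := (hS g).1 (Subgroup.mem_sInf.1 h H hH) P hP
  have h2 := MvPolynomial.comp_aeval_apply (f := fun y : Wx × Wx => mat g y.1 y.2)
    σ.toRingHom.toRatAlgHom P
  rw [h1, map_zero] at h2
  rw [hk]
  exact h2.symm

theorem se2_map (Z : Ix → ℂ) (σ : ℂ ≃+* ℂ) {a : Matrix Wx Wx ℂ}
    (ha : a ∈ Submodule.span ℂ (mat '' MT Z)) : a.map σ ∈ Submodule.span ℂ (mat '' MT Z) := by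
  induction ha using Submodule.span_induction with
  | mem x hx =>
    obtain ⟨g, hg, rfl⟩ := hx
    obtain ⟨k, hk, e⟩ := MT_aut Z σ hg
    exact Submodule.subset_span ⟨k, hk, e⟩
  | zero =>
    rw [Matrix.map_zero _ (map_zero σ)]
    exact Submodule.zero_mem _
  | add x y _ _ hx hy =>
    rw [Matrix.map_add _ (map_add σ)]
    exact Submodule.add_mem _ hx hy
  | smul c x _ hx =>
    rw [show (c • x).map σ = σ c • x.map σ from Matrix.ext fun i j => map_mul σ c (x i j)]
    exact Submodule.smul_mem _ _ hx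

theorem span_MT (Z : Ix → ℂ) : Submodule.span ℂ (mat '' MT Z) ≤
    Submodule.span ℂ {a | a ∈ Submodule.span ℂ (mat '' MT Z) ∧ RatM a} := by
  intro a ha
  let c : (Wx × Wx → ℂ) →ₗ[ℂ] Matrix Wx Wx ℂ :=
    { toFun := fun u => Matrix.of fun i j => u (i, j)
      map_add' := fun _ _ => rfl
      map_smul' := fun _ _ => rfl }
  have h1 := span_rat ((Submodule.span ℂ (mat '' MT Z)).comap c)
    (fun σ u hu => se2_map Z σ (a := c u) hu) (x := fun y => a y.1 y.2) ha
  have h2 := Submodule.mem_map_of_mem (f := c) h1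
  rw [Submodule.map_span] at h2
  refine Submodule.span_mono ?_ h2
  rintro _ ⟨u, hu, rfl⟩
  exact ⟨hu.1, fun i j => hu.2 (i, j)⟩

theorem se2_span {s : Set (Matrix Wx Wx ℂ)} {m a : Matrix Wx Wx ℂ} (h : ∀ b ∈ s, m * b = b * m)
    (ha : a ∈ Submodule.span ℂ s) : m * a = a * m := by
  induction ha using Submodule.span_induction with
  | mem x hx => exact h x hx
  | zero => rw [mul_zero, zero_mul]
  | add x y _ _ hx hy => rw [mul_add, add_mul, hx, hy]
  | smul c x _ hx => rw [mul_smul_comm, smul_mul_assoc, hx]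

/-- The commutant of a matrix. -/
def se2H (a : Matrix Wx Wx ℂ) : Subgroup Gb where
  carrier := {g | mat g * a = a * mat g}
  one_mem' := by
    change mat 1 * a = a * mat 1
    rw [mat_one, one_mul, mul_one]
  mul_mem' := fun {g k} hg hk => by
    change mat (g * k) * a = a * mat (g * k)
    rw [mat_mul, mul_assoc, show mat k * a = _ from hk, ← mul_assoc, show mat g * a = _ from hg,
      mul_assoc]
  inv_mem' := fun {g} hg => by
    change mat g⁻¹ * a = a * mat g⁻¹
    have e1 : mat g * mat g⁻¹ = 1 := by rw [← mat_mul, mul_inv_cancel, mat_one]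
    have e2 : mat g⁻¹ * mat g = 1 := by rw [← mat_mul, inv_mul_cancel, mat_one]
    rw [← mul_one (mat g⁻¹ * a), ← e1, mul_assoc, ← mul_assoc a, ← show mat g * a = _ from hg,
      ← mul_assoc, ← mul_assoc, e2, one_mul]

theorem se2_qcl {a : Matrix Wx Wx ℂ} (ha : RatM a) : QCl (se2H a) := by
  obtain ⟨b, rfl⟩ := ha.exists_map
  refine ⟨Set.range fun y : Wx × Wx => ∑ k, MvPolynomial.X (y.1, k) * MvPolynomial.C (b k y.2) -
    ∑ k, MvPolynomial.C (b y.1 k) * MvPolynomial.X (k, y.2), fun g => ?_⟩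
  change mat g * _ = _ * mat g ↔ _
  rw [Set.forall_mem_range, ← Matrix.ext_iff, Prod.forall]
  refine forall_congr' fun i => forall_congr' fun j => ?_
  simp only [map_sub, map_sum, map_mul, MvPolynomial.aeval_X, MvPolynomial.aeval_C, eq_ratCast,
    sub_eq_zero, Matrix.mul_apply, Matrix.map_apply]

theorem MT_comm {Z : Ix → ℂ} (h : ∀ z, ∀ a ∈ MT Z, hg Z z * a = a * hg Z z) :
    ∀ a ∈ MT Z, ∀ b ∈ MT Z, a * b = b * a := by
  intro g hg' k hk
  refine mat_inj ?_
  rw [mat_mul, mat_mul]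
  refine se2_span (fun a ha => ?_) (span_MT Z (Submodule.subset_span ⟨k, hk, rfl⟩))
  refine Subgroup.mem_sInf.1 hg' (se2H a) ⟨se2_qcl ha.2, fun z => se2_span ?_ ha.1⟩
  rintro _ ⟨b, hb, rfl⟩
  rw [← mat_mul, ← mat_mul, h z b hb]

end Pool.Agent.E7
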