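import Pool.Agent.Lib.MP_7e5527_ag.EL.SC2
import Pool.Agent.Lib.MP_33b3f9_ag.M4.DetB

/-! Descent by the automorphisms of the complex numbers. -/

open Filter Topology

noncomputable section

namespace Pool.Agent.E7

theorem se2a_neg {z : ℂ} (hz : Transcendental ℚ z) : ∃ σ : ℂ ≃+* ℂ, σ z = -z := by
  obtain ⟨s, hs, hx⟩ := exists_isTranscendenceBasis_superset (R := ℚ) (s := {z})
    ((algebraicIndependent_singleton_iff (⟨z, rfl⟩ : ({z} : Set ℂ))).2 hz)
  have := IsAlgClosed.isAlgClosure_of_transcendence_basis _ hx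
  let f : MvPolynomial s ℚ →ₐ[ℚ] MvPolynomial s ℚ := MvPolynomial.aeval fun i => -MvPolynomial.X i
  have hf : f.comp f = AlgHom.id ℚ _ := MvPolynomial.algHom_ext fun i => by simp [f]
  let e := (hx.1.aevalEquiv.symm.trans (AlgEquiv.ofAlgHom f f hf hf)).trans hx.1.aevalEquiv
  refine ⟨IsAlgClosure.equivOfEquiv ℂ ℂ e.toRingEquiv, ?_⟩
  have h1 := IsAlgClosure.equivOfEquiv_algebraMap ℂ ℂ e.toRingEquiv
    (hx.1.aevalEquiv (MvPolynomial.X ⟨z, hs rfl⟩))
  have h2 : e.toRingEquiv (hx.1.aevalEquiv (MvPolynomial.X ⟨z, hs rfl⟩)) =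
      -hx.1.aevalEquiv (MvPolynomial.X ⟨z, hs rfl⟩) := by
    simp [e, f]
  rw [h2, map_neg, hx.1.algebraMap_aevalEquiv, MvPolynomial.aeval_X] at h1
  exact h1

theorem rat_of_fixed {z : ℂ} (h : ∀ σ : ℂ ≃+* ℂ, σ z = z) : ∃ r : ℚ, z = r := by
  by_cases hz : IsAlgebraic ℚ z
  · obtain ⟨r, hr⟩ := IntermediateField.mem_bot.1
      (M4.Det.mem_of_fixed ⊥ hz fun σ => h σ.toRingEquiv)
    exact ⟨r, hr.symm⟩
  · obtain ⟨σ, hσ⟩ := se2a_neg hz
    exact ⟨0, by rw [Rat.cast_zero]; linear_combination (1 / 2 : ℂ) * ((h σ).symm.trans hσ)⟩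

theorem se2a_min {ι : Type} [DecidableEq ι] (U : Submodule ℂ (ι → ℂ))
    (h : ∀ σ : ℂ ≃+* ℂ, ∀ u ∈ U, (fun i => σ (u i)) ∈ U) (S : Finset ι) :
    ∀ u ∈ U, u ≠ 0 → (∀ i, i ∉ S → u i = 0) →
      ∃ v ∈ U, (∀ i, ∃ r : ℚ, v i = r) ∧ (∃ j, v j = 1) ∧ ∀ i, i ∉ S → v i = 0 := by
  induction S using Finset.strongInduction with
  | H S ih =>
    intro u hu h0 hS
    obtain ⟨j, hj⟩ := Function.ne_iff.1 h0
    have hj' : u j ≠ 0 := hj
    have hjS : j ∈ S := by_contra fun hc => hj' (hS j hc)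
    have hw : (u j)⁻¹ • u ∈ U := U.smul_mem _ hu
    have h1 : ((u j)⁻¹ • u) j = 1 := inv_mul_cancel₀ hj'
    have h2 : ∀ i, i ∉ S → ((u j)⁻¹ • u) i = 0 := fun i hi => by
      rw [Pi.smul_apply, hS i hi, smul_zero]
    generalize (u j)⁻¹ • u = w at hw h1 h2
    by_cases hc : ∀ σ : ℂ ≃+* ℂ, (fun i => σ (w i)) - w = 0
    · exact ⟨w, hw, fun i => rat_of_fixed fun σ => sub_eq_zero.1 (congrFun (hc σ) i), ⟨j, h1⟩, h2⟩
    · obtain ⟨σ, hσ⟩ := not_forall.1 hc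
      obtain ⟨v, hv, h3, h4, h5⟩ := ih (S.erase j) (Finset.erase_ssubset hjS) _
        (U.sub_mem (h σ w hw) hw) hσ fun i hi => by
          by_cases hij : i = j
          · rw [Pi.sub_apply, hij, h1, map_one, sub_self]
          · rw [Pi.sub_apply, h2 i fun hi' => hi (Finset.mem_erase.2 ⟨hij, hi'⟩), map_zero, sub_self]
      exact ⟨v, hv, h3, h4, fun i hi => h5 i fun hi' => hi (Finset.mem_of_mem_erase hi')⟩

theorem span_rat {ι : Type} [Fintype ι] (U : Submodule ℂ (ι → ℂ))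
    (h : ∀ σ : ℂ ≃+* ℂ, ∀ u ∈ U, (fun i => σ (u i)) ∈ U) :
    U ≤ Submodule.span ℂ {u | u ∈ U ∧ ∀ i, ∃ r : ℚ, u i = r} := by
  classical
  have key : ∀ S : Finset ι, ∀ u ∈ U, (∀ i, i ∉ S → u i = 0) →
      u ∈ Submodule.span ℂ {u | u ∈ U ∧ ∀ i, ∃ r : ℚ, u i = r} := by
    intro S
    induction S using Finset.strongInduction with
    | H S ih =>
      intro u hu hS
      by_cases h0 : u = 0
      · rw [h0]
        exact Submodule.zero_mem _
      obtain ⟨v, hv, h3, ⟨j, h4⟩, h5⟩ := se2a_min U h S u hu h0 hS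
      have hjS : j ∈ S := by_contra fun hc => one_ne_zero (h4.symm.trans (h5 j hc))
      have h6 := ih (S.erase j) (Finset.erase_ssubset hjS) _ (U.sub_mem hu (U.smul_mem (u j) hv))
        fun i hi => by
          by_cases hij : i = j
          · rw [Pi.sub_apply, Pi.smul_apply, hij, h4, smul_eq_mul, mul_one, sub_self]
          · have hi' : i ∉ S := fun hi' => hi (Finset.mem_erase.2 ⟨hij, hi'⟩)
            rw [Pi.sub_apply, Pi.smul_apply, hS i hi', h5 i hi', smul_zero, sub_self]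
      rw [← sub_add_cancel u (u j • v)]
      exact Submodule.add_mem _ h6 (Submodule.smul_mem _ _ (Submodule.subset_span ⟨hv, h3⟩))
  exact fun u hu => key Finset.univ u hu fun i hi => absurd (Finset.mem_univ i) hi

end Pool.Agent.E7
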