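import Pool.Agent.Lib.MP_7e5527_ag.EL.SE1
import Pool.Agent.Lib.MP_7e5527_ag.EL.SE2

/-! The correspondence defined by a morphism of adjoint groups. -/

open Filter Topology

noncomputable section

namespace Pool.Agent.E7

theorem sf1_diff_aeval {ι : Type} (P : MvPolynomial ι ℚ) {f : ℂ × ℂ → ι → ℂ}
    (hf : ∀ i, Differentiable ℂ fun y => f y i) :
    Differentiable ℂ fun y => MvPolynomial.aeval (f y) P := by
  induction P using MvPolynomial.induction_on with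
  | C a =>
    simp only [MvPolynomial.aeval_C]
    exact differentiable_const _
  | add p q hp hq =>
    simp only [map_add]
    exact hp.add hq
  | mul_X p i hp =>
    simp only [map_mul, MvPolynomial.aeval_X]
    exact hp.mul (hf i)

theorem sf1_tend_aeval {ι : Type} {l : Filter ℂ} (P : MvPolynomial ι ℚ) {f : ℂ → ι → ℂ} {g : ι → ℂ}
    (hf : ∀ i, Tendsto (fun t => f t i) l (𝓝 (g i))) :
    Tendsto (fun t => MvPolynomial.aeval (f t) P) l (𝓝 (MvPolynomial.aeval g P)) := by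
  induction P using MvPolynomial.induction_on with
  | C a =>
    simp only [MvPolynomial.aeval_C]
    exact tendsto_const_nhds
  | add p q hp hq =>
    simp only [map_add]
    exact hp.add hq
  | mul_X p i hp =>
    simp only [map_mul, MvPolynomial.aeval_X]
    exact hp.mul (hf i)

theorem sf1_eq_iff {N : Subgroup Gb} (n n' : N) :
    (n : N ⧸ Subgroup.center N) = n' ↔ ∀ b ∈ N, b * ((n : Gb)⁻¹ * n') = (n : Gb)⁻¹ * n' * b := by
  rw [QuotientGroup.eq, Subgroup.mem_center_iff]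
  exact ⟨fun h b hb => congrArg Subtype.val (h ⟨b, hb⟩), fun h b => Subtype.ext (h b b.2)⟩

theorem sf1_conj_inv (g d : Gb) : (g * d * g⁻¹)⁻¹ = g * d⁻¹ * g⁻¹ := by group

theorem sf1_dd {x Z : Ix → ℂ}
    {φ : MT x ⧸ Subgroup.center (MT x) →* MT Z ⧸ Subgroup.center (MT Z)} (hφ : QHom φ)
    (hh : ∀ z (m : MT x) (n : MT Z), m = hg x z → n = hg Z z → φ m = n) (s t : ℂˣ) :
    φ (⟨gZ x * dE s t * (gZ x)⁻¹, dE_mem_MT x s t⟩ : MT x) =
      (⟨gZ Z * dE s t * (gZ Z)⁻¹, dE_mem_MT Z s t⟩ : MT Z) := by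
  obtain ⟨n, hn⟩ := QuotientGroup.mk_surjective
    (φ (⟨gZ x * dE s t * (gZ x)⁻¹, dE_mem_MT x s t⟩ : MT x))
  have key : ∀ a ∈ Submodule.span ℂ (mat '' MT Z), mat n * a * mat (n : Gb)⁻¹ =
      mat (gZ Z * dE s t * (gZ Z)⁻¹) * a * mat (gZ Z * dE s t * (gZ Z)⁻¹)⁻¹ := by
    intro a ha
    replace ha := span_MT Z ha
    induction ha using Submodule.span_induction with
    | mem a h =>
      obtain ⟨a, rfl⟩ := h.2.exists_map
      ext i j
      obtain ⟨P, hP⟩ := hφ a h.1 i j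
      rw [hP _ n hn.symm]
      refine sub_eq_zero.1 (torus_ext (f := fun s t =>
        MvPolynomial.aeval (fun y : Bool × Wx × Wx => mat (if y.1 then gZ x * dE s t * (gZ x)⁻¹
          else (gZ x * dE s t * (gZ x)⁻¹)⁻¹) y.2.1 y.2.2) P -
        (mat (gZ Z * dE s t * (gZ Z)⁻¹) * a.map (↑) * mat (gZ Z * dE s t * (gZ Z)⁻¹)⁻¹ :
          Matrix Wx Wx ℂ) i j) ?_ (fun z => ?_) s t)
      · refine Differentiable.sub (sf1_diff_aeval P ?_) ?_
        · rintro ⟨_ | _, i', j'⟩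
          · simp only [Bool.false_eq_true, if_false, sf1_conj_inv]
            exact diff_dE_inv _ _ _ _
          · simp only [if_true]
            exact diff_dE _ _ _ _
        · simp only [Matrix.mul_apply, sf1_conj_inv]
          exact Differentiable.fun_sum fun k _ => (Differentiable.fun_sum fun l _ =>
            (diff_dE _ _ _ _).mul_const _).mul (diff_dE_inv _ _ _ _)
      · exact sub_eq_zero.2 (hP ⟨hg x z, hg_mem_MT x z⟩ ⟨hg Z z, hg_mem_MT Z z⟩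
          (hh z _ _ rfl rfl)).symm
    | zero => simp only [mul_zero, zero_mul]
    | add a b _ _ h1 h2 => rw [mul_add, add_mul, h1, h2, mul_add, add_mul]
    | smul c a _ h1 => rw [mul_smul_comm, smul_mul_assoc, h1, mul_smul_comm, smul_mul_assoc]
  rw [← hn, sf1_eq_iff]
  intro b hb
  have h1 := key (mat b) (Submodule.subset_span ⟨b, hb, rfl⟩)
  rw [← mat_mul, ← mat_mul, ← mat_mul, ← mat_mul] at h1
  have h2 := mat_inj h1
  change b * ((n : Gb)⁻¹ * (gZ Z * dE s t * (gZ Z)⁻¹)) = (n : Gb)⁻¹ * (gZ Z * dE s t * (gZ Z)⁻¹) * b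
  generalize gZ Z * dE s t * (gZ Z)⁻¹ = k at h2
  calc b * ((n : Gb)⁻¹ * k) = (n : Gb)⁻¹ * (n * b * (n : Gb)⁻¹) * k := by group
    _ = (n : Gb)⁻¹ * k * b := by rw [h2]; group

theorem sf1_tend_conj {u : ℂ → Gb} {l : Filter ℂ} {k a : Gb}
    (h : Tendsto (fun t => mat (u t)) l (𝓝 (mat a))) :
    Tendsto (fun t => mat (k * u t * k⁻¹)) l (𝓝 (mat (k * a * k⁻¹))) := by
  simp only [mat_mul]
  exact (h.const_mul _).mul_const _

theorem sf1_cont {x Z : Ix → ℂ}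
    {φ : MT x ⧸ Subgroup.center (MT x) →* MT Z ⧸ Subgroup.center (MT Z)} (hφ : QHom φ)
    {u u' : ℂ → Gb} (hR : ∀ t, t ≠ 0 → ∃ (m : MT x) (n : MT Z), (m : Gb) = u t ∧ (n : Gb) = u' t ∧
      φ m = n) (h1 : Tendsto (fun t => mat (u t)) (𝓝[≠] 0) (𝓝 (mat 1)))
    (h2 : Tendsto (fun t => mat (u t)⁻¹) (𝓝[≠] 0) (𝓝 (mat 1))) {a : Matrix Wx Wx ℂ}
    (ha : a ∈ Submodule.span ℂ (mat '' MT Z)) :
    Tendsto (fun t => mat (u' t) * a * mat (u' t)⁻¹) (𝓝[≠] 0) (𝓝 a) := by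
  replace ha := span_MT Z ha
  induction ha using Submodule.span_induction with
  | mem a h =>
    obtain ⟨a, rfl⟩ := h.2.exists_map
    refine tendsto_pi_nhds.2 fun i => tendsto_pi_nhds.2 fun j => ?_
    obtain ⟨P, hP⟩ := hφ a h.1 i j
    have h3 := hP 1 1 (map_one φ)
    simp only [OneMemClass.coe_one, inv_one, ite_self] at h3
    rw [show (mat 1 * a.map (↑) * mat 1 : Matrix Wx Wx ℂ) = a.map (↑) by
      rw [mat_one, one_mul, mul_one]] at h3
    rw [h3]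
    refine (sf1_tend_aeval P (f := fun t (y : Bool × Wx × Wx) =>
      mat (if y.1 then u t else (u t)⁻¹) y.2.1 y.2.2) ?_).congr' ?_
    · rintro ⟨_ | _, i', j'⟩
      · exact tendsto_pi_nhds.1 (tendsto_pi_nhds.1 h2 i') j'
      · exact tendsto_pi_nhds.1 (tendsto_pi_nhds.1 h1 i') j'
    · filter_upwards [self_mem_nhdsWithin] with t ht
      obtain ⟨m, n, e1, e2, e3⟩ := hR t ht
      rw [← e1, ← e2]
      exact (hP m n e3).symm
  | zero =>
    simp only [mul_zero, zero_mul]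
    exact tendsto_const_nhds
  | add a b _ _ h3 h4 =>
    simp only [mul_add, add_mul]
    exact h3.add h4
  | smul c a _ h3 =>
    simp only [mul_smul_comm, smul_mul_assoc]
    exact h3.const_smul c

theorem exists_cor {x Z : Ix → ℂ} (hg' : MT x = GE)
    {φ : MT x ⧸ Subgroup.center (MT x) →* MT Z ⧸ Subgroup.center (MT Z)} (hφ : QHom φ)
    (hh : ∀ z (m : MT x) (n : MT Z), m = hg x z → n = hg Z z → φ m = n) :
    Cor (cj (gZ Z) (MT Z)) (Rphi x Z φ) where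
  le g h := by
    have h1 := GE.mul_mem (GE.mul_mem (GE.inv_mem (gZ_mem_GE Z)) (MT_le_GE Z (mem_cj.1 h)))
      (gZ_mem_GE Z)
    rwa [show (gZ Z)⁻¹ * (gZ Z * g * (gZ Z)⁻¹) * gZ Z = g by group] at h1
  lim := (limCl_MT Z).cj _
  mem := by
    rintro g g' ⟨m, n, h1, h2, -⟩
    refine ⟨?_, mem_cj.2 (h2 ▸ n.2)⟩
    have h3 := GE.mul_mem (GE.mul_mem (GE.inv_mem (gZ_mem_GE x)) (MT_le_GE x m.2)) (gZ_mem_GE x)
    rwa [h1, show (gZ x)⁻¹ * (gZ x * g * (gZ x)⁻¹) * gZ x = g by group] at h3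
  tot g h := by
    have h1 : gZ x * g * (gZ x)⁻¹ ∈ MT x := by
      rw [hg']
      exact GE.mul_mem (GE.mul_mem (gZ_mem_GE x) h) (GE.inv_mem (gZ_mem_GE x))
    obtain ⟨n, hn⟩ := QuotientGroup.mk_surjective (φ (⟨_, h1⟩ : MT x))
    exact ⟨(gZ Z)⁻¹ * n * gZ Z, ⟨_, h1⟩, n, rfl, by group, hn.symm⟩
  mul := by
    rintro g g' k k' ⟨m, n, h1, h2, h3⟩ ⟨m', n', h4, h5, h6⟩
    refine ⟨m * m', n * n', ?_, ?_, ?_⟩
    · rw [Subgroup.coe_mul, h1, h4]
      group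
    · rw [Subgroup.coe_mul, h2, h5]
      group
    · rw [QuotientGroup.mk_mul, map_mul, h3, h6, QuotientGroup.mk_mul]
  inv := by
    rintro g g' ⟨m, n, h1, h2, h3⟩
    refine ⟨m⁻¹, n⁻¹, ?_, ?_, ?_⟩
    · rw [Subgroup.coe_inv, h1, sf1_conj_inv]
    · rw [Subgroup.coe_inv, h2, sf1_conj_inv]
    · rw [QuotientGroup.mk_inv, map_inv, h3, QuotientGroup.mk_inv]
  cen := by
    rintro g g' g'' ⟨m, n, h1, h2, h3⟩ ⟨m', n', h4, h5, h6⟩
    obtain rfl : m = m' := Subtype.ext (h1.trans h4.symm)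
    have h7 := (sf1_eq_iff n n').1 (h3.symm.trans h6)
    have e : (n : Gb)⁻¹ * n' = gZ Z * (g'⁻¹ * g'') * (gZ Z)⁻¹ := by
      rw [h2, h5]
      group
    refine ⟨mem_cj.2 (e ▸ (n⁻¹ * n').2), fun a ha => ?_⟩
    have h8 := h7 _ (mem_cj.1 ha)
    rw [e] at h8
    calc g'⁻¹ * g'' * a
        = (gZ Z)⁻¹ * (gZ Z * (g'⁻¹ * g'') * (gZ Z)⁻¹ * (gZ Z * a * (gZ Z)⁻¹)) * gZ Z := by group
      _ = a * (g'⁻¹ * g'') := by rw [← h8]; group
  cen' := by
    rintro g g' z ⟨m, n, h1, h2, h3⟩ ⟨h4, h5⟩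
    refine ⟨m, n * ⟨_, mem_cj.1 h4⟩, h1, ?_, h3.trans ((sf1_eq_iff _ _).2 fun b hb => ?_)⟩
    · rw [Subgroup.coe_mul, h2]
      group
    · have h6 := h5 ((gZ Z)⁻¹ * b * gZ Z) (mem_cj.2 (by
        rwa [show gZ Z * ((gZ Z)⁻¹ * b * gZ Z) * (gZ Z)⁻¹ = b by group]))
      rw [Subgroup.coe_mul, inv_mul_cancel_left]
      calc b * (gZ Z * z * (gZ Z)⁻¹)
          = gZ Z * ((gZ Z)⁻¹ * b * gZ Z * z) * (gZ Z)⁻¹ := by group
        _ = gZ Z * z * (gZ Z)⁻¹ * b := by rw [← h6]; group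
  dd s t := ⟨_, _, rfl, rfl, sf1_dd hφ hh s t⟩
  cont u u' hR h1 h2 a ha := by
    rw [← mat_one] at h1 h2
    have h3 := sf1_tend_conj (k := gZ x) h1
    have h4 := sf1_tend_conj (k := gZ x) h2
    rw [mul_one, mul_inv_cancel] at h3 h4
    simp only [← sf1_conj_inv] at h4
    have h5 := sf1_cont hφ hR h3 h4 (Submodule.subset_span ⟨_, mem_cj.1 ha, rfl⟩)
    simp only [← mat_mul] at h5
    have h6 := sf1_tend_conj (k := (gZ Z)⁻¹) h5
    rw [show (gZ Z)⁻¹ * (gZ Z * a * (gZ Z)⁻¹) * (gZ Z)⁻¹⁻¹ = a by group] at h6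
    refine h6.congr fun t => congrArg mat ?_
    group

end Pool.Agent.E7
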