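import Pool.Agent.Lib.MP_7e5527_ag.EL.SC1
import Pool.Agent.Lib.MP_7e5527_ag.EL.SC2

/-! Contraction by the torus. -/

open Filter Topology

noncomputable section

namespace Pool.Agent.E7

theorem sf2_deg (i : Wx) : deg i ≤ 3 := by
  rcases i with _ | _ | _ | _ <;> simp [deg]

theorem sf2_dT {N : Subgroup Gb} (hd : ∀ s t, dE s t ∈ N) (t : ℂ) : dT t ∈ N := by
  unfold dT
  split_ifs
  exacts [one_mem _, hd _ _]

/-- The part of degree `-k`. -/
def sf2P (u : Gb) (k : ℕ) : Matrix Wx Wx ℂ :=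
  Matrix.of fun i j => if deg j = deg i + k then mat u i j else 0

theorem sf2_lim {u : Gb} {k : ℕ} (h : ∀ i j, deg i + k < deg j → mat u i j = 0) :
    Tendsto (fun t : ℂ => t ^ k • mat (dT t * u * (dT t)⁻¹)) (𝓝[≠] 0) (𝓝 (sf2P u k)) := by
  refine tendsto_pi_nhds.2 fun i => tendsto_pi_nhds.2 fun j => ?_
  by_cases c : deg i + k < deg j
  · have e : sf2P u k i j = 0 := if_neg c.ne'
    rw [e]
    refine tendsto_const_nhds.congr' ?_
    filter_upwards [self_mem_nhdsWithin] with t ht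
    rw [Matrix.smul_apply, mat_dT_conj ht, h i j c, mul_zero, smul_zero]
  · obtain ⟨m, hm⟩ := Nat.exists_eq_add_of_le (not_lt.1 c)
    have e : sf2P u k i j = (0 : ℂ) ^ m * mat u i j := by
      rcases Nat.eq_zero_or_pos m with rfl | m0
      · rw [pow_zero, one_mul]
        exact if_pos hm.symm
      · rw [zero_pow m0.ne', zero_mul]
        exact if_neg (by omega)
    rw [e]
    refine ((((continuous_pow m).tendsto 0).mono_left nhdsWithin_le_nhds).mul_const _).congr' ?_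
    filter_upwards [self_mem_nhdsWithin] with t ht
    rw [Matrix.smul_apply, mat_dT_conj ht, smul_eq_mul, ← mul_assoc, ← zpow_natCast t k,
      ← zpow_add₀ ht, ← zpow_natCast t m]
    congr 2
    omega

theorem sf2_comm {u a : Gb} {k : ℕ} (h : ∀ i j, deg i + k < deg j → mat u i j = 0)
    (hc : Tendsto (fun t => mat (dT t * u * (dT t)⁻¹ * a * (dT t * u * (dT t)⁻¹)⁻¹)) (𝓝[≠] 0)
      (𝓝 (mat a))) : mat a * sf2P u k = sf2P u k * mat a := by
  refine tendsto_nhds_unique (hc.mul (sf2_lim h)) (((sf2_lim h).mul_const _).congr fun t => ?_)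
  rw [Matrix.mul_smul, Matrix.smul_mul, ← mat_mul, ← mat_mul, inv_mul_cancel_right]

theorem sf2_tri {g : Gb} (h : Tendsto (fun t : ℂ => mat (dT t * g * (dT t)⁻¹)) (𝓝[≠] 0) (𝓝 1))
    (i j : Wx) (c : deg i ≤ deg j) : mat g i j = if i = j then 1 else 0 := by
  obtain ⟨m, hm⟩ := Nat.exists_eq_add_of_le c
  have a := (((continuous_pow m).tendsto (0 : ℂ)).mono_left nhdsWithin_le_nhds).mul
    (tendsto_pi_nhds.1 (tendsto_pi_nhds.1 h i) j)
  have b : Tendsto (fun t : ℂ => t ^ m * mat (dT t * g * (dT t)⁻¹) i j) (𝓝[≠] 0)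
      (𝓝 (mat g i j)) := by
    refine tendsto_const_nhds.congr' ?_
    filter_upwards [self_mem_nhdsWithin] with t ht
    rw [mat_dT_conj ht, ← mul_assoc, ← zpow_natCast t m, ← zpow_add₀ ht,
      show (m : ℤ) + ((deg i : ℤ) - deg j) = 0 by omega, zpow_zero, one_mul]
  rw [tendsto_nhds_unique b a, Matrix.one_apply]
  split_ifs with e
  · subst e
    rw [show m = 0 by omega, pow_zero, one_mul]
  · exact mul_zero _

theorem sf2_det {n : Type} [Fintype n] [DecidableEq n] {f : ℂ → Matrix n n ℂ} {P U : Matrix n n ℂ}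
    (hU : IsUnit U.det) (h : Tendsto f (𝓝[≠] 0) (𝓝 P))
    (e : ∀ t, ∃ D D' : Matrix n n ℂ, D' * D = 1 ∧ f t = D * U * D') : IsUnit P.det := by
  have : P.det = U.det := by
    refine tendsto_nhds_unique ((continuous_id.matrix_det.tendsto _).comp h)
      (tendsto_const_nhds.congr fun t => ?_)
    obtain ⟨D, D', a, b⟩ := e t
    show _ = (f t).det
    rw [b, Matrix.det_mul_comm, ← Matrix.mul_assoc, a, Matrix.one_mul]
  rwa [this]

theorem contr {N : Subgroup Gb} (hN : N ≤ GE) (hl : LimCl N) (hd : ∀ s t, dE s t ∈ N) {u : Gb}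
    (hu : u ∈ N) (hc : ∀ a ∈ N, Tendsto (fun t => mat (dT t * u * (dT t)⁻¹ * a *
      (dT t * u * (dT t)⁻¹)⁻¹)) (𝓝[≠] 0) (𝓝 (mat a))) :
    ∃ B, CenG N (u⁻¹ * nE B) := by
  have low : ∀ n k, k + n = 3 → ∀ i j, deg i + k < deg j → mat u i j = 0 := by
    intro n
    induction n with
    | zero => intro k hk i j c; have := sf2_deg j; omega
    | succ n ih =>
      intro k hk i j c
      have h := ih (k + 1) (by omega)
      by_cases c' : deg i + (k + 1) < deg j
      · exact h i j c'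
      have e : deg j = deg i + (k + 1) := by omega
      have q := congrFun (congrFun (sf2_comm h (hc _ (hd 1 (Units.mk0 2 two_ne_zero)))) i) j
      rw [mat_dE, Matrix.diagonal_mul, Matrix.mul_diagonal,
        show sf2P u (k + 1) i j = mat u i j from if_pos e] at q
      simp only [Units.val_one, one_pow, one_mul, Units.val_mk0] at q
      by_contra z
      rw [mul_comm] at q
      have q' : ((2 ^ deg i : ℕ) : ℂ) = (2 ^ deg j : ℕ) := by
        push_cast
        exact mul_left_cancel₀ z q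
      have := Nat.pow_right_injective le_rfl (Nat.cast_injective q')
      omega
  have h0 := low 3 0 rfl
  have l0 : Tendsto (fun t : ℂ => mat (dT t * u * (dT t)⁻¹)) (𝓝[≠] 0) (𝓝 (sf2P u 0)) := by
    simpa only [pow_zero, one_smul] using sf2_lim h0
  have dt : IsUnit (sf2P u 0).det := sf2_det (mat_unit u) l0 fun t =>
    ⟨mat (dT t), mat (dT t)⁻¹, by rw [← mat_mul, inv_mul_cancel, mat_one], by rw [mat_mul, mat_mul]⟩
  obtain ⟨z, hz⟩ := exists_mat dt
  have zN : z ∈ N := hl _ z (fun t _ => mul_mem (mul_mem (sf2_dT hd t) hu) (inv_mem (sf2_dT hd t)))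
    (hz ▸ l0)
  have zc : ∀ a ∈ N, z⁻¹ * a = a * z⁻¹ := fun a ha => by
    have e : a * z = z * a := mat_inj (by rw [mat_mul, mat_mul, hz]; exact sf2_comm h0 (hc a ha))
    rw [inv_mul_eq_iff_eq_mul, ← mul_assoc, ← e, mul_inv_cancel_right]
  have l1 : Tendsto (fun t : ℂ => mat (dT t * (z⁻¹ * u) * (dT t)⁻¹)) (𝓝[≠] 0) (𝓝 1) := by
    have := l0.const_mul (mat z⁻¹)
    rw [← hz, ← mat_mul, inv_mul_cancel, mat_one] at this
    refine this.congr fun t => ?_
    rw [← mat_mul, ← mul_assoc, ← mul_assoc, zc _ (sf2_dT hd t), mul_assoc (dT t)]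
  obtain ⟨a, b, c⟩ := tri_apply (sf2_tri l1)
  obtain ⟨B, hB⟩ := eq_nE (hN (mul_mem (inv_mem zN) hu)) a b c
  refine ⟨B, ?_⟩
  rw [← hB, zc u hu, inv_mul_cancel_left]
  exact ⟨inv_mem zN, zc⟩

theorem Cor.one {N : Subgroup Gb} {R : Gb → Gb → Prop} (h : Cor N R) : R 1 1 :=
  dE_one ▸ h.dd 1 1

theorem Cor.exists_nE {N : Subgroup Gb} {R : Gb → Gb → Prop} (h : Cor N R) (B : Ix → ℂ) :
    ∃ B', R (nE B) (nE B') := by
  obtain ⟨u, hu⟩ := h.tot _ (nE_mem_GE B)
  have d : ∀ t : ℂ, R (dT t) (dT t) := fun t => by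
    unfold dT
    split_ifs
    exacts [h.one, h.dd _ _]
  obtain ⟨B', hB⟩ := contr h.le h.lim (fun s t => (h.mem (h.dd s t)).2) (h.mem hu).2
    (h.cont (fun t => nE (t • B)) (fun t => dT t * u * (dT t)⁻¹)
      (fun t ht => dT_nE ht B ▸ h.mul (h.mul (d t) hu) (h.inv (d t)))
      ((tendsto_nE B).mono_left nhdsWithin_le_nhds)
      (((tendsto_nE (-B)).mono_left nhdsWithin_le_nhds).congr fun t => by rw [smul_neg, nE_neg]))
  exact ⟨B', by simpa only [mul_inv_cancel_left] using h.cen' hu hB⟩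

end Pool.Agent.E7
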