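import Pool.Agent.Lib.MP_7e5527_ag.EL.SG1a

/-! The linear maps defined by a correspondence. -/

open Filter Topology

noncomputable section

namespace Pool.Agent.E7

variable {N : Subgroup Gb} {R : Gb → Gb → Prop}

theorem Cor.sg1_conj (h : Cor N R) {g k : Gb} (hg : R g 1) (hk : k ∈ GE) : R (k * g * k⁻¹) 1 := by
  obtain ⟨k', h'⟩ := h.tot k hk
  simpa using h.mul (h.mul h' hg) (h.inv h')

theorem Cor.sg1_ker (h : Cor N R) {B X : Ix → ℂ} (hA : R (nE B) (nE X)) : R (nE B) 1 ↔ X = 0 :=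
  ⟨fun h1 => h.eq_zero_of_cen (by simpa using h.cen h1 hA), fun e => by rwa [e, nE_zero] at hA⟩

theorem Cor.dich (h : Cor N R) {A A' : (Ix → ℂ) →ₗ[ℂ] Ix → ℂ} (hA : ∀ B, R (nE B) (nE (A B)))
    (hA' : ∀ C, R (nP C) (nP (A' C))) :
    (A = 0 ∧ A' = 0) ∨ (Function.Bijective A ∧ Function.Bijective A') := by
  have e : LinearMap.ker A' = LinearMap.ker A := Submodule.ext fun B => by
    rw [LinearMap.mem_ker, LinearMap.mem_ker, ← h.sg1_ker (hA B), ← h.conj_w.sg1_ker (hA' B),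
      mul_one, mul_inv_cancel]
    exact ⟨fun h1 => wE_nP B ▸ h.sg1_conj h1 wE_mem_GE, fun h1 => h.sg1_conj h1 wE_mem_GE⟩
  refine (irred (LinearMap.ker A) fun S c hS X hX => ?_).symm.imp
    (fun k => ⟨LinearMap.ker_eq_top.1 k, LinearMap.ker_eq_top.1 (e.trans k)⟩) fun k => ?_
  · obtain ⟨g, hg, hL⟩ := hS.exists_Lv
    exact (h.sg1_ker (hA _)).1 (hL.conj_nE X ▸ h.sg1_conj ((h.sg1_ker (hA X)).2 hX) hg)
  · have a := LinearMap.ker_eq_bot.1 k
    have b := LinearMap.ker_eq_bot.1 (e.trans k)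
    exact ⟨⟨a, LinearMap.injective_iff_surjective.1 a⟩, b, LinearMap.injective_iff_surjective.1 b⟩

theorem Cor.zero (h : Cor N R) (h0 : ∀ B, R (nE B) 1) (h1 : ∀ B, R (nP B) 1) (s t : ℂˣ) :
    CenG N (dE s t) := by
  obtain ⟨r, hr⟩ := IsAlgClosed.exists_pow_nat_eq ((s : ℂ) / t) two_pos
  have r0 : r ≠ 0 := by
    rintro rfl
    simp [eq_comm] at hr
  have w : R (wB one3) 1 := by simpa [wB] using h.mul (h.mul (h0 one3) (h1 (iv one3))) (h0 one3)
  have a := h.mul (h.mul w (h.dd (Units.mk0 r r0) 1)) (h.inv w)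
  rw [wB_dE (by simp [stab_nrm_one3]), inv_one, one_mul, mul_one] at a
  have c := (h.cen (h.dd _ _) a).2
  have e : dE s t = scE ((s / Units.mk0 r r0) ^ 3) *
      ((dE 1 (Units.mk0 r r0))⁻¹ * dE (Units.mk0 r r0) 1) := by
    rw [dE_inv, ← dE_self, ← dE_mul, ← dE_mul]
    congr 1
    · simp
    · ext
      simp only [Units.val_mul, Units.val_div_eq_div_val, Units.val_mk0, Units.val_inv_eq_inv_val,
        mul_one]
      field_simp at hr ⊢
      exact hr.symm ▸ by ring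
  refine ⟨(h.mem (h.dd s t)).2, fun a ha => ?_⟩
  rw [e, mul_assoc, c a ha, ← mul_assoc, scE_comm, mul_assoc]

end Pool.Agent.E7
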