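import Pool.Agent.Lib.MP_7e5527_ag.EL.SF2
import Pool.Agent.Lib.MP_7e5527_ag.EL.SC3
import Pool.Agent.Lib.MP_7e5527_ag.EL.SE1

/-! The linear maps defined by a correspondence. -/

open Filter Topology

noncomputable section

namespace Pool.Agent.E7

variable {N : Subgroup Gb} {R : Gb → Gb → Prop}

theorem Cor.eq_zero_of_cen (h : Cor N R) {X : Ix → ℂ} (hX : CenG N (nE X)) : X = 0 := by
  have h1 := dE_nE 1 (Units.mk0 2 two_ne_zero) X
  rw [← hX.2 _ (h.mem (h.dd _ _)).2, mul_inv_cancel_right] at h1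
  have h2 := nE_inj h1
  simp only [Units.val_mk0, Units.val_one, div_one, two_smul] at h2
  exact left_eq_add.1 h2

theorem sg1a_uniq (h : Cor N R) {g : Gb} {X Y : Ix → ℂ} (hX : R g (nE X)) (hY : R g (nE Y)) :
    X = Y := by
  have h1 := h.cen hX hY
  rw [← nE_neg, ← nE_add] at h1
  exact neg_add_eq_zero.1 (h.eq_zero_of_cen h1)

theorem Cor.exists_lin (h : Cor N R) :
    ∃ A : (Ix → ℂ) →ₗ[ℂ] Ix → ℂ, ∀ B, R (nE B) (nE (A B)) := by
  choose f hf using h.exists_nE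
  refine ⟨⟨⟨f, fun X Y => sg1a_uniq h (hf _) ?_⟩, fun t X => sg1a_uniq h (hf _) ?_⟩, hf⟩
  · rw [nE_add, nE_add]
    exact h.mul (hf X) (hf Y)
  · rcases eq_or_ne t 0 with rfl | ht
    · simpa only [RingHom.id_apply, zero_smul, nE_zero] using h.one
    · have h1 := h.dd 1 (Units.mk0 t ht)
      simpa only [dE_nE, Units.val_mk0, Units.val_one, div_one, RingHom.id_apply] using
        h.mul (h.mul h1 (hf X)) (h.inv h1)

theorem sg1a_tend (k k' : Gb) {u : ℂ → Gb} {g : Gb} {l : Filter ℂ}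
    (h : Tendsto (fun t => mat (u t)) l (𝓝 (mat g))) :
    Tendsto (fun t => mat (k * u t * k')) l (𝓝 (mat (k * g * k'))) := by
  simp only [mat_mul]
  exact (h.const_mul _).mul_const _

theorem sg1a_cen {k z : Gb} : CenG (cj k N) z ↔ CenG N (k * z * k⁻¹) := by
  refine and_congr_right fun _ => ⟨fun h a ha => ?_, fun h a ha => ?_⟩
  · have := h (k⁻¹ * a * k) (by rw [mem_cj]; simpa [mul_assoc] using ha)
    rw [show k * z * k⁻¹ * a = k * (z * (k⁻¹ * a * k)) * k⁻¹ by group, this]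
    group
  · have := h _ (mem_cj.1 ha)
    rw [show z * a = k⁻¹ * (k * z * k⁻¹ * (k * a * k⁻¹)) * k by group, this]
    group

theorem Cor.conj_w (h : Cor N R) :
    Cor (cj wE N) fun g g' => R (wE * g * wE⁻¹) (wE * g' * wE⁻¹) := by
  have e : ∀ {g}, wE * g * wE⁻¹ ∈ GE ↔ g ∈ GE := by
    intro g
    rw [GE.mul_mem_cancel_right (inv_mem wE_mem_GE), GE.mul_mem_cancel_left wE_mem_GE]
  have e1 : ∀ g k : Gb, wE * (g * k) * wE⁻¹ = wE * g * wE⁻¹ * (wE * k * wE⁻¹) := fun _ _ => by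
    group
  have e2 : ∀ g : Gb, wE * g⁻¹ * wE⁻¹ = (wE * g * wE⁻¹)⁻¹ := fun _ => by group
  have e3 : ∀ {u : ℂ → Gb}, Tendsto (fun t => mat (u t)) (𝓝[≠] 0) (𝓝 1) →
      Tendsto (fun t => mat (wE * u t * wE⁻¹)) (𝓝[≠] 0) (𝓝 1) := fun hu => by
    rw [← mat_one] at hu
    simpa only [mul_one, mul_inv_cancel, mat_one] using sg1a_tend wE wE⁻¹ hu
  refine ⟨fun g hg => e.1 (h.le hg), h.lim.cj _, fun hr => ⟨e.1 (h.mem hr).1, (h.mem hr).2⟩,
    fun g hg => ?_, fun h1 h2 => ?_, fun h1 => ?_, fun h1 h2 => ?_, fun h1 h2 => ?_,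
    fun s t => ?_, fun u u' h1 h2 h3 a ha => ?_⟩
  · obtain ⟨g', hg'⟩ := h.tot _ (e.2 hg)
    exact ⟨wE⁻¹ * g' * wE, by simpa [mul_assoc] using hg'⟩
  · rw [e1, e1]
    exact h.mul h1 h2
  · rw [e2, e2]
    exact h.inv h1
  · rw [sg1a_cen, e1, e2]
    exact h.cen h1 h2
  · rw [e1]
    exact h.cen' h1 (sg1a_cen.1 h2)
  · rw [wE_dE]
    exact h.dd t s
  · have h4 := sg1a_tend wE⁻¹ wE
      (h.cont _ _ h1 (e3 h2) (by simpa only [e2] using e3 h3) _ (mem_cj.1 ha))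
    simpa only [← e2, ← e1, ← mul_assoc, inv_mul_cancel, one_mul, inv_mul_cancel_right] using h4

theorem Cor.exists_lin' (h : Cor N R) :
    ∃ A' : (Ix → ℂ) →ₗ[ℂ] Ix → ℂ, ∀ C, R (nP C) (nP (A' C)) :=
  h.conj_w.exists_lin

end Pool.Agent.E7
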