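import Pool.Agent.Lib.MP_7e5527_ag.EL.SG2b

/-! A non trivial correspondence is inner. -/

open Filter Topology

noncomputable section

namespace Pool.Agent.E7

variable {N : Subgroup Gb} {R : Gb → Gb → Prop}

theorem sg2_ext {A B : JE} (h : ∀ Z, nrm Z ≠ 0 → A Z = B Z) (Z : Ix → ℂ) : A Z = B Z := by
  funext l
  refine sub_eq_zero.1 (PolyFn.eq_zero_of_nrm (f := fun Z => A Z l - B Z l) ?_
    (fun Z hZ => by rw [h Z hZ, sub_self]) Z)
  exact polyFn_rr ((LinearMap.proj l).comp ((A.toLinearMap - B.toLinearMap).comp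
    ((LinearMap.fst ℂ _ _).comp (LinearMap.snd ℂ _ _))))

theorem Cor.inner (h : Cor N R) : (∀ s t, CenG N (dE s t)) ∨ ∃ γ ∈ GE, γ r0 = r0 ∧
    (∀ B, nE B ∈ N ∧ nP B ∈ N) ∧ ∀ g ∈ G0, R g (γ * g * γ⁻¹) := by
  obtain ⟨A, hA⟩ := h.exists_lin
  obtain ⟨A', hA'⟩ := h.exists_lin'
  rcases h.dich hA hA' with ⟨rfl, rfl⟩ | ⟨b, b'⟩
  · refine Or.inl (h.zero (fun B => ?_) fun B => ?_)
    · simpa only [LinearMap.zero_apply, nE_zero] using hA B
    · simpa only [LinearMap.zero_apply, nP, nE_zero, mul_one, mul_inv_cancel] using hA' B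
  · have hi := fun B (hB : nrm B ≠ 0) => h.inv_rel (A := LinearEquiv.ofBijective A b)
      (A' := LinearEquiv.ofBijective A' b') hA hA' hB
    obtain ⟨c, hc⟩ := sim_of_inv hi
    obtain ⟨γ, g1, g2⟩ := hc.exists_Lv
    obtain ⟨A'', a1, a2⟩ := g2.conj_nP hc
    have a3 : ∀ C, A'' C = LinearEquiv.ofBijective A' b' C := sg2_ext fun C hC => by
      have h1 : nrm (iv C) ≠ 0 := nrm_iv hC ▸ inv_ne_zero hC
      have h2 := a1 _ h1
      rw [(hi _ h1).2, iv_iv (hi _ h1).1, iv_iv hC] at h2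
      exact h2
    refine Or.inr ⟨γ, g1, g2.r0_eq, fun B => ⟨?_, ?_⟩, fun g hg => ?_⟩
    · obtain ⟨X, rfl⟩ := b.2 B
      exact (h.mem (hA X)).2
    · obtain ⟨X, rfl⟩ := b'.2 B
      exact (h.mem (hA' X)).2
    · induction hg using Subgroup.closure_induction with
      | mem x hx =>
        rcases hx with ⟨B, rfl⟩ | ⟨B, rfl⟩
        · rw [g2.conj_nE]
          exact hA B
        · rw [a2, a3]
          exact hA' B
      | one =>
        rw [mul_one, mul_inv_cancel]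
        exact h.one
      | mul x y _ _ hx hy =>
        rw [show γ * (x * y) * γ⁻¹ = γ * x * γ⁻¹ * (γ * y * γ⁻¹) by group]
        exact h.mul hx hy
      | inv x _ hx =>
        rw [show γ * x⁻¹ * γ⁻¹ = (γ * x * γ⁻¹)⁻¹ by group]
        exact h.inv hx

end Pool.Agent.E7
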