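import Pool.Agent.Lib.MP_7e5527_ag.EL.SG1

/-! A non trivial correspondence is inner. -/

open Filter Topology

noncomputable section

namespace Pool.Agent.E7

variable {N : Subgroup Gb} {R : Gb → Gb → Prop}

theorem sg2a_sy_smul (s : ℂ) (v w : W) : sy (s • v) (s • w) = s ^ 2 * sy v w := by
  simp only [sy, Prod.smul_fst, Prod.smul_snd, tr_smul_left, tr_smul_right, smul_eq_mul]
  ring

theorem sg2a_sy_one : sy r0 ee = 1 := by
  simp [sy, r0, ee, tr_zero_left]

theorem sg2a_axis {m : Gb} (hm : m ∈ GE) {l : ℂˣ}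
    (h : m * dE 1 (Units.mk0 2 two_ne_zero) = dE (Units.mk0 2 two_ne_zero) 1 * scE l * m) :
    (m ee).1 ≠ 0 ∧ (m ee).2.1 = 0 := by
  obtain ⟨ν, h0, h1, -⟩ := hm
  have e : ∀ v, m (dE 1 (Units.mk0 2 two_ne_zero) v) =
      dE (Units.mk0 2 two_ne_zero) 1 ((l : ℂ) • m v) := fun v => by
    rw [← scE_apply]
    exact LinearEquiv.congr_fun h v
  have h2 : (l : ℂ) ^ 2 = 1 := by
    have h3 := h1 (dE 1 (Units.mk0 2 two_ne_zero) r0) (dE 1 (Units.mk0 2 two_ne_zero) ee)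
    rw [e, e, sy_dE, sy_dE, sg2a_sy_smul, h1, sg2a_sy_one] at h3
    simp only [Units.val_mk0, Units.val_one] at h3
    apply mul_left_cancel₀ h0
    linear_combination h3 / 8
  have h4 : dE 1 (Units.mk0 2 two_ne_zero) ee = (8 : ℂ) • ee := by
    rw [dE_apply]
    simp only [ee, Units.val_mk0, Units.val_one, smul_zero, mul_zero, Prod.smul_mk, smul_eq_mul]
    norm_num
  have h5 := e ee
  rw [h4, map_smul, dE_apply] at h5
  have h6 : m ee ≠ 0 := fun h => by
    have := congrArg (fun v : W => v.2.2.2) (m.map_eq_zero_iff.1 h)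
    simp [ee] at this
  generalize m ee = v at h5 h6
  obtain ⟨a, X, Y, d⟩ := v
  simp only [Prod.smul_mk, Prod.mk.injEq, Units.val_mk0, Units.val_one, smul_eq_mul,
    smul_smul] at h5
  obtain ⟨-, h7, h8, h9⟩ := h5
  have hX : X = 0 := funext fun i => by
    have := congrFun h7 i
    simp only [Pi.smul_apply, smul_eq_mul] at this
    change X i = 0
    linear_combination (2 + l : ℂ) / 12 * this + X i / 3 * h2
  have hY : Y = 0 := funext fun i => by
    have := congrFun h8 i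
    simp only [Pi.smul_apply, smul_eq_mul] at this
    change Y i = 0
    linear_combination (4 + l : ℂ) / 30 * this + Y i / 15 * h2
  have hd : d = 0 := by linear_combination (8 + l : ℂ) / 63 * h9 + d / 63 * h2
  refine ⟨fun ha => h6 ?_, hX⟩
  change a = 0 at ha
  rw [ha, hX, hY, hd]
  rfl

theorem Cor.inv_rel (h : Cor N R) {A A' : JE} (hA : ∀ B, R (nE B) (nE (A B)))
    (hA' : ∀ C, R (nP C) (nP (A' C))) {B : Ix → ℂ} (hB : nrm B ≠ 0) :
    nrm (A' (iv B)) ≠ 0 ∧ A B = iv (A' (iv B)) := by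
  have hn : ∀ B, nE B ∈ N ∧ nP B ∈ N := fun B =>
    ⟨A.apply_symm_apply B ▸ (h.mem (hA _)).2, A'.apply_symm_apply B ▸ (h.mem (hA' _)).2⟩
  have h1 : R (wB B) (nE (A B) * nP (A' (iv B)) * nE (A B)) :=
    h.mul (h.mul (hA B) (hA' _)) (hA B)
  have h2 := h.mul (h.mul h1 (h.dd 1 (Units.mk0 2 two_ne_zero))) (h.inv h1)
  rw [wB_dE hB] at h2
  obtain ⟨l, hl⟩ := (h.cen (h.dd _ _) h2).scalar hn
  have h3 := sg2a_axis (h.le (h.mem h1).2) (l := l) (by rw [← hl]; group)
  rw [LinearEquiv.mul_apply, LinearEquiv.mul_apply, nE_ee, nP_ee] at h3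
  obtain ⟨h4, h5⟩ := h3
  replace h4 : nrm (A' (iv B)) ≠ 0 := fun e => h4 (neg_eq_zero.2 e)
  refine ⟨h4, ?_⟩
  change sharp (A' (iv B)) + (-nrm (A' (iv B))) • A B = 0 at h5
  rw [neg_smul, add_neg_eq_zero] at h5
  rw [iv, h5, smul_smul, inv_mul_cancel₀ h4, one_smul]

end Pool.Agent.E7
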