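import Pool.Agent.Lib.MP_7e5527_ag.EL.SG2a

/-! A non trivial correspondence is inner. -/

open Filter Topology

noncomputable section

namespace Pool.Agent.E7

variable {N : Subgroup Gb} {R : Gb → Gb → Prop}

theorem sg2b_comp {f : (Ix → ℂ) → ℂ} (hf : PolyFn f) {g : (Ix → ℂ) → Ix → ℂ}
    (hg : ∀ l, PolyFn fun Z => g Z l) : PolyFn fun Z => f (g Z) := by
  obtain ⟨P, hP⟩ := hf
  simp only [hP]
  clear hP
  induction P using MvPolynomial.induction_on with
  | C a => simpa using PolyFn.const a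
  | add p q hp hq => simpa using hp.add hq
  | mul_X p i hp => simpa using hp.mul (hg i)

theorem sg2b_cancel {u g : (Ix → ℂ) → ℂ} (hu : PolyFn u) (hg : PolyFn g) {X0 : Ix → ℂ}
    (h0 : u X0 ≠ 0) (h : ∀ X, u X ≠ 0 → g X = 0) (X : Ix → ℂ) : g X = 0 := by
  obtain ⟨P, hP⟩ := hu
  obtain ⟨Q, hQ⟩ := hg
  have e : P * Q = 0 := MvPolynomial.funext fun Y => by
    rw [map_mul, map_zero, ← hP, ← hQ]
    by_cases hY : u Y = 0
    · rw [hY, zero_mul]
    · rw [h Y hY, mul_zero]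
  rcases mul_eq_zero.1 e with e | e
  · exact absurd (by rw [hP, e, map_zero]) h0
  · rw [hQ, e, map_zero]

theorem sg2b_nrm : PolyFn fun Z => nrm Z :=
  polyFn_rr ((LinearMap.snd ℂ _ _).comp ((LinearMap.snd ℂ _ _).comp (LinearMap.snd ℂ _ _)))

theorem sg2b_sharp (l : Ix) : PolyFn fun Z => sharp Z l :=
  polyFn_rr ((LinearMap.proj l).comp ((LinearMap.fst ℂ _ _).comp
    ((LinearMap.snd ℂ _ _).comp (LinearMap.snd ℂ _ _))))

theorem sg2b_lin (A : JE) (l : Ix) : PolyFn fun Z => A Z l :=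
  polyFn_rr ((LinearMap.proj l).comp (A.toLinearMap.comp ((LinearMap.fst ℂ _ _).comp
    (LinearMap.snd ℂ _ _))))

theorem sg2b_tr (T : Ix → ℂ) : PolyFn fun Z => tr T Z := by
  simp only [tr_eq_sum]
  exact PolyFn.sum _ fun l _ => (PolyFn.const _).mul (PolyFn.coord l)

theorem sg2b_sub {f g : (Ix → ℂ) → ℂ} (hf : PolyFn f) (hg : PolyFn g) :
    PolyFn fun Z => f Z - g Z := by
  simpa only [neg_one_mul, ← sub_eq_add_neg] using hf.add ((PolyFn.const (-1)).mul hg)

/-- A cubic that vanishes at the simple roots of a cubic with three roots. -/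
theorem sg2b_cubic {a b c p0 p1 p2 p3 : ℂ} (ha : a ≠ 0) (hd : (Cubic.mk a b c 1).discr ≠ 0)
    (h : ∀ s, 1 + s * c + s ^ 2 * b + s ^ 3 * a = 0 → c + 2 * s * b + 3 * s ^ 2 * a ≠ 0 →
      p0 + s * p1 + s ^ 2 * p2 + s ^ 3 * p3 = 0) : p3 = p0 * a := by
  obtain ⟨x, y, z, h3⟩ := (Cubic.splits_iff_roots_eq_three (φ := RingHom.id ℂ)
    (P := Cubic.mk a b c 1) ha).1 (IsAlgClosed.splits _)
  obtain ⟨hxy, hxz, hyz⟩ := (Cubic.discr_ne_zero_iff_roots_ne ha h3).1 hd
  have eb : b = a * -(x + y + z) := Cubic.b_eq_three_roots ha h3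
  have ec : c = a * (x * y + x * z + y * z) := Cubic.c_eq_three_roots ha h3
  have ed : 1 = a * -(x * y * z) := Cubic.d_eq_three_roots ha h3
  have k1 := sub_ne_zero.2 hxy
  have k2 := sub_ne_zero.2 hxz
  have k3 := sub_ne_zero.2 hyz
  have hx := h x (by rw [eb, ec]; linear_combination ed) fun e =>
    mul_ne_zero ha (mul_ne_zero k1 k2) (by rw [eb, ec] at e; linear_combination e)
  have hy := h y (by rw [eb, ec]; linear_combination ed) fun e =>
    mul_ne_zero ha (mul_ne_zero k1 k3) (by rw [eb, ec] at e; linear_combination -e)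
  have hz := h z (by rw [eb, ec]; linear_combination ed) fun e =>
    mul_ne_zero ha (mul_ne_zero k2 k3) (by rw [eb, ec] at e; linear_combination e)
  have e : (x - y) * ((x - z) * (y - z)) * (p0 + p3 * (x * y * z)) = 0 := by
    linear_combination y * z * (y - z) * hx - x * z * (x - z) * hy + x * y * (x - y) * hz
  have e' := (mul_eq_zero.1 e).resolve_left (mul_ne_zero k1 (mul_ne_zero k2 k3))
  linear_combination p3 * ed - a * e'

theorem sg2b_line (E X : Ix → ℂ) (s : ℂ) :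
    nrm (E + s • X) = nrm E + s * tr (sharp E) X + s ^ 2 * tr E (sharp X) + s ^ 3 * nrm X := by
  rw [nrm_add, tr_smul_right, sharp_smul, tr_smul_right, nrm_smul]

theorem sg2b_der (E X : Ix → ℂ) (s : ℂ) : tr (sharp (E + s • X)) X =
    tr (sharp E) X + 2 * s * tr E (sharp X) + 3 * s ^ 2 * nrm X := by
  rw [sharp_add, sharp_smul, cross_smul_right, tr_add_left, tr_add_left, tr_smul_left,
    tr_smul_left, tr_cross, cross_self, tr_smul_right, tr_sharp_self]
  ring

theorem sg2b_rel {A A' : JE}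
    (h : ∀ B, nrm B ≠ 0 → nrm (A' (iv B)) ≠ 0 ∧ A B = iv (A' (iv B))) (B : Ix → ℂ) :
    nrm (A B) • A' (sharp B) = nrm B • sharp (A B) := by
  funext l
  rw [← sub_eq_zero]
  refine sg2b_cancel (g := fun B => nrm (A B) * A' (sharp B) l - nrm B * sharp (A B) l) sg2b_nrm
    (sg2b_sub ((sg2b_comp sg2b_nrm (sg2b_lin A)).mul (sg2b_comp (sg2b_lin A' l) sg2b_sharp))
      (sg2b_nrm.mul (sg2b_comp (sg2b_sharp l) (sg2b_lin A)))) (X0 := one3)
    (by rw [stab_nrm_one3]; exact one_ne_zero) (fun X hX => ?_) B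
  obtain ⟨h1, h2⟩ := h X hX
  have h3 : nrm (A X) ≠ 0 := by rw [h2, nrm_iv h1]; exact inv_ne_zero h1
  have h4 : iv (A X) = A' (iv X) := by rw [h2, iv_iv h1]
  have h5 := congrFun h4 l
  simp only [iv, map_smul, Pi.smul_apply, smul_eq_mul] at h5
  field_simp at h5
  linear_combination -h5

theorem sim_of_inv {A A' : JE}
    (h : ∀ B, nrm B ≠ 0 → nrm (A' (iv B)) ≠ 0 ∧ A B = iv (A' (iv B))) : ∃ c, Sim A c := by
  have h1 : nrm (one3 : Ix → ℂ) ≠ 0 := by rw [stab_nrm_one3]; exact one_ne_zero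
  refine ⟨nrm (A one3), ?_, fun Z => ?_⟩
  · rw [(h _ h1).2, nrm_iv (h _ h1).1]
    exact inv_ne_zero (h _ h1).1
  have hb : PolyFn fun X => tr one3 (sharp X) := sg2b_comp (sg2b_tr one3) sg2b_sharp
  have hc : PolyFn fun X => tr (sharp one3) X := sg2b_tr _
  have ha := sg2b_nrm
  rw [← sub_eq_zero]
  refine sg2b_cancel (u := fun X => nrm X *
      (Cubic.mk (nrm X) (tr one3 (sharp X)) (tr (sharp one3) X) 1).discr)
    (g := fun X => nrm (A X) - nrm (A one3) * nrm X) ?_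
    (sg2b_sub (sg2b_comp ha (sg2b_lin A)) ((PolyFn.const _).mul ha))
    (X0 := mkJ ![1, 2, 3] 0) ?_ (fun X hX => ?_) Z
  · exact ha.mul ((sg2b_sub (sg2b_sub (sg2b_sub ((hb.pow 2).mul (hc.pow 2))
      (((PolyFn.const 4).mul ha).mul (hc.pow 3)))
      (((PolyFn.const 4).mul (hb.pow 3)).mul (PolyFn.const 1)))
      (((PolyFn.const 27).mul (ha.pow 2)).mul (PolyFn.const (1 ^ 2)))).add
      (((((PolyFn.const 18).mul ha).mul hb).mul hc).mul (PolyFn.const 1)))
  · simp only [Cubic.discr, nrm_eq, tr_eq, dg_sharp_0, dg_sharp_1, dg_sharp_2, one3, dg_mkJ, oc_mkJ,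
      Pi.zero_apply, Pi.one_apply, onorm_zero, omul_zero_left, oip_zero_left, oip_zero_right,
      Matrix.cons_val_zero, Matrix.cons_val_one, Matrix.cons_val]
    norm_num
  · rw [sub_eq_zero]
    refine sg2b_cubic (p1 := tr (sharp (A one3)) (A X)) (p2 := tr (A one3) (sharp (A X)))
      (left_ne_zero_of_mul hX) (right_ne_zero_of_mul hX) fun s e1 e2 => ?_
    rw [← sg2b_der] at e2
    rw [← stab_nrm_one3, ← sg2b_line] at e1
    rw [← sg2b_line, ← map_smul, ← map_add]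
    have e3 := sg2b_rel h (one3 + s • X)
    rw [e1, zero_smul, smul_eq_zero] at e3
    refine e3.resolve_right fun e4 => e2 ?_
    rw [A'.map_eq_zero_iff.1 e4, tr_zero_left]

end Pool.Agent.E7
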