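import Pool.Agent.Lib.MP_7e5527_ag.EL.SG2
import Pool.Agent.Lib.MP_7e5527_ag.EL.SF1
import Pool.Agent.Lib.MP_7e5527_ag.EL.SD2

/-! Descent to the rationals and the description of Sigma. -/

open Filter Topology

noncomputable section

namespace Pool.Agent.E7

theorem sha_map (l : ℂ →ₗ[ℚ] ℚ) {K : Matrix Wx Wx ℂ} {a b : Matrix Wx Wx ℚ}
    (h : K * a.map (↑) = b.map (↑) * K) :
    K.map (fun z => (l z : ℂ)) * a.map (↑) = b.map (↑) * K.map fun z => (l z : ℂ) := by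
  ext i j
  have h1 := congrArg (fun M : Matrix Wx Wx ℂ => (l (M i j) : ℂ)) h
  have e : ∀ (r : ℚ) (z : ℂ), l (r * z) = r * l z := fun r z => by
    rw [← Rat.smul_def, map_smul, smul_eq_mul]
  have e' : ∀ (r : ℚ) (z : ℂ), l (z * r) = l z * r := fun r z => by rw [mul_comm, e, mul_comm]
  simpa only [Matrix.mul_apply, Matrix.map_apply, map_sum, e, e', Rat.cast_sum, Rat.cast_mul]
    using h1

theorem sha_desc {K : Matrix Wx Wx ℂ} (hK : IsUnit K.det) (h : ∀ T : Ix → ℚ,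
    RatM (K * mat (nE (toR ℂ T)) * K⁻¹) ∧ RatM (K * mat (nP (toR ℂ T)) * K⁻¹)) :
    ∃ s : ℂ, s ≠ 0 ∧ RatM (s • K) := by
  obtain ⟨i, j, h0⟩ : ∃ i j, K i j ≠ 0 := by
    by_contra hc
    have : K = 0 := by
      ext i j
      exact by_contra fun h' => hc ⟨i, j, h'⟩
    rw [this, Matrix.det_zero] at hK
    exact not_isUnit_zero hK
  obtain ⟨l, hl⟩ : ∃ l : ℂ →ₗ[ℚ] ℚ, l (K i j) ≠ 0 := by
    by_contra hc
    exact h0 ((Module.forall_dual_apply_eq_zero_iff ℚ _).1 fun l => by_contra fun h' => hc ⟨l, h'⟩)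
  have key : ∀ g ∈ GG, RatM (K * mat g * K⁻¹) →
      K⁻¹ * K.map (fun z => (l z : ℂ)) * mat g = mat g * (K⁻¹ * K.map fun z => (l z : ℂ)) := by
    intro g hg h1
    obtain ⟨a, ha⟩ := (ratM_GG hg).exists_map
    obtain ⟨b, hb⟩ := h1.exists_map
    have h2 : K * a.map (↑) = b.map (↑) * K := by
      rw [← hb, ← ha, Matrix.nonsing_inv_mul_cancel_right _ _ hK]
    rw [Matrix.mul_assoc, ha, sha_map l h2, ← hb, ha, Matrix.mul_assoc K, Matrix.mul_assoc K,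
      Matrix.nonsing_inv_mul_cancel_left _ _ hK, Matrix.mul_assoc]
  obtain ⟨s, hs⟩ := schur (M := K⁻¹ * K.map fun z => (l z : ℂ)) fun T =>
    ⟨key _ (Subgroup.subset_closure (.inl ⟨T, rfl⟩)) (h T).1, key _ (nP_mem_GG T) (h T).2⟩
  have h1 : s • K = K.map fun z => (l z : ℂ) := by
    rw [← Matrix.mul_nonsing_inv_cancel_left _ (K.map _) hK, hs, Matrix.mul_smul, Matrix.mul_one]
  refine ⟨s, fun e => hl ?_, fun a b => ⟨l (K a b), by rw [h1, Matrix.map_apply]⟩⟩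
  have h2 := congrArg (fun M : Matrix Wx Wx ℂ => M i j) h1
  simp only [e, zero_smul, Matrix.zero_apply, Matrix.map_apply] at h2
  exact_mod_cast h2.symm

theorem rat_of_conj {K : Matrix Wx Wx ℂ} (hK : IsUnit K.det)
    (h : ∀ a : Matrix Wx Wx ℚ, RatM (K * a.map (↑) * K⁻¹)) (ht : K.trace = 56) : RatM K := by
  have key : ∀ g ∈ GG, RatM (K * mat g * K⁻¹) := fun g hg => by
    obtain ⟨a, ha⟩ := (ratM_GG hg).exists_map
    exact ha ▸ h a
  obtain ⟨s, h0, h1⟩ := sha_desc hK fun T =>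
    ⟨key _ (Subgroup.subset_closure (.inl ⟨T, rfl⟩)), key _ (nP_mem_GG T)⟩
  obtain ⟨a, ha⟩ := h1.exists_map
  have h2 : s = (a.trace / 56 : ℚ) := by
    have h3 := congrArg Matrix.trace ha
    rw [Matrix.trace_smul, ht, smul_eq_mul] at h3
    simp only [Matrix.trace, Matrix.diag_apply, Matrix.map_apply] at h3 ⊢
    push_cast
    rw [← h3]
    ring
  intro i j
  refine ⟨a i j / (a.trace / 56), ?_⟩
  have h3 := congrArg (fun M : Matrix Wx Wx ℂ => M i j) ha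
  simp only [Matrix.smul_apply, smul_eq_mul, Matrix.map_apply] at h3
  rw [Rat.cast_div, ← h2, ← h3, mul_div_cancel_left₀ _ h0]

theorem rat_scale {γ : Gb} (h : ∀ T : Ix → ℚ, RatM (mat (γ * nE (toR ℂ T) * γ⁻¹)) ∧
    RatM (mat (γ * nP (toR ℂ T) * γ⁻¹))) : ∃ s, RatM (mat (scE s * γ)) := by
  simp only [mat_mul, mat_inv] at h
  obtain ⟨s, h0, h1⟩ := sha_desc (mat_unit γ) h
  exact ⟨Units.mk0 s h0, by rwa [mat_mul, mat_scE, Matrix.smul_mul, Matrix.one_mul]⟩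

end Pool.Agent.E7
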